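import Mathlib
import Pool.Agent.H74.R45.Def

set_option autoImplicit false
open Finset

/-! # The plane environments of a window

Tile frame, as in `H74/R45/Def.lean`. A window `P` has the rows `0 ≤ y < h`, row `y` is
`a y ≤ x < b y`. `a` is nonincreasing below `yP` and nondecreasing from `yP - 1` on, `b` is nondecreasing up
to `yQ` and nonincreasing from `yQ` on. The line of real tiles goes from the corner
`(a (yP - 1), yP)` (top corner of the leftmost side) to the corner `(b yQ, yQ)` (bottom corner of the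
rightmost side). In the environment number `j` the rows `y ≥ j` do not move (`P+`), the rows `y < j` are
shifted by `(0,-1)` (`P-`), and the line runs along the left boundary between the row `j` and `yP`
(towards S if `j < yP`, towards N if `j > yP`), in the row `y = j - 1` towards E, and along the right
boundary between the row `j` and `yQ` (towards N if `j < yQ`, towards S if `j > yQ`).

`m y ≤ x < M y`, `-1 ≤ y < h`, is the union of `P` and `P - (0,1)`: all its tiles are random in every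
environment. In the columns `m y - 1` and `M y` the tiles depend on `j`, the rest of the outside does not: in the
bounding box it is open to the left of the row `y` iff `cl y`, to the right iff `cr y`, below iff `cb`,
above iff `ct`.
`cl`, `cr` : colours of the left and right boundary of this union (`true`: wired), `cb`, `ct` : colours
of its bottom and top side. At a reflex corner the colour is fixed by the parity (`pll`, `pul`, `plr`,
`pur`). -/

namespace Pool.Agent.H46.Sp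

open Pool.Agent.H75.Perc Pool.Agent.H75.TwoArm Pool.Agent.Q1 Pool.Agent.H33.Q1
open Pool.Agent.H75.Four Pool.Agent.H69.Q1
open Pool.Agent.H74.R45 (exists_lt)

/-- left end of the row `y` of the union of `P` and `P - (0,1)` -/
def mm (a : ℤ → ℤ) (yP y : ℤ) : ℤ := if y + 1 < yP then a (y + 1) else a y

/-- right end of the row `y` of the union of `P` and `P - (0,1)` -/
def MM (b : ℤ → ℤ) (yQ y : ℤ) : ℤ := if y < yQ then b (y + 1) else b y

/-- **Windows** with the colours of their sides. -/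
structure Win where
  h : ℤ
  a : ℤ → ℤ
  b : ℤ → ℤ
  yP : ℤ
  yQ : ℤ
  cl : ℤ → Bool
  cr : ℤ → Bool
  cb : Bool
  ct : Bool
  hh : 2 ≤ h
  P0 : 1 ≤ yP
  P1 : yP ≤ h
  Q0 : 0 ≤ yQ
  Q1 : yQ < h
  aL : ∀ y, 0 ≤ y → y + 1 < yP → a (y + 1) ≤ a y
  aP : yP < h → a (yP - 1) < a yP
  aU : ∀ y, yP ≤ y → y + 1 < h → a y ≤ a (y + 1)
  bL : ∀ y, 0 ≤ y → y + 1 < yQ → b y ≤ b (y + 1)
  bQ : 0 < yQ → b (yQ - 1) < b yQ
  bU : ∀ y, yQ ≤ y → y + 1 < h → b (y + 1) ≤ b y
  ab : ∀ y, 0 ≤ y → y < h → a y + 2 ≤ b y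
  ov1 : ∀ y, 0 ≤ y → y + 1 < h → a y + 2 ≤ b (y + 1)
  ov2 : ∀ y, 0 ≤ y → y + 1 < h → a (y + 1) + 2 ≤ b y
  scl : ∀ y, -1 ≤ y → y + 1 < h → mm a yP y = mm a yP (y + 1) → cl y = cl (y + 1)
  scr : ∀ y, -1 ≤ y → y + 1 < h → MM b yQ y = MM b yQ (y + 1) → cr y = cr (y + 1)
  pll : ∀ y, -1 ≤ y → y + 1 < h → mm a yP (y + 1) < mm a yP y →
    ((mm a yP y + y) % 2 = 0 ↔ cl y = true)
  pul : ∀ y, -1 ≤ y → y + 1 < h → mm a yP y < mm a yP (y + 1) →
    ((mm a yP (y + 1) + y) % 2 = 0 ↔ cl (y + 1) = true)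
  plr : ∀ y, -1 ≤ y → y + 1 < h → MM b yQ y < MM b yQ (y + 1) →
    ((MM b yQ y + y) % 2 = 0 ↔ cr y = true)
  pur : ∀ y, -1 ≤ y → y + 1 < h → MM b yQ (y + 1) < MM b yQ y →
    ((MM b yQ (y + 1) + y) % 2 = 0 ↔ cr (y + 1) = true)

namespace Win

variable (D : Win)

def m (y : ℤ) : ℤ := mm D.a D.yP y
def M (y : ℤ) : ℤ := MM D.b D.yQ y

/-! ### Order facts -/

variable {D} {x y j : ℤ}

lemma a_down : ∀ n : ℕ, ∀ y, 0 ≤ y → y + n < D.yP → D.a (y + n) ≤ D.a y := by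
  intro n
  induction n with
  | zero => intro y _ _; simp
  | succ n ih =>
    intro y h1 h2
    have h3 := ih y h1 (by push_cast at h2; omega)
    have h4 := D.aL (y + n) (by omega) (by push_cast at h2; omega)
    rw [add_assoc] at h4
    push_cast
    omega

lemma a_up : ∀ n : ℕ, ∀ y, D.yP ≤ y → y + n < D.h → D.a y ≤ D.a (y + n) := by
  intro n
  induction n with
  | zero => intro y _ _; simp
  | succ n ih =>
    intro y h1 h2
    have h3 := ih y h1 (by push_cast at h2; omega)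
    have h4 := D.aU (y + n) (by omega) (by push_cast at h2; omega)
    rw [add_assoc] at h4
    push_cast
    omega

lemma b_up : ∀ n : ℕ, ∀ y, 0 ≤ y → y + n < D.yQ → D.b y ≤ D.b (y + n) := by
  intro n
  induction n with
  | zero => intro y _ _; simp
  | succ n ih =>
    intro y h1 h2
    have h3 := ih y h1 (by push_cast at h2; omega)
    have h4 := D.bL (y + n) (by omega) (by push_cast at h2; omega)
    rw [add_assoc] at h4
    push_cast
    omega

lemma b_down : ∀ n : ℕ, ∀ y, D.yQ ≤ y → y + n < D.h → D.b (y + n) ≤ D.b y := by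
  intro n
  induction n with
  | zero => intro y _ _; simp
  | succ n ih =>
    intro y h1 h2
    have h3 := ih y h1 (by push_cast at h2; omega)
    have h4 := D.bU (y + n) (by omega) (by push_cast at h2; omega)
    rw [add_assoc] at h4
    push_cast
    omega

/-- `a` is nonincreasing below `yP` -/
lemma a_anti {y z : ℤ} (h0 : 0 ≤ y) (h1 : y ≤ z) (h2 : z < D.yP) : D.a z ≤ D.a y := by
  have := a_down (D := D) (z - y).toNat y h0 (by rw [Int.toNat_of_nonneg (by omega)]; omega)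
  rwa [Int.toNat_of_nonneg (by omega), show y + (z - y) = z by ring] at this

/-- `a` is nondecreasing from `yP` on -/
lemma a_mono {y z : ℤ} (h0 : D.yP ≤ y) (h1 : y ≤ z) (h2 : z < D.h) : D.a y ≤ D.a z := by
  have := a_up (D := D) (z - y).toNat y h0 (by rw [Int.toNat_of_nonneg (by omega)]; omega)
  rwa [Int.toNat_of_nonneg (by omega), show y + (z - y) = z by ring] at this

/-- `b` is nondecreasing below `yQ` -/
lemma b_mono {y z : ℤ} (h0 : 0 ≤ y) (h1 : y ≤ z) (h2 : z < D.yQ) : D.b y ≤ D.b z := by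
  have := b_up (D := D) (z - y).toNat y h0 (by rw [Int.toNat_of_nonneg (by omega)]; omega)
  rwa [Int.toNat_of_nonneg (by omega), show y + (z - y) = z by ring] at this

/-- `b` is nonincreasing from `yQ` on -/
lemma b_anti {y z : ℤ} (h0 : D.yQ ≤ y) (h1 : y ≤ z) (h2 : z < D.h) : D.b z ≤ D.b y := by
  have := b_down (D := D) (z - y).toNat y h0 (by rw [Int.toNat_of_nonneg (by omega)]; omega)
  rwa [Int.toNat_of_nonneg (by omega), show y + (z - y) = z by ring] at this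

/-- the leftmost column -/
lemma a_min (h0 : 0 ≤ y) (h1 : y < D.h) : D.a (D.yP - 1) ≤ D.a y := by
  have hP := D.P0
  by_cases h : y < D.yP
  · exact a_anti h0 (by omega) (by omega)
  · have h2 := D.aP (by omega)
    have h3 := a_mono (D := D) (y := D.yP) (z := y) le_rfl (by omega) h1
    omega

/-- the rightmost column -/
lemma b_max (h0 : 0 ≤ y) (h1 : y < D.h) : D.b y ≤ D.b D.yQ := by
  by_cases h : y < D.yQ
  · have h2 := D.bQ (by omega)
    have h3 := b_mono (D := D) (y := y) (z := D.yQ - 1) h0 (by omega) (by omega)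
    omega
  · exact b_anti le_rfl (by omega) h1

lemma m_min (h0 : -1 ≤ y) (h1 : y < D.h) : D.a (D.yP - 1) ≤ D.m y := by
  have hP := D.P0
  have hP1 := D.P1
  unfold m mm
  split_ifs with h
  · exact a_min (by omega) (by omega)
  · exact a_min (by omega) h1

lemma M_max (h0 : -1 ≤ y) (h1 : y < D.h) : D.M y ≤ D.b D.yQ := by
  have hQ := D.Q0
  have hQ1 := D.Q1
  unfold M MM
  split_ifs with h
  · exact b_max (by omega) (by omega)
  · exact b_max (by omega) h1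

/-- the rows of the union are wide -/
lemma m_lt_M (h0 : -1 ≤ y) (h1 : y < D.h) : D.m y + 2 ≤ D.M y := by
  have hP := D.P0
  have hP1 := D.P1
  have hQ := D.Q0
  have hQ1 := D.Q1
  unfold m M mm MM
  split_ifs with h h' h'
  · exact D.ab _ (by omega) (by omega)
  · exact D.ov2 _ (by omega) (by omega)
  · exact D.ov1 _ (by omega) (by omega)
  · exact D.ab _ (by omega) (by omega)

/-- `P+` lies in the union -/
lemma m_le_a (h0 : 0 ≤ y) : D.m y ≤ D.a y := by
  unfold m mm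
  split_ifs with h
  · exact D.aL y h0 h
  · exact le_rfl

lemma b_le_M (h0 : 0 ≤ y) : D.b y ≤ D.M y := by
  have hQ1 := D.Q1
  unfold M MM
  split_ifs with h
  · by_cases h2 : y + 1 < D.yQ
    · exact D.bL y h0 h2
    · have h3 := D.bQ (by omega)
      have h4 : y + 1 = D.yQ := by omega
      rw [h4]
      rw [show y = D.yQ - 1 by omega]
      omega
  · exact le_rfl

/-- `P-` lies in the union -/
lemma m_le_a' (h1 : y + 1 < D.h) : D.m y ≤ D.a (y + 1) := by
  have hP := D.P0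
  unfold m mm
  split_ifs with h
  · exact le_rfl
  · by_cases h2 : y < D.yP
    · have h3 : y = D.yP - 1 := by omega
      subst h3
      have h4 := D.aP (by omega)
      rw [show D.yP - 1 + 1 = D.yP by ring]
      omega
    · exact D.aU y (by omega) h1

lemma b_le_M' (h1 : y + 1 < D.h) : D.b (y + 1) ≤ D.M y := by
  unfold M MM
  split_ifs with h
  · exact le_rfl
  · exact D.bU y (by omega) h1

/-! ### The columns -/

variable (D)

/-- left column, line towards S -/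
def LS (j y : ℤ) : Prop := j ≤ y ∧ y < D.yP ∧ ¬ (y + 1 < D.yP ∧ D.a (y + 1) < D.a y)
/-- left column, line towards N -/
def LN (j y : ℤ) : Prop := D.yP ≤ y ∧ y + 1 < j ∧ ¬ D.a y < D.a (y + 1)
/-- left column, turn tile in the state {W-S, N-E} -/
def LB (j y : ℤ) : Prop := (j ≤ y ∧ y + 1 < D.yP ∧ D.a (y + 1) < D.a y) ∨ (y = j - 1 ∧ j ≤ D.yP) ∨
  (y = D.yP - 1 ∧ D.yP < j)
/-- left column, turn tile in the state {W-N, S-E} -/
def LA (j y : ℤ) : Prop := (y = j - 1 ∧ D.yP < j) ∨ (D.yP ≤ y ∧ y + 1 < j ∧ D.a y < D.a (y + 1))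
/-- left column, no line -/
def LO (j y : ℤ) : Prop := (D.yP ≤ y ∧ j ≤ y) ∨ (y + 1 < D.yP ∧ y + 1 < j)

/-- right column, line towards S -/
def RS (j y : ℤ) : Prop := D.yQ ≤ y + 1 ∧ y + 1 < j ∧ ¬ (D.yQ ≤ y ∧ D.b (y + 1) < D.b y)
/-- right column, line towards N -/
def RN (j y : ℤ) : Prop := j ≤ y ∧ y < D.yQ ∧ ¬ D.b y < D.b (y + 1)
/-- right column, turn tile in the state {W-S, N-E} -/
def RB (j y : ℤ) : Prop := (y + 1 < j ∧ D.yQ ≤ y ∧ D.b (y + 1) < D.b y) ∨ (y = j - 1 ∧ D.yQ ≤ j) ∨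
  (j ≤ y ∧ y + 1 = D.yQ)
/-- right column, turn tile in the state {W-N, S-E} -/
def RA (j y : ℤ) : Prop := (y = j - 1 ∧ j < D.yQ) ∨ (j ≤ y ∧ y + 1 < D.yQ ∧ D.b y < D.b (y + 1))
/-- right column, no line -/
def RO (j y : ℤ) : Prop := (j ≤ y ∧ D.yQ ≤ y) ∨ (y + 1 < j ∧ y + 1 < D.yQ)

/-! ### Tiles -/

/-- the union of `P` and `P - (0,1)` -/
def InU (x y : ℤ) : Prop := -1 ≤ y ∧ y < D.h ∧ D.m y ≤ x ∧ x < D.M y

/-- tiles which are random in the environment number `j` -/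
def InE (j x y : ℤ) : Prop := D.InU x y ∨ (-1 ≤ y ∧ y < D.h ∧
  ((x = D.m y - 1 ∧ (D.LS j y ∨ D.LN j y)) ∨ (x = D.M y ∧ (D.RS j y ∨ D.RN j y))))

/-- open tiles of the two columns -/
def InC (j x y : ℤ) : Prop := -1 ≤ y ∧ y < D.h ∧
  ((x = D.m y - 1 ∧ ((D.LB j y ∧ (x + y) % 2 = 1) ∨ (D.LA j y ∧ (x + y) % 2 = 0) ∨
    (D.LO j y ∧ D.cl y = true))) ∨
  (x = D.M y ∧ ((D.RB j y ∧ (x + y) % 2 = 1) ∨ (D.RA j y ∧ (x + y) % 2 = 0) ∨
    (D.RO j y ∧ D.cr y = true))))

/-- the box around the window -/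
def InZ (x y : ℤ) : Prop :=
  D.a (D.yP - 1) ≤ x + 2 ∧ x ≤ D.b D.yQ + 1 ∧ -2 ≤ y ∧ y ≤ D.h

/-- open tiles of the box outside of the columns, the same for all `j` (filled exterior, row by row) -/
def InX (x y : ℤ) : Prop := D.InZ x y ∧
  ((-1 ≤ y ∧ y < D.h ∧ x + 2 ≤ D.m y ∧ D.cl y = true) ∨
  (-1 ≤ y ∧ y < D.h ∧ D.M y + 1 ≤ x ∧ D.cr y = true) ∨
  (y = -2 ∧ D.cb = true) ∨ (y = D.h ∧ D.ct = true))

open Classical in
/-- labels of the tiles near the window with the property `p` -/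
noncomputable def TS (p : ℤ → ℤ → Prop) : Finset (ℤ × ℤ) :=
  ((Icc (D.a (D.yP - 1) - 2) (D.b D.yQ + 1) ×ˢ Icc (-2) D.h).filter fun t => p t.1 t.2).image lt

lemma mem_TS {p : ℤ → ℤ → Prop} {x y : ℤ} : lt (x, y) ∈ D.TS p ↔ D.InZ x y ∧ p x y := by
  classical
  unfold TS InZ
  simp only [mem_image, mem_filter, mem_product, mem_Icc, Prod.exists]
  constructor
  · rintro ⟨x', y', ⟨⟨⟨h1, h2⟩, h3, h4⟩, h5⟩, h6⟩
    have := lt_inj h6
    simp only [Prod.mk.injEq] at this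
    obtain ⟨rfl, rfl⟩ := this
    exact ⟨⟨by omega, by omega, h3, h4⟩, h5⟩
  · rintro ⟨⟨h1, h2, h3, h4⟩, h5⟩
    exact ⟨x, y, ⟨⟨⟨by omega, by omega⟩, h3, h4⟩, h5⟩, rfl⟩

lemma odd_TS {p : ℤ → ℤ → Prop} {e : ℤ × ℤ} (he : e ∈ D.TS p) : (e.1 + e.2) % 2 = 1 := by
  classical
  unfold TS at he
  simp only [mem_image] at he
  obtain ⟨t, -, rfl⟩ := he
  exact lt_odd t

/-- random labels of the environment number `j` -/
noncomputable def EJ (j : ℤ) : Finset (ℤ × ℤ) := D.TS (D.InE j)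

/-- open labels of the environment number `j`, near the window -/
noncomputable def WR (j : ℤ) : Finset (ℤ × ℤ) := D.TS fun x y => D.InC j x y ∨ D.InX x y

/-- open labels of the environment number `j` -/
noncomputable def WJ (j : ℤ) (Wo : Finset (ℤ × ℤ)) : Finset (ℤ × ℤ) := D.WR j ∪ Wo

/-- all labels which are random or open in one of the environments, near the window -/
noncomputable def GA : Finset (ℤ × ℤ) := D.TS D.InZ

/-- open weight of a tile, if the state {W-N, S-E} has weight `w` -/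
noncomputable def wal (x y : ℤ) (w : ℂ) : ℂ := if (x + y) % 2 = 0 then w else 1 - w

/-- open weights. `a` : weight of {W-N, S-E} when the line goes to the east, `b` : weight of {W-S, N-E}
when it goes to the south, `c` : weight of {W-S, N-E} when it goes to the north. -/
noncomputable def qJ (j : ℤ) (a b c : ℂ) (e : ℤ × ℤ) : ℂ :=
  if (tt e).1 = D.m (tt e).2 - 1 then wal (tt e).1 (tt e).2 (if (tt e).2 < D.yP then 1 - b else 1 - c)
  else if (tt e).1 = D.M (tt e).2 then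
    wal (tt e).1 (tt e).2 (if j ≤ (tt e).2 then 1 - c else 1 - b)
  else if (tt e).2 = j - 1 then wal (tt e).1 (tt e).2 a
  else if j ≤ (tt e).2 then
    if (tt e).1 < D.a (tt e).2 then
      wal (tt e).1 (tt e).2 (if (tt e).1 = D.a (tt e).2 - 1 then 1 - (1 - a) * b else a)
    else if D.b (tt e).2 ≤ (tt e).1 then
      wal (tt e).1 (tt e).2 (if (tt e).1 = D.b (tt e).2 then (1 - c) * a else a)
    else 1 / 2
  else
    if (tt e).1 < D.a ((tt e).2 + 1) then
      wal (tt e).1 (tt e).2 (if (tt e).1 = D.a ((tt e).2 + 1) - 1 then a * (1 - c) else a)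
    else if D.b ((tt e).2 + 1) ≤ (tt e).1 then
      wal (tt e).1 (tt e).2 (if (tt e).1 = D.b ((tt e).2 + 1) then 1 - b * (1 - a) else a)
    else 1 / 2

/-! ### Membership -/

variable {D}

lemma InE.z (h : D.InE j x y) : -1 ≤ y ∧ y < D.h ∧ D.m y ≤ x + 1 ∧ x ≤ D.M y := by
  rcases h with ⟨h1, h2, h3, h4⟩ | ⟨h1, h2, ⟨h3, -⟩ | ⟨h3, -⟩⟩
  · exact ⟨h1, h2, by omega, by omega⟩
  · have := m_lt_M h1 h2
    exact ⟨h1, h2, by omega, by omega⟩
  · have := m_lt_M h1 h2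
    exact ⟨h1, h2, by omega, by omega⟩

lemma InC.z (h : D.InC j x y) : -1 ≤ y ∧ y < D.h ∧ D.m y ≤ x + 1 ∧ x ≤ D.M y := by
  rcases h with ⟨h1, h2, ⟨h3, -⟩ | ⟨h3, -⟩⟩
  · have := m_lt_M h1 h2
    exact ⟨h1, h2, by omega, by omega⟩
  · have := m_lt_M h1 h2
    exact ⟨h1, h2, by omega, by omega⟩

lemma z_of (h : -1 ≤ y ∧ y < D.h ∧ D.m y ≤ x + 1 ∧ x ≤ D.M y) : D.InZ x y := by
  have k3 := m_min h.1 h.2.1
  have k4 := M_max h.1 h.2.1
  unfold InZ
  omega

/-- random tiles -/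
lemma mem_EJ : lt (x, y) ∈ D.EJ j ↔ D.InE j x y := by
  unfold EJ
  rw [mem_TS]
  exact ⟨fun h => h.2, fun h => ⟨z_of h.z, h⟩⟩

/-- open tiles near the window -/
lemma mem_WR : lt (x, y) ∈ D.WR j ↔ D.InC j x y ∨ D.InX x y := by
  unfold WR
  rw [mem_TS]
  refine ⟨fun h => h.2, fun h => ⟨?_, h⟩⟩
  rcases h with h | h
  · exact z_of h.z
  · exact h.1

lemma mem_GA : lt (x, y) ∈ D.GA ↔ D.InZ x y := by
  unfold GA
  rw [mem_TS]
  exact ⟨fun h => h.2, fun h => ⟨h, h⟩⟩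

lemma odd_EJ {e : ℤ × ℤ} (he : e ∈ D.EJ j) : (e.1 + e.2) % 2 = 1 := D.odd_TS he

lemma odd_WR {e : ℤ × ℤ} (he : e ∈ D.WR j) : (e.1 + e.2) % 2 = 1 := D.odd_TS he

lemma odd_GA {e : ℤ × ℤ} (he : e ∈ D.GA) : (e.1 + e.2) % 2 = 1 := D.odd_TS he

/-- the five kinds of tiles in the left column exclude each other -/
lemma col_l : (D.LS j y → ¬ D.LN j y ∧ ¬ D.LB j y ∧ ¬ D.LA j y ∧ ¬ D.LO j y) ∧
    (D.LN j y → ¬ D.LB j y ∧ ¬ D.LA j y ∧ ¬ D.LO j y) ∧
    (D.LB j y → ¬ D.LA j y ∧ ¬ D.LO j y) ∧ (D.LA j y → ¬ D.LO j y) := by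
  unfold LS LN LB LA LO
  refine ⟨?_, ?_, ?_, ?_⟩ <;> omega

lemma col_l_ex : D.LS j y ∨ D.LN j y ∨ D.LB j y ∨ D.LA j y ∨ D.LO j y := by
  unfold LS LN LB LA LO
  omega

lemma col_r (hj : 0 ≤ j) : (D.RS j y → ¬ D.RN j y ∧ ¬ D.RB j y ∧ ¬ D.RA j y ∧ ¬ D.RO j y) ∧
    (D.RN j y → ¬ D.RB j y ∧ ¬ D.RA j y ∧ ¬ D.RO j y) ∧
    (D.RB j y → ¬ D.RA j y ∧ ¬ D.RO j y) ∧ (D.RA j y → ¬ D.RO j y) := by
  have hq : 0 < D.yQ → D.b (D.yQ - 1) < D.b D.yQ := D.bQ
  have hq' : y + 1 = D.yQ → 0 ≤ y → D.b y < D.b (y + 1) := by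
    intro h1 h2
    have := hq (by omega)
    rwa [← h1, show y + 1 - 1 = y by ring] at this
  unfold RS RN RB RA RO
  refine ⟨?_, ?_, ?_, ?_⟩ <;> omega

lemma col_r_ex : D.RS j y ∨ D.RN j y ∨ D.RB j y ∨ D.RA j y ∨ D.RO j y := by
  have hq : 0 < D.yQ → D.b (D.yQ - 1) < D.b D.yQ := D.bQ
  have hq' : y + 1 = D.yQ → 0 ≤ y → D.b y < D.b (y + 1) := by
    intro h1 h2
    have := hq (by omega)
    rwa [← h1, show y + 1 - 1 = y by ring] at this
  unfold RS RN RB RA RO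
  omega

lemma disj_ER (hj : 0 ≤ j) : Disjoint (D.EJ j) (D.WR j) := by
  rw [disjoint_left]
  intro e h1 h2
  obtain ⟨x, y, rfl⟩ := exists_lt (odd_EJ h1)
  rw [mem_EJ] at h1
  rw [mem_WR] at h2
  have h3 := h1.z
  have hM := m_lt_M h3.1 h3.2.1
  have kl := col_l (D := D) (j := j) (y := y)
  have kr := col_r (D := D) (y := y) hj
  rcases h2 with h2 | h2
  · obtain ⟨-, -, ⟨h4, h5⟩ | ⟨h4, h5⟩⟩ := h2
    · rcases h1 with ⟨-, -, h6, h7⟩ | ⟨-, -, ⟨h6, h7⟩ | ⟨h6, h7⟩⟩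
      · omega
      · obtain ⟨k1, k2, -, -⟩ := kl
        rcases h7 with h7 | h7
        · obtain ⟨-, q1, q2, q3⟩ := k1 h7
          exact h5.elim (fun h => q1 h.1) fun h => h.elim (fun h => q2 h.1) fun h => q3 h.1
        · obtain ⟨q1, q2, q3⟩ := k2 h7
          exact h5.elim (fun h => q1 h.1) fun h => h.elim (fun h => q2 h.1) fun h => q3 h.1
      · omega
    · rcases h1 with ⟨-, -, h6, h7⟩ | ⟨-, -, ⟨h6, h7⟩ | ⟨h6, h7⟩⟩
      · omega
      · omega
      · obtain ⟨k1, k2, -, -⟩ := kr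
        rcases h7 with h7 | h7
        · obtain ⟨-, q1, q2, q3⟩ := k1 h7
          exact h5.elim (fun h => q1 h.1) fun h => h.elim (fun h => q2 h.1) fun h => q3 h.1
        · obtain ⟨q1, q2, q3⟩ := k2 h7
          exact h5.elim (fun h => q1 h.1) fun h => h.elim (fun h => q2 h.1) fun h => q3 h.1
  · rcases h2.2 with ⟨-, -, h4, -⟩ | ⟨-, -, h4, -⟩ | ⟨h4, -⟩ | ⟨h4, -⟩ <;> omega

lemma EJ_sub : D.EJ j ⊆ D.GA := by
  intro e he
  obtain ⟨x, y, rfl⟩ := exists_lt (odd_EJ he)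
  rw [mem_EJ] at he
  rw [mem_GA]
  exact z_of he.z

lemma WR_sub : D.WR j ⊆ D.GA := by
  intro e he
  obtain ⟨x, y, rfl⟩ := exists_lt (odd_WR he)
  rw [mem_WR] at he
  rw [mem_GA]
  rcases he with h | h
  · exact z_of h.z
  · exact h.1

end Win

/-- **Data of the outside**: far open labels and the root corner. -/
structure Out (D : Win) where
  Wo : Finset (ℤ × ℤ)
  c0 : ℤ × ℤ
  k0 : ℤ
  g : ℤ × ℤ
  /-- the far labels avoid the window and its neighbours -/
  far : ∀ x y, lt (x, y) ∈ Wo → ¬ D.InZ x y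
  hk : k0 % 4 = ty c0
  hroot : plab c0 ∉ D.GA
  hg : DCo (D.GA ∪ Wo) (fi c0) g
  hlow : ∀ v, Co (D.GA ∪ Wo) (vx c0) v → g.2 < v.2

namespace Win

variable {D : Win} (O : Out D) {x y j : ℤ}

lemma disj_EW (O : Out D) (h0 : 0 ≤ j) : Disjoint (D.EJ j) (D.WJ j O.Wo) := by
  unfold WJ
  rw [disjoint_union_right]
  refine ⟨disj_ER h0, ?_⟩
  rw [disjoint_left]
  intro e he h2
  have h4 := EJ_sub he
  obtain ⟨x, y, rfl⟩ := exists_lt (odd_EJ he)
  have h3 := O.far x y h2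
  rw [mem_GA] at h4
  exact h3 h4

lemma EW_sub (O : Out D) : D.EJ j ∪ D.WJ j O.Wo ⊆ D.GA ∪ O.Wo := by
  unfold WJ
  rw [← union_assoc]
  exact union_subset_union_left (union_subset EJ_sub WR_sub)

/-- **The environment number `j`.** -/
noncomputable def XJ (O : Out D) (j : ℤ) (h0 : 0 ≤ j) : Env :=
  Env.plane (D.EJ j) (D.WJ j O.Wo) O.c0 O.k0 O.g (fun _ he => odd_EJ he) (disj_EW O h0) O.hk
    (fun h => O.hroot (EJ_sub h)) (O.hg.anti (EW_sub O)) (fun v hv => O.hlow v (hv.mono (EW_sub O)))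

variable {O} {h0 : 0 ≤ j}

@[simp] lemma XJ_E : (XJ O j h0).E = D.EJ j := rfl
@[simp] lemma XJ_c0 : (XJ O j h0).c0 = O.c0 := rfl
@[simp] lemma XJ_k0 : (XJ O j h0).k0 = O.k0 := rfl
@[simp] lemma XJ_T : (XJ O j h0).T = 4 := rfl

end Win

end Pool.Agent.H46.Sp
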