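import Mathlib
import Pool.Agent.H46.Sp.Def

set_option autoImplicit false
open Finset

/-! # Levels of a window

`Lev D j G` : the ends of the rows and the kind of the columns change only at the rows of `G`. `nxt G g` : the
next level. Between the rows `g` and `nxt G g - 2` everything is constant (`m_eq`, `M_eq`, `cl_eq`,
`cr_eq`). `Fat D L` : rows and columns of `P` are longer than `L`. -/

namespace Pool.Agent.H46.Sp

open Pool.Agent.H75.Perc Pool.Agent.H75.TwoArm Pool.Agent.Q1 Pool.Agent.H33.Q1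

/-- the next level -/
noncomputable def nxt (G : Finset ℤ) (g : ℤ) : ℤ :=
  if h : (G.filter (g < ·)).Nonempty then (G.filter (g < ·)).min' h else g

variable {G : Finset ℤ} {g g' y : ℤ}

lemma nxt_le (h : g' ∈ G) (hg : g < g') : nxt G g ≤ g' := by
  have h1 : g' ∈ G.filter (g < ·) := mem_filter.2 ⟨h, hg⟩
  have h2 : (G.filter (g < ·)).Nonempty := ⟨g', h1⟩
  unfold nxt
  rw [dif_pos h2]
  exact min'_le _ _ h1

lemma nxt_mem (h : g < nxt G g) : nxt G g ∈ G := by
  unfold nxt at h ⊢
  split_ifs at h ⊢ with h2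
  · exact (mem_filter.1 (min'_mem _ h2)).1
  · omega

lemma le_nxt : g ≤ nxt G g := by
  unfold nxt
  split_ifs with h2
  · exact (mem_filter.1 (min'_mem _ h2)).2.le
  · exact le_rfl

lemma not_lev (h1 : g < y) (h2 : y < nxt G g) : y ∉ G := fun h => by
  have := nxt_le h h1
  omega

namespace Win

variable {D : Win} {j : ℤ} {x y : ℤ}

lemma md_lo (h : y + 1 < D.yP) : D.m y = D.a (y + 1) := by
  unfold m mm; rw [if_pos h]

lemma md_hi (h : D.yP ≤ y + 1) : D.m y = D.a y := by
  unfold m mm; rw [if_neg (by omega)]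

lemma Md_lo (h : y < D.yQ) : D.M y = D.b (y + 1) := by
  unfold Win.M MM; rw [if_pos h]

lemma Md_hi (h : D.yQ ≤ y) : D.M y = D.b y := by
  unfold Win.M MM; rw [if_neg (by omega)]

/-- **Levels.** -/
structure Lev (D : Win) (j : ℤ) (G : Finset ℤ) : Prop where
  ab : ∀ y, 0 < y → y < D.h → y ∉ G → D.a y = D.a (y - 1) ∧ D.b y = D.b (y - 1)
  j : j ∈ G
  P : D.yP ∈ G
  Q : D.yQ ∈ G
  zero : 0 ∈ G
  h : D.h ∈ G
  lo : ∀ g ∈ G, 0 ≤ g
  hi : ∀ g ∈ G, g ≤ D.h

namespace Lev

variable {G : Finset ℤ} (hG : D.Lev j G) {g z : ℤ}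

include hG

/-- between two levels the ends of the rows are constant -/
lemma ab_eq (hg : g ∈ G) (h1 : g ≤ y) (h2 : y < nxt G g) : D.a y = D.a g ∧ D.b y = D.b g := by
  have h0 := hG.lo g hg
  have key : ∀ n : ℕ, g + n < nxt G g → D.a (g + n) = D.a g ∧ D.b (g + n) = D.b g := by
    intro n
    induction n with
    | zero => intro _; simp
    | succ n ih =>
      intro h3
      push_cast at h3 ⊢
      have h4 := ih (by omega)
      have h5 : nxt G g ≤ D.h := hG.hi _ (nxt_mem (by omega))
      have h6 := hG.ab (g + (n + 1)) (by omega) (by omega) (not_lev (by omega) h3)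
      rw [show g + ((n : ℤ) + 1) - 1 = g + n by ring] at h6
      rw [h6.1, h6.2]
      exact h4
  have := key (y - g).toNat (by rw [Int.toNat_of_nonneg (by omega)]; omega)
  rwa [Int.toNat_of_nonneg (by omega), show g + (y - g) = y by ring] at this

lemma m_eq (hg : g ∈ G) (h1 : g ≤ y) (h2 : y + 1 < nxt G g) : D.m y = D.a g := by
  have h3 := (hG.ab_eq hg h1 (by omega)).1
  have h4 := (hG.ab_eq hg (y := y + 1) (by omega) h2).1
  unfold m mm
  split_ifs
  · exact h4
  · exact h3

lemma M_eq (hg : g ∈ G) (h1 : g ≤ y) (h2 : y + 1 < nxt G g) : D.M y = D.b g := by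
  have h3 := (hG.ab_eq hg h1 (by omega)).2
  have h4 := (hG.ab_eq hg (y := y + 1) (by omega) h2).2
  unfold Win.M MM
  split_ifs
  · exact h4
  · exact h3

lemma nxt_h (h1 : g < nxt G g) : nxt G g ≤ D.h := hG.hi _ (nxt_mem h1)

lemma cl_eq (hg : g ∈ G) (h1 : g ≤ y) (h2 : y + 1 < nxt G g) : D.cl y = D.cl g := by
  have h0 := hG.lo g hg
  have hh := hG.nxt_h (g := g) (by omega)
  have key : ∀ n : ℕ, g + n + 1 < nxt G g → D.cl (g + n) = D.cl g := by
    intro n
    induction n with
    | zero => intro _; simp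
    | succ n ih =>
      intro h3
      push_cast at h3 ⊢
      have h4 := ih (by omega)
      have h5 := D.scl (g + n) (by omega) (by omega) (by
        change D.m (g + n) = D.m (g + n + 1)
        rw [hG.m_eq hg (by omega) (by omega), hG.m_eq hg (by omega) (by omega)])
      rw [← h4, h5, add_assoc]
  have := key (y - g).toNat (by rw [Int.toNat_of_nonneg (by omega)]; omega)
  rwa [Int.toNat_of_nonneg (by omega), show g + (y - g) = y by ring] at this

lemma cr_eq (hg : g ∈ G) (h1 : g ≤ y) (h2 : y + 1 < nxt G g) : D.cr y = D.cr g := by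
  have h0 := hG.lo g hg
  have hh := hG.nxt_h (g := g) (by omega)
  have key : ∀ n : ℕ, g + n + 1 < nxt G g → D.cr (g + n) = D.cr g := by
    intro n
    induction n with
    | zero => intro _; simp
    | succ n ih =>
      intro h3
      push_cast at h3 ⊢
      have h4 := ih (by omega)
      have h5 := D.scr (g + n) (by omega) (by omega) (by
        change D.M (g + n) = D.M (g + n + 1)
        rw [hG.M_eq hg (by omega) (by omega), hG.M_eq hg (by omega) (by omega)])
      rw [← h4, h5, add_assoc]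
  have := key (y - g).toNat (by rw [Int.toNat_of_nonneg (by omega)]; omega)
  rwa [Int.toNat_of_nonneg (by omega), show g + (y - g) = y by ring] at this

/-- a level is not between two consecutive levels -/
lemma side (hg : g ∈ G) (hz : z ∈ G) : nxt G g ≤ z ∨ z ≤ g := by
  by_cases h : g < z
  · exact Or.inl (nxt_le hz h)
  · exact Or.inr (by omega)

end Lev

/-- rows and columns of `P` are longer than `L` -/
structure Fat (D : Win) (L : ℤ) : Prop where
  row : ∀ y, 0 ≤ y → y < D.h → D.a y + L ≤ D.b y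
  col : ∀ x y, 0 ≤ y → y < D.h → D.a y ≤ x → x < D.b y → ∃ y0, y0 ≤ y ∧ y < y0 + L ∧
    ∀ z, y0 ≤ z → z < y0 + L → 0 ≤ z ∧ z < D.h ∧ D.a z ≤ x ∧ x < D.b z

end Win

end Pool.Agent.H46.Sp
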