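import Mathlib
import Pool.Agent.H46.G1.WGeo
import Pool.Agent.H46.G1.WSum
import Pool.Agent.H46.G1.WTie

set_option autoImplicit false
open Finset

/-! # Ties on the four kinds of flat walls, both colours

`Kd` : the wall is the left (`L`), right (`R`), lower (`F`) or upper (`C`) boundary of the domain, on the
line `x = p` (`L`, `R`) or `y = p` (`F`, `C`). `tau k p u t` : the tile at height `u` over the wall (`u ≥ 0`
inside, `u = -1` : first outer layer) with tangential coordinate `t`. A tie is a tile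
`tau k p (-1) q` with odd sum of coordinates; `c = true` : wired wall, the tie joins the boundary vertex
`bp true k p q` to the outside if it is open; `c = false` : free wall, the tie joins the boundary face
`bp false k p q` to the outside if it is closed. -/

namespace Pool.Agent.H46.Sp

open Pool.Agent.H75.Perc Pool.Agent.H75.TwoArm Pool.Agent.H75.Four Pool.Agent.H69.Q1
open Pool.Agent.Q1 Pool.Agent.H99.NC Pool.Agent.H49.Perc
open Pool.Agent.H39.Q1 (gm lm lm_apply hg mem_BRz sgb tc)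
open Pool.Agent.H60.Q1 Pool.Agent.H33.Q1
open Pool.Agent.H74.R45 (exists_lt) 
open Pool.Agent.H13.R45 (gp)
open Pool.Agent.H46.G1
open Pool.Agent.Q1.M6b (cr)

/-- the four kinds of walls -/
inductive Kd
  | L | R | F | C
  deriving DecidableEq, Fintype

namespace Kd

/-- tile at height `u` over the wall -/
def tau : Kd → ℤ → ℤ → ℤ → ℤ × ℤ
  | L, p, u, t => (p + u, t)
  | R, p, u, t => (p - 1 - u, t)
  | F, p, u, t => (t, p + u)
  | C, p, u, t => (t, p - 1 - u)

/-- orientation -/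
def ep : Kd → Bool × Bool
  | L => (false, false)
  | R => (true, true)
  | F => (true, false)
  | C => (false, true)

/-- grid point of the tie on the wall -/
def gb : Bool → Kd → ℤ → ℤ → ℤ × ℤ
  | true, L, p, q => (p, q)
  | false, L, p, q => (p, q + 1)
  | true, R, p, q => (p, q + 1)
  | false, R, p, q => (p, q)
  | true, F, p, q => (q, p)
  | false, F, p, q => (q + 1, p)
  | true, C, p, q => (q + 1, p)
  | false, C, p, q => (q, p)

/-- vertex or face of the tie on the wall -/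
def bp (c : Bool) (k : Kd) (p q : ℤ) : ℤ × ℤ := gp (gb c k p q)

/-- orientation of the tangent -/
def sg : Kd → ℤ → ℤ
  | L, s => s
  | R, s => -s
  | F, s => s
  | C, s => -s

lemma sg_abs (k : Kd) (s : ℤ) : |k.sg s| = |s| := by
  cases k <;> simp [sg]

/-- the tile of the tie has odd sum of coordinates -/
def Par (k : Kd) (p q : ℤ) : Prop := ((k.tau p (-1) q).1 + (k.tau p (-1) q).2) % 2 = 1

/-- coordinates `lm` of a tile, relative to the point of the tie -/
def rel (c : Bool) (u s : ℤ) : ℤ × ℤ := if c then (u - s, u + 1 + s) else (u + 1 - s, u + s)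

variable {k : Kd} {c : Bool} {p q u t r x y : ℤ}

lemma lm_tau (h : k.Par p q) : lm c k.ep (lt (k.tau p u t)) =
    gm k.ep (bp c k p q) + gm k.ep (bp c k p q) + rel c u (k.sg (t - q)) := by
  rw [lm_apply]
  unfold Par at h
  cases k <;> cases c <;>
    · simp only [tau] at h
      unfold rel bp gb ep sg tau gm tc sgb gp lt
      refine Prod.ext ?_ ?_ <;>
        simp only [Prod.fst_add, Prod.snd_add, if_true, Bool.false_eq_true, if_false] <;> omega

/-- the label of the tie -/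
lemma lm_tie (h : k.Par p q) : lm c k.ep (lt (k.tau p (-1) q)) =
    gm k.ep (bp c k p q) + gm k.ep (bp c k p q) - (if c then (1, 0) else (0, 1)) := by
  rw [lm_tau h]
  cases c <;> cases k <;>
    · unfold rel sg
      refine Prod.ext ?_ ?_ <;>
        simp only [Prod.fst_add, Prod.snd_add, Prod.fst_sub, Prod.snd_sub, if_true,
          Bool.false_eq_true, if_false] <;> omega

/-- every label is the label of a tile over the wall -/
lemma exists_tau (k : Kd) (p : ℤ) {l : ℤ × ℤ} (h : (l.1 + l.2) % 2 = 1) :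
    ∃ u t, l = lt (k.tau p u t) := by
  obtain ⟨x, y, rfl⟩ := exists_lt h
  cases k
  · exact ⟨x - p, y, by unfold tau; congr 1; exact Prod.ext (by simp only; ring) rfl⟩
  · exact ⟨p - 1 - x, y, by unfold tau; congr 1; exact Prod.ext (by simp only; ring) rfl⟩
  · exact ⟨y - p, x, by unfold tau; congr 1; exact Prod.ext rfl (by simp only; ring)⟩
  · exact ⟨p - 1 - y, x, by unfold tau; congr 1; exact Prod.ext rfl (by simp only; ring)⟩

lemma tau_inj {u' t' : ℤ} (h : k.tau p u t = k.tau p u' t') : u = u' ∧ t = t' := by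
  cases k <;> simp only [tau, Prod.mk.injEq] at h <;> omega

/-- labels of the half box -/
lemma mem_HBx_tau (h : k.Par p q) : lt (k.tau p u t) ∈ HBx c k.ep (bp c k p q) r ↔ 0 ≤ u ∧
    (-(2 * r) ≤ (rel c u (k.sg (t - q))).1 ∧ (rel c u (k.sg (t - q))).1 ≤ 2 * r) ∧
      (-(2 * r) ≤ (rel c u (k.sg (t - q))).2 ∧ (rel c u (k.sg (t - q))).2 ≤ 2 * r) := by
  rw [mem_HBx, lm_tau h, mem_HL]
  unfold rel
  cases c <;> simp only [Prod.fst_add, Prod.snd_add, if_true, Bool.false_eq_true, if_false] <;>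
    omega

/-- labels of the full box -/
lemma mem_BR_tau (h : k.Par p q) : lm c k.ep (lt (k.tau p u t)) ∈ BR (gm k.ep (bp c k p q)) r ↔
    (-(2 * r) ≤ (rel c u (k.sg (t - q))).1 ∧ (rel c u (k.sg (t - q))).1 ≤ 2 * r) ∧
      (-(2 * r) ≤ (rel c u (k.sg (t - q))).2 ∧ (rel c u (k.sg (t - q))).2 ≤ 2 * r) := by
  rw [lm_tau h, mem_BRz]
  unfold rel
  cases c <;> simp only [Prod.fst_add, Prod.snd_add, if_true, Bool.false_eq_true, if_false] <;>
    omega

lemma hg_tau (h : k.Par p q) : hg (gm k.ep (bp c k p q)) (lm c k.ep (lt (k.tau p u t))) =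
    2 * u + 1 := by
  rw [lm_tau h]
  unfold hg rel
  cases c <;> simp only [Prod.fst_add, Prod.snd_add, if_true, Bool.false_eq_true, if_false] <;>
    ring

/-- the box is small -/
lemma rel_bound (h1 : -(2 * r) ≤ (rel c u (k.sg (t - q))).1 ∧ (rel c u (k.sg (t - q))).1 ≤ 2 * r)
    (h2 : -(2 * r) ≤ (rel c u (k.sg (t - q))).2 ∧ (rel c u (k.sg (t - q))).2 ≤ 2 * r) :
    |t - q| ≤ 2 * r ∧ -(2 * r) ≤ u ∧ u < 2 * r := by
  rw [← sg_abs k (t - q), abs_le]
  generalize k.sg (t - q) = s at *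
  unfold rel at h1 h2
  cases c <;> simp only [if_true, Bool.false_eq_true, if_false] at h1 h2 <;> omega

lemma odd_of_BR {l z : ℤ × ℤ} {ε : Bool × Bool} (h : lm c ε l ∈ BR z r) : (l.1 + l.2) % 2 = 1 := by
  rw [lm_apply, mem_BRz] at h
  have h1 := h.2.2
  unfold gm tc at h1
  rcases Pool.Agent.H39.Q1.sgb_cases ε.1 with g1 | g1 <;>
    rcases Pool.Agent.H39.Q1.sgb_cases ε.2 with g2 | g2 <;> rw [g1, g2] at h1 <;>
    split_ifs at h1 <;> simp only [Prod.fst_add, Prod.snd_add] at h1 <;> omega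

lemma odd_of_HBx {l z : ℤ × ℤ} {ε : Bool × Bool} (h : l ∈ HBx c ε z r) : (l.1 + l.2) % 2 = 1 := by
  rw [mem_HBx, mem_HL, lm_apply] at h
  have h1 := h.1.2.2
  unfold gm tc at h1
  rcases Pool.Agent.H39.Q1.sgb_cases ε.1 with g1 | g1 <;>
    rcases Pool.Agent.H39.Q1.sgb_cases ε.2 with g2 | g2 <;> rw [g1, g2] at h1 <;>
    split_ifs at h1 <;> simp only [Prod.fst_add, Prod.snd_add] at h1 <;> omega

/-- the labels at a vertex near the tie -/
lemma near_vx {c l : ℤ × ℤ} (hl : l = plab c ∨ l = lab c) (h : k.Par p q)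
    (h1 : inR (bp true k p q) (r - 1) (vx c))
    (h2 : 0 ≤ hv (gm k.ep (bp true k p q)) (gm k.ep (vx c))) :
    ∃ u t, l = lt (k.tau p u t) ∧ -1 ≤ u ∧ u < 2 * r ∧ |t - q| ≤ 2 * r := by
  have hodd : (l.1 + l.2) % 2 = 1 := by
    rcases hl with rfl | rfl
    · unfold plab; split_ifs <;> simp only <;> omega
    · exact Pool.Agent.H75.Perc.lab_odd _
  have hadj : (l = vx c + vx c + (1, 0) ∨ l = vx c + vx c - (1, 0)) ∨
      (l = vx c + vx c + (0, 1) ∨ l = vx c + vx c - (0, 1)) := by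
    rcases hl with rfl | rfl
    · unfold plab vx
      split_ifs <;> simp only [Prod.mk_add_mk, Prod.mk_sub_mk, Prod.mk.injEq] <;> omega
    · unfold lab vx
      split_ifs <;> simp only [Prod.mk_add_mk, Prod.mk_sub_mk, Prod.mk.injEq] <;> omega
  obtain ⟨u, t, rfl⟩ := exists_tau k p hodd
  refine ⟨u, t, rfl, ?_⟩
  have h3 := lm_tau (c := true) (u := u) (t := t) h
  have h4 : lm true k.ep (lt (k.tau p u t)) = gm k.ep (lt (k.tau p u t)) := by
    rw [lm_apply]; unfold tc; rw [if_pos rfl]; exact congrArg _ (add_zero _)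
  rw [h4] at h3
  rw [inR_iff] at h1
  have key : (-(2 * r) ≤ (rel true u (k.sg (t - q))).1 ∧ (rel true u (k.sg (t - q))).1 ≤ 2 * r) ∧
      (-(2 * r) ≤ (rel true u (k.sg (t - q))).2 ∧ (rel true u (k.sg (t - q))).2 ≤ 2 * r) ∧
      -1 ≤ (rel true u (k.sg (t - q))).1 + (rel true u (k.sg (t - q))).2 := by
    have e1 := congrArg Prod.fst h3
    have e2 := congrArg Prod.snd h3
    simp only [Prod.fst_add, Prod.snd_add] at e1 e2
    generalize rel true u (k.sg (t - q)) = a at *
    generalize bp true k p q = z at *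
    generalize vx c = v at *
    generalize lt (k.tau p u t) = m at *
    unfold hv gm at *
    unfold sgb at *
    simp only at *
    cases k <;> unfold ep at * <;> simp only [if_true, Bool.false_eq_true, if_false, Prod.ext_iff,
      Prod.fst_add, Prod.snd_add, Prod.fst_sub, Prod.snd_sub] at * <;> omega
  obtain ⟨k1, k2, k3⟩ := key
  obtain ⟨h4, h5, h6⟩ := rel_bound k1 k2
  refine ⟨?_, h6, h4⟩
  unfold rel at k3
  simp only [if_true] at k3
  omega

/-- the labels at a face near the tie -/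
lemma near_fi {c l : ℤ × ℤ} (hl : l = plab c ∨ l = lab c) (h : k.Par p q)
    (h1 : inR (bp false k p q) (r - 1) (fi c))
    (h2 : 0 ≤ hv (gm k.ep (bp false k p q)) (gm k.ep (fi c))) :
    ∃ u t, l = lt (k.tau p u t) ∧ -1 ≤ u ∧ u < 2 * r ∧ |t - q| ≤ 2 * r := by
  have hodd : (l.1 + l.2) % 2 = 1 := by
    rcases hl with rfl | rfl
    · unfold plab; split_ifs <;> simp only <;> omega
    · exact Pool.Agent.H75.Perc.lab_odd _
  have hadj : (l + (1, 1) = fi c + fi c + (1, 0) ∨ l + (1, 1) = fi c + fi c - (1, 0)) ∨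
      (l + (1, 1) = fi c + fi c + (0, 1) ∨ l + (1, 1) = fi c + fi c - (0, 1)) := by
    rcases hl with rfl | rfl
    · unfold plab fi
      split_ifs <;> simp only [Prod.mk_add_mk, Prod.mk_sub_mk, Prod.mk.injEq] <;> omega
    · unfold lab fi
      split_ifs <;> simp only [Prod.mk_add_mk, Prod.mk_sub_mk, Prod.mk.injEq] <;> omega
  obtain ⟨u, t, rfl⟩ := exists_tau k p hodd
  refine ⟨u, t, rfl, ?_⟩
  have h3 := lm_tau (c := false) (u := u) (t := t) h
  have h4 : lm false k.ep (lt (k.tau p u t)) = gm k.ep (lt (k.tau p u t) + (1, 1)) := by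
    rw [lm_apply]; unfold tc; rw [if_neg Bool.false_ne_true]
  rw [h4] at h3
  rw [inR_iff] at h1
  have key : (-(2 * r) ≤ (rel false u (k.sg (t - q))).1 ∧ (rel false u (k.sg (t - q))).1 ≤ 2 * r) ∧
      (-(2 * r) ≤ (rel false u (k.sg (t - q))).2 ∧ (rel false u (k.sg (t - q))).2 ≤ 2 * r) ∧
      -1 ≤ (rel false u (k.sg (t - q))).1 + (rel false u (k.sg (t - q))).2 := by
    have e1 := congrArg Prod.fst h3
    have e2 := congrArg Prod.snd h3
    simp only [Prod.fst_add, Prod.snd_add] at e1 e2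
    generalize rel false u (k.sg (t - q)) = a at *
    generalize bp false k p q = z at *
    generalize fi c = v at *
    generalize lt (k.tau p u t) = m at *
    unfold hv gm at *
    unfold sgb at *
    simp only at *
    cases k <;> unfold ep at * <;> simp only [if_true, Bool.false_eq_true, if_false, Prod.ext_iff,
      Prod.fst_add, Prod.snd_add, Prod.fst_sub, Prod.snd_sub] at * <;> omega
  obtain ⟨k1, k2, k3⟩ := key
  obtain ⟨h4, h5, h6⟩ := rel_bound k1 k2
  refine ⟨?_, h6, h4⟩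
  unfold rel at k3
  simp only [Bool.false_eq_true, if_false] at k3
  omega

end Kd

/-- **The environment near a tie**: `E` random labels, `W` open labels, `Ti` the ties; the wall of kind
`k` on the line `p` is flat at distance `n` of the tie `tau k p (-1) q`. -/
structure Flat (E W Ti : Finset (ℤ × ℤ)) (c : Bool) (k : Kd) (p q n : ℤ) : Prop where
  par : k.Par p q
  sub : Ti ⊆ E
  bulk : ∀ u t, 0 ≤ u → u ≤ n → |t - q| ≤ n → lt (k.tau p u t) ∈ E \ Ti
  first : ∀ t, |t - q| ≤ n → lt (k.tau p (-1) t) ∈ Ti ∨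
    (lt (k.tau p (-1) t) ∉ E ∧ (lt (k.tau p (-1) t) ∈ W ↔ c = false))

variable {E W Ti : Finset (ℤ × ℤ)} {c : Bool} {k : Kd} {p q n n' r : ℤ}

lemma Flat.mono (h : Flat E W Ti c k p q n) (hn : n' ≤ n) : Flat E W Ti c k p q n' :=
  ⟨h.par, h.sub, fun u t h1 h2 h3 => h.bulk u t h1 (h2.trans hn) (h3.trans hn),
    fun t h1 => h.first t (h1.trans hn)⟩

lemma Flat.box (h : Flat E W Ti c k p q n) (hr : 2 * r ≤ n) :
    HBx c k.ep (Kd.bp c k p q) r ⊆ E \ Ti := by
  intro l hl
  obtain ⟨u, t, rfl⟩ := Kd.exists_tau k p (Kd.odd_of_HBx hl)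
  rw [Kd.mem_HBx_tau h.par] at hl
  obtain ⟨h1, h2, h3⟩ := hl
  obtain ⟨h4, h5, h6⟩ := Kd.rel_bound h2 h3
  exact h.bulk u t h1 (by omega) (by omega)

/-- **The toggle**, general form. -/
theorem Flat.toggle {X : Env} {W Ti ω : Finset (ℤ × ℤ)} {c0 : ℤ × ℤ} (hX : X.PlaneLike W)
    (hd : Disjoint X.E W) (h : Flat X.E W Ti c k p q n) (hr : 1 ≤ r) (hn : 2 * r ≤ n)
    (hTi : lt (k.tau p (-1) q) ∈ Ti) (hω : ω ⊆ X.E) (hnot : lt (k.tau p (-1) q) ∉ ω)
    (hoth : ∀ t, |t - q| ≤ n → lt (k.tau p (-1) t) ∈ Ti → t ≠ q →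
      (lt (k.tau p (-1) t) ∈ ω ↔ c = false))
    (hP : ¬ P1 c k.ep (Kd.bp c k p q) r ω)
    (hroot : ∀ u t, -1 ≤ u → u < 2 * r → |t - q| ≤ 2 * r → plab X.c0 ≠ lt (k.tau p u t))
    (hc : ∀ u t, -1 ≤ u → u < 2 * r → |t - q| ≤ 2 * r → lab c0 ≠ lt (k.tau p u t)) :
    X.incO ω c0 = X.incO (insert (lt (k.tau p (-1) q)) ω) c0 := by
  have htW : lt (k.tau p (-1) q) ∉ ω ∪ W := by
    rw [mem_union, not_or]
    exact ⟨hnot, disjoint_left.1 hd (h.sub hTi)⟩
  cases c with
  | true =>
    refine toggle_open (W := W) (δ := (1, 0)) hX hω (h.sub hTi) htW (Or.inl rfl) ?_ hr ?_ ?_ hP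
      (fun h1 h2 => ?_) (fun h1 h2 => ?_)
    · rw [Kd.lm_tie h.par]; rfl
    · intro l hl hbox hcon
      obtain ⟨u, t, rfl⟩ := Kd.exists_tau k p (Kd.odd_of_BR hbox)
      rw [Kd.mem_BR_tau h.par] at hbox
      rw [Kd.hg_tau h.par] at hcon
      obtain ⟨h4, -, -⟩ := Kd.rel_bound hbox.1 hbox.2
      have hu : u = -1 := by omega
      subst hu
      rcases h.first t (by omega) with h5 | ⟨h5, h6⟩
      · rcases mem_union.1 hl with h7 | h7
        · by_cases h8 : t = q
          · subst h8; exact hnot h7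
          · exact absurd ((hoth t (by omega) h5 h8).1 h7) (by simp)
        · by_cases h8 : t = q
          · subst h8; exact htW (mem_union_right _ h7)
          · exact disjoint_left.1 hd (h.sub h5) h7
      · rcases mem_union.1 hl with h7 | h7
        · exact h5 (hω h7)
        · exact absurd (h6.1 h7) (by simp)
    · exact (disjoint_left.2 fun l hl hl' =>
        (disjoint_left.1 hd (mem_sdiff.1 (h.box hn hl)).1) hl')
    · obtain ⟨u, t, k1, k2, k3, k4⟩ := Kd.near_vx (Or.inl rfl) h.par h1 h2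
      exact hroot u t k2 k3 k4 k1
    · obtain ⟨u, t, k1, k2, k3, k4⟩ := Kd.near_vx (Or.inr rfl) h.par h1 h2
      exact hc u t k2 k3 k4 k1
  | false =>
    refine toggle_closed (W := W) (δ := (0, 1)) hX hω (h.sub hTi) htW (Or.inr rfl) ?_ hr ?_ hP
      (fun h1 h2 => ?_) (fun h1 h2 => ?_)
    · rw [Kd.lm_tie h.par]; rfl
    · intro l hl hne hbox hcon
      obtain ⟨u, t, rfl⟩ := Kd.exists_tau k p (Kd.odd_of_BR hbox)
      rw [Kd.mem_BR_tau h.par] at hbox
      rw [Kd.hg_tau h.par] at hcon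
      obtain ⟨h4, -, -⟩ := Kd.rel_bound hbox.1 hbox.2
      have hu : u = -1 := by omega
      subst hu
      rw [mem_union, not_or] at hl
      rcases h.first t (by omega) with h5 | ⟨h5, h6⟩
      · by_cases h8 : t = q
        · subst h8; exact hne rfl
        · exact hl.1 ((hoth t (by omega) h5 h8).2 rfl)
      · exact hl.2 (h6.2 rfl)
    · obtain ⟨u, t, k1, k2, k3, k4⟩ := Kd.near_fi (Or.inl rfl) h.par h1 h2
      exact hroot u t k2 k3 k4 k1
    · obtain ⟨u, t, k1, k2, k3, k4⟩ := Kd.near_fi (Or.inr rfl) h.par h1 h2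
      exact hc u t k2 k3 k4 k1

end Pool.Agent.H46.Sp
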