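import Mathlib
import Pool.Agent.H46.Sp.Kd

set_option autoImplicit false
open Finset

/-! # Systems of runs of ties

A run `a` has a colour `c a`, a kind `k a`, a line `p a`, and the `N a` ties
`tau (k a) (p a) (-1) (q a + 2 t)`, `0 ≤ t < N a`. `Rg L a u t` : the region over the run which contains the
half boxes. `Ok E W L` : the geometric hypotheses. `gD A e` : distance of the tie `e` to the other ties of `A` on
its run and to the ends of the run, in numbers of ties; radius `gD / K`; `Bt` : the half box; `Qt` : the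
event that the wall cluster of the tie reaches the boundary of the half box. -/

namespace Pool.Agent.H46.Sp

open Pool.Agent.H75.Perc Pool.Agent.H75.TwoArm Pool.Agent.H75.Four Pool.Agent.H69.Q1
open Pool.Agent.Q1 Pool.Agent.H99.NC Pool.Agent.H49.Perc
open Pool.Agent.H39.Q1 (gm lm lm_apply hg mem_BRz sgb tc)
open Pool.Agent.H60.Q1 Pool.Agent.H33.Q1
open Pool.Agent.H74.R45 (exists_lt)
open Pool.Agent.H13.R45 (gp)
open Pool.Agent.H46.G1
open Pool.Agent.Q1.M6b (cr)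

/-- runs of ties -/
structure TSys (κ : Type*) where
  c : κ → Bool
  k : κ → Kd
  p : κ → ℤ
  q : κ → ℤ
  N : κ → ℕ

namespace TSys

variable {κ : Type*} (S : TSys κ)

/-- tile of the run `a` at height `u` -/
def tl (a : κ) (u t : ℤ) : ℤ × ℤ := (S.k a).tau (S.p a) u t

/-- tile of the tie number `x.2` of the run `x.1` -/
def til (x : κ × ℤ) : ℤ × ℤ := S.tl x.1 (-1) (S.q x.1 + 2 * x.2)

/-- label of a tie -/
def tie (x : κ × ℤ) : ℤ × ℤ := lt (S.til x)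

/-- point of a tie on the wall -/
def hub (x : κ × ℤ) : ℤ × ℤ := Kd.bp (S.c x.1) (S.k x.1) (S.p x.1) (S.q x.1 + 2 * x.2)

/-- region over the run `a` -/
def Rg (L : ℤ) (a : κ) (u t : ℤ) : Prop :=
  -1 ≤ u ∧ u ≤ L ∧ 8 * (u + 2) ≤ t - (S.q a - 2) ∧ 8 * (u + 2) ≤ S.q a + 2 * S.N a - t

/-- the label `l` is not in the regions over the runs -/
def Away (L : ℤ) (l : ℤ × ℤ) : Prop := ∀ a u t, S.Rg L a u t → l ≠ lt (S.tl a u t)

/-- the number of a tie -/
noncomputable def idx [Fintype κ] [DecidableEq κ] [Nonempty κ] (e : ℤ × ℤ) : κ × ℤ :=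
  Function.invFunOn S.tie (Wp S.N : Set (κ × ℤ)) e

section fin

variable [Fintype κ] [DecidableEq κ]

/-- all ties -/
noncomputable def Ti : Finset (ℤ × ℤ) := (Wp S.N).image S.tie

/-- geometric hypotheses -/
structure Ok (E W : Finset (ℤ × ℤ)) (L : ℤ) : Prop where
  par : ∀ a, 0 < S.N a → (S.k a).Par (S.p a) (S.q a)
  inj : Set.InjOn S.til (Wp S.N : Set (κ × ℤ))
  sub : S.Ti ⊆ E
  bulk : ∀ a u t, 0 ≤ u → S.Rg L a u t → lt (S.tl a u t) ∈ E \ S.Ti
  first : ∀ a t, S.Rg L a (-1) t → lt (S.tl a (-1) t) ∈ S.Ti ∨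
    (lt (S.tl a (-1) t) ∉ E ∧ (lt (S.tl a (-1) t) ∈ W ↔ S.c a = false))
  sep : ∀ a b u t u' t', a ≠ b → 0 ≤ u → 0 ≤ u' → S.Rg L a u t → S.Rg L b u' t' →
    S.tl a u t ≠ S.tl b u' t'

end fin

variable [Fintype κ] [DecidableEq κ] [Nonempty κ]

/-- distance of the tie `e` to the other ties of `A` and to the ends of its run -/
noncomputable def gD (A : Finset (ℤ × ℤ)) (e : ℤ × ℤ) : ℤ := gw S.N (A.image S.idx) (S.idx e)

/-- half box of a tie -/
noncomputable def Bt (K : ℤ) (A : Finset (ℤ × ℤ)) (e : ℤ × ℤ) : Finset (ℤ × ℤ) :=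
  HBx (S.c (S.idx e).1) (S.k (S.idx e).1).ep (S.hub (S.idx e)) (S.gD A e / K)

/-- the wall cluster of the tie reaches the boundary of the half box -/
def Qt (K : ℤ) (A : Finset (ℤ × ℤ)) (e : ℤ × ℤ) (ξ : Finset (ℤ × ℤ)) : Prop :=
  1 ≤ S.gD A e / K → P1 (S.c (S.idx e).1) (S.k (S.idx e).1).ep (S.hub (S.idx e)) (S.gD A e / K) ξ

open Classical in
/-- state of the ties: the ties of `T` are cut (a tie of a wired run is cut if it is open, a tie of a free
run is cut if it is closed) -/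
noncomputable def st (T : Finset (ℤ × ℤ)) : Finset (ℤ × ℤ) :=
  S.Ti.filter fun e => (e ∈ T ↔ S.c (S.idx e).1 = true)

variable {S} {E W A T ω ξ : Finset (ℤ × ℤ)} {L K r : ℤ} {a b : κ} {t s u : ℤ} {e e' l : ℤ × ℤ}
  {x y : κ × ℤ}

omit [Nonempty κ] in
lemma mem_Ti : e ∈ S.Ti ↔ ∃ x ∈ Wp S.N, S.tie x = e := by
  unfold Ti; rw [mem_image]

lemma mem_st : e ∈ S.st T ↔ e ∈ S.Ti ∧ (e ∈ T ↔ S.c (S.idx e).1 = true) := by
  unfold st; rw [mem_filter]

lemma Qt_local : S.Qt K A e ξ ↔ S.Qt K A e (ξ ∩ S.Bt K A e) := by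
  unfold Qt Bt
  rw [P1_local]

omit [Nonempty κ] in
lemma Ok.inj' (h : S.Ok E W L) : Set.InjOn S.tie (Wp S.N : Set (κ × ℤ)) := fun _ hx _ hy hxy =>
  h.inj hx hy (lt_inj hxy)

lemma Ok.idx_tie (h : S.Ok E W L) (hx : x ∈ Wp S.N) : S.idx (S.tie x) = x :=
  Set.InjOn.leftInvOn_invFunOn h.inj' (mem_coe.2 hx)

lemma Ok.idx_mem (h : S.Ok E W L) (he : e ∈ S.Ti) : S.idx e ∈ Wp S.N ∧ S.tie (S.idx e) = e := by
  obtain ⟨x, hx, rfl⟩ := mem_Ti.1 he
  rw [h.idx_tie hx]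
  exact ⟨hx, rfl⟩

lemma Ok.idx_inj (h : S.Ok E W L) (he : e ∈ S.Ti) (he' : e' ∈ S.Ti) (hi : S.idx e = S.idx e') :
    e = e' := by
  rw [← (h.idx_mem he).2, ← (h.idx_mem he').2, hi]

omit [Nonempty κ] in
/-- parity of the ties -/
lemma Ok.par' (h : S.Ok E W L) (hx : x ∈ Wp S.N) :
    (S.k x.1).Par (S.p x.1) (S.q x.1 + 2 * x.2) := by
  have h1 := mem_Wp.1 hx
  have h2 := h.par x.1 (by omega)
  unfold Kd.Par at h2 ⊢
  generalize S.k x.1 = k at *
  generalize S.p x.1 = p at *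
  generalize S.q x.1 = q at *
  cases k <;> simp only [Kd.tau] at h2 ⊢ <;> omega

omit [Nonempty κ] in
/-- a tie in the first layer of a run belongs to the run -/
lemma Ok.own (h : S.Ok E W L) (ha : 0 < S.N a) (hl : lt (S.tl a (-1) t) ∈ S.Ti)
    (h1 : S.q a - 2 < t) (h2 : t < S.q a + 2 * S.N a) :
    ∃ s, (a, s) ∈ Wp S.N ∧ t = S.q a + 2 * s := by
  obtain ⟨x, hx, h3⟩ := mem_Ti.1 hl
  have h4 := h.par' hx
  have h5 := h.par a ha
  have h6 : S.til x = S.tl a (-1) t := lt_inj h3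
  unfold til tl at h6
  unfold Kd.Par at h4 h5
  rw [h6] at h4
  have h7 : (t - S.q a) % 2 = 0 := by
    generalize S.k a = k at *
    generalize S.p a = p at *
    cases k <;> simp only [Kd.tau] at h4 h5 <;> omega
  refine ⟨(t - S.q a) / 2, ?_, by omega⟩
  rw [mem_Wp]
  simp only
  omega

section dist

variable (hO : S.Ok E W L) (hA : A ⊆ S.Ti)

include hO hA

lemma gD_pos (he : e ∈ A) : 1 ≤ S.gD A e := by
  have h1 := mem_Wp.1 (hO.idx_mem (hA he)).1
  unfold gD gw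
  exact gap1_pos h1.1 h1.2

omit hA in
lemma gD_lo (hx : x ∈ Wp S.N) : S.gD A (S.tie x) ≤ x.2 + 1 := by
  have h1 := mem_Wp.1 hx
  unfold gD gw
  rw [hO.idx_tie hx]
  exact gap1_le_left (by omega)

omit hA in
lemma gD_hi (hx : x ∈ Wp S.N) : S.gD A (S.tie x) ≤ S.N x.1 - x.2 := by
  have h1 := mem_Wp.1 hx
  unfold gD gw
  rw [hO.idx_tie hx]
  exact gap1_le_right (by omega)

omit hA in
lemma gD_ne (hx : (a, t) ∈ Wp S.N) (hy : (a, s) ∈ Wp S.N) (hyA : S.tie (a, s) ∈ A) (hne : s ≠ t) :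
    S.gD A (S.tie (a, t)) ≤ |t - s| := by
  unfold gD
  rw [hO.idx_tie hx]
  refine gw_le_of_mem ?_ hne
  rw [← hO.idx_tie hy]
  exact mem_image_of_mem _ hyA

end dist

/-! ### The boxes -/

lemma HBx_zero {c : Bool} {k : Kd} {p q r : ℤ} (h : k.Par p q) (hr : r ≤ 0) :
    HBx c k.ep (Kd.bp c k p q) r = ∅ := by
  rw [eq_empty_iff_forall_notMem]
  intro l hl
  obtain ⟨u, t, rfl⟩ := Kd.exists_tau k p (Kd.odd_of_HBx hl)
  rw [Kd.mem_HBx_tau h] at hl
  have := Kd.rel_bound hl.2.1 hl.2.2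
  omega

section box

variable (hO : S.Ok E W L) (hA : A ⊆ S.Ti) (hK : 20 ≤ K) (hKL : ∀ a, (S.N a : ℤ) < K * L)

include hO hK hKL

/-- the radius -/
lemma rad (hx : x ∈ Wp S.N) (hr : 1 ≤ S.gD A (S.tie x) / K) :
    20 * (S.gD A (S.tie x) / K) ≤ S.gD A (S.tie x) ∧ 2 * (S.gD A (S.tie x) / K) ≤ L := by
  have h1 := gD_lo (A := A) hO hx
  have h2 := gD_hi (A := A) hO hx
  have h3 := Int.mul_ediv_self_le (x := S.gD A (S.tie x)) (k := K) (by omega)
  have h4 := hKL x.1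
  generalize S.gD A (S.tie x) / K = r at *
  generalize S.gD A (S.tie x) = D at *
  refine ⟨by nlinarith, ?_⟩
  by_contra hcon
  have h5 : L + 1 ≤ 2 * r := by omega
  have h6 : K * (L + 1) ≤ K * (2 * r) := mul_le_mul_of_nonneg_left h5 (by omega)
  have h7 : K * (2 * r) = 2 * (K * r) := by ring
  have h8 : K * (L + 1) = K * L + K := by ring
  omega

/-- the region around a tie -/
lemma rg_of (hx : x ∈ Wp S.N) (hr : 1 ≤ S.gD A (S.tie x) / K) (h1 : -1 ≤ u)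
    (h2 : u ≤ 2 * (S.gD A (S.tie x) / K))
    (h3 : |s - (S.q x.1 + 2 * x.2)| ≤ 2 * (S.gD A (S.tie x) / K)) : S.Rg L x.1 u s := by
  obtain ⟨h4, h5⟩ := rad (A := A) hO hK hKL hx hr
  have h6 := gD_lo (A := A) hO hx
  have h7 := gD_hi (A := A) hO hx
  rw [abs_le] at h3
  unfold Rg
  omega

/-- the environment around a tie -/
lemma flat_of (hx : x ∈ Wp S.N) (hr : 1 ≤ S.gD A (S.tie x) / K) :
    Flat E W S.Ti (S.c x.1) (S.k x.1) (S.p x.1) (S.q x.1 + 2 * x.2)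
      (2 * (S.gD A (S.tie x) / K)) where
  par := hO.par' hx
  sub := hO.sub
  bulk := fun u t h1 h2 h3 => hO.bulk _ _ _ h1 (rg_of hO hK hKL hx hr (by omega) h2 h3)
  first := fun t h3 => hO.first _ _ (rg_of hO hK hKL hx hr (by omega) (by omega) h3)

omit hKL in
/-- labels of a box -/
lemma mem_Bt_tie (hx : x ∈ Wp S.N) (hl : l ∈ S.Bt K A (S.tie x)) :
    1 ≤ S.gD A (S.tie x) / K ∧ ∃ u t, l = lt (S.tl x.1 u t) ∧ 0 ≤ u ∧
      u < 2 * (S.gD A (S.tie x) / K) ∧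
      |t - (S.q x.1 + 2 * x.2)| ≤ 2 * (S.gD A (S.tie x) / K) := by
  unfold Bt at hl
  rw [hO.idx_tie hx] at hl
  have h1 : 1 ≤ S.gD A (S.tie x) / K := by
    by_contra hcon
    unfold hub at hl
    rw [HBx_zero (hO.par' hx) (by omega)] at hl
    exact absurd hl (notMem_empty _)
  refine ⟨h1, ?_⟩
  obtain ⟨u, t, rfl⟩ := Kd.exists_tau (S.k x.1) (S.p x.1) (Kd.odd_of_HBx hl)
  unfold hub at hl
  rw [Kd.mem_HBx_tau (hO.par' hx)] at hl
  have := Kd.rel_bound hl.2.1 hl.2.2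
  exact ⟨u, t, rfl, hl.1, this.2.2, this.1⟩

/-- labels of a box, region -/
lemma Bt_rg (hx : x ∈ Wp S.N) (hl : l ∈ S.Bt K A (S.tie x)) :
    ∃ u t, l = lt (S.tl x.1 u t) ∧ 0 ≤ u ∧ S.Rg L x.1 u t := by
  obtain ⟨h1, u, t, h2, h3, h4, h5⟩ := mem_Bt_tie hO hK hx hl
  exact ⟨u, t, h2, h3, rg_of hO hK hKL hx h1 (by omega) (by omega) h5⟩

include hA

/-- the boxes are in the bulk -/
lemma Bt_sub (he : e ∈ A) : S.Bt K A e ⊆ E \ S.Ti := by
  obtain ⟨hx, hxe⟩ := hO.idx_mem (hA he)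
  intro l hl
  rw [← hxe] at hl
  obtain ⟨u, t, rfl, h1, h2⟩ := Bt_rg hO hK hKL hx hl
  exact hO.bulk _ _ _ h1 h2

/-- the boxes are disjoint -/
lemma Bt_disj (he : e ∈ A) (he' : e' ∈ A) (hne : e ≠ e') :
    Disjoint (S.Bt K A e) (S.Bt K A e') := by
  obtain ⟨hx, hxe⟩ := hO.idx_mem (hA he)
  obtain ⟨hy, hye⟩ := hO.idx_mem (hA he')
  rw [disjoint_left]
  intro l hl hl'
  rw [← hxe] at hl
  rw [← hye] at hl'
  by_cases hab : (S.idx e).1 = (S.idx e').1
  · obtain ⟨g1, u, t, g2, g3, g4, g5⟩ := mem_Bt_tie hO hK hx hl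
    obtain ⟨g1', u', t', g2', g3', g4', g5'⟩ := mem_Bt_tie hO hK hy hl'
    obtain ⟨r1, -⟩ := rad (A := A) hO hK hKL hx g1
    obtain ⟨r2, -⟩ := rad (A := A) hO hK hKL hy g1'
    have heA : S.tie (S.idx e) ∈ A := by rw [hxe]; exact he
    have heA' : S.tie (S.idx e') ∈ A := by rw [hye]; exact he'
    have hne' : S.idx e ≠ S.idx e' := fun h => hne (by rw [← hxe, ← hye, h])
    generalize S.idx e = X at *
    generalize S.idx e' = Y at *
    obtain ⟨x1, x2⟩ := X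
    obtain ⟨y1, y2⟩ := Y
    simp only at hab
    subst hab
    simp only at *
    have h2 : y2 ≠ x2 := fun h => hne' (by rw [h])
    have h3 := gD_ne hO hx hy heA' h2
    have h4 := gD_ne hO hy hx heA h2.symm
    rw [g2] at g2'
    have h5 := (Kd.tau_inj (lt_inj g2')).2
    subst h5
    rw [abs_sub_comm y2 x2] at h4
    rw [abs_le] at g5 g5'
    rw [le_abs] at h3 h4
    omega
  · obtain ⟨u, t, g1, g2, g3⟩ := Bt_rg hO hK hKL hx hl
    obtain ⟨u', t', g1', g2', g3'⟩ := Bt_rg hO hK hKL hy hl'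
    rw [g1] at g1'
    exact hO.sep _ _ _ _ _ _ hab g2 g2' g3 g3' (lt_inj g1')

end box

/-! ### Toggles -/

lemma st_open (he : e ∈ S.Ti) (hc : S.c (S.idx e).1 = true) (heT : e ∉ T) :
    S.st (insert e T) = insert e (S.st T) ∧ e ∉ S.st T := by
  constructor
  · ext f
    rw [mem_insert, mem_st, mem_st, mem_insert]
    by_cases h : f = e
    · subst h; simp [he, hc]
    · simp [h]
  · rw [mem_st, hc]; simp [heT]

lemma st_closed (he : e ∈ S.Ti) (hc : S.c (S.idx e).1 = false) (heT : e ∉ T) :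
    S.st T = insert e (S.st (insert e T)) ∧ e ∉ S.st (insert e T) := by
  constructor
  · ext f
    rw [mem_insert, mem_st, mem_st, mem_insert]
    by_cases h : f = e
    · subst h; simp [he, hc, heT]
    · simp [h]
  · rw [mem_st, hc]; simp

/-- **The toggle** for a system of runs. -/
theorem toggle {X : Env} {c : ℤ × ℤ} (hX : X.PlaneLike W) (hd : Disjoint X.E W)
    (hO : S.Ok X.E W L) (hK : 20 ≤ K) (hKL : ∀ a, (S.N a : ℤ) < K * L) (hA : A ⊆ S.Ti) (he : e ∈ A)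
    (hω : ω ⊆ X.E \ S.Ti) (hT : T ⊆ A) (heT : e ∉ T) (hQ : ¬ S.Qt K A e ω)
    (hroot : S.Away L (plab X.c0)) (hc : S.Away L (lab c)) :
    X.incO (ω ∪ S.st T) c = X.incO (ω ∪ S.st (insert e T)) c := by
  obtain ⟨hx, hxe⟩ := hO.idx_mem (hA he)
  have heA : S.tie (S.idx e) ∈ A := by rw [hxe]; exact he
  unfold Qt at hQ
  push Not at hQ
  obtain ⟨hr, hP⟩ := hQ
  rw [← hxe] at hr
  have hfl := flat_of (A := A) hO hK hKL hx hr
  have hP' : ¬ P1 (S.c (S.idx e).1) (S.k (S.idx e).1).ep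
      (Kd.bp (S.c (S.idx e).1) (S.k (S.idx e).1) (S.p (S.idx e).1) (S.q (S.idx e).1 + 2 * (S.idx e).2))
      (S.gD A (S.tie (S.idx e)) / K) ω := by
    rw [hxe]; exact hP
  have hbox := hfl.box (r := S.gD A (S.tie (S.idx e)) / K) le_rfl
  have hst : ∀ T', S.st T' ⊆ S.Ti := fun T' => filter_subset _ _
  have hωE : ω ⊆ X.E := fun l hl => (mem_sdiff.1 (hω hl)).1
  have hPT : ∀ T', ¬ P1 (S.c (S.idx e).1) (S.k (S.idx e).1).ep
      (Kd.bp (S.c (S.idx e).1) (S.k (S.idx e).1) (S.p (S.idx e).1) (S.q (S.idx e).1 + 2 * (S.idx e).2))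
      (S.gD A (S.tie (S.idx e)) / K) (ω ∪ S.st T') := by
    intro T'
    rw [P1_local]
    rw [P1_local] at hP'
    have e1 : (ω ∪ S.st T') ∩ HBx (S.c (S.idx e).1) (S.k (S.idx e).1).ep
      (Kd.bp (S.c (S.idx e).1) (S.k (S.idx e).1) (S.p (S.idx e).1) (S.q (S.idx e).1 + 2 * (S.idx e).2))
      (S.gD A (S.tie (S.idx e)) / K) = ω ∩ HBx (S.c (S.idx e).1) (S.k (S.idx e).1).ep
      (Kd.bp (S.c (S.idx e).1) (S.k (S.idx e).1) (S.p (S.idx e).1) (S.q (S.idx e).1 + 2 * (S.idx e).2))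
      (S.gD A (S.tie (S.idx e)) / K) := by
      ext l
      rw [mem_inter, mem_inter, mem_union]
      constructor
      · rintro ⟨h1 | h1, h2⟩
        · exact ⟨h1, h2⟩
        · exact absurd (hst _ h1) (mem_sdiff.1 (hbox h2)).2
      · rintro ⟨h1, h2⟩
        exact ⟨Or.inl h1, h2⟩
    rw [e1]
    exact hP'
  have hoth : ∀ T', T' ⊆ A → ∀ t, |t - (S.q (S.idx e).1 + 2 * (S.idx e).2)| ≤
      2 * (S.gD A (S.tie (S.idx e)) / K) →
      lt ((S.k (S.idx e).1).tau (S.p (S.idx e).1) (-1) t) ∈ S.Ti →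
      t ≠ S.q (S.idx e).1 + 2 * (S.idx e).2 →
      (lt ((S.k (S.idx e).1).tau (S.p (S.idx e).1) (-1) t) ∈ ω ∪ S.st T' ↔
        S.c (S.idx e).1 = false) := by
    intro T' hT' t h1 h2 h3
    have hrg := rg_of (A := A) hO hK hKL hx hr (u := -1) (by omega) (by omega) h1
    unfold Rg at hrg
    have hN := mem_Wp.1 hx
    obtain ⟨s, hs, rfl⟩ := hO.own (a := (S.idx e).1) (t := t) (by omega) h2 (by omega) (by omega)
    have hse : S.idx (S.tie ((S.idx e).1, s)) = ((S.idx e).1, s) := hO.idx_tie hs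
    have hnotA : S.tie ((S.idx e).1, s) ∉ A := by
      intro hcon
      have h4 := gD_ne (A := A) hO (a := (S.idx e).1) (t := (S.idx e).2) hx hs hcon
        (fun h => h3 (by rw [h]))
      have h5 := (rad (A := A) hO hK hKL hx hr).1
      rw [abs_le] at h1
      change S.gD A (S.tie (S.idx e)) ≤ _ at h4
      rw [le_abs] at h4
      omega
    have hmem : S.tie ((S.idx e).1, s) ∈ S.Ti := mem_Ti.2 ⟨_, hs, rfl⟩
    change (S.tie ((S.idx e).1, s) ∈ ω ∪ S.st T' ↔ S.c (S.idx e).1 = false)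
    rw [mem_union, mem_st, hse]
    constructor
    · rintro (h4 | ⟨-, h4⟩)
      · exact absurd hmem (mem_sdiff.1 (hω h4)).2
      · by_contra h5
        rw [Bool.not_eq_false] at h5
        exact hnotA (hT' (h4.2 h5))
    · intro h4
      refine Or.inr ⟨hmem, ⟨fun h5 => absurd (hT' h5) hnotA, fun h5 => ?_⟩⟩
      simp only at h5
      rw [h4] at h5
      exact absurd h5 (by simp)
  have hnear : ∀ l, S.Away L l → ∀ u t, -1 ≤ u → u < 2 * (S.gD A (S.tie (S.idx e)) / K) →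
      |t - (S.q (S.idx e).1 + 2 * (S.idx e).2)| ≤ 2 * (S.gD A (S.tie (S.idx e)) / K) →
      l ≠ lt ((S.k (S.idx e).1).tau (S.p (S.idx e).1) u t) := fun l hl u t h1 h2 h3 =>
    hl _ u t (rg_of (A := A) hO hK hKL hx hr h1 (by omega) h3)
  have heTi := hA he
  have hsubE : ∀ T', ω ∪ S.st T' ⊆ X.E := fun T' => union_subset hωE ((hst T').trans hO.sub)
  have hlte : lt ((S.k (S.idx e).1).tau (S.p (S.idx e).1) (-1) (S.q (S.idx e).1 + 2 * (S.idx e).2)) =
      e := hxe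
  have heω : e ∉ ω := fun h => (mem_sdiff.1 (hω h)).2 heTi
  cases hcol : S.c (S.idx e).1 with
  | true =>
    obtain ⟨h1, h2⟩ := st_open (S := S) heTi hcol heT
    have key := Flat.toggle (c0 := c) hX hd hfl hr le_rfl (by rw [hlte]; exact heTi) (hsubE T)
      (by rw [hlte, mem_union, not_or]; exact ⟨heω, h2⟩) (hoth T hT) (hPT T) (hnear _ hroot)
      (hnear _ hc)
    rw [hlte] at key
    rw [key, h1]
    congr 1
    rw [union_insert]
  | false =>
    obtain ⟨h1, h2⟩ := st_closed (S := S) heTi hcol heT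
    have key := Flat.toggle (c0 := c) hX hd hfl hr le_rfl (by rw [hlte]; exact heTi)
      (hsubE (insert e T)) (by rw [hlte, mem_union, not_or]; exact ⟨heω, h2⟩)
      (hoth (insert e T) (insert_subset he hT)) (hPT _) (hnear _ hroot) (hnear _ hc)
    rw [hlte] at key
    rw [key, h1]
    congr 1
    rw [union_insert]

/-! ### Probabilities and the sum over the sets of ties -/

omit [Fintype κ] [DecidableEq κ] [Nonempty κ] in
/-- the probability that the wall cluster of the tie reaches the boundary of the half box -/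
theorem Qt_le : ∃ C : ℝ, 1 ≤ C ∧ ∀ {κ : Type} [Fintype κ] [DecidableEq κ] [Nonempty κ]
    (S : TSys κ) (K : ℤ) (A : Finset (ℤ × ℤ)) (e : ℤ × ℤ), 1 ≤ K →
    1 ≤ S.gD A e → PrP (fun _ => (1 / 2 : ℝ)) (S.Bt K A e) (S.Qt K A e) ≤
      C * K * (cr (S.gD A e : ℝ))⁻¹ := by
  obtain ⟨C, hC, hP⟩ := P1_le_div
  refine ⟨C, hC, fun S K A e hK hD => ?_⟩
  exact hP (S.c (S.idx e).1) (S.k (S.idx e).1).ep (S.hub (S.idx e)) (S.gD A e) K hD hK

/-- the sum over the sets of `l` ties -/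
theorem sum_ties (hO : S.Ok E W L) {M : ℕ} (hM : ∀ a, S.N a ≤ M) (l : ℕ) :
    ∑ A ∈ powersetCard l S.Ti, ∏ e ∈ A, (cr (S.gD A e : ℝ))⁻¹ ≤
      ((l + 1) * 6 ^ l) ^ Fintype.card κ * (cr ((M + 1 : ℕ) : ℝ) ^ 2) ^ l := by
  classical
  refine le_trans ?_ (wall_sum l hM)
  have hinj : Set.InjOn (fun A : Finset (ℤ × ℤ) => A.image S.idx)
      (powersetCard l S.Ti : Set (Finset (ℤ × ℤ))) := by
    intro A hA B hB hAB
    have hA' := (mem_powersetCard.1 (mem_coe.1 hA)).1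
    have hB' := (mem_powersetCard.1 (mem_coe.1 hB)).1
    simp only at hAB
    have key : ∀ {A B : Finset (ℤ × ℤ)}, A ⊆ S.Ti → B ⊆ S.Ti →
        A.image S.idx = B.image S.idx → A ⊆ B := by
      intro A B hA hB hAB e he
      have h4 : S.idx e ∈ B.image S.idx := by rw [← hAB]; exact mem_image_of_mem _ he
      obtain ⟨e', he', h5⟩ := mem_image.1 h4
      rwa [← hO.idx_inj (hB he') (hA he) h5]
    exact Subset.antisymm (key hA' hB' hAB) (key hB' hA' hAB.symm)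
  have hstep : ∑ A ∈ powersetCard l S.Ti, ∏ e ∈ A, (cr (S.gD A e : ℝ))⁻¹ =
      ∑ W ∈ (powersetCard l S.Ti).image (fun A => A.image S.idx),
        ∏ x ∈ W, (cr (gw S.N W x : ℝ))⁻¹ := by
    rw [sum_image hinj]
    refine sum_congr rfl fun A hA => ?_
    have hA' := (mem_powersetCard.1 hA).1
    rw [prod_image fun a ha b hb hab => hO.idx_inj (hA' ha) (hA' hb) hab]
    rfl
  rw [hstep]
  refine sum_le_sum_of_subset_of_nonneg ?_ ?_
  · intro W hW
    obtain ⟨A, hA, rfl⟩ := mem_image.1 hW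
    obtain ⟨hA1, hA2⟩ := mem_powersetCard.1 hA
    rw [mem_powersetCard]
    refine ⟨fun x hx => ?_, ?_⟩
    · obtain ⟨e, he, rfl⟩ := mem_image.1 hx
      exact (hO.idx_mem (hA1 he)).1
    · rw [card_image_of_injOn fun a ha b hb hab => hO.idx_inj (hA1 ha) (hA1 hb) hab, hA2]
  · intro W hW _
    refine prod_nonneg fun x hx => inv_nonneg.2 (Pool.Agent.Q1.M6b.cr_nonneg ?_)
    have h4 := mem_Wp.1 ((mem_powersetCard.1 hW).1 hx)
    have h5 : 1 ≤ gw S.N W x := by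
      unfold gw
      exact gap1_pos h4.1 h4.2
    exact_mod_cast (by omega : (0 : ℤ) ≤ gw S.N W x)

end TSys

end Pool.Agent.H46.Sp
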