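import Mathlib
import Pool.Agent.H46.Sp.Def

set_option autoImplicit false
open Finset

/-! # The tied form of the environments of a window

Two consecutive straight line tiles of one side which are joined by the outer cap become one random tile (the
tie) and one fixed tile.

* left column: tiles `(m y - 1, y - 1)`, `(m y - 1, y)`, the tie is the upper one;
* right column: tiles `(M y, y)`, `(M y, y + 1)`, the tie is the lower one;
* floor (line tiles below `P+`): tiles `(x, y)`, `(x + 1, y)`, the tie is the left one;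
* ceiling (line tiles above `P-`): tiles `(x - 1, y)`, `(x, y)`, the tie is the right one.

In a column the side is wired iff the sum of the coordinates of the tie is odd, on a floor or a ceiling iff it
is even. The tie is cut if it is open (wired side) or closed (free side). The fixed tile is closed on a wired
side and open on a free side. -/

namespace Pool.Agent.H46.Sp

open Pool.Agent.H75.Perc Pool.Agent.H75.TwoArm Pool.Agent.Q1 Pool.Agent.H33.Q1
open Pool.Agent.H75.Four Pool.Agent.H69.Q1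
open Pool.Agent.H74.R45 (exists_lt)

namespace Win

variable (D : Win)

/-! ### Straight line tiles -/

/-- straight line tile in the left column, row `y` -/
def SL (j y : ℤ) : Prop := -1 ≤ y ∧ y < D.h ∧ (D.LS j y ∨ D.LN j y)

/-- straight line tile in the right column, row `y` -/
def SR (j y : ℤ) : Prop := -1 ≤ y ∧ y < D.h ∧ (D.RS j y ∨ D.RN j y)

/-- straight line tile below a floor of `P+`, on the left -/
def SFl (j x y : ℤ) : Prop := j ≤ y ∧ y < D.h ∧ D.m y ≤ x ∧ x + 1 < D.a y

/-- straight line tile below a floor of `P+`, on the right -/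
def SFr (j x y : ℤ) : Prop := j ≤ y ∧ y < D.h ∧ D.b y < x ∧ x < D.M y

/-- straight line tile below the lowest side -/
def SFb (j x y : ℤ) : Prop := j = 0 ∧ y = -1 ∧ D.m (-1) ≤ x ∧ x < D.M (-1)

/-- straight line tile above a ceiling of `P-`, on the left -/
def SCl (j x y : ℤ) : Prop := -1 ≤ y ∧ y + 1 < j ∧ D.m y ≤ x ∧ x + 1 < D.a (y + 1)

/-- straight line tile above a ceiling of `P-`, on the right -/
def SCr (j x y : ℤ) : Prop := -1 ≤ y ∧ y + 1 < j ∧ D.b (y + 1) < x ∧ x < D.M y

/-- straight line tile above the highest side -/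
def SCt (j x y : ℤ) : Prop := j = D.h ∧ y = D.h - 1 ∧ D.m (D.h - 1) ≤ x ∧ x < D.M (D.h - 1)

/-! ### Ties -/

/-- the tile `(x, y)` is a tie of the left column -/
def TL (j x y : ℤ) : Prop := x = D.m y - 1 ∧ D.SL j y ∧ D.SL j (y - 1) ∧ D.m y = D.m (y - 1) ∧
  ((x + y) % 2 = 1 ↔ D.cl y = true)

/-- the tile `(x, y)` is a tie of the right column -/
def TR (j x y : ℤ) : Prop := x = D.M y ∧ D.SR j y ∧ D.SR j (y + 1) ∧ D.M y = D.M (y + 1) ∧
  ((x + y) % 2 = 1 ↔ D.cr y = true)

/-- the tile `(x, y)` is a tie of a floor -/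
def TF (j x y : ℤ) : Prop :=
  (D.SFl j x y ∧ D.SFl j (x + 1) y ∧ ((x + y) % 2 = 0 ↔ D.cl (y - 1) = true)) ∨
  (D.SFr j x y ∧ D.SFr j (x + 1) y ∧ ((x + y) % 2 = 0 ↔ D.cr (y - 1) = true)) ∨
  (D.SFb j x y ∧ D.SFb j (x + 1) y ∧ ((x + y) % 2 = 0 ↔ D.cb = true))

/-- the tile `(x, y)` is a tie of a ceiling -/
def TC (j x y : ℤ) : Prop :=
  (D.SCl j x y ∧ D.SCl j (x - 1) y ∧ ((x + y) % 2 = 0 ↔ D.cl (y + 1) = true)) ∨
  (D.SCr j x y ∧ D.SCr j (x - 1) y ∧ ((x + y) % 2 = 0 ↔ D.cr (y + 1) = true)) ∨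
  (D.SCt j x y ∧ D.SCt j (x - 1) y ∧ ((x + y) % 2 = 0 ↔ D.ct = true))

/-- the tile `(x, y)` is a tie of the environment number `j` -/
def Tie (j x y : ℤ) : Prop := D.TL j x y ∨ D.TR j x y ∨ D.TF j x y ∨ D.TC j x y

/-- the tile `(x, y)` is the fixed tile of a pair in a column -/
def FxV (j x y : ℤ) : Prop := D.TL j x (y + 1) ∨ D.TR j x (y - 1)

/-- the tile `(x, y)` is the fixed tile of a pair on a floor or a ceiling -/
def FxH (j x y : ℤ) : Prop := D.TF j (x - 1) y ∨ D.TC j (x + 1) y

/-! ### The environments with ties -/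

/-- random labels -/
noncomputable def ET (j : ℤ) : Finset (ℤ × ℤ) :=
  D.TS fun x y => D.InE j x y ∧ ¬ D.FxV j x y ∧ ¬ D.FxH j x y

/-- open labels near the window -/
noncomputable def WRT (j : ℤ) : Finset (ℤ × ℤ) := D.TS fun x y => D.InC j x y ∨ D.InX x y ∨
  (D.FxV j x y ∧ (x + y) % 2 = 1) ∨ (D.FxH j x y ∧ (x + y) % 2 = 0)

/-- open labels -/
noncomputable def WT (j : ℤ) (Wo : Finset (ℤ × ℤ)) : Finset (ℤ × ℤ) := D.WRT j ∪ Wo

open Classical in
/-- open weights; `lam u` is the weight of the cut state -/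
noncomputable def qT (j : ℤ) (a b c : ℂ) (e : ℤ × ℤ) : ℂ :=
  if D.TL j (tt e).1 (tt e).2 then
    (if D.cl (tt e).2 = true then (if (tt e).2 < D.yP then 1 - b * (1 - b) else 1 - c * (1 - c))
      else (if (tt e).2 < D.yP then b * (1 - b) else c * (1 - c)))
  else if D.TR j (tt e).1 (tt e).2 then
    (if D.cr (tt e).2 = true then (if j ≤ (tt e).2 then 1 - c * (1 - c) else 1 - b * (1 - b))
      else (if j ≤ (tt e).2 then c * (1 - c) else b * (1 - b)))
  else if D.TF j (tt e).1 (tt e).2 ∨ D.TC j (tt e).1 (tt e).2 then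
    (if ((tt e).1 + (tt e).2) % 2 = 0 then 1 - a * (1 - a) else a * (1 - a))
  else D.qJ j a b c e

end Win

end Pool.Agent.H46.Sp
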