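import Mathlib
import Pool.Agent.H46.Sp.Lev
import Pool.Agent.H46.Sp.TSys

set_option autoImplicit false
open Finset

/-! # The runs of ties of a window

`wsys D j G` : runs of ties of the environment number `j`, `0 < j < h`. The run `((v, l), g)` : `v` = true :
column, rows between `g` and the next level; `v` = false : ledge (floor if `j < g`, ceiling if not) whose
tiles are in the row `g - 1`. `l` = true : left boundary. -/

namespace Pool.Agent.H46.Sp

open Pool.Agent.H75.Perc Pool.Agent.H75.TwoArm Pool.Agent.Q1 Pool.Agent.H33.Q1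
open Pool.Agent.H46.G1

/-- runs of ties -/
abbrev Ru (G : Finset ℤ) := (Bool × Bool) × {g : ℤ // g ∈ G}

namespace Win

variable (D : Win) (j : ℤ) (G : Finset ℤ)

/-- kind of a run -/
def rk (g : ℤ) : Bool → Bool → Kd
  | true, true => .L
  | true, false => .R
  | false, _ => if j < g then .F else .C

/-- line of a run -/
def rp (g : ℤ) : Bool → Bool → ℤ
  | true, true => D.a g
  | true, false => D.b g
  | false, _ => if j < g then g else g - 1

/-- colour of a run -/
def rc (g : ℤ) : Bool → Bool → Bool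
  | true, true => D.cl g
  | true, false => D.cr g
  | false, true => if j < g then D.cl (g - 2) else D.cl g
  | false, false => if j < g then D.cr (g - 2) else D.cr g

/-- first and last tile of a run -/
def rlo (g : ℤ) : Bool → Bool → ℤ
  | true, _ => g
  | false, true => min (D.a (g - 1)) (D.a g)
  | false, false => min (D.b (g - 1)) (D.b g)

/-- end of a run -/
noncomputable def rhi (g : ℤ) : Bool → Bool → ℤ
  | true, _ => nxt G g
  | false, true => max (D.a (g - 1)) (D.a g)
  | false, false => max (D.b (g - 1)) (D.b g)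

/-- column or row of the tiles of a run -/
def rot (g : ℤ) : Bool → Bool → ℤ
  | true, true => D.a g - 1
  | true, false => D.b g
  | false, _ => g - 1

/-- the line of the environment number `j` follows the run -/
def ract (g : ℤ) : Bool → Bool → Prop
  | true, true => (j ≤ g ∧ nxt G g ≤ D.yP) ∨ (D.yP ≤ g ∧ nxt G g ≤ j)
  | true, false => (D.yQ ≤ g ∧ nxt G g ≤ j) ∨ (j ≤ g ∧ nxt G g ≤ D.yQ)
  | false, true => (j < g ∧ g < D.yP) ∨ (D.yP ≤ g ∧ g < j)
  | false, false => (j < g ∧ g ≤ D.yQ) ∨ (D.yQ < g ∧ g < j)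

/-- first tie of a run -/
def rq (g : ℤ) (v l : Bool) : ℤ := D.rlo g v l + 4 + (D.rlo g v l + D.rot g v l + 1) % 2

open Classical in
/-- number of ties of a run -/
noncomputable def rN (g : ℤ) (v l : Bool) : ℕ :=
  if D.ract j G g v l then ((D.rhi G g v l - 4 - D.rq g v l) / 2).toNat else 0

/-- **The runs of ties** of the environment number `j`. -/
noncomputable def wsys : TSys (Ru G) where
  c a := D.rc j a.2.1 a.1.1 a.1.2
  k a := rk j a.2.1 a.1.1 a.1.2
  p a := D.rp j a.2.1 a.1.1 a.1.2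
  q a := D.rq a.2.1 a.1.1 a.1.2
  N a := D.rN j G a.2.1 a.1.1 a.1.2

variable {D j G} {L : ℤ} {a : Ru G} {u t x y g : ℤ} {v l : Bool}

lemma rN_pos (h : 0 < D.rN j G g v l) :
    D.ract j G g v l ∧ D.rq g v l + 2 * (D.rN j G g v l : ℤ) ≤ D.rhi G g v l - 4 := by
  unfold rN at h ⊢
  split_ifs at h ⊢ with h1
  · refine ⟨h1, ?_⟩
    omega
  · omega

lemma rq_lo : D.rlo g v l + 4 ≤ D.rq g v l := by
  unfold rq; omega

/-- the region over a run -/
lemma rg_pos (h : (D.wsys j G).Rg L a u t) : D.ract j G a.2.1 a.1.1 a.1.2 ∧ 0 < (D.wsys j G).N a ∧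
    D.rlo a.2.1 a.1.1 a.1.2 + 8 * (u + 2) + 2 ≤ t ∧
    t + 8 * (u + 2) + 4 ≤ D.rhi G a.2.1 a.1.1 a.1.2 := by
  obtain ⟨h1, h2, h3, h4⟩ := h
  have h5 : 0 < (D.wsys j G).N a := by
    by_contra hcon
    have h6 : (D.wsys j G).N a = 0 := by omega
    rw [h6] at h4
    push_cast at h4
    omega
  have h6 := rN_pos h5
  have h7 := rq_lo (D := D) (g := a.2.1) (v := a.1.1) (l := a.1.2)
  refine ⟨h6.1, h5, ?_, ?_⟩
  · change 8 * (u + 2) ≤ t - (D.rq a.2.1 a.1.1 a.1.2 - 2) at h3
    omega
  · change 8 * (u + 2) ≤ D.rq a.2.1 a.1.1 a.1.2 + 2 * (D.rN j G a.2.1 a.1.1 a.1.2 : ℤ) - t at h4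
    have h8 := h6.2
    omega

/-! ### Half windows -/

/-- random tiles of `P+` above the row `j - 1` and of `P-` below it -/
def InB (j x y : ℤ) : Prop := (j ≤ y ∧ y < D.h ∧ D.a y ≤ x ∧ x < D.b y) ∨
  (-1 ≤ y ∧ y + 1 < j ∧ D.a (y + 1) ≤ x ∧ x < D.b (y + 1))

/-- the tile of a run at height `u` -/
lemma tl_V1 {hg : g ∈ G} : (D.wsys j G).tl ((true, true), ⟨g, hg⟩) u t = (D.a g + u, t) := rfl

lemma tl_V2 {hg : g ∈ G} : (D.wsys j G).tl ((true, false), ⟨g, hg⟩) u t = (D.b g - 1 - u, t) := rfl

lemma tl_F {hg : g ∈ G} (h : j < g) :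
    (D.wsys j G).tl ((false, l), ⟨g, hg⟩) u t = (t, g + u) := by
  show (rk j g false l).tau (D.rp j g false l) u t = _
  unfold rk rp
  rw [if_pos h, if_pos h]
  rfl

lemma tl_C {hg : g ∈ G} (h : ¬ j < g) :
    (D.wsys j G).tl ((false, l), ⟨g, hg⟩) u t = (t, g - 2 - u) := by
  show (rk j g false l).tau (D.rp j g false l) u t = _
  unfold rk rp
  rw [if_neg h, if_neg h]
  show (t, g - 1 - 1 - u) = _
  congr 1
  ring

/-- the facts about the region over a run -/
inductive RF (D : Win) (j : ℤ) (G : Finset ℤ) (u x y : ℤ) : Bool → Bool → ℤ → Prop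
  | V1 {g : ℤ} (hx : x = D.a g + u) (h1 : g + 8 * (u + 2) + 2 ≤ y) (h2 : y + 8 * (u + 2) + 4 ≤ nxt G g)
      (h3 : (j ≤ g ∧ nxt G g ≤ D.yP) ∨ (D.yP ≤ g ∧ nxt G g ≤ j)) : RF D j G u x y true true g
  | V2 {g : ℤ} (hx : x = D.b g - 1 - u) (h1 : g + 8 * (u + 2) + 2 ≤ y)
      (h2 : y + 8 * (u + 2) + 4 ≤ nxt G g)
      (h3 : (D.yQ ≤ g ∧ nxt G g ≤ j) ∨ (j ≤ g ∧ nxt G g ≤ D.yQ)) : RF D j G u x y true false g
  | F1 {g : ℤ} (hy : y = g + u) (h1 : D.a g + 8 * (u + 2) + 2 ≤ x)
      (h2 : x + 8 * (u + 2) + 4 ≤ D.a (g - 1)) (h3 : j < g) (h4 : g < D.yP) :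
      RF D j G u x y false true g
  | F2 {g : ℤ} (hy : y = g + u) (h1 : D.b (g - 1) + 8 * (u + 2) + 2 ≤ x)
      (h2 : x + 8 * (u + 2) + 4 ≤ D.b g) (h3 : j < g) (h4 : g ≤ D.yQ) :
      RF D j G u x y false false g
  | C1 {g : ℤ} (hy : y = g - 2 - u) (h1 : D.a (g - 1) + 8 * (u + 2) + 2 ≤ x)
      (h2 : x + 8 * (u + 2) + 4 ≤ D.a g) (h3 : D.yP ≤ g) (h4 : g < j) :
      RF D j G u x y false true g
  | C2 {g : ℤ} (hy : y = g - 2 - u) (h1 : D.b g + 8 * (u + 2) + 2 ≤ x)
      (h2 : x + 8 * (u + 2) + 4 ≤ D.b (g - 1)) (h3 : D.yQ < g) (h4 : g < j) :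
      RF D j G u x y false false g

lemma rf_of (hG : D.Lev j G) (h0 : 0 < j) (h1 : j < D.h) (h : (D.wsys j G).Rg L a u t) :
    RF D j G u ((D.wsys j G).tl a u t).1 ((D.wsys j G).tl a u t).2 a.1.1 a.1.2 a.2.1 := by
  obtain ⟨hact, hN, hlo, hhi⟩ := rg_pos h
  have hu : -1 ≤ u := h.1
  obtain ⟨⟨v, l⟩, ⟨g, hg⟩⟩ := a
  cases v <;> cases l
  · change (j < g ∧ g ≤ D.yQ) ∨ (D.yQ < g ∧ g < j) at hact
    change min (D.b (g - 1)) (D.b g) + 8 * (u + 2) + 2 ≤ t at hlo
    change t + 8 * (u + 2) + 4 ≤ max (D.b (g - 1)) (D.b g) at hhi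
    rcases hact with ⟨h2, h3⟩ | ⟨h2, h3⟩
    · rw [tl_F h2]
      have h4 : D.b (g - 1) ≤ D.b g := by
        by_cases h5 : g < D.yQ
        · exact D.b_mono (by omega) (by omega) h5
        · have h6 : g = D.yQ := by omega
          rw [h6]
          exact (D.bQ (by omega)).le
      rw [min_eq_left h4] at hlo
      rw [max_eq_right h4] at hhi
      exact .F2 rfl hlo hhi h2 h3
    · rw [tl_C (by omega)]
      have h4 : D.b g ≤ D.b (g - 1) := D.b_anti (by omega) (by omega) (by omega)
      rw [min_eq_right h4] at hlo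
      rw [max_eq_left h4] at hhi
      exact .C2 rfl hlo hhi h2 h3
  · change (j < g ∧ g < D.yP) ∨ (D.yP ≤ g ∧ g < j) at hact
    change min (D.a (g - 1)) (D.a g) + 8 * (u + 2) + 2 ≤ t at hlo
    change t + 8 * (u + 2) + 4 ≤ max (D.a (g - 1)) (D.a g) at hhi
    rcases hact with ⟨h2, h3⟩ | ⟨h2, h3⟩
    · rw [tl_F h2]
      have h4 : D.a g ≤ D.a (g - 1) := D.a_anti (by omega) (by omega) h3
      rw [min_eq_right h4] at hlo
      rw [max_eq_left h4] at hhi
      exact .F1 rfl hlo hhi h2 h3
    · rw [tl_C (by omega)]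
      have h4 : D.a (g - 1) ≤ D.a g := by
        by_cases h5 : D.yP < g
        · exact D.a_mono (by omega) (by omega) (by omega)
        · have h6 : g = D.yP := by omega
          rw [h6]
          exact (D.aP (by omega)).le
      rw [min_eq_left h4] at hlo
      rw [max_eq_right h4] at hhi
      exact .C1 rfl hlo hhi h2 h3
  · exact .V2 rfl hlo hhi hact
  · exact .V1 rfl hlo hhi hact

end Win

namespace Win

variable {D : Win} {j : ℤ} {G : Finset ℤ} {L L2 : ℤ} {u u' t x y g g' : ℤ} {v l v' l' : Bool}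

/-- the regions are in the half windows -/
lemma RF.inB (hG : D.Lev j G) (hF : D.Fat L2) (h0 : 0 < j) (h1 : j < D.h) (hu : 0 ≤ u)
    (huL : u < L2) (hg : g ∈ G) (h : RF D j G u x y v l g) : D.InB j x y := by
  have hP0 := D.P0
  have hQ1 := D.Q1
  have hP1 := D.P1
  have hQ0 := D.Q0
  cases h with
  | V1 hx h1' h2 h3 =>
    have n1 := hG.nxt_h (g := g) (by omega)
    have n0 := hG.lo g hg
    have e1 := hG.ab_eq hg (y := y) (by omega) (by omega)
    have e2 := hG.ab_eq hg (y := y + 1) (by omega) (by omega)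
    have e3 := hF.row y (by omega) (by omega)
    rcases h3 with ⟨h3, h4⟩ | ⟨h3, h4⟩
    · exact Or.inl ⟨by omega, by omega, by omega, by omega⟩
    · exact Or.inr ⟨by omega, by omega, by omega, by omega⟩
  | V2 hx h1' h2 h3 =>
    have n1 := hG.nxt_h (g := g) (by omega)
    have n0 := hG.lo g hg
    have e1 := hG.ab_eq hg (y := y) (by omega) (by omega)
    have e2 := hG.ab_eq hg (y := y + 1) (by omega) (by omega)
    have e3 := hF.row y (by omega) (by omega)
    rcases h3 with ⟨h3, h4⟩ | ⟨h3, h4⟩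
    · exact Or.inr ⟨by omega, by omega, by omega, by omega⟩
    · exact Or.inl ⟨by omega, by omega, by omega, by omega⟩
  | F1 hy h1' h2 h3 h4 =>
    have e1 := D.ov1 (g - 1) (by omega) (by omega)
    rw [sub_add_cancel] at e1
    obtain ⟨y0, k1, k2, k3⟩ := hF.col x g (by omega) (by omega) (by omega) (by omega)
    have k4 : y0 = g := by
      by_contra hne
      have := k3 (g - 1) (by omega) (by omega)
      omega
    have k5 := k3 y (by omega) (by omega)
    exact Or.inl ⟨by omega, k5.2.1, k5.2.2⟩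
  | F2 hy h1' h2 h3 h4 =>
    have e1 := D.ov2 (g - 1) (by omega) (by omega)
    rw [sub_add_cancel] at e1
    obtain ⟨y0, k1, k2, k3⟩ := hF.col x g (by omega) (by omega) (by omega) (by omega)
    have k4 : y0 = g := by
      by_contra hne
      have := k3 (g - 1) (by omega) (by omega)
      omega
    have k5 := k3 y (by omega) (by omega)
    exact Or.inl ⟨by omega, k5.2.1, k5.2.2⟩
  | C1 hy h1' h2 h3 h4 =>
    have e1 := D.ov2 (g - 1) (by omega) (by omega)
    rw [sub_add_cancel] at e1
    obtain ⟨y0, k1, k2, k3⟩ := hF.col x (g - 1) (by omega) (by omega) (by omega) (by omega)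
    have k4 : y0 + L2 = g := by
      by_contra hne
      have := k3 g (by omega) (by omega)
      omega
    have k5 := k3 (y + 1) (by omega) (by omega)
    exact Or.inr ⟨by omega, by omega, k5.2.2⟩
  | C2 hy h1' h2 h3 h4 =>
    have e1 := D.ov1 (g - 1) (by omega) (by omega)
    rw [sub_add_cancel] at e1
    obtain ⟨y0, k1, k2, k3⟩ := hF.col x (g - 1) (by omega) (by omega) (by omega) (by omega)
    have k4 : y0 + L2 = g := by
      by_contra hne
      have := k3 g (by omega) (by omega)
      omega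
    have k5 := k3 (y + 1) (by omega) (by omega)
    exact Or.inr ⟨by omega, by omega, k5.2.2⟩

/-- rows of the regions -/
lemma RF.upper (hu : 0 ≤ u) (h : RF D j G u x y v l g) (hv : v = false) (hj : j < g) :
    y = g + u := by
  cases h <;> first | omega | exact absurd hv (by simp)

section sep

variable (hG : D.Lev j G) (hF : D.Fat L2) (hL : 2 * L + 2 ≤ L2) (h0 : 0 < j) (h1j : j < D.h)
  (hu : 0 ≤ u) (hu' : 0 ≤ u') (huL : u ≤ L) (huL' : u' ≤ L) (hg : g ∈ G) (hg' : g' ∈ G)

include hG hF hL h0 h1j hu hu' huL huL' hg hg'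

lemma sep_V1 (h : RF D j G u x y true true g) (h' : RF D j G u' x y v' l' g') :
    v' = true ∧ l' = true ∧ g' = g := by
  have hP0 := D.P0
  have hP1 := D.P1
  have hQ0 := D.Q0
  have hQ1 := D.Q1
  have s1 := hG.side hg hg'
  have s2 := hG.side hg' hg
  cases h with
  | V1 hx h1 h2 h3 =>
    have n1 := hG.nxt_h (g := g) (by omega)
    have n0 := hG.lo g hg
    have e1 := hG.ab_eq hg (y := y) (by omega) (by omega)
    have e3 := hF.row y (by omega) (by omega)
    cases h' with
    | V1 hx' h1' h2' h3' => exact ⟨rfl, rfl, by omega⟩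
    | V2 hx' h1' h2' h3' =>
      exfalso
      have e1' := hG.ab_eq hg' (y := y) (by omega) (by omega)
      omega
    | F1 hy h1' h2' h3' h4' =>
      exfalso
      rcases h3 with ⟨h3, h4⟩ | ⟨h3, h4⟩
      · have e5 : D.a g ≤ D.a g' := D.a_anti (by omega) (by omega) (by omega)
        omega
      · omega
    | F2 hy h1' h2' h3' h4' =>
      exfalso
      rcases h3 with ⟨h3, h4⟩ | ⟨h3, h4⟩
      · have e5 : D.a g ≤ D.a (g' - 1) := D.a_anti (by omega) (by omega) (by omega)
        have e6 := hF.row (g' - 1) (by omega) (by omega)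
        omega
      · omega
    | C1 hy h1' h2' h3' h4' =>
      exfalso
      rcases h3 with ⟨h3, h4⟩ | ⟨h3, h4⟩
      · omega
      · have e5 : D.a y ≤ D.a (g' - 1) := D.a_mono (by omega) (by omega) (by omega)
        omega
    | C2 hy h1' h2' h3' h4' =>
      exfalso
      rcases h3 with ⟨h3, h4⟩ | ⟨h3, h4⟩
      · omega
      · have e5 : D.a y ≤ D.a g' := D.a_mono (by omega) (by omega) (by omega)
        have e6 := hF.row g' (by omega) (by omega)
        omega

lemma sep_V2 (h : RF D j G u x y true false g) (h' : RF D j G u' x y v' l' g') :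
    v' = true ∧ l' = false ∧ g' = g := by
  have hP0 := D.P0
  have hP1 := D.P1
  have hQ0 := D.Q0
  have hQ1 := D.Q1
  have s1 := hG.side hg hg'
  have s2 := hG.side hg' hg
  cases h with
  | V2 hx h1 h2 h3 =>
    have n1 := hG.nxt_h (g := g) (by omega)
    have n0 := hG.lo g hg
    have e1 := hG.ab_eq hg (y := y) (by omega) (by omega)
    have e3 := hF.row y (by omega) (by omega)
    cases h' with
    | V2 hx' h1' h2' h3' => exact ⟨rfl, rfl, by omega⟩
    | V1 hx' h1' h2' h3' =>
      exfalso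
      have e1' := hG.ab_eq hg' (y := y) (by omega) (by omega)
      omega
    | F1 hy h1' h2' h3' h4' =>
      exfalso
      rcases h3 with ⟨h3, h4⟩ | ⟨h3, h4⟩
      · omega
      · have e5 : D.b (g' - 1) ≤ D.b y := D.b_mono (by omega) (by omega) (by omega)
        have e6 := hF.row (g' - 1) (by omega) (by omega)
        omega
    | F2 hy h1' h2' h3' h4' =>
      exfalso
      rcases h3 with ⟨h3, h4⟩ | ⟨h3, h4⟩
      · omega
      · have e5 : D.b g' ≤ D.b y := D.b_mono (by omega) (by omega) (by omega)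
        omega
    | C1 hy h1' h2' h3' h4' =>
      exfalso
      rcases h3 with ⟨h3, h4⟩ | ⟨h3, h4⟩
      · have e5 : D.b g' ≤ D.b y := D.b_anti (by omega) (by omega) (by omega)
        have e6 := hF.row g' (by omega) (by omega)
        omega
      · omega
    | C2 hy h1' h2' h3' h4' =>
      exfalso
      rcases h3 with ⟨h3, h4⟩ | ⟨h3, h4⟩
      · have e5 : D.b (g' - 1) ≤ D.b y := D.b_anti (by omega) (by omega) (by omega)
        omega
      · omega

lemma sep_F1 (h : RF D j G u x y false true g) (hj : j < g) (h' : RF D j G u' x y false l' g') :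
    l' = true ∧ g' = g := by
  have hP0 := D.P0
  have hP1 := D.P1
  have hQ0 := D.Q0
  have hQ1 := D.Q1
  cases h with
  | F1 hy h1 h2 h3 h4 =>
    cases h' with
    | F1 hy' h1' h2' h3' h4' =>
      refine ⟨rfl, ?_⟩
      rcases lt_trichotomy g g' with h5 | h5 | h5
      · have e5 : D.a (g' - 1) ≤ D.a g := D.a_anti (by omega) (by omega) (by omega)
        omega
      · exact h5.symm
      · have e5 : D.a (g - 1) ≤ D.a g' := D.a_anti (by omega) (by omega) (by omega)
        omega
    | F2 hy' h1' h2' h3' h4' =>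
      exfalso
      rcases le_total g g' with h5 | h5
      · have e5 : D.b (g - 1) ≤ D.b (g' - 1) := D.b_mono (by omega) (by omega) (by omega)
        have e6 := hF.row (g - 1) (by omega) (by omega)
        omega
      · have e5 : D.a (g - 1) ≤ D.a (g' - 1) := D.a_anti (by omega) (by omega) (by omega)
        have e6 := hF.row (g' - 1) (by omega) (by omega)
        omega
    | C1 hy' h1' h2' h3' h4' => omega
    | C2 hy' h1' h2' h3' h4' => omega
  | C1 hy h1 h2 h3 h4 => omega

lemma sep_F2 (h : RF D j G u x y false false g) (hj : j < g) (h' : RF D j G u' x y false false g') :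
    g' = g := by
  have hP0 := D.P0
  have hP1 := D.P1
  have hQ0 := D.Q0
  have hQ1 := D.Q1
  cases h with
  | F2 hy h1 h2 h3 h4 =>
    cases h' with
    | F2 hy' h1' h2' h3' h4' =>
      rcases lt_trichotomy g g' with h5 | h5 | h5
      · have e5 : D.b g ≤ D.b (g' - 1) := by
          by_cases h6 : g' - 1 < D.yQ
          · exact D.b_mono (by omega) (by omega) h6
          · omega
        omega
      · exact h5.symm
      · have e5 : D.b g' ≤ D.b (g - 1) := D.b_mono (by omega) (by omega) (by omega)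
        omega
    | C2 hy' h1' h2' h3' h4' => omega
  | C2 hy h1 h2 h3 h4 => omega

lemma sep_C1 (h : RF D j G u x y false true g) (hj : ¬ j < g) (h' : RF D j G u' x y false l' g') :
    l' = true ∧ g' = g := by
  have hP0 := D.P0
  have hP1 := D.P1
  have hQ0 := D.Q0
  have hQ1 := D.Q1
  cases h with
  | C1 hy h1 h2 h3 h4 =>
    cases h' with
    | C1 hy' h1' h2' h3' h4' =>
      refine ⟨rfl, ?_⟩
      rcases lt_trichotomy g g' with h5 | h5 | h5
      · have e5 : D.a g ≤ D.a (g' - 1) := D.a_mono (by omega) (by omega) (by omega)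
        omega
      · exact h5.symm
      · have e5 : D.a g' ≤ D.a (g - 1) := D.a_mono (by omega) (by omega) (by omega)
        omega
    | C2 hy' h1' h2' h3' h4' =>
      exfalso
      rcases le_total g g' with h5 | h5
      · have e5 : D.a g ≤ D.a g' := D.a_mono (by omega) (by omega) (by omega)
        have e6 := hF.row g' (by omega) (by omega)
        omega
      · have e5 : D.b g ≤ D.b g' := D.b_anti (by omega) (by omega) (by omega)
        have e6 := hF.row g (by omega) (by omega)
        omega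
    | F1 hy' h1' h2' h3' h4' => omega
    | F2 hy' h1' h2' h3' h4' => omega
  | F1 hy h1 h2 h3 h4 => omega

lemma sep_C2 (h : RF D j G u x y false false g) (hj : ¬ j < g)
    (h' : RF D j G u' x y false false g') : g' = g := by
  have hP0 := D.P0
  have hP1 := D.P1
  have hQ0 := D.Q0
  have hQ1 := D.Q1
  cases h with
  | C2 hy h1 h2 h3 h4 =>
    cases h' with
    | C2 hy' h1' h2' h3' h4' =>
      rcases lt_trichotomy g g' with h5 | h5 | h5
      · have e5 : D.b (g' - 1) ≤ D.b g := D.b_anti (by omega) (by omega) (by omega)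
        omega
      · exact h5.symm
      · have e5 : D.b (g - 1) ≤ D.b g' := D.b_anti (by omega) (by omega) (by omega)
        omega
    | F2 hy' h1' h2' h3' h4' => omega
  | F2 hy h1 h2 h3 h4 => omega

end sep

/-- **The regions over different runs are disjoint.** -/
theorem rf_sep (hG : D.Lev j G) (hF : D.Fat L2) (hL : 2 * L + 2 ≤ L2) (h0 : 0 < j) (h1j : j < D.h)
    (hu : 0 ≤ u) (hu' : 0 ≤ u') (huL : u ≤ L) (huL' : u' ≤ L) (hg : g ∈ G) (hg' : g' ∈ G)
    (h : RF D j G u x y v l g) (h' : RF D j G u' x y v' l' g') : v' = v ∧ l' = l ∧ g' = g := by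
  cases v
  · cases v'
    · by_cases hj : j < g
      · cases l
        · cases l'
          · exact ⟨rfl, rfl, sep_F2 hG hF hL h0 h1j hu hu' huL huL' hg hg' h hj h'⟩
          · have hj' : j < g' := by
              have hy := RF.upper hu h rfl hj
              cases h' <;> omega
            have := sep_F1 hG hF hL h0 h1j hu' hu huL' huL hg' hg h' hj' h
            exact ⟨rfl, this.1.symm, this.2.symm⟩
        · have := sep_F1 hG hF hL h0 h1j hu hu' huL huL' hg hg' h hj h'
          exact ⟨rfl, this.1, this.2⟩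
      · cases l
        · cases l'
          · exact ⟨rfl, rfl, sep_C2 hG hF hL h0 h1j hu hu' huL huL' hg hg' h hj h'⟩
          · have hj' : ¬ j < g' := by
              intro hcon
              have hy := RF.upper hu' h' rfl hcon
              cases h <;> omega
            have := sep_C1 hG hF hL h0 h1j hu' hu huL' huL hg' hg h' hj' h
            exact ⟨rfl, this.1.symm, this.2.symm⟩
        · have := sep_C1 hG hF hL h0 h1j hu hu' huL huL' hg hg' h hj h'
          exact ⟨rfl, this.1, this.2⟩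
    · cases l'
      · have := sep_V2 hG hF hL h0 h1j hu' hu huL' huL hg' hg h' h
        exact absurd this.1 (by simp)
      · have := sep_V1 hG hF hL h0 h1j hu' hu huL' huL hg' hg h' h
        exact absurd this.1 (by simp)
  · cases l
    · exact sep_V2 hG hF hL h0 h1j hu hu' huL huL' hg hg' h h'
    · exact sep_V1 hG hF hL h0 h1j hu hu' huL huL' hg hg' h h'

end Win

end Pool.Agent.H46.Sp
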