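import Mathlib
import Pool.Agent.H46.Sp.WSys
import Pool.Agent.H42.Sp.TieVal

set_option autoImplicit false
open Finset

/-! # The caps of helper42 along the runs

`cap_at` : every tile of the first outer layer of a run, except near its ends, is the kept or the removed
tile of a cap of the colour of the run. -/

namespace Pool.Agent.H46.Sp

open Pool.Agent.H75.Perc Pool.Agent.H75.TwoArm Pool.Agent.Q1 Pool.Agent.H33.Q1
open Pool.Agent.H46.G1
open Pool.Agent.H42.Sp (Sd Ix CP kt rt CPs ETp WTp OTp qTp wk tw kt_odd rt_even mem_CPs)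

namespace Win

variable {D : Win} {j : ℤ} {G : Finset ℤ} {L L2 : ℤ} {u u' t x y g g' : ℤ} {v l v' l' : Bool}

/-- the weight of the line along a run -/
def rwt (D : Win) (j : ℤ) (wa wb wc : ℂ) (g : ℤ) : Bool → Bool → ℂ
  | true, true => if g < D.yP then wb else wc
  | true, false => if j ≤ g then wc else wb
  | false, _ => wa

/-- the cap is not in the row `j - 1` (helper69's `NRow`) -/
def NRw (j : ℤ) (k : Ix) : Prop := (k.1 = .F → k.2.2 ≠ j - 1) ∧ (k.1 = .C → k.2.2 ≠ j)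

/-- data of the cap at a tile of the first layer -/
def CapAt (D : Win) (j : ℤ) (c : Bool) (w : ℂ → ℂ → ℂ → ℂ) (T : ℤ × ℤ) : Prop :=
  ∃ k : Ix, (CP D j k ∧ NRw j k) ∧ ((k.2.1 + k.2.2) % 2 = 1 ↔ c = true) ∧
    ((T.1 + T.2) % 2 = 1 → kt k = T) ∧ ((T.1 + T.2) % 2 = 0 → rt k = T) ∧
    ∀ wa wb wc, wk D j wa wb wc k = w wa wb wc

lemma capL {X : ℤ} {w : ℂ → ℂ → ℂ → ℂ}
    (h : ∀ y, (y = t ∨ y = t + 1) → ((X + y) % 2 = 1 ↔ D.cl y = true) →
      CP D j (.L, (X, y)) ∧ ∀ wa wb wc, wk D j wa wb wc (.L, (X, y)) = w wa wb wc)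
    (hcl : D.cl (t + 1) = D.cl t) : CapAt D j (D.cl t) w (X, t) := by
  by_cases hc : D.cl t = true <;> by_cases hp : (X + t) % 2 = 1
  · obtain ⟨h1, h2⟩ := h t (Or.inl rfl) (by simp [hc, hp])
    refine ⟨_, ⟨h1, by unfold NRw; simp⟩, by simp [hc, hp], fun _ => ?_, fun h3 => by simp only at h3; omega, h2⟩
    unfold kt; simp [hp]
  · obtain ⟨h1, h2⟩ := h (t + 1) (Or.inr rfl) (by rw [hcl, hc]; simp; omega)
    refine ⟨_, ⟨h1, by unfold NRw; simp⟩, by rw [hc]; simp; omega, fun h3 => absurd h3 hp, fun _ => ?_, h2⟩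
    unfold rt; simp only; rw [if_pos (by omega), add_sub_cancel_right]
  · obtain ⟨h1, h2⟩ := h (t + 1) (Or.inr rfl) (by
      rw [hcl]; exact ⟨fun h3 => by omega, fun h3 => absurd h3 hc⟩)
    refine ⟨_, ⟨h1, by unfold NRw; simp⟩, ⟨fun h3 => by simp only at h3; omega, fun h3 => absurd h3 hc⟩, fun _ => ?_,
      fun h3 => by simp only at h3; omega, h2⟩
    unfold kt; simp only; rw [if_neg (by omega), add_sub_cancel_right]
  · obtain ⟨h1, h2⟩ := h t (Or.inl rfl) ⟨fun h3 => absurd h3 hp, fun h3 => absurd h3 hc⟩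
    refine ⟨_, ⟨h1, by unfold NRw; simp⟩, ⟨fun h3 => absurd h3 hp, fun h3 => absurd h3 hc⟩, fun h3 => absurd h3 hp,
      fun _ => ?_, h2⟩
    unfold rt; simp only; rw [if_neg hp]

lemma capR {X : ℤ} {w : ℂ → ℂ → ℂ → ℂ}
    (h : ∀ y, (y = t ∨ y = t + 1) → ((X + 1 + y) % 2 = 1 ↔ D.cr y = true) →
      CP D j (.R, (X + 1, y)) ∧ ∀ wa wb wc, wk D j wa wb wc (.R, (X + 1, y)) = w wa wb wc)
    (hcl : D.cr (t + 1) = D.cr t) : CapAt D j (D.cr t) w (X, t) := by
  by_cases hc : D.cr t = true <;> by_cases hp : (X + t) % 2 = 1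
  · obtain ⟨h1, h2⟩ := h (t + 1) (Or.inr rfl) (by rw [hcl, hc]; simp; omega)
    refine ⟨_, ⟨h1, by unfold NRw; simp⟩, by rw [hc]; simp; omega, fun _ => ?_, fun h3 => by simp only at h3; omega, h2⟩
    unfold kt; simp only
    rw [if_pos (by omega), add_sub_cancel_right, add_sub_cancel_right]
  · obtain ⟨h1, h2⟩ := h t (Or.inl rfl) (by rw [hc]; simp; omega)
    refine ⟨_, ⟨h1, by unfold NRw; simp⟩, by rw [hc]; simp; omega, fun h3 => absurd h3 hp, fun _ => ?_, h2⟩
    unfold rt; simp only; rw [if_pos (by omega), add_sub_cancel_right]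
  · obtain ⟨h1, h2⟩ := h t (Or.inl rfl) ⟨fun h3 => by omega, fun h3 => absurd h3 hc⟩
    refine ⟨_, ⟨h1, by unfold NRw; simp⟩, ⟨fun h3 => by simp only at h3; omega, fun h3 => absurd h3 hc⟩, fun _ => ?_,
      fun h3 => by simp only at h3; omega, h2⟩
    unfold kt; simp only; rw [if_neg (by omega), add_sub_cancel_right]
  · obtain ⟨h1, h2⟩ := h (t + 1) (Or.inr rfl) (by
      rw [hcl]; exact ⟨fun h3 => by omega, fun h3 => absurd h3 hc⟩)
    refine ⟨_, ⟨h1, by unfold NRw; simp⟩, ⟨fun h3 => by simp only at h3; omega, fun h3 => absurd h3 hc⟩,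
      fun h3 => absurd h3 hp, fun _ => ?_, h2⟩
    unfold rt; simp only
    rw [if_neg (by omega), add_sub_cancel_right, add_sub_cancel_right]

lemma capF {Y : ℤ} {c : Bool} {w : ℂ → ℂ → ℂ → ℂ}
    (h : ∀ x, (x = t ∨ x = t + 1) → ((x + Y) % 2 = 1 ↔ c = true) →
      CP D j (.F, (x, Y)) ∧ ∀ wa wb wc, wk D j wa wb wc (.F, (x, Y)) = w wa wb wc)
    (hY : Y ≠ j - 1) : CapAt D j c w (t, Y) := by
  by_cases hc : c = true <;> by_cases hp : (t + Y) % 2 = 1
  · obtain ⟨h1, h2⟩ := h t (Or.inl rfl) (by simp [hc, hp])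
    refine ⟨_, ⟨h1, by unfold NRw; simp [hY]⟩, by simp [hc, hp], fun _ => ?_, fun h3 => by simp only at h3; omega, h2⟩
    unfold kt; simp [hp]
  · obtain ⟨h1, h2⟩ := h (t + 1) (Or.inr rfl) (by rw [hc]; simp; omega)
    refine ⟨_, ⟨h1, by unfold NRw; simp [hY]⟩, by rw [hc]; simp; omega, fun h3 => absurd h3 hp, fun _ => ?_, h2⟩
    unfold rt; simp only; rw [if_pos (by omega), add_sub_cancel_right]
  · obtain ⟨h1, h2⟩ := h (t + 1) (Or.inr rfl) ⟨fun h3 => by omega, fun h3 => absurd h3 hc⟩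
    refine ⟨_, ⟨h1, by unfold NRw; simp [hY]⟩, ⟨fun h3 => by simp only at h3; omega, fun h3 => absurd h3 hc⟩, fun _ => ?_,
      fun h3 => by simp only at h3; omega, h2⟩
    unfold kt; simp only; rw [if_neg (by omega), add_sub_cancel_right]
  · obtain ⟨h1, h2⟩ := h t (Or.inl rfl) ⟨fun h3 => absurd h3 hp, fun h3 => absurd h3 hc⟩
    refine ⟨_, ⟨h1, by unfold NRw; simp [hY]⟩, ⟨fun h3 => absurd h3 hp, fun h3 => absurd h3 hc⟩, fun h3 => absurd h3 hp,
      fun _ => ?_, h2⟩
    unfold rt; simp only; rw [if_neg hp]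

lemma capC {Y : ℤ} {c : Bool} {w : ℂ → ℂ → ℂ → ℂ}
    (h : ∀ x, (x = t ∨ x = t + 1) → ((x + (Y + 1)) % 2 = 1 ↔ c = true) →
      CP D j (.C, (x, Y + 1)) ∧ ∀ wa wb wc, wk D j wa wb wc (.C, (x, Y + 1)) = w wa wb wc)
    (hY : Y + 1 ≠ j) : CapAt D j c w (t, Y) := by
  by_cases hc : c = true <;> by_cases hp : (t + Y) % 2 = 1
  · obtain ⟨h1, h2⟩ := h (t + 1) (Or.inr rfl) (by rw [hc]; simp; omega)
    refine ⟨_, ⟨h1, by unfold NRw; simp [hY]⟩, by rw [hc]; simp; omega, fun _ => ?_, fun h3 => by simp only at h3; omega, h2⟩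
    unfold kt; simp only
    rw [if_pos (by omega), add_sub_cancel_right, add_sub_cancel_right]
  · obtain ⟨h1, h2⟩ := h t (Or.inl rfl) (by rw [hc]; simp; omega)
    refine ⟨_, ⟨h1, by unfold NRw; simp [hY]⟩, by rw [hc]; simp; omega, fun h3 => absurd h3 hp, fun _ => ?_, h2⟩
    unfold rt; simp only; rw [if_pos (by omega), add_sub_cancel_right]
  · obtain ⟨h1, h2⟩ := h t (Or.inl rfl) ⟨fun h3 => by omega, fun h3 => absurd h3 hc⟩
    refine ⟨_, ⟨h1, by unfold NRw; simp [hY]⟩, ⟨fun h3 => by simp only at h3; omega, fun h3 => absurd h3 hc⟩, fun _ => ?_,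
      fun h3 => by simp only at h3; omega, h2⟩
    unfold kt; simp only; rw [if_neg (by omega), add_sub_cancel_right]
  · obtain ⟨h1, h2⟩ := h (t + 1) (Or.inr rfl) ⟨fun h3 => by omega, fun h3 => absurd h3 hc⟩
    refine ⟨_, ⟨h1, by unfold NRw; simp [hY]⟩, ⟨fun h3 => by simp only at h3; omega, fun h3 => absurd h3 hc⟩,
      fun h3 => absurd h3 hp, fun _ => ?_, h2⟩
    unfold rt; simp only
    rw [if_neg (by omega), add_sub_cancel_right, add_sub_cancel_right]

/-- **The caps along a run.** -/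
theorem cap_at (hG : D.Lev j G) (h0 : 0 < j) (h1 : j < D.h) {a : Ru G}
    (hact : D.ract j G a.2.1 a.1.1 a.1.2) (ht1 : D.rlo a.2.1 a.1.1 a.1.2 + 2 ≤ t)
    (ht2 : t + 3 ≤ D.rhi G a.2.1 a.1.1 a.1.2) :
    CapAt D j ((D.wsys j G).c a) (fun wa wb wc => rwt D j wa wb wc a.2.1 a.1.1 a.1.2)
      ((D.wsys j G).tl a (-1) t) := by
  have hP0 := D.P0
  have hP1 := D.P1
  have hQ0 := D.Q0
  have hQ1 := D.Q1
  obtain ⟨⟨v, l⟩, ⟨g, hg⟩⟩ := a
  have g0 := hG.lo g hg
  have g1 := hG.hi g hg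
  cases v <;> cases l
  · change (j < g ∧ g ≤ D.yQ) ∨ (D.yQ < g ∧ g < j) at hact
    change min (D.b (g - 1)) (D.b g) + 2 ≤ t at ht1
    change t + 3 ≤ max (D.b (g - 1)) (D.b g) at ht2
    rcases hact with ⟨h2, h3⟩ | ⟨h2, h3⟩
    · have h4 : D.b (g - 1) ≤ D.b g := by
        by_cases h5 : g < D.yQ
        · exact D.b_mono (by omega) (by omega) h5
        · have h6 : g = D.yQ := by omega
          rw [h6]
          exact (D.bQ (by omega)).le
      rw [min_eq_left h4] at ht1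
      rw [max_eq_right h4] at ht2
      have e1 : D.M (g - 1) = D.b g := by rw [Md_lo (by omega), sub_add_cancel]
      have e2 : D.M (g - 1 - 1) = D.b (g - 1) := by rw [Md_lo (by omega), sub_add_cancel]
      have e3 : (D.wsys j G).tl ((false, false), ⟨g, hg⟩) (-1) t = (t, g - 1) := by
        rw [tl_F h2]; rfl
      have e4 : (D.wsys j G).c ((false, false), ⟨g, hg⟩) = D.cr (g - 2) := if_pos h2
      rw [e3, e4]
      refine capF (hY := by omega) fun x hx hp => ⟨Or.inr (Or.inl ⟨by omega, by omega, by omega,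
        Or.inl ⟨by omega, by omega⟩, ?_⟩), fun _ _ _ => rfl⟩
      rw [show g - 1 - 1 = g - 2 by ring]
      exact hp
    · have h4 : D.b g ≤ D.b (g - 1) := D.b_anti (by omega) (by omega) (by omega)
      rw [min_eq_right h4] at ht1
      rw [max_eq_left h4] at ht2
      have e1 : D.M (g - 1) = D.b (g - 1) := Md_hi (by omega)
      have e2 : D.M g = D.b g := Md_hi (by omega)
      have e3 : (D.wsys j G).tl ((false, false), ⟨g, hg⟩) (-1) t = (t, g - 1) := by
        rw [tl_C (by omega)]; congr 1; ring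
      have e4 : (D.wsys j G).c ((false, false), ⟨g, hg⟩) = D.cr g :=
        if_neg (show ¬ j < g by omega)
      rw [e3, e4]
      refine capC (hY := by omega) fun x hx hp => ?_
      rw [sub_add_cancel] at hp ⊢
      exact ⟨Or.inr (Or.inl ⟨by omega, by omega, by omega, Or.inl ⟨by omega, by omega⟩, hp⟩),
        fun _ _ _ => rfl⟩
  · change (j < g ∧ g < D.yP) ∨ (D.yP ≤ g ∧ g < j) at hact
    change min (D.a (g - 1)) (D.a g) + 2 ≤ t at ht1
    change t + 3 ≤ max (D.a (g - 1)) (D.a g) at ht2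
    rcases hact with ⟨h2, h3⟩ | ⟨h2, h3⟩
    · have h4 : D.a g ≤ D.a (g - 1) := D.a_anti (by omega) (by omega) h3
      rw [min_eq_right h4] at ht1
      rw [max_eq_left h4] at ht2
      have e1 : D.m (g - 1) = D.a g := by rw [md_lo (by omega), sub_add_cancel]
      have e2 : D.m (g - 1 - 1) = D.a (g - 1) := by rw [md_lo (by omega), sub_add_cancel]
      have e3 : (D.wsys j G).tl ((false, true), ⟨g, hg⟩) (-1) t = (t, g - 1) := by
        rw [tl_F h2]; rfl
      have e4 : (D.wsys j G).c ((false, true), ⟨g, hg⟩) = D.cl (g - 2) := if_pos h2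
      rw [e3, e4]
      refine capF (hY := by omega) fun x hx hp => ⟨Or.inl ⟨by omega, by omega, by omega,
        Or.inl ⟨by omega, by omega⟩, ?_⟩, fun _ _ _ => rfl⟩
      rw [show g - 1 - 1 = g - 2 by ring]
      exact hp
    · have h4 : D.a (g - 1) ≤ D.a g := by
        by_cases h5 : D.yP < g
        · exact D.a_mono (by omega) (by omega) (by omega)
        · have h6 : g = D.yP := by omega
          rw [h6]
          exact (D.aP (by omega)).le
      rw [min_eq_left h4] at ht1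
      rw [max_eq_right h4] at ht2
      have e1 : D.m (g - 1) = D.a (g - 1) := md_hi (by omega)
      have e2 : D.m g = D.a g := md_hi (by omega)
      have e3 : (D.wsys j G).tl ((false, true), ⟨g, hg⟩) (-1) t = (t, g - 1) := by
        rw [tl_C (by omega)]; congr 1; ring
      have e4 : (D.wsys j G).c ((false, true), ⟨g, hg⟩) = D.cl g :=
        if_neg (show ¬ j < g by omega)
      rw [e3, e4]
      refine capC (hY := by omega) fun x hx hp => ?_
      rw [sub_add_cancel] at hp ⊢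
      exact ⟨Or.inl ⟨by omega, by omega, by omega, Or.inl ⟨by omega, by omega⟩, hp⟩,
        fun _ _ _ => rfl⟩
  · change (D.yQ ≤ g ∧ nxt G g ≤ j) ∨ (j ≤ g ∧ nxt G g ≤ D.yQ) at hact
    change g + 2 ≤ t at ht1
    change t + 3 ≤ nxt G g at ht2
    have n1 := hG.nxt_h (g := g) (by omega)
    have c1 := hG.cr_eq hg (y := t) (by omega) (by omega)
    have c2 := hG.cr_eq hg (y := t + 1) (by omega) (by omega)
    have e3 : (D.wsys j G).tl ((true, false), ⟨g, hg⟩) (-1) t = (D.b g, t) := by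
      rw [tl_V2]; congr 1; ring
    have e4 : (D.wsys j G).c ((true, false), ⟨g, hg⟩) = D.cr t := by rw [c1]; rfl
    rw [e3, e4]
    refine capR (fun y hy hp => ?_) (by rw [c1, c2])
    have hm := hG.M_eq hg (y := y) (by omega) (by omega)
    have a1 := hG.ab_eq hg (y := y) (by omega) (by omega)
    have a2 := hG.ab_eq hg (y := y + 1) (by omega) (by omega)
    have a3 := hG.ab_eq hg (y := y - 1) (by omega) (by omega)
    rcases hact with ⟨h2, h3⟩ | ⟨h2, h3⟩
    · refine ⟨⟨by omega, Or.inl ⟨⟨by omega, by omega, ?_⟩, ⟨by omega, by omega, ?_⟩⟩, ?_⟩, ?_⟩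
      · rw [sub_add_cancel]; omega
      · omega
      · exact hp
      · intro wa wb wc
        show (if j ≤ y then wc else wb) = (if j ≤ g then wc else wb)
        rw [if_neg (by omega), if_neg (by omega)]
    · refine ⟨⟨by omega, Or.inr ⟨⟨by omega, by omega, ?_⟩, ⟨by omega, by omega, ?_⟩⟩, ?_⟩, ?_⟩
      · rw [sub_add_cancel]; omega
      · omega
      · exact hp
      · intro wa wb wc
        show (if j ≤ y then wc else wb) = (if j ≤ g then wc else wb)
        rw [if_pos (by omega), if_pos (by omega)]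
  · change (j ≤ g ∧ nxt G g ≤ D.yP) ∨ (D.yP ≤ g ∧ nxt G g ≤ j) at hact
    change g + 2 ≤ t at ht1
    change t + 3 ≤ nxt G g at ht2
    have n1 := hG.nxt_h (g := g) (by omega)
    have c1 := hG.cl_eq hg (y := t) (by omega) (by omega)
    have c2 := hG.cl_eq hg (y := t + 1) (by omega) (by omega)
    have e3 : (D.wsys j G).tl ((true, true), ⟨g, hg⟩) (-1) t = (D.a g - 1, t) := rfl
    have e4 : (D.wsys j G).c ((true, true), ⟨g, hg⟩) = D.cl t := by rw [c1]; rfl
    rw [e3, e4]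
    refine capL (fun y hy hp => ?_) (by rw [c1, c2])
    have hm := hG.m_eq hg (y := y) (by omega) (by omega)
    have a1 := hG.ab_eq hg (y := y) (by omega) (by omega)
    have a2 := hG.ab_eq hg (y := y + 1) (by omega) (by omega)
    have a3 := hG.ab_eq hg (y := y - 1) (by omega) (by omega)
    rcases hact with ⟨h2, h3⟩ | ⟨h2, h3⟩
    · refine ⟨⟨by omega, Or.inl ⟨⟨by omega, by omega, ?_⟩, ⟨by omega, by omega, ?_⟩⟩, hp⟩, ?_⟩
      · rw [sub_add_cancel]; omega
      · omega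
      · intro wa wb wc
        show (if y < D.yP then wb else wc) = (if g < D.yP then wb else wc)
        rw [if_pos (by omega), if_pos (by omega)]
    · refine ⟨⟨by omega, Or.inr ⟨⟨by omega, by omega, ?_⟩, ⟨by omega, by omega, ?_⟩⟩, hp⟩, ?_⟩
      · rw [sub_add_cancel]; omega
      · omega
      · intro wa wb wc
        show (if y < D.yP then wb else wc) = (if g < D.yP then wb else wc)
        rw [if_neg (by omega), if_neg (by omega)]

end Win

end Pool.Agent.H46.Sp
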