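import Mathlib
import Pool.Agent.H46.Sp.WCap

set_option autoImplicit false
open Finset

/-! # The runs of ties of a window satisfy the hypotheses `Ok`

`wsys_ok` : the system `wsys D j G` in the environment `XTp O j (CPs D j)` of helper42. -/

namespace Pool.Agent.H46.Sp

open Pool.Agent.H75.Perc Pool.Agent.H75.TwoArm Pool.Agent.Q1 Pool.Agent.H33.Q1
open Pool.Agent.H46.G1
open Pool.Agent.H74.R45 (exists_lt)
open Pool.Agent.H42.Sp (Sd Ix CP kt rt CPs ETp WTp OTp qTp wk tw kt_odd rt_even mem_CPs kt_L rt_L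
  kt_R rt_R kt_F rt_F kt_C rt_C L_data R_data cap_CP kt_inj rt_inj qTp_tie ETp_sub)
open Pool.Agent.H13.R45 (ev)

namespace Win

variable {D : Win} {j : ℤ} {G : Finset ℤ} {L L2 : ℤ} {u u' t x y g g' : ℤ} {v l v' l' : Bool}

/-- the tiles of the half windows are in the union -/
lemma InB.inU (h0 : 0 ≤ j) (h1 : j ≤ D.h) (h : D.InB j x y) : D.InU x y := by
  rcases h with ⟨h2, h3, h4, h5⟩ | ⟨h2, h3, h4, h5⟩
  · have e1 := m_le_a (D := D) (y := y) (by omega)
    have e2 := b_le_M (D := D) (y := y) (by omega)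
    exact ⟨by omega, h3, by omega, by omega⟩
  · have e1 := m_le_a' (D := D) (y := y) (by omega)
    have e2 := b_le_M' (D := D) (y := y) (by omega)
    exact ⟨h2, by omega, by omega, by omega⟩

/-- the tiles of the caps are not in the half windows -/
lemma cap_notB (h0 : 0 ≤ j) (h1 : j ≤ D.h) {k : Ix} (hk : CP D j k) {T : ℤ × ℤ}
    (hT : T = kt k ∨ T = rt k) : ¬ D.InB j T.1 T.2 := by
  have hP0 := D.P0
  have hP1 := D.P1
  have hQ0 := D.Q0
  have hQ1 := D.Q1
  intro hB
  obtain ⟨s, x, y⟩ := k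
  cases s
  · obtain ⟨a1, a2, a3, a4, -, -⟩ := L_data h0 h1 hk
    have h3 : T = (x, y) ∨ T = (x, y - 1) := by
      rcases hT with h | h <;> rw [h]
      · exact kt_L
      · exact rt_L
    have h4 := hB.inU h0 h1
    unfold InU at h4
    rcases h3 with h | h <;> rw [h] at h4 <;> simp only at h4 <;> omega
  · obtain ⟨a1, a2, a3, a4, -, -⟩ := R_data h0 h1 hk
    have h3 : T = (x - 1, y) ∨ T = (x - 1, y - 1) := by
      rcases hT with h | h <;> rw [h]
      · exact kt_R
      · exact rt_R
    have h4 := hB.inU h0 h1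
    unfold InU at h4
    rcases h3 with h | h <;> rw [h] at h4 <;> simp only at h4 <;> omega
  · have h3 : T.2 = y ∧ (T.1 = x ∨ T.1 = x - 1) := by
      rcases hT with h | h <;> rw [h]
      · rcases kt_F (x := x) (y := y) with h | h <;> rw [h] <;> simp
      · rcases rt_F (x := x) (y := y) with h | h <;> rw [h] <;> simp
    obtain ⟨h3, h4⟩ := h3
    rw [h3] at hB
    unfold InB at hB
    rcases hk with ⟨a1, a2, a3, a4, a5⟩ | ⟨a1, a2, a3, a4, a5⟩ | ⟨a1, a2, a3, a4, a5⟩
    · have e1 : D.m (y - 1) = D.a y := by rw [md_lo (by omega), sub_add_cancel]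
      omega
    · have e1 : D.M (y - 1) = D.b y := by rw [Md_lo (by omega), sub_add_cancel]
      omega
    · omega
  · have h3 : T.2 = y - 1 ∧ (T.1 = x ∨ T.1 = x - 1) := by
      rcases hT with h | h <;> rw [h]
      · rcases kt_C (x := x) (y := y) with h | h <;> rw [h] <;> simp
      · rcases rt_C (x := x) (y := y) with h | h <;> rw [h] <;> simp
    obtain ⟨h3, h4⟩ := h3
    rw [h3] at hB
    unfold InB at hB
    rw [sub_add_cancel] at hB
    rcases hk with ⟨a1, a2, a3, a4, a5⟩ | ⟨a1, a2, a3, a4, a5⟩ | ⟨a1, a2, a3, a4, a5⟩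
    · have e1 : D.m y = D.a y := md_hi (by omega)
      omega
    · have e1 : D.M y = D.b y := Md_hi (by omega)
      omega
    · omega

/-- parity of the ties -/
lemma wsys_par {a : Ru G} : ((D.wsys j G).k a).Par ((D.wsys j G).p a) ((D.wsys j G).q a) := by
  obtain ⟨⟨v, l⟩, ⟨g, hg⟩⟩ := a
  unfold Kd.Par
  change (((rk j g v l).tau (D.rp j g v l) (-1) (D.rq g v l)).1 +
    ((rk j g v l).tau (D.rp j g v l) (-1) (D.rq g v l)).2) % 2 = 1
  cases v <;> cases l
  · unfold rk rp rq rot
    by_cases h : j < g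
    · rw [if_pos h, if_pos h]
      simp only [Kd.tau]
      generalize D.rlo g false false = r
      omega
    · rw [if_neg h, if_neg h]
      simp only [Kd.tau]
      generalize D.rlo g false false = r
      omega
  · unfold rk rp rq rot
    by_cases h : j < g
    · rw [if_pos h, if_pos h]
      simp only [Kd.tau]
      generalize D.rlo g false true = r
      omega
    · rw [if_neg h, if_neg h]
      simp only [Kd.tau]
      generalize D.rlo g false true = r
      omega
  · unfold rk rp rq rot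
    simp only [Kd.tau]
    generalize D.rlo g true false = r
    omega
  · unfold rk rp rq rot
    simp only [Kd.tau]
    generalize D.rlo g true true = r
    omega

/-- the tiles of the ties -/
lemma til_facts (hG : D.Lev j G) (h0 : 0 < j) (h1 : j < D.h) {a : Ru G} (hN : 0 < (D.wsys j G).N a)
    (ht1 : (D.wsys j G).q a ≤ t) (ht2 : t < (D.wsys j G).q a + 2 * (D.wsys j G).N a) :
    D.ract j G a.2.1 a.1.1 a.1.2 ∧ D.rlo a.2.1 a.1.1 a.1.2 + 4 ≤ t ∧
      t + 5 ≤ D.rhi G a.2.1 a.1.1 a.1.2 := by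
  have h2 := rN_pos hN
  have h3 := rq_lo (D := D) (g := a.2.1) (v := a.1.1) (l := a.1.2)
  change D.rq a.2.1 a.1.1 a.1.2 ≤ t at ht1
  change t < D.rq a.2.1 a.1.1 a.1.2 + 2 * (D.rN j G a.2.1 a.1.1 a.1.2 : ℤ) at ht2
  exact ⟨h2.1, by omega, by omega⟩

/-- **Position of the tiles of the first layer.** -/
inductive TPs (D : Win) (j : ℤ) (G : Finset ℤ) (x y : ℤ) : Bool → Bool → ℤ → Prop
  | V1 {g : ℤ} (hx : x = D.a g - 1) (hm : D.m y = D.a g) (h1 : g + 4 ≤ y) (h2 : y + 5 ≤ nxt G g) :
      TPs D j G x y true true g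
  | V2 {g : ℤ} (hx : x = D.b g) (hm : D.M y = D.b g) (h1 : g + 4 ≤ y) (h2 : y + 5 ≤ nxt G g) :
      TPs D j G x y true false g
  | H1 {g : ℤ} (hy : y = g - 1) (h0 : 0 < g) (h1 : g < D.h) (h3 : min (D.a (g - 1)) (D.a g) + 4 ≤ x)
      (h4 : x + 5 ≤ max (D.a (g - 1)) (D.a g)) (h5 : D.m y = min (D.a (g - 1)) (D.a g)) :
      TPs D j G x y false true g
  | H2 {g : ℤ} (hy : y = g - 1) (h0 : 0 < g) (h1 : g < D.h) (h3 : min (D.b (g - 1)) (D.b g) + 4 ≤ x)
      (h4 : x + 5 ≤ max (D.b (g - 1)) (D.b g)) (h5 : D.M y = max (D.b (g - 1)) (D.b g)) :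
      TPs D j G x y false false g

lemma tf_of (hG : D.Lev j G) (h0 : 0 < j) (h1 : j < D.h) {a : Ru G}
    (hact : D.ract j G a.2.1 a.1.1 a.1.2) (ht1 : D.rlo a.2.1 a.1.1 a.1.2 + 4 ≤ t)
    (ht2 : t + 5 ≤ D.rhi G a.2.1 a.1.1 a.1.2) :
    TPs D j G ((D.wsys j G).tl a (-1) t).1 ((D.wsys j G).tl a (-1) t).2 a.1.1 a.1.2 a.2.1 := by
  have hP0 := D.P0
  have hP1 := D.P1
  have hQ0 := D.Q0
  have hQ1 := D.Q1
  obtain ⟨⟨v, l⟩, ⟨g, hg⟩⟩ := a
  have g0 := hG.lo g hg
  have g1 := hG.hi g hg
  cases v <;> cases l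
  · change (j < g ∧ g ≤ D.yQ) ∨ (D.yQ < g ∧ g < j) at hact
    change min (D.b (g - 1)) (D.b g) + 4 ≤ t at ht1
    change t + 5 ≤ max (D.b (g - 1)) (D.b g) at ht2
    rcases hact with ⟨h2, h3⟩ | ⟨h2, h3⟩
    · have h4 : D.b (g - 1) ≤ D.b g := by
        by_cases h5 : g < D.yQ
        · exact D.b_mono (by omega) (by omega) h5
        · have h6 : g = D.yQ := by omega
          rw [h6]
          exact (D.bQ (by omega)).le
      have e3 : (D.wsys j G).tl ((false, false), ⟨g, hg⟩) (-1) t = (t, g - 1) := by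
        rw [tl_F h2]; rfl
      rw [e3]
      show TPs D j G t (g - 1) false false g
      refine .H2 rfl (by omega) (by omega) ht1 ht2 ?_
      rw [max_eq_right h4, Md_lo (by omega), sub_add_cancel]
    · have h4 : D.b g ≤ D.b (g - 1) := D.b_anti (by omega) (by omega) (by omega)
      have e3 : (D.wsys j G).tl ((false, false), ⟨g, hg⟩) (-1) t = (t, g - 1) := by
        rw [tl_C (by omega)]; congr 1; ring
      rw [e3]
      show TPs D j G t (g - 1) false false g
      refine .H2 rfl (by omega) (by omega) ht1 ht2 ?_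
      rw [max_eq_left h4]
      exact Md_hi (by omega)
  · change (j < g ∧ g < D.yP) ∨ (D.yP ≤ g ∧ g < j) at hact
    change min (D.a (g - 1)) (D.a g) + 4 ≤ t at ht1
    change t + 5 ≤ max (D.a (g - 1)) (D.a g) at ht2
    rcases hact with ⟨h2, h3⟩ | ⟨h2, h3⟩
    · have h4 : D.a g ≤ D.a (g - 1) := D.a_anti (by omega) (by omega) h3
      have e3 : (D.wsys j G).tl ((false, true), ⟨g, hg⟩) (-1) t = (t, g - 1) := by
        rw [tl_F h2]; rfl
      rw [e3]
      show TPs D j G t (g - 1) false true g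
      refine .H1 rfl (by omega) (by omega) ht1 ht2 ?_
      rw [min_eq_right h4, md_lo (by omega), sub_add_cancel]
    · have h4 : D.a (g - 1) ≤ D.a g := by
        by_cases h5 : D.yP < g
        · exact D.a_mono (by omega) (by omega) (by omega)
        · have h6 : g = D.yP := by omega
          rw [h6]
          exact (D.aP (by omega)).le
      have e3 : (D.wsys j G).tl ((false, true), ⟨g, hg⟩) (-1) t = (t, g - 1) := by
        rw [tl_C (by omega)]; congr 1; ring
      rw [e3]
      show TPs D j G t (g - 1) false true g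
      refine .H1 rfl (by omega) (by omega) ht1 ht2 ?_
      rw [min_eq_left h4]
      exact md_hi (by omega)
  · change g + 4 ≤ t at ht1
    change t + 5 ≤ nxt G g at ht2
    have e3 : (D.wsys j G).tl ((true, false), ⟨g, hg⟩) (-1) t = (D.b g, t) := by
      rw [tl_V2]; congr 1; ring
    rw [e3]
    show TPs D j G (D.b g) t true false g
    exact .V2 rfl (hG.M_eq hg (by omega) (by omega)) ht1 ht2
  · change g + 4 ≤ t at ht1
    change t + 5 ≤ nxt G g at ht2
    show TPs D j G (D.a g + -1) t true true g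
    exact .V1 (by ring) (hG.m_eq hg (by omega) (by omega)) ht1 ht2

lemma TPs.uniq (hG : D.Lev j G) (hg : g ∈ G) (hg' : g' ∈ G) (h : TPs D j G x y v l g)
    (h' : TPs D j G x y v' l' g') : v' = v ∧ l' = l ∧ g' = g := by
  have s1 := hG.side hg hg'
  have s2 := hG.side hg' hg
  have n0 := hG.lo g hg
  have n0' := hG.lo g' hg'
  cases h with
  | V1 hx hm h1 h2 =>
    have n1 := hG.nxt_h (g := g) (by omega)
    have hw := m_lt_M (D := D) (y := y) (by omega) (by omega)
    cases h' with
    | V1 hx' hm' h1' h2' => exact ⟨rfl, rfl, by omega⟩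
    | V2 hx' hm' h1' h2' => omega
    | H1 hy h0' h1' h3' h4' h5' => omega
    | H2 hy h0' h1' h3' h4' h5' =>
      exfalso
      have k1 := D.ab (g' - 1) (by omega) (by omega)
      have k2 := m_le_a (D := D) (y := g' - 1) (by omega)
      have k3 := m_le_a' (D := D) (y := g' - 1) (by omega)
      have k4 := D.ab g' (by omega) (by omega)
      rw [sub_add_cancel] at k3
      rw [← hy] at k2 k3
      omega
  | V2 hx hm h1 h2 =>
    have n1 := hG.nxt_h (g := g) (by omega)
    have hw := m_lt_M (D := D) (y := y) (by omega) (by omega)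
    cases h' with
    | V1 hx' hm' h1' h2' => omega
    | V2 hx' hm' h1' h2' => exact ⟨rfl, rfl, by omega⟩
    | H1 hy h0' h1' h3' h4' h5' =>
      exfalso
      have k1 := D.ab (g' - 1) (by omega) (by omega)
      have k2 := b_le_M (D := D) (y := g' - 1) (by omega)
      have k3 := b_le_M' (D := D) (y := g' - 1) (by omega)
      have k4 := D.ab g' (by omega) (by omega)
      rw [sub_add_cancel] at k3
      rw [← hy] at k2 k3
      omega
    | H2 hy h0' h1' h3' h4' h5' => omega
  | H1 hy h0 h1 h3 h4 h5 =>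
    have hw := m_lt_M (D := D) (y := y) (by omega) (by omega)
    cases h' with
    | V1 hx' hm' h1' h2' => omega
    | V2 hx' hm' h1' h2' =>
      exfalso
      have k1 := D.ab (g - 1) (by omega) (by omega)
      have k2 := b_le_M (D := D) (y := g - 1) (by omega)
      have k3 := b_le_M' (D := D) (y := g - 1) (by omega)
      have k4 := D.ab g (by omega) (by omega)
      rw [sub_add_cancel] at k3
      rw [← hy] at k2 k3
      omega
    | H1 hy' h0' h1' h3' h4' h5' => exact ⟨rfl, rfl, by omega⟩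
    | H2 hy' h0' h1' h3' h4' h5' =>
      exfalso
      have hgg : g' = g := by omega
      subst hgg
      have k1 := D.ab (g' - 1) (by omega) (by omega)
      have k2 := D.ab g' (by omega) (by omega)
      have k3 := D.ov1 (g' - 1) (by omega) (by omega)
      have k4 := D.ov2 (g' - 1) (by omega) (by omega)
      rw [sub_add_cancel] at k3 k4
      omega
  | H2 hy h0 h1 h3 h4 h5 =>
    have hw := m_lt_M (D := D) (y := y) (by omega) (by omega)
    cases h' with
    | V1 hx' hm' h1' h2' =>
      exfalso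
      have k1 := D.ab (g - 1) (by omega) (by omega)
      have k2 := m_le_a (D := D) (y := g - 1) (by omega)
      have k3 := m_le_a' (D := D) (y := g - 1) (by omega)
      have k4 := D.ab g (by omega) (by omega)
      rw [sub_add_cancel] at k3
      rw [← hy] at k2 k3
      omega
    | V2 hx' hm' h1' h2' => omega
    | H1 hy' h0' h1' h3' h4' h5' =>
      exfalso
      have hgg : g' = g := by omega
      subst hgg
      have k1 := D.ab (g' - 1) (by omega) (by omega)
      have k2 := D.ab g' (by omega) (by omega)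
      have k3 := D.ov1 (g' - 1) (by omega) (by omega)
      have k4 := D.ov2 (g' - 1) (by omega) (by omega)
      rw [sub_add_cancel] at k3 k4
      omega
    | H2 hy' h0' h1' h3' h4' h5' => exact ⟨rfl, rfl, by omega⟩

/-- the tiles near the ties of a run -/
lemma cap_wp (hG : D.Lev j G) (h0 : 0 < j) (h1 : j < D.h) {x : Ru G × ℤ}
    (hx : x ∈ Wp (D.wsys j G).N) :
    CapAt D j ((D.wsys j G).c x.1)
      (fun wa wb wc => rwt D j wa wb wc x.1.2.1 x.1.1.1 x.1.1.2) ((D.wsys j G).til x) ∧
    TPs D j G ((D.wsys j G).til x).1 ((D.wsys j G).til x).2 x.1.1.1 x.1.1.2 x.1.2.1 ∧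
    (((D.wsys j G).til x).1 + ((D.wsys j G).til x).2) % 2 = 1 := by
  have h2 := mem_Wp.1 hx
  have hN : 0 < (D.wsys j G).N x.1 := by omega
  have h3 := til_facts (t := (D.wsys j G).q x.1 + 2 * x.2) hG h0 h1 hN (by omega) (by omega)
  refine ⟨cap_at hG h0 h1 h3.1 (by omega) (by omega), tf_of hG h0 h1 h3.1 h3.2.1 h3.2.2, ?_⟩
  have h4 := wsys_par (D := D) (j := j) (G := G) (a := x.1)
  unfold Kd.Par at h4
  unfold TSys.til TSys.tl
  generalize (D.wsys j G).k x.1 = k at *
  generalize (D.wsys j G).p x.1 = p at *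
  generalize (D.wsys j G).q x.1 = q at *
  cases k <;> simp only [Kd.tau] at h4 ⊢ <;> omega

/-- the ties are kept tiles of caps -/
lemma til_kt (hG : D.Lev j G) (h0 : 0 < j) (h1 : j < D.h) {x : Ru G × ℤ}
    (hx : x ∈ Wp (D.wsys j G).N) : ∃ k : Ix, (CP D j k ∧ NRw j k) ∧ kt k = (D.wsys j G).til x ∧
      ((k.2.1 + k.2.2) % 2 = 1 ↔ (D.wsys j G).c x.1 = true) ∧
      ∀ wa wb wc, wk D j wa wb wc k = rwt D j wa wb wc x.1.2.1 x.1.1.1 x.1.1.2 := by
  obtain ⟨⟨k, k1, k2, k3, -, k5⟩, -, h3⟩ := cap_wp hG h0 h1 hx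
  exact ⟨k, k1, k3 h3, k2, k5⟩

/-- **The hypotheses `Ok`**, for every set `P` of caps which contains all caps outside of the row
`j - 1`. -/
theorem wsys_ok (O : Out D) (hG : D.Lev j G) (hF : D.Fat L2) (hL : 2 * L + 2 ≤ L2)
    (h0 : 0 < j) (h1 : j < D.h) {P : Finset Ix} (hP : ∀ k ∈ P, CP D j k)
    (hPr : ∀ k, CP D j k → NRw j k → k ∈ P) :
    (D.wsys j G).Ok (ETp D j P) (WTp D j P O.Wo) L where
  par := fun _ _ => wsys_par
  inj := by
    intro x hx x' hx' hxx
    obtain ⟨-, t1, -⟩ := cap_wp hG h0 h1 (mem_coe.1 hx)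
    obtain ⟨-, t2, -⟩ := cap_wp hG h0 h1 (mem_coe.1 hx')
    rw [← hxx] at t2
    obtain ⟨e1, e2, e3⟩ := TPs.uniq hG x.1.2.2 x'.1.2.2 t1 t2
    have e4 : x'.1 = x.1 := Prod.ext (Prod.ext e1 e2) (Subtype.ext e3)
    unfold TSys.til TSys.tl at hxx
    rw [e4] at hxx
    have e5 := (Kd.tau_inj hxx).2
    exact Prod.ext e4.symm (by omega)
  sub := by
    intro e he
    obtain ⟨x, hx, rfl⟩ := TSys.mem_Ti.1 he
    obtain ⟨k, k1, k2, -, -⟩ := til_kt hG h0 h1 hx
    unfold ETp
    rw [mem_sdiff]
    constructor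
    · unfold TSys.tie
      rw [← k2]
      exact (cap_CP O h0.le h1.le k1.1).m1
    · intro hcon
      obtain ⟨k', -, h3⟩ := mem_image.1 hcon
      unfold TSys.tie at h3
      have h4 := lt_inj h3
      have h5 := rt_even k'
      have h6 := kt_odd k
      rw [h4, ← k2] at h5
      omega
  bulk := by
    intro a u t hu hr
    have hb := (rf_of hG h0 h1 hr).inB hG hF h0 h1 hu (by have := hr.2.1; omega) a.2.2
    have hne : ∀ k : Ix, CP D j k → ∀ T, (T = kt k ∨ T = rt k) → (D.wsys j G).tl a u t ≠ T := by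
      intro k hk T hT h3
      have h4 := cap_notB h0.le h1.le hk hT
      rw [← h3] at h4
      exact h4 hb
    rw [mem_sdiff]
    constructor
    · unfold ETp
      rw [mem_sdiff]
      constructor
      · rw [show lt ((D.wsys j G).tl a u t) =
          lt (((D.wsys j G).tl a u t).1, ((D.wsys j G).tl a u t).2) from rfl, mem_EJ]
        exact Or.inl (hb.inU h0.le h1.le)
      · intro hcon
        obtain ⟨k, hk, h3⟩ := mem_image.1 hcon
        exact hne k (hP k hk) _ (Or.inr rfl) (lt_inj h3).symm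
    · intro hcon
      obtain ⟨x, hx, h3⟩ := TSys.mem_Ti.1 hcon
      obtain ⟨k, k1, k2, -, -⟩ := til_kt hG h0 h1 hx
      exact hne k k1.1 _ (Or.inl rfl) (by rw [k2]; exact (lt_inj h3).symm)
  first := by
    intro a t hr
    obtain ⟨hact, hN, hlo, hhi⟩ := rg_pos hr
    obtain ⟨k, k1, k2, k3, k4, -⟩ := cap_at (t := t) hG h0 h1 hact (by omega) (by omega)
    rcases Int.emod_two_eq_zero_or_one (((D.wsys j G).tl a (-1) t).1 +
      ((D.wsys j G).tl a (-1) t).2) with hp | hp
    · right
      have h3 := k4 hp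
      have hE := (cap_CP O h0.le h1.le k1.1).m2
      have hkP := hPr k k1.1 k1.2
      rw [← h3]
      constructor
      · intro hcon
        exact (mem_sdiff.1 hcon).2 (mem_image_of_mem _ hkP)
      · unfold WTp
        rw [mem_union]
        have hW : lt (rt k) ∉ D.WJ j O.Wo := disjoint_left.1 (disj_EW O h0.le) hE
        have hev : ev k.2 = true ↔ (D.wsys j G).c a = false := by
          unfold ev
          rw [decide_eq_true_eq]
          constructor
          · intro h4
            by_contra h5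
            rw [Bool.not_eq_false] at h5
            have := k2.2 h5
            omega
          · intro h4
            by_contra h5
            have := k2.1 (by omega)
            rw [h4] at this
            exact absurd this (by simp)
        rw [← hev]
        constructor
        · rintro (h4 | h4)
          · exact absurd h4 hW
          · unfold OTp at h4
            obtain ⟨k', hk', h5⟩ := mem_image.1 h4
            obtain ⟨hk1, hk2⟩ := mem_filter.1 hk'
            rw [← rt_inj h0.le h1.le (hP k' hk1) k1.1 (lt_inj h5)]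
            exact hk2
        · intro h4
          exact Or.inr (mem_image_of_mem _ (mem_filter.2 ⟨hkP, h4⟩))
    · left
      have h4 := wsys_par (D := D) (j := j) (G := G) (a := a)
      have h5 : (t - (D.wsys j G).q a) % 2 = 0 := by
        unfold Kd.Par at h4
        unfold TSys.tl at hp
        generalize (D.wsys j G).k a = k at *
        generalize (D.wsys j G).p a = p at *
        cases k <;> simp only [Kd.tau] at h4 hp <;> omega
      obtain ⟨-, -, h6, h7⟩ := hr
      refine TSys.mem_Ti.2 ⟨(a, (t - (D.wsys j G).q a) / 2), ?_, ?_⟩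
      · rw [mem_Wp]
        simp only
        omega
      · unfold TSys.tie TSys.til
        simp only
        congr 2
        omega
  sep := by
    intro a b u t u' t' hab hu hu' hr hr' hcon
    have h3 := rf_of hG h0 h1 hr
    have h4 := rf_of hG h0 h1 hr'
    rw [← hcon] at h4
    obtain ⟨e1, e2, e3⟩ := rf_sep hG hF hL h0 h1 hu hu' hr.2.1 hr'.2.1 a.2.2 b.2.2 h3 h4
    exact hab (Prod.ext (Prod.ext e1 e2) (Subtype.ext e3)).symm

end Win

end Pool.Agent.H46.Sp
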