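import Mathlib
import Pool.Agent.H46.Sp.WOk

set_option autoImplicit false
open Finset

/-! # The runs of ties of a window: positions

`rup a` : the run `a` is above the row `j - 1`. Facts about the tiles `tl a u t`, `u ≥ 0` (inside) and `u < 0`
(outside), in the form needed for the glued configuration of the row. -/

namespace Pool.Agent.H46.Sp

open Pool.Agent.H75.Perc Pool.Agent.H75.TwoArm Pool.Agent.Q1 Pool.Agent.H33.Q1
open Pool.Agent.H46.G1
open Pool.Agent.H42.Sp (Sd Ix CP kt rt CPs ETp WTp OTp OutT outL outR)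

namespace Win

variable {D : Win} {j : ℤ} {G : Finset ℤ} {L L2 L' : ℤ} {u u' t x y g g' : ℤ} {v l v' l' : Bool}
  {a : Ru G}

/-- the run is above the row `j - 1` -/
def rup (j : ℤ) {G : Finset ℤ} (a : Ru G) : Bool :=
  if a.1.1 = true then decide (j ≤ a.2.1) else decide (j < a.2.1)

/-- **The tiles over and under a run** (`f u` : the tile at height `u`). -/
inductive RM (D : Win) (j : ℤ) (G : Finset ℤ) (t : ℤ) : Bool → Bool → (ℤ → ℤ × ℤ) → Prop
  | V1u (g : ℤ) (hg : g ∈ G) (h1 : g + 10 ≤ t) (h2 : t + 12 ≤ nxt G g) (h3 : j ≤ g)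
      (h4 : nxt G g ≤ D.yP) : RM D j G t true (D.cl g) fun u => (D.a g + u, t)
  | V1l (g : ℤ) (hg : g ∈ G) (h1 : g + 10 ≤ t) (h2 : t + 12 ≤ nxt G g) (h3 : D.yP ≤ g)
      (h4 : nxt G g ≤ j) : RM D j G t false (D.cl g) fun u => (D.a g + u, t)
  | V2u (g : ℤ) (hg : g ∈ G) (h1 : g + 10 ≤ t) (h2 : t + 12 ≤ nxt G g) (h3 : j ≤ g)
      (h4 : nxt G g ≤ D.yQ) : RM D j G t true (D.cr g) fun u => (D.b g - 1 - u, t)
  | V2l (g : ℤ) (hg : g ∈ G) (h1 : g + 10 ≤ t) (h2 : t + 12 ≤ nxt G g) (h3 : D.yQ ≤ g)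
      (h4 : nxt G g ≤ j) : RM D j G t false (D.cr g) fun u => (D.b g - 1 - u, t)
  | F1 (g : ℤ) (hg : g ∈ G) (h1 : D.a g + 10 ≤ t) (h2 : t + 12 ≤ D.a (g - 1)) (h3 : j < g)
      (h4 : g < D.yP) : RM D j G t true (D.cl (g - 2)) fun u => (t, g + u)
  | F2 (g : ℤ) (hg : g ∈ G) (h1 : D.b (g - 1) + 10 ≤ t) (h2 : t + 12 ≤ D.b g) (h3 : j < g)
      (h4 : g ≤ D.yQ) : RM D j G t true (D.cr (g - 2)) fun u => (t, g + u)
  | C1 (g : ℤ) (hg : g ∈ G) (h1 : D.a (g - 1) + 10 ≤ t) (h2 : t + 12 ≤ D.a g) (h3 : D.yP ≤ g)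
      (h4 : g < j) : RM D j G t false (D.cl g) fun u => (t, g - 2 - u)
  | C2 (g : ℤ) (hg : g ∈ G) (h1 : D.b g + 10 ≤ t) (h2 : t + 12 ≤ D.b (g - 1)) (h3 : D.yQ < g)
      (h4 : g < j) : RM D j G t false (D.cr g) fun u => (t, g - 2 - u)

lemma rm_of (hG : D.Lev j G) (h0 : 0 < j) (h1 : j < D.h) (h : (D.wsys j G).Rg L a (-1) t) :
    RM D j G t (rup j a) ((D.wsys j G).c a) (fun u => (D.wsys j G).tl a u t) := by
  have h2 := rf_of hG h0 h1 h
  obtain ⟨hact, -, hlo, hhi⟩ := rg_pos h
  obtain ⟨⟨v, l⟩, ⟨g, hg⟩⟩ := a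
  cases v <;> cases l
  · change (j < g ∧ g ≤ D.yQ) ∨ (D.yQ < g ∧ g < j) at hact
    change RF D j G (-1) _ _ false false g at h2
    rcases hact with ⟨h3, h4⟩ | ⟨h3, h4⟩
    · have e1 : rup j (((false, false), ⟨g, hg⟩) : Ru G) = true := by
        unfold rup; simp [h3]
      have e2 : (D.wsys j G).c ((false, false), ⟨g, hg⟩) = D.cr (g - 2) := if_pos h3
      have e3 : (fun u => (D.wsys j G).tl ((false, false), ⟨g, hg⟩) u t) = fun u => (t, g + u) :=
        funext fun u => tl_F h3
      rw [tl_F h3] at h2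
      rw [e1, e2, e3]
      cases h2 with
      | F2 hy k1 k2 k3 k4 => exact .F2 g hg (by omega) (by omega) k3 k4
      | C2 hy k1 k2 k3 k4 => omega
    · have e1 : rup j (((false, false), ⟨g, hg⟩) : Ru G) = false := by
        unfold rup; simp; omega
      have e2 : (D.wsys j G).c ((false, false), ⟨g, hg⟩) = D.cr g :=
        if_neg (show ¬ j < g by omega)
      have e3 : (fun u => (D.wsys j G).tl ((false, false), ⟨g, hg⟩) u t) =
          fun u => (t, g - 2 - u) := funext fun u => tl_C (by omega)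
      rw [tl_C (by omega)] at h2
      rw [e1, e2, e3]
      cases h2 with
      | F2 hy k1 k2 k3 k4 => omega
      | C2 hy k1 k2 k3 k4 => exact .C2 g hg (by omega) (by omega) k3 k4
  · change (j < g ∧ g < D.yP) ∨ (D.yP ≤ g ∧ g < j) at hact
    change RF D j G (-1) _ _ false true g at h2
    rcases hact with ⟨h3, h4⟩ | ⟨h3, h4⟩
    · have e1 : rup j (((false, true), ⟨g, hg⟩) : Ru G) = true := by
        unfold rup; simp [h3]
      have e2 : (D.wsys j G).c ((false, true), ⟨g, hg⟩) = D.cl (g - 2) := if_pos h3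
      have e3 : (fun u => (D.wsys j G).tl ((false, true), ⟨g, hg⟩) u t) = fun u => (t, g + u) :=
        funext fun u => tl_F h3
      rw [tl_F h3] at h2
      rw [e1, e2, e3]
      cases h2 with
      | F1 hy k1 k2 k3 k4 => exact .F1 g hg (by omega) (by omega) k3 k4
      | C1 hy k1 k2 k3 k4 => omega
    · have e1 : rup j (((false, true), ⟨g, hg⟩) : Ru G) = false := by
        unfold rup; simp; omega
      have e2 : (D.wsys j G).c ((false, true), ⟨g, hg⟩) = D.cl g :=
        if_neg (show ¬ j < g by omega)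
      have e3 : (fun u => (D.wsys j G).tl ((false, true), ⟨g, hg⟩) u t) =
          fun u => (t, g - 2 - u) := funext fun u => tl_C (by omega)
      rw [tl_C (by omega)] at h2
      rw [e1, e2, e3]
      cases h2 with
      | F1 hy k1 k2 k3 k4 => omega
      | C1 hy k1 k2 k3 k4 => exact .C1 g hg (by omega) (by omega) k3 k4
  · change (D.yQ ≤ g ∧ nxt G g ≤ j) ∨ (j ≤ g ∧ nxt G g ≤ D.yQ) at hact
    change g + 8 * (-1 + 2) + 2 ≤ t at hlo
    change t + 8 * (-1 + 2) + 4 ≤ nxt G g at hhi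
    rcases hact with ⟨h3, h4⟩ | ⟨h3, h4⟩
    · have e1 : rup j (((true, false), ⟨g, hg⟩) : Ru G) = false := by
        unfold rup; simp; omega
      rw [e1]
      exact .V2l g hg (by omega) (by omega) h3 h4
    · have e1 : rup j (((true, false), ⟨g, hg⟩) : Ru G) = true := by
        unfold rup; simp; omega
      rw [e1]
      exact .V2u g hg (by omega) (by omega) h3 h4
  · change (j ≤ g ∧ nxt G g ≤ D.yP) ∨ (D.yP ≤ g ∧ nxt G g ≤ j) at hact
    change g + 8 * (-1 + 2) + 2 ≤ t at hlo
    change t + 8 * (-1 + 2) + 4 ≤ nxt G g at hhi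
    rcases hact with ⟨h3, h4⟩ | ⟨h3, h4⟩
    · have e1 : rup j (((true, true), ⟨g, hg⟩) : Ru G) = true := by
        unfold rup; simp; omega
      rw [e1]
      exact .V1u g hg (by omega) (by omega) h3 h4
    · have e1 : rup j (((true, true), ⟨g, hg⟩) : Ru G) = false := by
        unfold rup; simp; omega
      rw [e1]
      exact .V1l g hg (by omega) (by omega) h3 h4

/-- the region shrinks -/
lemma rg_base (h : (D.wsys j G).Rg L a u t) : (D.wsys j G).Rg L a (-1) t := by
  obtain ⟨h1, h2, h3, h4⟩ := h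
  exact ⟨le_rfl, by omega, by omega, by omega⟩

section facts

variable (hG : D.Lev j G) (hF : D.Fat L2) (hL : 2 * L + 2 ≤ L2) (h0 : 0 < j) (h1 : j < D.h)

include hG h0 h1

omit h0 in
private lemma up_pos {c : Bool} {f : ℤ → ℤ × ℤ} (hr : RM D j G t true c f) (hu : 0 ≤ u) :
    j ≤ (f u).2 := by
  cases hr with
  | V1u g hg k1 k2 k3 k4 => show j ≤ t; omega
  | V2u g hg k1 k2 k3 k4 => show j ≤ t; omega
  | F1 g hg k1 k2 k3 k4 => show j ≤ g + u; omega
  | F2 g hg k1 k2 k3 k4 => show j ≤ g + u; omega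

include hF hL

/-- the inner tiles over an upper run -/
theorem bup (hup : rup j a = true) (hu : 0 ≤ u) (hr : (D.wsys j G).Rg L a u t) :
    j ≤ ((D.wsys j G).tl a u t).2 ∧ ((D.wsys j G).tl a u t).2 < D.h ∧
      D.a ((D.wsys j G).tl a u t).2 ≤ ((D.wsys j G).tl a u t).1 ∧
      ((D.wsys j G).tl a u t).1 < D.b ((D.wsys j G).tl a u t).2 := by
  have hb := (rf_of hG h0 h1 hr).inB hG hF h0 h1 hu (by have := hr.2.1; omega) a.2.2
  have hm := rm_of hG h0 h1 (rg_base hr)
  rw [hup] at hm
  have hj : j ≤ ((D.wsys j G).tl a u t).2 := up_pos (u := u) hG h1 hm hu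
  rcases hb with hb | hb
  · exact hb
  · omega

/-- the inner tiles over a lower run -/
theorem blo (hup : rup j a = false) (hu : 0 ≤ u) (hr : (D.wsys j G).Rg L a u t) :
    -1 ≤ ((D.wsys j G).tl a u t).2 ∧ ((D.wsys j G).tl a u t).2 < j - 1 ∧
      D.a (((D.wsys j G).tl a u t).2 + 1) ≤ ((D.wsys j G).tl a u t).1 ∧
      ((D.wsys j G).tl a u t).1 < D.b (((D.wsys j G).tl a u t).2 + 1) := by
  have hb := (rf_of hG h0 h1 hr).inB hG hF h0 h1 hu (by have := hr.2.1; omega) a.2.2
  have hm := rm_of hG h0 h1 (rg_base hr)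
  rw [hup] at hm
  have hj : ((D.wsys j G).tl a u t).2 < j := by
    change ((fun u => (D.wsys j G).tl a u t) u).2 < j
    generalize (fun u => (D.wsys j G).tl a u t) = f at hm
    generalize (D.wsys j G).c a = c at hm
    cases hm <;> simp only <;> omega
  rcases hb with hb | hb
  · omega
  · exact ⟨hb.1, by omega, hb.2.2⟩

omit hF hL

/-- the outer tiles under an upper run -/
theorem nup (hgd : ∀ g ∈ G, g ≠ j → j + L' ≤ g ∨ g + L' ≤ j) (hup : rup j a = true) (hu : -L' ≤ u)
    (hu' : u ≤ -1) (hr : (D.wsys j G).Rg L a (-1) t) :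
    j ≤ ((D.wsys j G).tl a u t).2 ∧ ¬ (((D.wsys j G).tl a u t).2 < D.h ∧
      D.a ((D.wsys j G).tl a u t).2 ≤ ((D.wsys j G).tl a u t).1 ∧
      ((D.wsys j G).tl a u t).1 < D.b ((D.wsys j G).tl a u t).2) := by
  have hm := rm_of hG h0 h1 hr
  rw [hup] at hm
  have hP1 := D.P1
  have hQ1 := D.Q1
  change j ≤ ((fun u => (D.wsys j G).tl a u t) u).2 ∧
    ¬ (((fun u => (D.wsys j G).tl a u t) u).2 < D.h ∧
      D.a ((fun u => (D.wsys j G).tl a u t) u).2 ≤ ((fun u => (D.wsys j G).tl a u t) u).1 ∧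
      ((fun u => (D.wsys j G).tl a u t) u).1 < D.b ((fun u => (D.wsys j G).tl a u t) u).2)
  generalize (fun u => (D.wsys j G).tl a u t) = f at hm ⊢
  generalize (D.wsys j G).c a = c at hm
  cases hm with
  | V1u g hg k1 k2 k3 k4 =>
    have e1 := hG.ab_eq hg (y := t) (by omega) (by omega)
    simp only
    omega
  | V2u g hg k1 k2 k3 k4 =>
    have e1 := hG.ab_eq hg (y := t) (by omega) (by omega)
    simp only
    omega
  | F1 g hg k1 k2 k3 k4 =>
    have e1 := hgd g hg (by omega)
    have e2 : D.a (g - 1) ≤ D.a (g + u) := D.a_anti (by omega) (by omega) (by omega)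
    simp only
    omega
  | F2 g hg k1 k2 k3 k4 =>
    have e1 := hgd g hg (by omega)
    have e2 : D.b (g + u) ≤ D.b (g - 1) := D.b_mono (by omega) (by omega) (by omega)
    simp only
    omega

/-- the outer tiles over a lower run -/
theorem nlo (hgd : ∀ g ∈ G, g ≠ j → j + L' ≤ g ∨ g + L' ≤ j) (hup : rup j a = false)
    (hu : -L' ≤ u) (hu' : u ≤ -1) (hr : (D.wsys j G).Rg L a (-1) t) :
    ((D.wsys j G).tl a u t).2 < j - 1 ∧ ¬ (-1 ≤ ((D.wsys j G).tl a u t).2 ∧
      D.a (((D.wsys j G).tl a u t).2 + 1) ≤ ((D.wsys j G).tl a u t).1 ∧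
      ((D.wsys j G).tl a u t).1 < D.b (((D.wsys j G).tl a u t).2 + 1)) := by
  have hm := rm_of hG h0 h1 hr
  rw [hup] at hm
  have hP0 := D.P0
  have hQ0 := D.Q0
  change ((fun u => (D.wsys j G).tl a u t) u).2 < j - 1 ∧
    ¬ (-1 ≤ ((fun u => (D.wsys j G).tl a u t) u).2 ∧
      D.a (((fun u => (D.wsys j G).tl a u t) u).2 + 1) ≤ ((fun u => (D.wsys j G).tl a u t) u).1 ∧
      ((fun u => (D.wsys j G).tl a u t) u).1 < D.b (((fun u => (D.wsys j G).tl a u t) u).2 + 1))
  generalize (fun u => (D.wsys j G).tl a u t) = f at hm ⊢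
  generalize (D.wsys j G).c a = c at hm
  cases hm with
  | V1l g hg k1 k2 k3 k4 =>
    have e1 := hG.ab_eq hg (y := t + 1) (by omega) (by omega)
    simp only
    omega
  | V2l g hg k1 k2 k3 k4 =>
    have e1 := hG.ab_eq hg (y := t + 1) (by omega) (by omega)
    simp only
    omega
  | C1 g hg k1 k2 k3 k4 =>
    have e1 := hgd g hg (by omega)
    have e2 : D.a g ≤ D.a (g - 2 - u + 1) := D.a_mono (by omega) (by omega) (by omega)
    simp only
    omega
  | C2 g hg k1 k2 k3 k4 =>
    have e1 := hgd g hg (by omega)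
    have e2 : D.b (g - 2 - u + 1) ≤ D.b g := D.b_anti (by omega) (by omega) (by omega)
    simp only
    omega

/-- **The second outer layer**: fixed, of the colour of the run. -/
theorem out2 (hr : (D.wsys j G).Rg L a (-1) t) :
    OutT D j ((D.wsys j G).tl a (-2) t).1 ((D.wsys j G).tl a (-2) t).2 ((D.wsys j G).c a) := by
  have hm := rm_of hG h0 h1 hr
  have hP0 := D.P0
  have hP1 := D.P1
  have hQ0 := D.Q0
  have hQ1 := D.Q1
  change OutT D j ((fun u => (D.wsys j G).tl a u t) (-2)).1 ((fun u => (D.wsys j G).tl a u t) (-2)).2 _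
  generalize (fun u => (D.wsys j G).tl a u t) = f at hm ⊢
  generalize (D.wsys j G).c a = c at hm ⊢
  generalize rup j a = up at hm
  cases hm with
  | V1u g hg k1 k2 k3 k4 =>
    have e1 := hG.m_eq hg (y := t) (by omega) (by omega)
    have e2 := hG.cl_eq hg (y := t) (by omega) (by omega)
    have e3 := m_min (D := D) (y := t) (by omega) (by omega)
    rw [← e2]
    show OutT D j (D.a g + -2) t (D.cl t)
    exact outL (by omega) (by omega) (by omega) (by omega)
  | V1l g hg k1 k2 k3 k4 =>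
    have e1 := hG.m_eq hg (y := t) (by omega) (by omega)
    have e2 := hG.cl_eq hg (y := t) (by omega) (by omega)
    have e3 := m_min (D := D) (y := t) (by omega) (by omega)
    rw [← e2]
    show OutT D j (D.a g + -2) t (D.cl t)
    exact outL (by omega) (by omega) (by omega) (by omega)
  | V2u g hg k1 k2 k3 k4 =>
    have e1 := hG.M_eq hg (y := t) (by omega) (by omega)
    have e2 := hG.cr_eq hg (y := t) (by omega) (by omega)
    have e3 := M_max (D := D) (y := t) (by omega) (by omega)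
    rw [← e2]
    show OutT D j (D.b g - 1 - -2) t (D.cr t)
    exact outR (by omega) (by omega) (by omega) (by omega)
  | V2l g hg k1 k2 k3 k4 =>
    have e1 := hG.M_eq hg (y := t) (by omega) (by omega)
    have e2 := hG.cr_eq hg (y := t) (by omega) (by omega)
    have e3 := M_max (D := D) (y := t) (by omega) (by omega)
    rw [← e2]
    show OutT D j (D.b g - 1 - -2) t (D.cr t)
    exact outR (by omega) (by omega) (by omega) (by omega)
  | F1 g hg k1 k2 k3 k4 =>
    have e1 : D.m (g - 2) = D.a (g - 1) := by rw [md_lo (by omega)]; congr 1; ring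
    have e3 := a_min (D := D) (y := g) (by omega) (by omega)
    show OutT D j t (g + -2) (D.cl (g - 2))
    rw [show g + -2 = g - 2 by ring]
    exact outL (by omega) (by omega) (by omega) (by omega)
  | F2 g hg k1 k2 k3 k4 =>
    have e1 : D.M (g - 2) = D.b (g - 1) := by rw [Md_lo (by omega)]; congr 1; ring
    have e3 := b_max (D := D) (y := g) (by omega) (by omega)
    show OutT D j t (g + -2) (D.cr (g - 2))
    rw [show g + -2 = g - 2 by ring]
    exact outR (by omega) (by omega) (by omega) (by omega)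
  | C1 g hg k1 k2 k3 k4 =>
    have e1 : D.m g = D.a g := md_hi (by omega)
    have e3 := a_min (D := D) (y := g - 1) (by omega) (by omega)
    show OutT D j t (g - 2 - -2) (D.cl g)
    rw [show g - 2 - -2 = g by ring]
    exact outL (by omega) (by omega) (by omega) (by omega)
  | C2 g hg k1 k2 k3 k4 =>
    have e1 : D.M g = D.b g := Md_hi (by omega)
    have e3 := b_max (D := D) (y := g - 1) (by omega) (by omega)
    show OutT D j t (g - 2 - -2) (D.cr g)
    rw [show g - 2 - -2 = g by ring]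
    exact outR (by omega) (by omega) (by omega) (by omega)

/-- the first outer layer is near the window -/
theorem box1 (hr : (D.wsys j G).Rg L a (-1) t) :
    D.InZ ((D.wsys j G).tl a (-1) t).1 ((D.wsys j G).tl a (-1) t).2 := by
  obtain ⟨hact, hN, hlo, hhi⟩ := rg_pos hr
  have h2 := tf_of (t := t) hG h0 h1 hact (by omega) (by omega)
  generalize (D.wsys j G).tl a (-1) t = T at h2 ⊢
  have n0 := hG.lo a.2.1 a.2.2
  generalize a.1.1 = v at h2
  generalize a.1.2 = l at h2
  generalize a.2.1 = g at h2 n0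
  cases h2 with
  | V1 hx hm k1 k2 =>
    have n1 := hG.nxt_h (g := g) (by omega)
    have hw := m_lt_M (D := D) (y := T.2) (by omega) (by omega)
    exact z_of ⟨by omega, by omega, by omega, by omega⟩
  | V2 hx hm k1 k2 =>
    have n1 := hG.nxt_h (g := g) (by omega)
    have hw := m_lt_M (D := D) (y := T.2) (by omega) (by omega)
    exact z_of ⟨by omega, by omega, by omega, by omega⟩
  | H1 hy h0' h1' h3 h4 h5 =>
    have k1 := D.ab (g - 1) (by omega) (by omega)
    have k2 := D.ab g (by omega) (by omega)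
    have k3 := b_le_M (D := D) (y := g - 1) (by omega)
    have k4 := b_le_M' (D := D) (y := g - 1) (by omega)
    rw [sub_add_cancel] at k4
    rw [← hy] at k1 k3 k4 h3 h4 h5
    exact z_of ⟨by omega, by omega, by omega, by omega⟩
  | H2 hy h0' h1' h3 h4 h5 =>
    have k1 := D.ab (g - 1) (by omega) (by omega)
    have k2 := D.ab g (by omega) (by omega)
    have k3 := m_le_a (D := D) (y := g - 1) (by omega)
    have k4 := m_le_a' (D := D) (y := g - 1) (by omega)
    rw [sub_add_cancel] at k4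
    rw [← hy] at k1 k3 k4 h3 h4 h5
    exact z_of ⟨by omega, by omega, by omega, by omega⟩

end facts

end Win

end Pool.Agent.H46.Sp
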