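import Mathlib
import Pool.Agent.H46.G1.WBox
import Pool.Agent.H46.Sp.Kd

set_option autoImplicit false
open Finset

/-! # The box of a tie on a flat wall, any kind (`BoxGeo`, `OneType`)

`L = z ∪ V` : a configuration, `z ⊆ E` random labels. The wall of kind `k` on the line `p` is flat at distance
`n` of the tie `tau k p (-1) q`; the labels of the first outer layer (`u = -1`) are open iff `g`, those of the
second layer (`u = -2`) are open iff `g` is false. For every label outside of `E` near the wall the index of a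
gate-free strand is zero at its two vertices (open label) or at its two faces (closed label). -/

namespace Pool.Agent.H46.Sp

open Pool.Agent.H75.Perc Pool.Agent.H75.TwoArm Pool.Agent.H75.Four Pool.Agent.H69.Q1
open Pool.Agent.Q1 Pool.Agent.H99.NC Pool.Agent.H49.Perc Pool.Agent.H19.Q1
open Pool.Agent.H60.Q1 Pool.Agent.H33.Q1 Pool.Agent.H34.Q1
open Pool.Agent.H74.R45 (exists_lt)
open Pool.Agent.H46.G1 (lab_near no_corner corner_grid)
open Pool.Agent.Q1.M6b.Nest

/-! ### The four tiles around a vertex or a face -/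

/-- the labels met from the corners of the set `A` are those of a square of four tiles -/
def Quad (k : Kd) (p : ℤ) (A : Set (ℤ × ℤ)) : Prop := ∃ u0 t0 : ℤ,
  (∀ d ∈ A, ∃ u t, lab d = lt (k.tau p u t) ∧ (u = u0 - 1 ∨ u = u0) ∧ (t = t0 - 1 ∨ t = t0)) ∧
  ∀ u t, (u = u0 - 1 ∨ u = u0) → (t = t0 - 1 ∨ t = t0) → ∃ d ∈ A, lab d = lt (k.tau p u t)

lemma quad_of {A : Set (ℤ × ℤ)} {x0 y0 : ℤ}
    (h1 : ∀ d ∈ A, ∃ X Y, lab d = lt (X, Y) ∧ (X = x0 - 1 ∨ X = x0) ∧ (Y = y0 - 1 ∨ Y = y0))
    (h2 : ∀ X Y, (X = x0 - 1 ∨ X = x0) → (Y = y0 - 1 ∨ Y = y0) → ∃ d ∈ A, lab d = lt (X, Y))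
    (k : Kd) (p : ℤ) : Quad k p A := by
  cases k
  · refine ⟨x0 - p, y0, fun d hd => ?_, fun u t hu ht => h2 _ _ (by omega) (by omega)⟩
    obtain ⟨X, Y, h3, h4, h5⟩ := h1 d hd
    refine ⟨X - p, Y, ?_, by omega, by omega⟩
    rw [h3]
    unfold Kd.tau
    congr 1
    exact Prod.ext (by simp only; ring) rfl
  · refine ⟨p - x0, y0, fun d hd => ?_, fun u t hu ht => h2 _ _ (by omega) (by omega)⟩
    obtain ⟨X, Y, h3, h4, h5⟩ := h1 d hd
    refine ⟨p - 1 - X, Y, ?_, by omega, by omega⟩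
    rw [h3]
    unfold Kd.tau
    congr 1
    exact Prod.ext (by simp only; ring) rfl
  · refine ⟨y0 - p, x0, fun d hd => ?_, fun u t hu ht => h2 _ _ (by omega) (by omega)⟩
    obtain ⟨X, Y, h3, h4, h5⟩ := h1 d hd
    refine ⟨Y - p, X, ?_, by omega, by omega⟩
    rw [h3]
    unfold Kd.tau
    congr 1
    exact Prod.ext rfl (by simp only; ring)
  · refine ⟨p - y0, x0, fun d hd => ?_, fun u t hu ht => h2 _ _ (by omega) (by omega)⟩
    obtain ⟨X, Y, h3, h4, h5⟩ := h1 d hd
    refine ⟨p - 1 - Y, X, ?_, by omega, by omega⟩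
    rw [h3]
    unfold Kd.tau
    congr 1
    exact Prod.ext rfl (by simp only; ring)

lemma quad_fi (k : Kd) (p : ℤ) (c : ℤ × ℤ) : Quad k p {d | fi d = fi c} := by
  refine quad_of (x0 := (fi c).1 + (fi c).2 - 1) (y0 := (fi c).2 - (fi c).1) ?_ ?_ k p
  · intro d hd
    rw [Set.mem_ofPred_eq] at hd
    rw [← hd]
    obtain ⟨X, Y, h, -, -, h1, h2⟩ := corner_grid d
    exact ⟨X, Y, h, by omega, by omega⟩
  · intro X Y hX hY
    revert hX hY
    generalize fi c = f
    obtain ⟨f1, f2⟩ := f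
    intro hX hY
    simp only at hX hY
    rcases hX with rfl | rfl <;> rcases hY with rfl | rfl
    · refine ⟨(2 * f1, 2 * f2 - 1), ?_, ?_⟩
      · show fi _ = _
        unfold fi; refine Prod.ext ?_ ?_ <;> simp only <;> omega
      · unfold lab lt
        rw [if_neg (by simp only; omega), if_pos (by simp only; omega)]
        refine Prod.ext ?_ ?_ <;> simp only <;> ring
    · refine ⟨(2 * f1 - 1, 2 * f2 - 1), ?_, ?_⟩
      · show fi _ = _
        unfold fi; refine Prod.ext ?_ ?_ <;> simp only <;> omega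
      · unfold lab lt
        rw [if_neg (by simp only; omega), if_neg (by simp only; omega)]
        refine Prod.ext ?_ ?_ <;> simp only <;> ring
    · refine ⟨(2 * f1, 2 * f2), ?_, ?_⟩
      · show fi _ = _
        unfold fi; refine Prod.ext ?_ ?_ <;> simp only <;> omega
      · unfold lab lt
        rw [if_pos (by simp only; omega), if_pos (by simp only; omega)]
        refine Prod.ext ?_ ?_ <;> simp only <;> ring
    · refine ⟨(2 * f1 - 1, 2 * f2), ?_, ?_⟩
      · show fi _ = _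
        unfold fi; refine Prod.ext ?_ ?_ <;> simp only <;> omega
      · unfold lab lt
        rw [if_pos (by simp only; omega), if_neg (by simp only; omega)]
        refine Prod.ext ?_ ?_ <;> simp only <;> ring

lemma quad_vx (k : Kd) (p : ℤ) (c : ℤ × ℤ) : Quad k p {d | vx d = vx c} := by
  refine quad_of (x0 := (vx c).1 + (vx c).2) (y0 := (vx c).2 - (vx c).1) ?_ ?_ k p
  · intro d hd
    rw [Set.mem_ofPred_eq] at hd
    rw [← hd]
    obtain ⟨X, Y, h, h1, h2, -, -⟩ := corner_grid d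
    exact ⟨X, Y, h, by omega, by omega⟩
  · intro X Y hX hY
    revert hX hY
    generalize vx c = f
    obtain ⟨f1, f2⟩ := f
    intro hX hY
    simp only at hX hY
    rcases hX with rfl | rfl <;> rcases hY with rfl | rfl
    · refine ⟨(2 * f1, 2 * f2), ?_, ?_⟩
      · show vx _ = _
        unfold vx; refine Prod.ext ?_ ?_ <;> simp only <;> omega
      · unfold lab lt
        rw [if_pos (by simp only; omega), if_pos (by simp only; omega)]
        refine Prod.ext ?_ ?_ <;> simp only <;> ring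
    · refine ⟨(2 * f1, 2 * f2 + 1), ?_, ?_⟩
      · show vx _ = _
        unfold vx; refine Prod.ext ?_ ?_ <;> simp only <;> omega
      · unfold lab lt
        rw [if_neg (by simp only; omega), if_pos (by simp only; omega)]
        refine Prod.ext ?_ ?_ <;> simp only <;> ring
    · refine ⟨(2 * f1 + 1, 2 * f2), ?_, ?_⟩
      · show vx _ = _
        unfold vx; refine Prod.ext ?_ ?_ <;> simp only <;> omega
      · unfold lab lt
        rw [if_pos (by simp only; omega), if_neg (by simp only; omega)]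
        refine Prod.ext ?_ ?_ <;> simp only <;> ring
    · refine ⟨(2 * f1 + 1, 2 * f2 + 1), ?_, ?_⟩
      · show vx _ = _
        unfold vx; refine Prod.ext ?_ ?_ <;> simp only <;> omega
      · unfold lab lt
        rw [if_neg (by simp only; omega), if_neg (by simp only; omega)]
        refine Prod.ext ?_ ?_ <;> simp only <;> ring

/-! ### Isolated vertices and faces -/

variable {L E V : Finset (ℤ × ℤ)} {v x : ℤ × ℤ} {O : Set (ℤ × ℤ)} {ρ : ℤ}

/-- a strand of index one at `v` which contains a corner near `x` does not stay near this corner -/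
lemma not_small (hO : O ∈ Lp L v) {c : ℤ × ℤ} (hc1 : |c.1 - x.1| ≤ ρ) (hc2 : |c.2 - x.2| ≤ ρ)
    (hfar : ρ + 1 < |2 * v.1 - x.1| ∨ ρ + 1 < |2 * v.2 + 1 - x.2|)
    (hs : ∀ d ∈ O, |d.1 - c.1| ≤ 1 ∧ |d.2 - c.2| ≤ 1) : False := by
  obtain ⟨a, ha⟩ := hO.1
  have hfin := hO.2.1
  have hinv := inv_of_orbit ha hfin
  have h1 := (odd_iff_ixv hfin v).1 hO.2.2
  have h2 : ixv hfin.toFinset v = 0 := by
    refine ixv_out hinv.tile (a := x.1 - (ρ + 1)) (b := x.1 + (ρ + 1))
      (p := x.2 - (ρ + 1)) (q := x.2 + (ρ + 1)) ?_ ?_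
    · intro d hd
      rw [Set.Finite.mem_toFinset] at hd
      obtain ⟨h3, h4⟩ := hs d hd
      rw [abs_le] at h3 h4 hc1 hc2
      omega
    · rw [lt_abs, lt_abs] at hfar
      omega
  rw [h2] at h1
  exact zero_ne_one h1

/-- isolated vertex -/
lemma iso_vx (hO : O ∈ Lp L v) {c : ℤ × ℤ} (hc : c ∈ O) (hc1 : |c.1 - x.1| ≤ ρ)
    (hc2 : |c.2 - x.2| ≤ ρ)
    (hfar : ρ + 1 < |2 * v.1 - x.1| ∨ ρ + 1 < |2 * v.2 + 1 - x.2|)
    (hcl : ∀ d, vx d = vx c → lab d ∉ L) : False := by
  obtain ⟨a, ha⟩ := hO.1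
  have horb := orbit_of_mem ha hO.2.1 hc
  have hvx : ∀ i : ℕ, vx ((nx L)^[i] c) = vx c := by
    intro i
    induction i with
    | zero => rfl
    | succ i ih =>
      rw [Function.iterate_succ_apply']
      have h1 := hcl _ ih
      generalize (nx L)^[i] c = d at ih h1
      unfold nx
      rw [if_neg h1, vx_nxC, ih]
  refine not_small hO hc1 hc2 hfar fun d hd => ?_
  rw [horb] at hd
  obtain ⟨i, rfl⟩ := hd
  have := hvx i
  unfold vx at this
  simp only [Prod.mk.injEq] at this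
  simp only
  rw [abs_le, abs_le]
  omega

/-- isolated face -/
lemma iso_fi (hO : O ∈ Lp L v) {c : ℤ × ℤ} (hc : c ∈ O) (hc1 : |c.1 - x.1| ≤ ρ)
    (hc2 : |c.2 - x.2| ≤ ρ)
    (hfar : ρ + 1 < |2 * v.1 - x.1| ∨ ρ + 1 < |2 * v.2 + 1 - x.2|)
    (hcl : ∀ d, fi d = fi c → lab d ∈ L) : False := by
  obtain ⟨a, ha⟩ := hO.1
  have horb := orbit_of_mem ha hO.2.1 hc
  have hfi : ∀ i : ℕ, fi ((nx L)^[i] c) = fi c := by
    intro i
    induction i with
    | zero => rfl
    | succ i ih =>
      rw [Function.iterate_succ_apply']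
      have h1 := hcl _ ih
      generalize (nx L)^[i] c = d at ih h1
      unfold nx
      rw [if_pos h1, StrandAux.fi_nxO, ih]
  refine not_small hO hc1 hc2 hfar fun d hd => ?_
  rw [horb] at hd
  obtain ⟨i, rfl⟩ := hd
  have := hfi i
  unfold fi at this
  simp only [Prod.mk.injEq] at this
  simp only
  rw [abs_le, abs_le]
  omega

/-! ### No strand outside -/

/-- **No gate-free strand of index one meets a label behind the first layer.** -/
lemma no_ext (hO : O ∈ Lp L v) {c : ℤ × ℤ} (hc : c ∈ O) (hc1 : |c.1 - x.1| ≤ ρ)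
    (hc2 : |c.2 - x.2| ≤ ρ)
    (hfar : ρ + 1 < |2 * v.1 - x.1| ∨ ρ + 1 < |2 * v.2 + 1 - x.2|)
    {k : Kd} {p q u t : ℤ} {g : Bool} (hl : lab c = lt (k.tau p u t)) (hu : u ≤ -2)
    (hidx : ∀ d u' t', lab d = lt (k.tau p u' t') → |u' - u| ≤ 1 → |t' - t| ≤ 1 → u' ≤ -1 →
      (u' = -1 → t' ≠ q) → (lab d ∈ L → ixv hO.2.1.toFinset (vx d) = 0) ∧
        (lab d ∉ L → ixf hO.2.1.toFinset (fi d) = 0))
    (h2 : u = -2 → (lt (k.tau p u t) ∈ L ↔ g = false))
    (h1 : ∀ t', |t' - t| ≤ 1 → t' ≠ q → (lt (k.tau p (-1) t') ∈ L ↔ g = true)) : False := by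
  have h0 := hidx c u t hl (by simp) (by simp) (by omega) (by omega)
  by_cases hcL : lab c ∈ L
  · -- the vertex has index zero, all labels at the face are open
    have hv := h0.1 hcL
    obtain ⟨u0, t0, q1, q2⟩ := quad_fi k p c
    obtain ⟨uc, tc, q3, q4, q5⟩ := q1 c rfl
    rw [hl] at q3
    obtain ⟨rfl, rfl⟩ := Kd.tau_inj (lt_inj q3)
    have key : ∀ d, fi d = fi c → (∀ u' t', lab d = lt (k.tau p u' t') → u' = -1 → t' ≠ q) →
        lab d ∈ L := by
      intro d hd hne
      by_contra hcon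
      obtain ⟨u', t', q6, q7, q8⟩ := q1 d hd
      have h3 := (hidx d u' t' q6 (by rw [abs_le]; omega) (by rw [abs_le]; omega) (by omega)
        (hne u' t' q6)).2 hcon
      rw [hd] at h3
      exact no_corner hO hc hv h3
    by_cases htie : u0 = -1 ∧ (q = t0 - 1 ∨ q = t0)
    · -- the tie is at the face
      obtain ⟨hu0, hq⟩ := htie
      obtain ⟨t', ht', hne'⟩ : ∃ t', (t' = t0 - 1 ∨ t' = t0) ∧ t' ≠ q := by
        rcases hq with h | h
        · exact ⟨t0, Or.inr rfl, by omega⟩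
        · exact ⟨t0 - 1, Or.inl rfl, by omega⟩
      obtain ⟨d, hd, hd'⟩ := q2 (-1) t' (Or.inr (by omega)) ht'
      have h3 := key d hd (fun u'' t'' h4 _ => by
        rw [hd'] at h4
        obtain ⟨-, rfl⟩ := Kd.tau_inj (lt_inj h4)
        exact hne')
      rw [hd', h1 t' (by rw [abs_le]; omega) hne'] at h3
      rw [hl, h2 (by omega), h3] at hcL
      exact absurd hcL (by simp)
    · refine iso_fi hO hc hc1 hc2 hfar fun d hd => key d hd fun u' t' h3 h4 h5 => htie ?_
      obtain ⟨u'', t'', q6, q7, q8⟩ := q1 d hd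
      rw [h3] at q6
      obtain ⟨rfl, rfl⟩ := Kd.tau_inj (lt_inj q6)
      omega
  · -- the face has index zero, all labels at the vertex are closed
    have hf := h0.2 hcL
    obtain ⟨u0, t0, q1, q2⟩ := quad_vx k p c
    obtain ⟨uc, tc, q3, q4, q5⟩ := q1 c rfl
    rw [hl] at q3
    obtain ⟨rfl, rfl⟩ := Kd.tau_inj (lt_inj q3)
    have key : ∀ d, vx d = vx c → (∀ u' t', lab d = lt (k.tau p u' t') → u' = -1 → t' ≠ q) →
        lab d ∉ L := by
      intro d hd hne hcon
      obtain ⟨u', t', q6, q7, q8⟩ := q1 d hd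
      have h3 := (hidx d u' t' q6 (by rw [abs_le]; omega) (by rw [abs_le]; omega) (by omega)
        (hne u' t' q6)).1 hcon
      rw [hd] at h3
      exact no_corner hO hc h3 hf
    by_cases htie : u0 = -1 ∧ (q = t0 - 1 ∨ q = t0)
    · obtain ⟨hu0, hq⟩ := htie
      obtain ⟨t', ht', hne'⟩ : ∃ t', (t' = t0 - 1 ∨ t' = t0) ∧ t' ≠ q := by
        rcases hq with h | h
        · exact ⟨t0, Or.inr rfl, by omega⟩
        · exact ⟨t0 - 1, Or.inl rfl, by omega⟩
      obtain ⟨d, hd, hd'⟩ := q2 (-1) t' (Or.inr (by omega)) ht'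
      have h3 := key d hd (fun u'' t'' h4 _ => by
        rw [hd'] at h4
        obtain ⟨-, rfl⟩ := Kd.tau_inj (lt_inj h4)
        exact hne')
      rw [hd', h1 t' (by rw [abs_le]; omega) hne'] at h3
      rw [hl, h2 (by omega)] at hcL
      cases g
      · exact hcL rfl
      · exact h3 rfl
    · refine iso_vx hO hc hc1 hc2 hfar fun d hd => key d hd fun u' t' h3 h4 h5 => htie ?_
      obtain ⟨u'', t'', q6, q7, q8⟩ := q1 d hd
      rw [h3] at q6
      obtain ⟨rfl, rfl⟩ := Kd.tau_inj (lt_inj q6)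
      omega

/-! ### The box -/

/-- the other labels near the box `Bl` of a wall whose first layer has the colour `g` -/
def Gn (g : Bool) (E V : Finset (ℤ × ℤ)) (Bl : Set (ℤ × ℤ)) : Set (ℤ × ℤ) :=
  {l | (g = true → l ∈ E ∪ V) ∧ (g = false → l ∉ V) ∧ l ∉ Bl}

lemma oneType_Gn {g : Bool} {Bl : Set (ℤ × ℤ)} {x : ℤ × ℤ} {M : ℤ} :
    OneType E V (Gn g E V Bl) x M := by
  cases g
  · left
    intro l hl _ _
    exact hl.2.1 rfl
  · right
    intro l hl _ _
    exact mem_union.1 (hl.1 rfl)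

/-- tiles near a tile -/
lemma lt_near {k : Kd} {p u t u' t' : ℤ} {n : ℤ}
    (h1 : |(lt (k.tau p u t)).1 - (lt (k.tau p u' t')).1| ≤ n)
    (h2 : |(lt (k.tau p u t)).2 - (lt (k.tau p u' t')).2| ≤ n) : |u - u'| ≤ n ∧ |t - t'| ≤ n := by
  rw [abs_le] at *
  cases k <;> unfold lt Kd.tau at * <;> simp only at * <;>
    · rw [abs_le]; omega

/-- **The box of a tie.** -/
theorem boxGeo_flat {z : Finset (ℤ × ℤ)} {Gt : Finset (ℤ × ℤ)} {Bl : Set (ℤ × ℤ)} {r M n : ℤ}
    (k : Kd) (p q : ℤ) (g : Bool) (hz : z ⊆ E) (hEV : Disjoint E V) (hr : 0 ≤ r) (hM : 0 ≤ M)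
    (hn : M + r + 4 ≤ n)
    (hBl : ∀ l ∈ Bl, ∃ u t, l = lt (k.tau p u t) ∧ |u + 1| + |t - q| + 1 ≤ r)
    (htie : lt (k.tau p (-1) q) ∈ Bl)
    (hint : ∀ u t, 0 ≤ u → u ≤ n → |t - q| ≤ n → lt (k.tau p u t) ∈ E ∨ lt (k.tau p u t) ∈ Bl)
    (hfst : ∀ t, t ≠ q → |t - q| ≤ n → lt (k.tau p (-1) t) ∉ E ∧
      (lt (k.tau p (-1) t) ∈ V ↔ g = true))
    (hsec : ∀ t, |t - q| ≤ n → lt (k.tau p (-2) t) ∉ E ∧ (lt (k.tau p (-2) t) ∈ V ↔ g = false))
    (hidx : ∀ (O : Set (ℤ × ℤ)) (hO : O ∈ Lp (z ∪ V) v), (∀ g ∈ Gt, g ∉ O) →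
      ∀ d u t, lab d = lt (k.tau p u t) → -n ≤ u → u ≤ -1 → |t - q| ≤ n → (u = -1 → t ≠ q) →
        (lab d ∈ z ∪ V → ixv hO.2.1.toFinset (vx d) = 0) ∧
          (lab d ∉ z ∪ V → ixf hO.2.1.toFinset (fi d) = 0))
    (hfar : n < |2 * v.1 - (lt (k.tau p (-1) q)).1| ∨
      n < |2 * v.2 + 1 - (lt (k.tau p (-1) q)).2|) :
    BoxGeo (z ∪ V) v Gt Bl (Gn g E V Bl) (lt (k.tau p (-1) q)) r M where
  r0 := hr
  M0 := hM
  disj := by
    rw [Set.disjoint_left]
    intro l h3 h4
    exact h4.2.2 h3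
  lab := by
    intro O hO hg c hc n1 n2
    have hnr := Pool.Agent.H46.G1.lab_near c
    obtain ⟨u, t, hl⟩ := Kd.exists_tau k p (Pool.Agent.H75.Perc.lab_odd c)
    rw [hl] at hnr ⊢
    have h3 : |u - -1| ≤ M + r + 2 ∧ |t - q| ≤ M + r + 2 := by
      refine lt_near (k := k) (p := p) ?_ ?_
      · refine (abs_sub_le _ c.1 _).trans ?_
        have := hnr.1
        linarith
      · refine (abs_sub_le _ c.2 _).trans ?_
        have := hnr.2
        linarith
    obtain ⟨h4, h5⟩ := h3
    rw [abs_le] at h4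
    have h5' := abs_le.1 h5
    rcases lt_or_ge u (-1) with hu | hu
    · exfalso
      refine no_ext (x := lt (k.tau p (-1) q)) (ρ := M + r + 1) (g := g) hO hc n1 n2 ?_ hl
        (show u ≤ -2 by omega) (q := q) ?_ ?_ ?_
      · rcases hfar with h | h
        · left; omega
        · right; omega
      · intro d u' t' g1 g2 g3 g4 g5
        rw [abs_le] at g2 g3
        exact hidx O hO hg d u' t' g1 (by omega) g4 (abs_le.2 (by omega)) g5
      · intro h6
        subst h6
        have h7 := hsec t (by omega)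
        rw [mem_union]
        constructor
        · rintro (h8 | h8)
          · exact absurd (hz h8) h7.1
          · exact h7.2.1 h8
        · intro h8; exact Or.inr (h7.2.2 h8)
      · intro t' g1 g2
        rw [abs_le] at g1
        have h7 := hfst t' g2 (abs_le.2 (by omega))
        rw [mem_union]
        constructor
        · rintro (h8 | h8)
          · exact absurd (hz h8) h7.1
          · exact h7.2.1 h8
        · intro h8; exact Or.inr (h7.2.2 h8)
    · by_cases hbl : lt (k.tau p u t) ∈ Bl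
      · exact Or.inr hbl
      left
      rcases eq_or_lt_of_le hu with hu1 | hu1
      · subst hu1
        have htq : t ≠ q := fun h => hbl (by rw [h]; exact htie)
        obtain ⟨-, h7⟩ := hfst t htq (by omega)
        refine ⟨fun h => mem_union_right _ (h7.2 h), fun h h8 => ?_, hbl⟩
        rw [h7.1 h8] at h
        exact absurd h (by simp)
      · rcases hint u t (by omega) (by omega) (by omega) with h7 | h7
        · exact ⟨fun _ => mem_union_left _ h7, fun _ h8 => disjoint_left.1 hEV h7 h8, hbl⟩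
        · exact absurd h7 hbl
  near := by
    intro c hc
    obtain ⟨u, t, hl, h3⟩ := hBl _ hc
    have hn := Pool.Agent.H46.G1.lab_near c
    rw [hl] at hn
    have e1 : |(lt (k.tau p u t)).1 - (lt (k.tau p (-1) q)).1| ≤ |u + 1| + |t - q| := by
      have a1 := le_abs_self (u + 1)
      have a2 := neg_abs_le (u + 1)
      have a3 := le_abs_self (t - q)
      have a4 := neg_abs_le (t - q)
      rw [abs_le]
      cases k <;> unfold lt Kd.tau <;> simp only <;> constructor <;> linarith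
    have e2 : |(lt (k.tau p u t)).2 - (lt (k.tau p (-1) q)).2| ≤ |u + 1| + |t - q| := by
      have a1 := le_abs_self (u + 1)
      have a2 := neg_abs_le (u + 1)
      have a3 := le_abs_self (t - q)
      have a4 := neg_abs_le (t - q)
      rw [abs_le]
      cases k <;> unfold lt Kd.tau <;> simp only <;> constructor <;> linarith
    constructor
    · refine (abs_sub_le _ (lt (k.tau p u t)).1 _).trans ?_
      have := hn.1
      rw [abs_sub_comm] at this
      linarith
    · refine (abs_sub_le _ (lt (k.tau p u t)).2 _).trans ?_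
      have := hn.2
      rw [abs_sub_comm] at this
      linarith
  far := by
    rcases hfar with h | h
    · left; omega
    · right; omega

end Pool.Agent.H46.Sp
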