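import Mathlib
import Pool.Agent.H46.Sp.WGk
import Pool.Agent.H53.Sp.BhW
import Pool.Agent.H69.Sp.RowT

set_option autoImplicit false
open Finset

/-! # The runs of ties of a window: the interface of chapter B

`GJ D j` : the levels. `wsys_gok`, `wsys_fok` : the hypotheses `GOk`, `FOk` of `bh_win`. `bt_sub`,
`rg_bulk` : the half boxes are in `P-` and `P+`. `away_root`, `away_row`. `bt_sep` : the half boxes are
separated from the row. `wsys_N` : length of the runs. -/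

namespace Pool.Agent.H46.Sp

open Pool.Agent.H75.Perc Pool.Agent.H75.TwoArm Pool.Agent.Q1 Pool.Agent.H33.Q1
open Pool.Agent.H46.G1 Pool.Agent.H30.Mid Pool.Agent.H30.Sp
open Pool.Agent.H69.M6b (lbt lbt_inj lbt_odd)
open Pool.Agent.H74.R45 (ve he)
open Pool.Agent.H81.G1 (Dir)
open Pool.Agent.H53.Sp (GOk FOk)
open Pool.Agent.H42.Sp (Sd Ix CP kt rt CPs ETp WTp OTp XTp OutT outL outR)

namespace Win

variable {D : Win} {j : ℤ} {G : Finset ℤ} {L L2 L' r : ℤ} {u u' t x y g g' : ℤ} {a : Ru G}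

/-! ### Levels -/

/-- the rows where the boundary changes -/
noncomputable def F0 (D : Win) : Finset ℤ :=
  (Finset.Ico 1 D.h).filter fun y => ¬ (D.a y = D.a (y - 1) ∧ D.b y = D.b (y - 1))

/-- **The levels of the environment number `j`.** -/
noncomputable def GJ (D : Win) (j : ℤ) : Finset ℤ := insert 0 (insert D.h (insert j D.F0))

lemma mem_F0 : y ∈ D.F0 ↔ (0 < y ∧ y < D.h) ∧ ¬ (D.a y = D.a (y - 1) ∧ D.b y = D.b (y - 1)) := by
  unfold F0
  rw [mem_filter, Finset.mem_Ico]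
  constructor
  · rintro ⟨⟨h1, h2⟩, h3⟩; exact ⟨⟨by omega, h2⟩, h3⟩
  · rintro ⟨⟨h1, h2⟩, h3⟩; exact ⟨⟨by omega, h2⟩, h3⟩

lemma mem_GJ : y ∈ D.GJ j ↔ y = 0 ∨ y = D.h ∨ y = j ∨ y ∈ D.F0 := by
  unfold GJ; rw [mem_insert, mem_insert, mem_insert]

lemma few_F0 : Few D D.F0 := by
  intro y h0 h1 h2
  by_contra h3
  exact h2 (mem_F0.2 ⟨⟨h0, h1⟩, h3⟩)

lemma F0_sub {F : Finset ℤ} (hF : Few D F) : D.F0 ⊆ F := by
  intro y hy
  obtain ⟨h1, h2⟩ := mem_F0.1 hy
  by_contra h3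
  exact h2 (hF y h1.1 h1.2 h3)

lemma GJ_card {F : Finset ℤ} (hF : Few D F) : (D.GJ j).card ≤ F.card + 3 := by
  have h1 := card_le_card (F0_sub hF)
  unfold GJ
  refine (card_insert_le _ _).trans ?_
  have h2 := card_insert_le D.h (insert j D.F0)
  have h3 := card_insert_le j D.F0
  omega

/-- number of the runs -/
lemma ru_card : Fintype.card (Ru G) = 4 * G.card := by
  simp [Ru, Fintype.card_prod]

lemma lev_GJ (h0 : 0 ≤ j) (h1 : j ≤ D.h) : D.Lev j (D.GJ j) where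
  ab y h2 h3 h4 := few_F0 y h2 h3 fun h5 => h4 (mem_GJ.2 (Or.inr (Or.inr (Or.inr h5))))
  j := mem_GJ.2 (Or.inr (Or.inr (Or.inl rfl)))
  P := by
    have hP0 := D.P0
    have hP1 := D.P1
    by_cases h2 : D.yP = D.h
    · exact mem_GJ.2 (Or.inr (Or.inl h2))
    · have h3 := D.aP (by omega)
      exact mem_GJ.2 (Or.inr (Or.inr (Or.inr (mem_F0.2 ⟨⟨by omega, by omega⟩, fun h4 => by omega⟩))))
  Q := by
    have hQ0 := D.Q0
    have hQ1 := D.Q1
    by_cases h2 : D.yQ = 0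
    · exact mem_GJ.2 (Or.inl h2)
    · have h3 := D.bQ (by omega)
      exact mem_GJ.2 (Or.inr (Or.inr (Or.inr (mem_F0.2 ⟨⟨by omega, by omega⟩, fun h4 => by omega⟩))))
  zero := mem_GJ.2 (Or.inl rfl)
  h := mem_GJ.2 (Or.inr (Or.inl rfl))
  lo g hg := by
    have hh := D.hh
    rcases mem_GJ.1 hg with h | h | h | h
    · omega
    · omega
    · omega
    · have := (mem_F0.1 h).1
      omega
  hi g hg := by
    have hh := D.hh
    rcases mem_GJ.1 hg with h | h | h | h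
    · omega
    · omega
    · omega
    · have := (mem_F0.1 h).1
      omega

/-- near a flat row there are no levels -/
lemma gd_GJ (H : Pool.Agent.H30.Sp.Flat D j r) : ∀ g ∈ D.GJ j, g ≠ j → j + r ≤ g ∨ g + r ≤ j := by
  intro g hg hgj
  have h1 := H.lo
  have h2 := H.hi
  rcases mem_GJ.1 hg with h | h | h | h
  · omega
  · omega
  · exact absurd h hgj
  · obtain ⟨h3, h4⟩ := mem_F0.1 h
    by_contra h5
    have e1 := H.ab g (by omega) (by omega)
    have e2 := H.ab (g - 1) (by omega) (by omega)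
    exact h4 ⟨by omega, by omega⟩

/-! ### The regions over the runs -/

section facts

variable (hG : D.Lev j G) (hF : D.Fat L2) (hL : 2 * L + 2 ≤ L2) (h0 : 0 < j) (h1 : j < D.h)

include hG h0 h1

/-- the regions over the runs are not in the rows `j - 2`, `j - 1`, `j` -/
lemma rg_rows (hgd : ∀ g ∈ G, g ≠ j → j + 2 ≤ g ∨ g + 2 ≤ j) (hr : (D.wsys j G).Rg L a u t) :
    ((D.wsys j G).tl a u t).2 ≤ j - 3 ∨ j + 1 ≤ ((D.wsys j G).tl a u t).2 := by
  have h2 := rf_of hG h0 h1 hr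
  have hu := hr.1
  have hg := hgd a.2.1 a.2.2
  generalize (D.wsys j G).tl a u t = T at h2 ⊢
  generalize a.1.1 = v at h2
  generalize a.1.2 = l at h2
  generalize a.2.1 = g at h2 hg
  cases h2 <;> omega

include hF hL

/-- the regions over the runs are near the window -/
lemma rg_InZ (hr : (D.wsys j G).Rg L a u t) :
    D.InZ ((D.wsys j G).tl a u t).1 ((D.wsys j G).tl a u t).2 := by
  by_cases hu : 0 ≤ u
  · have hb := (rf_of hG h0 h1 hr).inB hG hF h0 h1 hu (by have := hr.2.1; omega) a.2.2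
    have h3 := hb.inU h0.le h1.le
    unfold InU at h3
    exact z_of ⟨h3.1, h3.2.1, by omega, by omega⟩
  · have h3 : u = -1 := by have := hr.1; omega
    subst h3
    exact box1 hG h0 h1 hr

/-- the regions over the runs are in `P-` or `P+` -/
theorem rg_bulk (hu : 0 ≤ u) (hr : (D.wsys j G).Rg L a u t) :
    lt ((D.wsys j G).tl a u t) ∈ BLw D j ∅ ∪ BUw D j ∅ := by
  rw [show lt ((D.wsys j G).tl a u t) =
    lbt ((D.wsys j G).tl a u t).1 ((D.wsys j G).tl a u t).2 from (lbt_lt _ _).symm]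
  rw [mem_union, mem_BLw, mem_BUw]
  cases hup : rup j a
  · have h2 := blo hG hF hL h0 h1 hup hu hr
    exact Or.inl ⟨⟨h2.1, h2.2.1, by omega, h2.2.2⟩, notMem_empty _⟩
  · have h2 := bup hG hF hL h0 h1 hup hu hr
    exact Or.inr ⟨⟨h2.1, by omega, h2.2⟩, notMem_empty _⟩

/-- the root is away from the runs -/
theorem away_root {e : ℤ × ℤ} (hr : ∀ x y, e = lt (x, y) → ¬ D.InZ x y) :
    (D.wsys j G).Away L e := by
  intro a u t hR he
  exact hr _ _ he (rg_InZ hG hF hL h0 h1 hR)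

omit hF hL

/-- the rows `j - 2`, `j - 1`, `j` are away from the runs -/
theorem away_rows (hgd : ∀ g ∈ G, g ≠ j → j + 2 ≤ g ∨ g + 2 ≤ j) (hy : j - 2 ≤ y) (hy' : y ≤ j) :
    (D.wsys j G).Away L (lt (x, y)) := by
  intro a u t hR he
  have h2 := rg_rows hG h0 h1 hgd hR
  have h3 := congrArg Prod.snd (lt_inj he)
  simp only at h3
  omega

/-- the corners of the row are away from the runs -/
theorem away_row (hgd : ∀ g ∈ G, g ≠ j → j + 2 ≤ g ∨ g + 2 ≤ j) {N : ℕ} {x0 : ℤ}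
    (z : Fin N × Dir) : (D.wsys j G).Away L (lab (rcr x0 (j - 1) z)) := by
  obtain ⟨c, d⟩ := z
  have key : ∃ x y : ℤ, lab (rcr x0 (j - 1) (c, d)) = lt (x, y) ∧ j - 2 ≤ y ∧ y ≤ j := by
    cases d with
    | W =>
      rw [rcr_W]
      rcases Int.emod_two_eq_zero_or_one (x0 + (c : ℕ) + (j - 1)) with h | h
      · exact ⟨_, _, Pool.Agent.H74.R45.lab_ve_W h, by omega, by omega⟩
      · exact ⟨_, _, Pool.Agent.H74.R45.lab_ve_E h, by omega, by omega⟩
    | N =>
      rw [rcr_N]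
      rcases Int.emod_two_eq_zero_or_one (x0 + (c : ℕ) + (j - 1 + 1)) with h | h
      · exact ⟨_, _, Pool.Agent.H74.R45.lab_he_N h, by omega, by omega⟩
      · exact ⟨_, _, Pool.Agent.H74.R45.lab_he_S h, by omega, by omega⟩
    | E =>
      rw [rcr_E]
      rcases Int.emod_two_eq_zero_or_one (x0 + (c : ℕ) + 1 + (j - 1)) with h | h
      · exact ⟨_, _, Pool.Agent.H74.R45.lab_ve_W h, by omega, by omega⟩
      · exact ⟨_, _, Pool.Agent.H74.R45.lab_ve_E h, by omega, by omega⟩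
    | S =>
      rw [rcr_S]
      rcases Int.emod_two_eq_zero_or_one (x0 + (c : ℕ) + (j - 1)) with h | h
      · exact ⟨_, _, Pool.Agent.H74.R45.lab_he_N h, by omega, by omega⟩
      · exact ⟨_, _, Pool.Agent.H74.R45.lab_he_S h, by omega, by omega⟩
  obtain ⟨x, y, e, h3, h4⟩ := key
  rw [e]
  exact away_rows hG h0 h1 hgd h3 h4

end facts

/-! ### The interfaces -/

/-- **The positions of the runs.** -/
theorem wsys_gok (hG : D.Lev j G) (hF : D.Fat L2) (hL : 2 * L + 2 ≤ L2) (h0 : 0 < j)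
    (h1 : j < D.h) (hgd : ∀ g ∈ G, g ≠ j → j + L ≤ g ∨ g + L ≤ j) :
    GOk D j (D.wsys j G) L (rup j) where
  bup _ _ _ hup hu hr := bup hG hF hL h0 h1 hup hu hr
  blo _ _ _ hup hu hr := blo hG hF hL h0 h1 hup hu hr
  nup _ _ _ hup hu hu' hr := nup hG h0 h1 hgd hup hu hu' hr
  nlo _ _ _ hup hu hu' hr := nlo hG h0 h1 hgd hup hu hu' hr
  box a u t hu hr := by
    rcases hu with rfl | rfl
    · exact box1 hG h0 h1 hr
    · exact (out2 hG h0 h1 hr).2.1

/-- the tie at a tile of the first layer belongs to the run -/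
lemma tie_run (hG : D.Lev j G) (h0 : 0 < j) (h1 : j < D.h) (hr : (D.wsys j G).Rg L a (-1) t)
    {z : Ru G × ℤ} (hz : z ∈ Wp (D.wsys j G).N)
    (he : (D.wsys j G).tie z = lt ((D.wsys j G).tl a (-1) t)) : z.1 = a := by
  obtain ⟨hact, hN, hlo, hhi⟩ := rg_pos hr
  obtain ⟨-, t1, -⟩ := cap_wp hG h0 h1 hz
  have t2 := tf_of (t := t) hG h0 h1 hact (by omega) (by omega)
  rw [← show (D.wsys j G).til z = (D.wsys j G).tl a (-1) t from lt_inj he] at t2
  obtain ⟨e1, e2, e3⟩ := TPs.uniq hG z.1.2.2 a.2.2 t1 t2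
  exact (Prod.ext (Prod.ext e1 e2) (Subtype.ext e3)).symm

variable {P : Finset Ix}

/-- **The frozen labels near the runs.** -/
theorem wsys_fok (O : Out D) (hG : D.Lev j G) (hF : D.Fat L2) (hL : 2 * L + 2 ≤ L2)
    (h0 : 0 < j) (h1 : j < D.h) (hP : ∀ k ∈ P, CP D j k)
    (hPr : ∀ k, CP D j k → NRw j k → k ∈ P) {X : Env} (hX : X.E = ETp D j P) {N : ℕ}
    (hN : (N : ℤ) = D.M (j - 1) - D.m (j - 1)) {v t B : Finset (ℤ × ℤ)}
    (ht : ∀ z ∈ Wp (D.wsys j G).N, (D.wsys j G).tie z ∉ v →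
      ((D.wsys j G).tie z ∈ t ↔ (D.wsys j G).c z.1 = false)) :
    FOk (D.wsys j G) L (WFw X (WTp D j P O.Wo) D j N B t) v where
  w1 a s hr hv := by
    have hO := wsys_ok O hG hF hL h0 h1 hP hPr
    unfold WFw fW
    rw [mem_union, mem_inter, mem_sdiff, hX]
    rcases hO.first a s hr with h2 | ⟨h2, h3⟩
    · obtain ⟨z, hz, he⟩ := TSys.mem_Ti.1 h2
      have h3 := tie_run hG h0 h1 hr hz he
      have h4 := ht z hz (by rw [he]; exact hv)
      rw [he, h3] at h4
      have h5 := hO.sub h2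
      obtain ⟨k, k1, k2, -, -⟩ := til_kt hG h0 h1 hz
      have h6 : lt ((D.wsys j G).tl a (-1) s) ∉ WTp D j P O.Wo := fun h7 =>
        disjoint_left.1 (Pool.Agent.H42.Sp.disj_ETWTp O h0.le P) h5 h7
      have h7 : lt ((D.wsys j G).tl a (-1) s) ∉ EFw D j N B := by
        intro h8
        have e1 : (D.wsys j G).tl a (-1) s = kt k := by rw [k2]; exact (lt_inj he).symm
        rw [e1] at h8
        refine cap_reg h0 h1 k1.1 k1.2 (t := kt k) (Or.inl rfl) ?_
        rw [show lt (kt k) = lbt (kt k).1 (kt k).2 from (lbt_lt _ _).symm] at h8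
        unfold EFw at h8
        rw [mem_union, mem_union, mem_BLw, mem_BUw, mem_RS'] at h8
        rcases h8 with (h9 | h9) | h9
        · exact Or.inl ⟨h9.1.1, h9.1.2.1, h9.1.2.2.2⟩
        · exact Or.inr (Or.inl ⟨h9.1.1, h9.1.2.2⟩)
        · exact Or.inr (Or.inr ⟨h9.2.2, h9.1, by omega⟩)
      rw [← h4]
      exact ⟨fun h => (h.resolve_left h6).1, fun h => Or.inr ⟨h, h5, h7⟩⟩
    · rw [← h3]
      exact ⟨fun h => h.resolve_right fun h => h2 h.2.1, Or.inl⟩
  w2 a s hr := by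
    have h2 := out2 hG h0 h1 hr
    have h3 := h2.mem O
    have h4 := h2.not_mem
    have h5 : lt ((D.wsys j G).tl a (-2) s) ∉ OTp P := fun h => h4
      (Pool.Agent.H42.Sp.OTp_sub O h0.le h1.le hP h)
    have h6 : lt ((D.wsys j G).tl a (-2) s) ∉ ETp D j P := fun h => h4
      (Pool.Agent.H42.Sp.ETp_sub h)
    unfold WFw fW
    rw [mem_union, mem_inter, mem_sdiff, hX]
    unfold WTp
    rw [mem_union]
    change lt ((D.wsys j G).tl a (-2) s) ∈ _ ↔ _ at h3
    rw [← h3]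
    exact ⟨fun h => (h.resolve_right fun h => h6 h.2.1).resolve_right h5, fun h => Or.inl (Or.inl h)⟩

/-! ### Separation from the row -/

/-- the regions over the runs are separated from a flat row -/
lemma rg_sep (hG : D.Lev j G) (h0 : 0 < j) (h1 : j < D.h) (H : Pool.Agent.H30.Sp.Flat D j r)
    (hu : 0 ≤ u) (hr : (D.wsys j G).Rg L a u t) {y0 : ℤ} (hy : y0 = j - 1 ∨ y0 = j) :
    2 * (((D.wsys j G).tl a u t).1 - D.m (j - 1)) ≤ |((D.wsys j G).tl a u t).2 - y0| + 2 ∨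
      2 * (D.M (j - 1) - ((D.wsys j G).tl a u t).1) ≤ |((D.wsys j G).tl a u t).2 - y0| + 2 := by
  have hP0 := D.P0
  have hP1 := D.P1
  have hQ0 := D.Q0
  have hQ1 := D.Q1
  have e1 := H.m_eq (y := j - 1) (by omega) (by omega)
  have e2 := H.M_eq (y := j - 1) (by omega) (by omega)
  have e3 := H.ab (j - 1) (by have := H.r2; omega) (by have := H.r2; omega)
  have h2 := rf_of hG h0 h1 hr
  generalize (D.wsys j G).tl a u t = T at h2 ⊢
  have a1 := le_abs_self (T.2 - y0)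
  have a2 := neg_le_abs (T.2 - y0)
  rw [e1, e2]
  have ha := a.2.2
  generalize a.1.1 = v at h2
  generalize a.1.2 = l at h2
  generalize a.2.1 = g at h2 ha
  have g0 := hG.lo g ha
  cases h2 with
  | V1 hx k1 k2 k3 =>
    left
    have n1 := hG.nxt_h (g := g) (by omega)
    rcases k3 with ⟨k3, k4⟩ | ⟨k3, k4⟩
    · have := D.a_anti (y := j) (z := g) (by omega) (by omega) (by omega)
      omega
    · have := D.a_mono (y := g) (z := j - 1) (by omega) (by omega) (by omega)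
      omega
  | V2 hx k1 k2 k3 =>
    right
    have n1 := hG.nxt_h (g := g) (by omega)
    rcases k3 with ⟨k3, k4⟩ | ⟨k3, k4⟩
    · have := D.b_anti (y := g) (z := j - 1) (by omega) (by omega) (by omega)
      omega
    · have := D.b_mono (y := j) (z := g) (by omega) (by omega) (by omega)
      omega
  | F1 hx k1 k2 k3 k4 =>
    left
    have := D.a_anti (y := j) (z := g - 1) (by omega) (by omega) (by omega)
    omega
  | F2 hx k1 k2 k3 k4 =>
    right
    have := D.b_mono (y := j) (z := g - 1) (by omega) (by omega) (by omega)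
    omega
  | C1 hx k1 k2 k3 k4 =>
    left
    have := D.a_mono (y := g) (z := j - 1) (by omega) (by omega) (by omega)
    omega
  | C2 hx k1 k2 k3 k4 =>
    right
    have := D.b_anti (y := g) (z := j - 1) (by omega) (by omega) (by omega)
    omega

instance : Nonempty {g : ℤ // g ∈ D.GJ j} := ⟨⟨0, mem_GJ.2 (Or.inl rfl)⟩⟩

variable [Nonempty {g : ℤ // g ∈ G}] {K : ℤ} {E W v : Finset (ℤ × ℤ)}

/-- the half boxes are in `P-` or `P+` -/
theorem bt_bulk (hO : (D.wsys j G).Ok E W L) (hG : D.Lev j G) (hF : D.Fat L2)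
    (hL : 2 * L + 2 ≤ L2) (h0 : 0 < j) (h1 : j < D.h) (hK : 20 ≤ K)
    (hKL : ∀ a, ((D.wsys j G).N a : ℤ) < K * L) (hv : v ⊆ (D.wsys j G).Ti) :
    v.biUnion ((D.wsys j G).Bt K v) ⊆ BLw D j ∅ ∪ BUw D j ∅ := by
  refine biUnion_subset.2 fun e he => ?_
  obtain ⟨hx, hxe⟩ := hO.idx_mem (hv he)
  intro l hl
  rw [← hxe] at hl
  obtain ⟨u, t, rfl, h3, h4⟩ := TSys.Bt_rg hO hK hKL hx hl
  exact rg_bulk hG hF hL h0 h1 h3 h4

/-- **The half boxes are separated from a flat row.** -/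
theorem bt_sep (hO : (D.wsys j G).Ok E W L) (hG : D.Lev j G) (h0 : 0 < j) (h1 : j < D.h)
    (H : Pool.Agent.H30.Sp.Flat D j r) (hK : 20 ≤ K)
    (hKL : ∀ a, ((D.wsys j G).N a : ℤ) < K * L) (hv : v ⊆ (D.wsys j G).Ti) {N : ℕ}
    (hN : (N : ℤ) = D.M (j - 1) - D.m (j - 1)) {y0 : ℤ} (hy : y0 = j - 1 ∨ y0 = j) :
    Pool.Agent.H30.Mid.Sep (v.biUnion ((D.wsys j G).Bt K v)) N (D.m (j - 1)) y0 := by
  intro x y hxy
  obtain ⟨e, he, hl⟩ := mem_biUnion.1 hxy
  obtain ⟨hx, hxe⟩ := hO.idx_mem (hv he)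
  rw [← hxe] at hl
  obtain ⟨u, t, e1, h3, h4⟩ := TSys.Bt_rg hO hK hKL hx hl
  have h5 := rg_sep hG h0 h1 H h3 h4 hy
  rw [lbt_lt] at e1
  rw [← lt_inj e1] at h5
  simp only at h5
  rcases h5 with h5 | h5
  · exact Or.inl h5
  · right; rw [hN]; convert h5 using 2; ring

/-! ### The length of the runs -/

/-- **The number of ties of a run.** -/
theorem wsys_N (hG : D.Lev j G) (h0 : 0 < j) (h1 : j < D.h) {A : ℤ} (hA : D.h ≤ A)
    (hA' : D.b D.yQ - D.a (D.yP - 1) ≤ A) (a : Ru G) : 2 * ((D.wsys j G).N a : ℤ) ≤ A := by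
  have hh := D.hh
  have hP0 := D.P0
  have hP1 := D.P1
  have hQ0 := D.Q0
  have hQ1 := D.Q1
  by_cases hN : 0 < (D.wsys j G).N a
  · obtain ⟨hact, h2⟩ := rN_pos hN
    have h3 := rq_lo (D := D) (g := a.2.1) (v := a.1.1) (l := a.1.2)
    change 2 * (D.rN j G a.2.1 a.1.1 a.1.2 : ℤ) ≤ A
    have h4 : D.rhi G a.2.1 a.1.1 a.1.2 - D.rlo a.2.1 a.1.1 a.1.2 ≤ A := by
      have hN' : 0 < D.rN j G a.2.1 a.1.1 a.1.2 := hN
      obtain ⟨⟨v, l⟩, ⟨g, hg⟩⟩ := a
      have g0 := hG.lo g hg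
      have g1 := hG.hi g hg
      cases v
      · have h5 : 0 < g ∧ g < D.h := by
          cases l
          · change (j < g ∧ g ≤ D.yQ) ∨ (D.yQ < g ∧ g < j) at hact
            omega
          · change (j < g ∧ g < D.yP) ∨ (D.yP ≤ g ∧ g < j) at hact
            omega
        have i1 := a_min (D := D) (y := g) (by omega) (by omega)
        have i2 := a_min (D := D) (y := g - 1) (by omega) (by omega)
        have i3 := b_max (D := D) (y := g) (by omega) (by omega)
        have i4 := b_max (D := D) (y := g - 1) (by omega) (by omega)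
        have i5 := D.ab g (by omega) (by omega)
        have i6 := D.ab (g - 1) (by omega) (by omega)
        cases l
        · show max (D.b (g - 1)) (D.b g) - min (D.b (g - 1)) (D.b g) ≤ A
          omega
        · show max (D.a (g - 1)) (D.a g) - min (D.a (g - 1)) (D.a g) ≤ A
          omega
      · have h5 : nxt G g - g ≤ A := by
          by_cases h6 : g < nxt G g
          · have := hG.nxt_h h6
            omega
          · omega
        exact h5
    omega
  · have : (D.wsys j G).N a = 0 := by omega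
    rw [this]
    push_cast
    omega

end Win

/-- the states of the ties outside of `v` -/
lemma TSys.st_out {κ : Type*} [Fintype κ] [DecidableEq κ] [Nonempty κ] {S : TSys κ}
    {E W T v ξ σ : Finset (ℤ × ℤ)} {L : ℤ} (hO : S.Ok E W L) (hT : T ⊆ v) (hξ : Disjoint S.Ti ξ)
    (hσ : Disjoint S.Ti σ) : ∀ z ∈ Wp S.N, S.tie z ∉ v →
      (S.tie z ∈ ξ ∪ S.st T ∪ σ ↔ S.c z.1 = false) := by
  intro z hz hv
  have h1 : S.tie z ∈ S.Ti := TSys.mem_Ti.2 ⟨z, hz, rfl⟩
  rw [mem_union, mem_union, TSys.mem_st, hO.idx_tie hz]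
  constructor
  · rintro ((h2 | ⟨-, h2⟩) | h2)
    · exact absurd h2 (disjoint_left.1 hξ h1)
    · rw [← Bool.not_eq_true, ← h2]
      exact fun h3 => hv (hT h3)
    · exact absurd h2 (disjoint_left.1 hσ h1)
  · intro h2
    refine Or.inl (Or.inr ⟨h1, fun h3 => absurd (hT h3) hv, fun h3 => ?_⟩)
    rw [h2] at h3
    exact absurd h3 (by simp)

end Pool.Agent.H46.Sp
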