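import Mathlib
import Pool.Agent.H46.Sp.WInst
import Pool.Agent.H76.Sp.WinX
import Pool.Agent.H76.Sp.RowT

set_option autoImplicit false
open Finset

/-! # The left over labels of a window

`NrT D G` : tiles near the levels. `left_near` : a random tile of the tied form outside of the row, `P-`,
`P+` and the ties of the runs is in `NrT`. `left_card` : there are at most `3844 |G|` of them. -/

namespace Pool.Agent.H46.Sp

open Pool.Agent.H75.Perc Pool.Agent.H75.TwoArm Pool.Agent.Q1 Pool.Agent.H33.Q1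
open Pool.Agent.H46.G1 Pool.Agent.H30.Mid Pool.Agent.H30.Sp
open Pool.Agent.H69.M6b (lbt lbt_inj lbt_odd)
open Pool.Agent.H13.R45 (ev)
open Pool.Agent.H42.Sp (Sd Ix CP kt rt CPs ETp WTp OTp XTp OutT outL outR)

namespace Win

variable {D : Win} {j : ℤ} {G : Finset ℤ} {L L2 L' r : ℤ} {u u' t x y g g' : ℤ} {a : Ru G}

/-! ### Tiles near the levels -/

/-- the four columns -/
def q4 (D : Win) (y : ℤ) (i : Fin 4) : ℤ :=
  if i = 0 then D.a y else if i = 1 then D.b y else if i = 2 then D.a (y + 1) else D.b (y + 1)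

/-- tiles near the levels -/
noncomputable def NrT (D : Win) (G : Finset ℤ) : Finset (ℤ × ℤ) :=
  ((G ×ˢ Finset.Icc (-15 : ℤ) 15) ×ˢ ((univ : Finset (Fin 4)) ×ˢ Finset.Icc (-15 : ℤ) 15)).image
    fun p => (D.q4 (p.1.1 + p.1.2) p.2.1 + p.2.2, p.1.1 + p.1.2)

lemma card_NrT : (NrT D G).card ≤ 3844 * G.card := by
  unfold NrT
  refine card_image_le.trans ?_
  have h : (Finset.Icc (-15 : ℤ) 15).card = 31 := by rw [Int.card_Icc]; rfl
  rw [card_product, card_product, card_product, h, card_univ, Fintype.card_fin]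
  omega

lemma mem_NrT (hg : g ∈ G) (h1 : g - 15 ≤ y) (h2 : y ≤ g + 15)
    (h : (D.a y - 15 ≤ x ∧ x ≤ D.a y + 15) ∨ (D.b y - 15 ≤ x ∧ x ≤ D.b y + 15) ∨
      (D.a (y + 1) - 15 ≤ x ∧ x ≤ D.a (y + 1) + 15) ∨
      (D.b (y + 1) - 15 ≤ x ∧ x ≤ D.b (y + 1) + 15)) : (x, y) ∈ NrT D G := by
  have key : ∀ i : Fin 4, D.q4 y i - 15 ≤ x → x ≤ D.q4 y i + 15 → (x, y) ∈ NrT D G := by
    intro i h3 h4
    unfold NrT
    refine mem_image.2 ⟨((g, y - g), (i, x - D.q4 y i)), ?_, ?_⟩
    · rw [mem_product, mem_product, mem_product, Finset.mem_Icc, Finset.mem_Icc]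
      exact ⟨⟨hg, by simp only; omega, by simp only; omega⟩, mem_univ _, by simp only; omega,
        by simp only; omega⟩
    · simp only [add_sub_cancel]
  rcases h with h | h | h | h
  · exact key 0 h.1 h.2
  · exact key 1 h.1 h.2
  · exact key 2 h.1 h.2
  · exact key 3 h.1 h.2

/-! ### The regions of the first layer -/

lemma rg_mk (hL : -1 ≤ L) (hact : D.ract j G a.2.1 a.1.1 a.1.2)
    (h2 : D.rlo a.2.1 a.1.1 a.1.2 + 11 ≤ t) (h3 : t + 13 ≤ D.rhi G a.2.1 a.1.1 a.1.2) :
    (D.wsys j G).Rg L a (-1) t := by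
  have e1 : (D.wsys j G).q a = D.rq a.2.1 a.1.1 a.1.2 := rfl
  have e2 : ((D.wsys j G).N a : ℤ) = ((D.rhi G a.2.1 a.1.1 a.1.2 - 4 -
      D.rq a.2.1 a.1.1 a.1.2) / 2).toNat := by
    change ((D.rN j G a.2.1 a.1.1 a.1.2 : ℕ) : ℤ) = _
    unfold rN
    rw [if_pos hact]
  have e3 : D.rq a.2.1 a.1.1 a.1.2 ≤ D.rlo a.2.1 a.1.1 a.1.2 + 5 := by
    unfold rq; omega
  refine ⟨le_rfl, hL, ?_, ?_⟩
  · rw [e1]; omega
  · rw [e1, e2]; omega

lemma exists_lev (hG : D.Lev j G) (h0 : 0 ≤ y) (h1 : y < D.h) :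
    ∃ g ∈ G, g ≤ y ∧ y < nxt G g := by
  have hne : (G.filter (· ≤ y)).Nonempty := ⟨0, mem_filter.2 ⟨hG.zero, h0⟩⟩
  have hm := (G.filter (· ≤ y)).max'_mem hne
  obtain ⟨h2, h3⟩ := mem_filter.1 hm
  refine ⟨_, h2, h3, ?_⟩
  by_contra h4
  push Not at h4
  have h5 : (G.filter (· ≤ y)).max' hne < nxt G ((G.filter (· ≤ y)).max' hne) := by
    refine lt_of_le_of_ne le_nxt fun h6 => ?_
    unfold nxt at h6
    have h7 : (G.filter ((G.filter (· ≤ y)).max' hne < ·)).Nonempty :=
      ⟨D.h, mem_filter.2 ⟨hG.h, by omega⟩⟩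
    rw [dif_pos h7] at h6
    have h8 := (mem_filter.1 ((G.filter ((G.filter (· ≤ y)).max' hne < ·)).min'_mem h7)).2
    omega
  have h6 := nxt_mem h5
  have h7 : nxt G ((G.filter (· ≤ y)).max' hne) ≤ (G.filter (· ≤ y)).max' hne :=
    le_max' _ _ (mem_filter.2 ⟨h6, h4⟩)
  omega

/-! ### The left over tiles -/

section left

variable {P : Finset Ix} {E W : Finset (ℤ × ℤ)}

/-- a tile of the first layer of a run is a tie or is not random -/
lemma first_no (hO : (D.wsys j G).Ok E W L) (hL : -1 ≤ L) (hE : lt (x, y) ∈ E)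
    (hT : lt (x, y) ∉ (D.wsys j G).Ti) (a : Ru G) (hact : D.ract j G a.2.1 a.1.1 a.1.2)
    (he : (D.wsys j G).tl a (-1) t = (x, y)) :
    t < D.rlo a.2.1 a.1.1 a.1.2 + 11 ∨ D.rhi G a.2.1 a.1.1 a.1.2 < t + 13 := by
  by_contra hcon
  push Not at hcon
  have h2 := hO.first a t (rg_mk hL hact hcon.1 hcon.2)
  rw [he] at h2
  rcases h2 with h2 | h2
  · exact hT h2
  · exact h2.1 hE

/-- **The left over tiles are near the levels.** -/
theorem left_near (hG : D.Lev j G) (h0 : 0 < j) (h1 : j < D.h)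
    (hO : (D.wsys j G).Ok E W L) (hL : -1 ≤ L) (hE : lt (x, y) ∈ E) (hEJ : E ⊆ D.EJ j)
    (hT : lt (x, y) ∉ (D.wsys j G).Ti) (hR : ¬ Reg D j x y) : (x, y) ∈ NrT D G := by
  have hP0 := D.P0
  have hP1 := D.P1
  have hQ0 := D.Q0
  have hQ1 := D.Q1
  have key := fun (t : ℤ) (a : Ru G) => first_no (t := t) hO hL hE hT a
  have hlev : ∀ g, 0 < g → g < D.h → (D.a g ≠ D.a (g - 1) ∨ D.b g ≠ D.b (g - 1)) → g ∈ G := by
    intro g k1 k2 k3
    by_contra k4
    have := hG.ab g k1 k2 k4
    omega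
  rcases mem_EJ.1 (hEJ hE) with ⟨k1, k2, k3, k4⟩ | ⟨k1, k2, k3⟩
  · -- tiles of the union
    unfold Reg at hR
    by_cases hy : y = j - 1
    · exact absurd (Or.inr (Or.inr ⟨hy, by rw [← hy]; exact ⟨k3, k4⟩⟩)) hR
    by_cases hj : j ≤ y
    · -- ledges above
      have hx : x < D.a y ∨ D.b y ≤ x := by
        by_contra hcon
        push Not at hcon
        exact hR (Or.inr (Or.inl ⟨hj, k2, hcon⟩))
      rcases hx with hx | hx
      · have hy2 : y + 1 < D.yP := by
          by_contra hcon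
          rw [md_hi (by omega)] at k3
          omega
        rw [md_lo hy2] at k3
        have hg : y + 1 ∈ G := hlev _ (by omega) (by omega) (by
          rw [add_sub_cancel_right]; omega)
        have e1 : D.a (y + 1 - 1) = D.a y := by rw [add_sub_cancel_right]
        have h5 := key x ((false, true), ⟨y + 1, hg⟩) (Or.inl ⟨by show j < y + 1; omega, hy2⟩)
          (by rw [tl_F (by omega)]; congr 1; ring)
        change x < min (D.a (y + 1 - 1)) (D.a (y + 1)) + 11 ∨
          max (D.a (y + 1 - 1)) (D.a (y + 1)) < x + 13 at h5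
        rw [e1] at h5
        exact mem_NrT hg (by omega) (by omega) (by omega)
      · have hy2 : y < D.yQ := by
          by_contra hcon
          rw [Md_hi (by omega)] at k4
          omega
        rw [Md_lo hy2] at k4
        have hg : y + 1 ∈ G := hlev _ (by omega) (by omega) (by
          rw [add_sub_cancel_right]; omega)
        have e1 : D.b (y + 1 - 1) = D.b y := by rw [add_sub_cancel_right]
        have h5 := key x ((false, false), ⟨y + 1, hg⟩)
          (Or.inl ⟨by show j < y + 1; omega, by show y + 1 ≤ D.yQ; omega⟩)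
          (by rw [tl_F (by omega)]; congr 1; ring)
        change x < min (D.b (y + 1 - 1)) (D.b (y + 1)) + 11 ∨
          max (D.b (y + 1 - 1)) (D.b (y + 1)) < x + 13 at h5
        rw [e1] at h5
        exact mem_NrT hg (by omega) (by omega) (by omega)
    · -- ledges below
      have hx : x < D.a (y + 1) ∨ D.b (y + 1) ≤ x := by
        by_contra hcon
        push Not at hcon
        exact hR (Or.inl ⟨k1, by omega, hcon⟩)
      rcases hx with hx | hx
      · have hy2 : D.yP ≤ y + 1 := by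
          by_contra hcon
          rw [md_lo (by omega)] at k3
          omega
        rw [md_hi hy2] at k3
        have hg : y + 1 ∈ G := hlev _ (by omega) (by omega) (by
          rw [add_sub_cancel_right]; omega)
        have e1 : D.a (y + 1 - 1) = D.a y := by rw [add_sub_cancel_right]
        have h5 := key x ((false, true), ⟨y + 1, hg⟩)
          (Or.inr ⟨hy2, by show y + 1 < j; omega⟩)
          (by rw [tl_C (by omega)]; congr 1; ring)
        change x < min (D.a (y + 1 - 1)) (D.a (y + 1)) + 11 ∨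
          max (D.a (y + 1 - 1)) (D.a (y + 1)) < x + 13 at h5
        rw [e1] at h5
        exact mem_NrT hg (by omega) (by omega) (by omega)
      · have hy2 : D.yQ ≤ y := by
          by_contra hcon
          rw [Md_lo (by omega)] at k4
          omega
        rw [Md_hi hy2] at k4
        have hg : y + 1 ∈ G := hlev _ (by omega) (by omega) (by
          rw [add_sub_cancel_right]; omega)
        have e1 : D.b (y + 1 - 1) = D.b y := by rw [add_sub_cancel_right]
        have h5 := key x ((false, false), ⟨y + 1, hg⟩)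
          (Or.inr ⟨by show D.yQ < y + 1; omega, by show y + 1 < j; omega⟩)
          (by rw [tl_C (by omega)]; congr 1; ring)
        change x < min (D.b (y + 1 - 1)) (D.b (y + 1)) + 11 ∨
          max (D.b (y + 1 - 1)) (D.b (y + 1)) < x + 13 at h5
        rw [e1] at h5
        exact mem_NrT hg (by omega) (by omega) (by omega)
  · -- columns
    have hma : D.m y = D.a y ∨ D.m y = D.a (y + 1) := by
      by_cases h : y + 1 < D.yP
      · exact Or.inr (md_lo h)
      · exact Or.inl (md_hi (by omega))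
    have hMb : D.M y = D.b y ∨ D.M y = D.b (y + 1) := by
      by_cases h : y < D.yQ
      · exact Or.inr (Md_lo h)
      · exact Or.inl (Md_hi (by omega))
    rcases k3 with ⟨hx, hS | hN⟩ | ⟨hx, hS | hN⟩
    · -- left, south
      obtain ⟨i1, i2, -⟩ := hS
      obtain ⟨g, hg, g1, g2⟩ := exists_lev hG (y := y) (by omega) k2
      have s1 := hG.side hg hG.j
      have s2 := hG.side hg hG.P
      have g3 := nxt_mem (G := G) (g := g) (by omega)
      by_cases hy : y + 1 < nxt G g
      · have h5 := key y ((true, true), ⟨g, hg⟩)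
          (Or.inl ⟨by show j ≤ g; omega, by show nxt G g ≤ D.yP; omega⟩)
          (by rw [tl_V1, hx, hG.m_eq hg g1 hy]; congr 1)
        change y < g + 11 ∨ nxt G g < y + 13 at h5
        rcases h5 with h5 | h5
        · exact mem_NrT hg (by omega) (by omega) (by omega)
        · exact mem_NrT g3 (by omega) (by omega) (by omega)
      · exact mem_NrT g3 (by omega) (by omega) (by omega)
    · -- left, north
      obtain ⟨i1, i2, -⟩ := hN
      obtain ⟨g, hg, g1, g2⟩ := exists_lev hG (y := y) (by omega) k2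
      have s1 := hG.side hg hG.j
      have s2 := hG.side hg hG.P
      have g3 := nxt_mem (G := G) (g := g) (by omega)
      by_cases hy : y + 1 < nxt G g
      · have h5 := key y ((true, true), ⟨g, hg⟩)
          (Or.inr ⟨by show D.yP ≤ g; omega, by show nxt G g ≤ j; omega⟩)
          (by rw [tl_V1, hx, hG.m_eq hg g1 hy]; congr 1)
        change y < g + 11 ∨ nxt G g < y + 13 at h5
        rcases h5 with h5 | h5
        · exact mem_NrT hg (by omega) (by omega) (by omega)
        · exact mem_NrT g3 (by omega) (by omega) (by omega)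
      · exact mem_NrT g3 (by omega) (by omega) (by omega)
    · -- right, south
      obtain ⟨i1, i2, -⟩ := hS
      by_cases hyQ : y + 1 = D.yQ
      · exact mem_NrT hG.Q (by omega) (by omega) (by omega)
      obtain ⟨g, hg, g1, g2⟩ := exists_lev hG (y := y) (by omega) k2
      have s1 := hG.side hg hG.j
      have s2 := hG.side hg hG.Q
      have g3 := nxt_mem (G := G) (g := g) (by omega)
      by_cases hy : y + 1 < nxt G g
      · have h5 := key y ((true, false), ⟨g, hg⟩)
          (Or.inl ⟨by show D.yQ ≤ g; omega, by show nxt G g ≤ j; omega⟩)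
          (by rw [tl_V2, hx, hG.M_eq hg g1 hy]; congr 1; ring)
        change y < g + 11 ∨ nxt G g < y + 13 at h5
        rcases h5 with h5 | h5
        · exact mem_NrT hg (by omega) (by omega) (by omega)
        · exact mem_NrT g3 (by omega) (by omega) (by omega)
      · exact mem_NrT g3 (by omega) (by omega) (by omega)
    · -- right, north
      obtain ⟨i1, i2, -⟩ := hN
      obtain ⟨g, hg, g1, g2⟩ := exists_lev hG (y := y) (by omega) k2
      have s1 := hG.side hg hG.j
      have s2 := hG.side hg hG.Q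
      have g3 := nxt_mem (G := G) (g := g) (by omega)
      by_cases hy : y + 1 < nxt G g
      · have h5 := key y ((true, false), ⟨g, hg⟩)
          (Or.inr ⟨by show j ≤ g; omega, by show nxt G g ≤ D.yQ; omega⟩)
          (by rw [tl_V2, hx, hG.M_eq hg g1 hy]; congr 1; ring)
        change y < g + 11 ∨ nxt G g < y + 13 at h5
        rcases h5 with h5 | h5
        · exact mem_NrT hg (by omega) (by omega) (by omega)
        · exact mem_NrT g3 (by omega) (by omega) (by omega)
      · exact mem_NrT g3 (by omega) (by omega) (by omega)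

/-- **The left over labels**: at most `3844 |G|`. -/
theorem left_card (hG : D.Lev j G) (h0 : 0 < j) (h1 : j < D.h)
    (hO : (D.wsys j G).Ok (ETp D j P) W L) (hL : -1 ≤ L) {N : ℕ}
    (hN : (N : ℤ) = D.M (j - 1) - D.m (j - 1)) :
    (ETp D j P \ (Pool.Agent.H30.Mid.RS N (D.m (j - 1)) (j - 1) ∪
      ((D.wsys j G).Ti ∪ (BLw D j ∅ ∪ BUw D j ∅)))).card ≤ 3844 * G.card := by
  refine le_trans ?_ (card_NrT (D := D))
  refine le_trans (card_le_card (t := (NrT D G).image lt) ?_) card_image_le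
  intro e he
  rw [mem_sdiff, mem_union, mem_union] at he
  push Not at he
  obtain ⟨he, hR, hT, hB⟩ := he
  obtain ⟨x, y, rfl⟩ := Pool.Agent.H74.R45.exists_lt (odd_EJ (Pool.Agent.H42.Sp.ETp_sub he))
  refine mem_image_of_mem _ (left_near hG h0 h1 hO hL he Pool.Agent.H42.Sp.ETp_sub hT ?_)
  rw [← lbt_lt] at hR hB
  rw [mem_RS'] at hR
  rw [mem_union, mem_BLw, mem_BUw] at hB
  rintro (h | h | h)
  · exact hB (Or.inl ⟨⟨h.1, h.2.1, by omega, h.2.2⟩, notMem_empty _⟩)
  · exact hB (Or.inr ⟨⟨h.1, by omega, h.2⟩, notMem_empty _⟩)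
  · exact hR ⟨h.2.1, by omega, h.1⟩

end left

/-! ### The ties of the runs as caps -/

section caps

open Pool.Agent.H76.Sp (tA tF)

variable {P : Finset Ix}

open Classical in
/-- the caps of the ties of the runs -/
noncomputable def PT (D : Win) (j : ℤ) (G : Finset ℤ) (P : Finset Ix) : Finset Ix :=
  P.filter fun k => lt (kt k) ∈ (D.wsys j G).Ti

lemma PT_sub : PT D j G P ⊆ P := by
  classical
  exact filter_subset _ _

/-- **The labels of the ties of the runs.** -/
theorem tA_PT (hG : D.Lev j G) (h0 : 0 < j) (h1 : j < D.h)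
    (hPr : ∀ k, CP D j k → NRw j k → k ∈ P) : tA (PT D j G P) = (D.wsys j G).Ti := by
  classical
  ext e
  unfold tA PT
  rw [mem_image]
  constructor
  · rintro ⟨k, hk, rfl⟩
    exact (mem_filter.1 hk).2
  · intro he
    obtain ⟨z, hz, rfl⟩ := TSys.mem_Ti.1 he
    obtain ⟨k, k1, k2, -, -⟩ := til_kt hG h0 h1 hz
    refine ⟨k, mem_filter.2 ⟨hPr k k1.1 k1.2, ?_⟩, by rw [k2]; rfl⟩
    rw [k2]
    exact he

/-- **The ties which are cut if they are closed** are the ties of the free runs. -/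
theorem tF_PT [Nonempty {g : ℤ // g ∈ G}] {E W : Finset (ℤ × ℤ)}
    (hO : (D.wsys j G).Ok E W L) (hG : D.Lev j G) (h0 : 0 < j)
    (h1 : j < D.h) (hP : ∀ k ∈ P, CP D j k) (hPr : ∀ k, CP D j k → NRw j k → k ∈ P)
    {e : ℤ × ℤ} (he : e ∈ (D.wsys j G).Ti) :
    e ∈ tF (PT D j G P) ↔ (D.wsys j G).c ((D.wsys j G).idx e).1 = false := by
  classical
  obtain ⟨z, hz, rfl⟩ := TSys.mem_Ti.1 he
  rw [hO.idx_tie hz]
  obtain ⟨k, k1, k2, k3, -⟩ := til_kt hG h0 h1 hz
  have hev : ev k.2 = true ↔ (D.wsys j G).c z.1 = false := by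
    unfold ev
    rw [decide_eq_true_eq, ← Bool.not_eq_true, ← k3]
    omega
  rw [← hev]
  unfold tF PT
  rw [mem_image]
  constructor
  · rintro ⟨k', hk', h3⟩
    obtain ⟨h4, h5⟩ := mem_filter.1 hk'
    have h6 : kt k' = kt k := by rw [k2]; exact lt_inj h3
    rw [← Pool.Agent.H42.Sp.kt_inj h0.le h1.le (hP k' (mem_filter.1 h4).1) k1.1 h6]
    exact h5
  · intro h3
    refine ⟨k, mem_filter.2 ⟨mem_filter.2 ⟨hPr k k1.1 k1.2, ?_⟩, h3⟩, by rw [k2]; rfl⟩
    rw [k2]
    exact he

/-- the states of the ties, in the form of `FW_win` -/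
theorem st_PT [Nonempty {g : ℤ // g ∈ G}] {E W T : Finset (ℤ × ℤ)}
    (hO : (D.wsys j G).Ok E W L) (hG : D.Lev j G) (h0 : 0 < j)
    (h1 : j < D.h) (hP : ∀ k ∈ P, CP D j k) (hPr : ∀ k, CP D j k → NRw j k → k ∈ P)
    (hT : T ⊆ (D.wsys j G).Ti) : (D.wsys j G).st T = symmDiff T (tF (PT D j G P)) := by
  classical
  rw [Pool.Agent.H76.Sp.st_symm _ hT]
  congr 1
  ext e
  rw [mem_filter]
  constructor
  · rintro ⟨h2, h3⟩
    exact (tF_PT hO hG h0 h1 hP hPr h2).2 h3
  · intro h2
    have h3 : e ∈ (D.wsys j G).Ti := by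
      rw [← tA_PT (P := P) hG h0 h1 hPr]
      exact Pool.Agent.H76.Sp.tF_sub h2
    exact ⟨h3, (tF_PT hO hG h0 h1 hP hPr h3).1 h2⟩

end caps

end Win

end Pool.Agent.H46.Sp
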