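import Mathlib
import Pool.Agent.H31.Sp.Coarse
import Pool.Agent.H13.Sp.Gate

set_option autoImplicit false
open Finset

/-! # The gates of a coarse window

`wide_C` : rows overlap. `hasG_L`, `hasG_R`, `hasG_B`, `hasG_T` : gates in the middle of the sides of the cells
of the first and last column, of the bottom and of the top. -/

namespace Pool.Agent.H46.Sp

open Pool.Agent.H31.Sp (Coarse CoarseC CQ)
open Pool.Agent.H13.Sp
open Pool.Agent.H74.Win (OutB sh)
open Pool.Agent.H39.Q1 (FarM)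
open Pool.Agent.Q1 (Env)
open Pool.Agent.H13.R45 (Ag OutF)

variable {D : Win} {n H : ℤ} {A B : ℤ → ℤ} {m x y X Y : ℤ}

namespace CG

/-- coordinates in the cell -/
lemma dv (hn : 0 < n) (x : ℤ) : n * (x / n) ≤ x ∧ x < n * (x / n) + n ∧
    x % n = x - n * (x / n) := by
  have h1 := Int.emod_add_mul_ediv x n
  have h2 := Int.emod_nonneg x hn.ne'
  have h3 := Int.emod_lt_of_pos x hn
  omega

lemma dv_eq (hn : 0 < n) (h1 : n * X ≤ x) (h2 : x < n * X + n) : x / n = X := by
  have h3 : x = (x - n * X) + n * X := by ring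
  rw [h3, Int.add_mul_ediv_left _ _ hn.ne', Int.ediv_eq_zero_of_lt (by omega) (by omega), zero_add]

variable (C : Coarse D n H A B) (hm : 0 ≤ m) (hmn : 2 * m + 8 ≤ n)

include C

/-- the ends of the rows which are not next to the sides of the cells -/
lemma ab_mid (h0 : 0 ≤ Y) (h1 : Y < H) (h2 : n * Y < y) (h3 : y + 1 < n * Y + n) :
    D.a y = n * A Y ∧ D.b y = n * B Y := by
  have hn := C.pos
  have hh := C.hh
  have e := dv_eq (n := n) (X := Y) (x := y) hn (by omega) (by omega)
  have e2 := dv hn y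
  rw [e] at e2
  have k1 : 0 ≤ n * Y := mul_nonneg hn.le h0
  have k2 : n * (Y + 1) ≤ n * H := mul_le_mul_of_nonneg_left (by omega) hn.le
  have k3 : n * (Y + 1) = n * Y + n := by ring
  constructor
  · rcases C.a y (by omega) (by omega) with g | ⟨-, g⟩
    · rw [g, e]
    · omega
  · rcases C.b y (by omega) (by omega) with g | ⟨-, g⟩
    · rw [g, e]
    · omega

lemma AB_n (h0 : 0 ≤ Y) (h1 : Y < H) : n * A Y + n ≤ n * B Y := by
  have hn := C.pos
  have h2 := C.AB Y h0 h1
  have : n * (A Y + 1) ≤ n * B Y := mul_le_mul_of_nonneg_left (by omega) hn.le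
  linarith

/-- the rows of the cell row `Y` -/
lemma row_h (h0 : 0 ≤ Y) (h1 : Y < H) : 0 ≤ n * Y ∧ n * Y + n ≤ D.h := by
  have hn := C.pos
  have hh := C.hh
  have k1 : 0 ≤ n * Y := mul_nonneg hn.le h0
  have k2 : n * (Y + 1) ≤ n * H := mul_le_mul_of_nonneg_left (by omega) hn.le
  have k3 : n * (Y + 1) = n * Y + n := by ring
  omega

include hmn

/-- **Rows at distance at most `2 m + 1` overlap.** -/
theorem wide_C : Wide D m := by
  intro y z h0 h1 h2 h3 h4 h5
  have hn := C.pos
  have hy := C.row h0 h1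
  have hz := C.row h2 h3
  have e1 := (C.a_le h0 h1).2
  have e2 := (C.le_b h2 h3).1
  have d1 := dv hn y
  have d2 := dv hn z
  have key : A (y / n) < B (z / n) := by
    have hc : y / n = z / n ∨ z / n = y / n + 1 ∨ y / n = z / n + 1 := by
      rcases lt_trichotomy (y / n) (z / n) with h | h | h
      · right; left
        by_contra hne
        have : n * (y / n + 2) ≤ n * (z / n) := mul_le_mul_of_nonneg_left (by omega) hn.le
        have e : n * (y / n + 2) = n * (y / n) + 2 * n := by ring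
        omega
      · exact Or.inl h
      · right; right
        by_contra hne
        have : n * (z / n + 2) ≤ n * (y / n) := mul_le_mul_of_nonneg_left (by omega) hn.le
        have e : n * (z / n + 2) = n * (z / n) + 2 * n := by ring
        omega
    rcases hc with h | h | h
    · rw [h]; exact C.AB _ hz.1 hz.2
    · rw [h]; exact C.ov1 _ hy.1 (by omega)
    · rw [h]; exact C.ov2 _ hz.1 (by omega)
  have e3 : n * (A (y / n) + 1) ≤ n * B (z / n) := mul_le_mul_of_nonneg_left (by omega) hn.le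
  have e4 : n * (A (y / n) + 1) = n * A (y / n) + n := by ring
  omega

include hm

lemma stL_C (h0 : 0 ≤ Y) (h1 : Y < H) : StL D m (n * Y + n / 2 - 1) := by
  have h2 := row_h C h0 h1
  refine ⟨by omega, by omega, n * A Y, fun v k1 k2 => ?_⟩
  have e := ab_mid C h0 h1 (y := v) (by omega) (by omega)
  have e2 := AB_n C h0 h1
  exact ⟨e.1, by omega⟩

lemma stR_C (h0 : 0 ≤ Y) (h1 : Y < H) : StR D m (n * Y + n / 2 - 1) := by
  have h2 := row_h C h0 h1
  refine ⟨by omega, by omega, n * B Y, fun v k1 k2 => ?_⟩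
  have e := ab_mid C h0 h1 (y := v) (by omega) (by omega)
  have e2 := AB_n C h0 h1
  exact ⟨e.2, by omega⟩

/-- **Gates on the left side**, in the middle of the row `Y` of cells. -/
theorem hasG_L (h0 : 0 ≤ Y) (h1 : Y < H) : HasG D m (2 * D.h + 2 - (n * Y + n / 2 - 1)) :=
  Or.inl ⟨_, rfl, stL_C C hm hmn h0 h1⟩

/-- **Gates on the right side**, in the middle of the row `Y` of cells. -/
theorem hasG_R (h0 : 0 ≤ Y) (h1 : Y < H) : HasG D m ((n * Y + n / 2 - 1) + 2) :=
  Or.inr (Or.inl ⟨_, rfl, stR_C C hm hmn h0 h1⟩)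

/-- **The gate at the bottom.** -/
theorem hasG_B : HasG D m 0 := by
  have hn := C.pos
  have hH := C.HH
  have h2 := row_h C le_rfl hH
  have e2 := AB_n C le_rfl hH
  refine Or.inr (Or.inr (Or.inl ⟨rfl, by omega, n * A 0 + n / 2, fun v k1 k2 => ?_⟩))
  have e := dv_eq (n := n) (X := 0) (x := v) hn (by omega) (by omega)
  have g1 := C.a_le k1 (by omega : v < D.h)
  have g2 := C.le_b k1 (by omega : v < D.h)
  rw [e] at g1 g2
  omega

/-- **The gate at the top.** -/
theorem hasG_T : HasG D m (D.h + 2) := by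
  have hn := C.pos
  have hH := C.HH
  have hh := C.hh
  have h2 := row_h C (Y := H - 1) (by omega) (by omega)
  have e2 := AB_n C (Y := H - 1) (by omega) (by omega)
  have e3 : n * (H - 1) = n * H - n := by ring
  refine Or.inr (Or.inr (Or.inr ⟨rfl, by omega, n * A (H - 1) + n / 2, fun v k1 k2 => ?_⟩))
  have e := dv_eq (n := n) (X := H - 1) (x := v) hn (by omega) (by omega)
  have g1 := C.a_le (by omega : 0 ≤ v) k1
  have g2 := C.le_b (by omega : 0 ≤ v) k1
  rw [e] at g1 g2
  omega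

end CG

namespace CG

/-! ### Colours of the gates -/

variable {YP YQ : ℤ} {CL CR : ℤ → Bool} (C : CoarseC D n H A B YP YQ CL CR)

include C

/-- the middle row of a row of cells -/
lemma mid_div : (n * Y + n / 2 - 1 + 1) / n = Y ∧ (n * Y + n / 2 - 1) / n = Y := by
  have hn := C.hn
  exact ⟨dv_eq (by omega) (by omega) (by omega), dv_eq (by omega) (by omega) (by omega)⟩

lemma col_L (h0 : 0 ≤ Y) (h1 : Y < H) :
    colp D (2 * D.h + 2 - (n * Y + n / 2 - 1)) = CL Y := by
  have hn := C.hn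
  have h2 := row_h C.toCoarse h0 h1
  have h3 := mid_div C (Y := Y)
  rw [colp_left (by omega) (by omega), C.cl _ (by omega) (by omega), h3.1, h3.2, ite_self]

lemma col_R (h0 : 0 ≤ Y) (h1 : Y < H) : colp D ((n * Y + n / 2 - 1) + 2) = CR Y := by
  have hn := C.hn
  have h2 := row_h C.toCoarse h0 h1
  have h3 := mid_div C (Y := Y)
  rw [colp_right (by omega) (by omega), C.cr _ (by omega) (by omega), h3.1, h3.2, ite_self]

/-- every colour of the boundary occurs at a gate -/
lemma exists_gate (hm : 0 ≤ m) (hmn : 2 * m + 8 ≤ n) (s : ℤ) :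
    ∃ q, HasG D m q ∧ colp D q = colp D s := by
  have hn := C.pos
  have hh := D.hh
  have hH := C.hh
  have hQ1 := D.Q1
  have hP0 := D.P0
  have hrow : ∀ y, 0 ≤ y → y < D.h → 0 ≤ y / n ∧ y / n < H := fun y h0 h1 => C.row h0 h1
  have h1 := Int.emod_nonneg s (nP_pos D).ne'
  have h2 := Int.emod_lt_of_pos s (nP_pos D)
  have e : colp D s = colq D (s % nP D) := rfl
  generalize s % nP D = t at h1 h2 e
  rw [e]
  by_cases c0 : t = 0
  · subst c0
    refine ⟨0, hasG_B C.toCoarse hm hmn, ?_⟩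
    unfold colp
    simp
  by_cases c1 : t ≤ D.h + 1
  · rw [colq_cr (by omega) c1, C.cr (t - 2) (by omega) (by omega)]
    by_cases c2 : t - 2 < D.yQ
    · rw [if_pos c2]
      have h3 := hrow (t - 2 + 1) (by omega) (by omega)
      exact ⟨_, hasG_R C.toCoarse hm hmn h3.1 h3.2, col_R C h3.1 h3.2⟩
    · rw [if_neg c2]
      have hQ0 := D.Q0
      have h3 := hrow (t - 2) (by omega) (by omega)
      exact ⟨_, hasG_R C.toCoarse hm hmn h3.1 h3.2, col_R C h3.1 h3.2⟩
  by_cases c2 : t = D.h + 2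
  · subst c2
    refine ⟨D.h + 2, hasG_T C.toCoarse hm hmn, ?_⟩
    unfold colp
    rw [Int.emod_eq_of_lt (by omega) (by unfold nP; omega)]
  · have h4 : t < 2 * D.h + 4 := h2
    rw [colq_cl (by omega), C.cl (2 * D.h + 2 - t) (by omega) (by omega)]
    by_cases c3 : 2 * D.h + 2 - t + 1 < D.yP
    · rw [if_pos c3]
      have hP1 := D.P1
      have h3 := hrow (2 * D.h + 2 - t + 1) (by omega) (by omega)
      exact ⟨_, hasG_L C.toCoarse hm hmn h3.1 h3.2, col_L C h3.1 h3.2⟩
    · rw [if_neg c3]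
      have h3 := hrow (2 * D.h + 2 - t) (by omega) (by omega)
      exact ⟨_, hasG_L C.toCoarse hm hmn h3.1 h3.2, col_L C h3.1 h3.2⟩

/-- **Corners far from the boundary of a coarse window.** -/
theorem far_C {p : Bool} {s0 L : ℤ} {S : Finset (ℤ × ℤ)} {O : OutB D} {hS : S ⊆ FR D p}
    (hL : 5 ≤ L) (hm : 1 ≤ m) (hmn : 2 * m + 8 ≤ n) (hcut : colp D (s0 - 1) ≠ colp D s0)
    (hroot : ∀ g, Ag g O.c0 → OutF (D.a (D.yP - 1) - L + 1) (D.b D.yQ + L) (-L + 1) (D.h + L) g)
    {La : ℤ → Finset (ℤ × ℤ)} (hLa : ∀ i, La i ⊆ LbA D p s0 m i) {c : ℤ × ℤ}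
    (hc : ∀ g, Ag g c → ∀ x y, OnT g x y → Dp D p m x y) :
    FarM (XA O p S hS) (TA D p) (fmA D p s0) (colp D) (WlA D p s0 L S) La (bA D p) (oA D p)
      c := by
  obtain ⟨q, hq, e1⟩ := exists_gate C (by omega : 0 ≤ m) hmn (s0 - 1)
  obtain ⟨q', hq', e2⟩ := exists_gate C (by omega : 0 ≤ m) hmn s0
  refine farA_two hL hm (wide_C C.toCoarse hmn) hcut hq hq' (fun h => hcut ?_) hroot hLa hc
  rw [← e1, ← e2, ← colp_rep (D := D) (s0 := s0) (s := q), ← colp_rep (D := D) (s0 := s0) (s := q'), h]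

end CG

end Pool.Agent.H46.Sp
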