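import Mathlib
import Pool.Agent.H13.Sp.ArcC
import Pool.Agent.H54.Sp.ArcAdj
import Pool.Agent.H40.Sp.MCor

set_option autoImplicit false
open Finset

/-! # The arcs of the sides of the cell rows

`iS_L`, `iS_R` : the arcs `iS` of helper40 in terms of the arcs `arL`, `arR` of helper13. `iS_eq` : neighbouring
rows of one colour are in one arc. `arc_out` : the arc of a tile outside of `P^p`, up to the exceptional rows
below a floor corner (`p = false`) and above a ceiling corner (`p = true`). -/

namespace Pool.Agent.H46.Sp.CG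

open Pool.Agent.H75.Perc Pool.Agent.H75.TwoArm Pool.Agent.Q1 Pool.Agent.H33.Q1
open Pool.Agent.H69.Q1
open Pool.Agent.H46.Sp Pool.Agent.H46.Sp.Win
open Pool.Agent.H31.Sp (Coarse CoarseC CQ)
open Pool.Agent.H74.Win Pool.Agent.H42.Sp
open Pool.Agent.H13.Sp
open Pool.Agent.H40.Sp (cS qS iS)
open Pool.Agent.H54.Sp (ps_cases Nx)

variable {D : Win} {n H : ℤ} {A B : ℤ → ℤ} {r x y X Y s0 : ℤ} {p sd : Bool}
  {YP YQ : ℤ} {CL CR : ℤ → Bool}

section

variable (C : CoarseC D n H A B YP YQ CL CR)

include C

/-- the row of cells of the left position -/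
lemma rL_mid (h1 : n * Y < y) (h2 : y + 1 < n * Y + n) : rL D n y = Y := by
  have hn := C.pos
  unfold rL
  split_ifs
  · exact dv_eq hn (by omega) (by omega)
  · exact dv_eq hn (by omega) (by omega)

lemma rR_mid (h1 : n * Y < y) (h2 : y + 1 < n * Y + n) : rR D n y = Y := by
  have hn := C.pos
  unfold rR
  split_ifs
  · exact dv_eq hn (by omega) (by omega)
  · exact dv_eq hn (by omega) (by omega)

lemma cl_rL (h0 : -1 ≤ y) (h1 : y < D.h) : D.cl y = CL (rL D n y) := by
  rw [C.cl y h0 h1]
  unfold rL
  split_ifs <;> rfl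

lemma cr_rR (h0 : -1 ≤ y) (h1 : y < D.h) : D.cr y = CR (rR D n y) := by
  rw [C.cr y h0 h1]
  unfold rR
  split_ifs <;> rfl

lemma cS_L (h0 : 0 ≤ Y) (h1 : Y < H) : cS D n H true Y = CL Y := by
  have hn := C.hn
  have hr := row_h C.toCoarse h0 h1
  unfold cS
  rw [if_neg (by omega), if_neg (by omega), if_pos rfl, cl_rL C (by omega) (by omega),
    rL_mid (Y := Y) C (by omega) (by omega)]

lemma cS_R (h0 : 0 ≤ Y) (h1 : Y < H) : cS D n H false Y = CR Y := by
  have hn := C.hn
  have hr := row_h C.toCoarse h0 h1
  unfold cS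
  rw [if_neg (by omega), if_neg (by omega), if_neg Bool.false_ne_true, cr_rR C (by omega) (by omega),
    rR_mid (Y := Y) C (by omega) (by omega)]

omit C in
lemma cS_B (h0 : Y < 0) : cS D n H sd Y = D.cb := by
  unfold cS
  rw [if_pos h0]

omit C in
lemma cS_T (hH : 0 < H) (h0 : H ≤ Y) : cS D n H sd Y = D.ct := by
  unfold cS
  rw [if_neg (by omega), if_pos h0]

variable (hcut : colp D (s0 - 1) ≠ colp D s0)

include hcut

lemma iS_L (h0 : 0 ≤ Y) (h1 : Y < H) : iS D s0 n H true Y = arL D n s0 Y := by
  have hn := C.hn
  have hr := row_h C.toCoarse h0 h1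
  unfold iS qS
  rw [if_neg (by omega), if_neg (by omega), if_pos rfl, posL C hcut (by omega) (by omega),
    rL_mid (Y := Y) C (by omega) (by omega)]

lemma iS_R (h0 : 0 ≤ Y) (h1 : Y < H) : iS D s0 n H false Y = arR D n s0 Y := by
  have hn := C.hn
  have hr := row_h C.toCoarse h0 h1
  unfold iS qS
  rw [if_neg (by omega), if_neg (by omega), if_neg Bool.false_ne_true, posR C hcut (by omega) (by omega),
    rR_mid (Y := Y) C (by omega) (by omega)]

omit C hcut in
lemma iS_B (h0 : Y < 0) : iS D s0 n H sd Y = rep D s0 0 := by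
  unfold iS qS
  rw [if_pos h0]

omit C hcut in
lemma iS_T (hH : 0 < H) (h0 : H ≤ Y) : iS D s0 n H sd Y = rep D s0 (D.h + 2) := by
  unfold iS qS
  rw [if_neg (by omega), if_pos h0]

omit hcut in
/-- the colour of the arc of a side -/
lemma colp_iS : colp D (iS D s0 n H sd Y) = cS D n H sd Y := by
  have hn := C.hn
  have hH := C.HH
  have hh := D.hh
  unfold iS
  rw [colp_rep]
  unfold qS cS
  by_cases h0 : Y < 0
  · rw [if_pos h0, if_pos h0]
    unfold colp; simp only [Int.zero_emod]; exact colq_0
  rw [if_neg h0, if_neg h0]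
  by_cases h1 : H ≤ Y
  · rw [if_pos h1, if_pos h1]
    unfold colp
    rw [Int.emod_eq_of_lt (by omega) (by unfold nP; omega), colq_t]
  rw [if_neg h1, if_neg h1]
  have hr := row_h C.toCoarse (Y := Y) (by omega) (by omega)
  cases sd
  · rw [if_neg Bool.false_ne_true, if_neg Bool.false_ne_true, colp_right (by omega) (by omega)]
  · rw [if_pos rfl, if_pos rfl, colp_left (by omega) (by omega)]

/-- **Neighbouring rows of one colour are in one arc.** -/
theorem iS_eq (h0 : 0 ≤ Y) (h1 : Y ≤ H) (hc : cS D n H sd (Y - 1) = cS D n H sd Y) :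
    iS D s0 n H sd (Y - 1) = iS D s0 n H sd Y := by
  have hn := C.hn
  have hn0 := C.pos
  have hH := C.HH
  have hh := D.hh
  have hD := C.hh
  have hP0 := D.P0
  have hP1 := D.P1
  have hQ0 := D.Q0
  have hQ1 := D.Q1
  have h2 : colp D (iS D s0 n H sd (Y - 1)) = colp D (iS D s0 n H sd Y) := by
    rw [colp_iS C, colp_iS C, hc]
  have key : ∃ q q', Nx D q q' ∧ rep D s0 q = iS D s0 n H sd (Y - 1) ∧ rep D s0 q' = iS D s0 n H sd Y := by
    have e0 : (0 : ℤ) / n = 0 := Int.zero_ediv n
    by_cases c0 : Y = 0
    · subst c0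
      have r0 := row_h C.toCoarse (Y := 0) le_rfl hH
      cases sd
      · refine ⟨0, -1 + 2, Or.inr (Or.inl (by norm_num)), (iS_B (by norm_num)).symm, ?_⟩
        rw [posR C hcut le_rfl (by omega), iS_R C hcut le_rfl hH]
        congr 1
        unfold rR
        rw [if_pos (by omega), neg_add_cancel, e0]
      · refine ⟨0, 2 * D.h + 2 - (-1), Or.inr (Or.inr (Or.inr (Or.inl ⟨rfl, by ring⟩))),
          (iS_B (by norm_num)).symm, ?_⟩
        rw [posL C hcut le_rfl (by omega), iS_L C hcut le_rfl hH]
        congr 1
        unfold rL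
        rw [if_pos (by omega), neg_add_cancel, e0]
    by_cases c1 : Y = H
    · subst c1
      have r0 := row_h C.toCoarse (Y := Y - 1) (by omega) (by omega)
      have e1 : n * (Y - 1) = n * Y - n := by ring
      have e2 : (D.h - 1) / n = Y - 1 := dv_eq hn0 (by omega) (by omega)
      cases sd
      · refine ⟨D.h - 1 + 2, D.h + 2, Or.inr (Or.inl (by ring)), ?_, (iS_T hH le_rfl).symm⟩
        rw [posR C hcut (by omega) (by omega), iS_R C hcut (by omega) (by omega)]
        congr 1
        unfold rR
        rw [if_neg (by omega), e2]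
      · refine ⟨2 * D.h + 2 - (D.h - 1), D.h + 2, Or.inr (Or.inr (Or.inl (by ring))), ?_,
          (iS_T hH le_rfl).symm⟩
        rw [posL C hcut (by omega) (by omega), iS_L C hcut (by omega) (by omega)]
        congr 1
        unfold rL
        rw [if_neg (by omega), e2]
    have r0 := row_h C.toCoarse (Y := Y - 1) (by omega) (by omega)
    have r1 := row_h C.toCoarse (Y := Y) (by omega) (by omega)
    have e1 : n * (Y - 1) = n * Y - n := by ring
    cases sd
    · by_cases c2 : n * Y ≤ D.yQ
      · refine ⟨n * Y - 2 + 2, n * Y - 1 + 2, Or.inr (Or.inl (by ring)), ?_, ?_⟩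
        · rw [posR C hcut (by omega) (by omega), iS_R C hcut (by omega) (by omega)]
          congr 1
          unfold rR
          rw [if_pos (by omega)]
          exact dv_eq hn0 (by omega) (by omega)
        · rw [posR C hcut (by omega) (by omega), iS_R C hcut (by omega) (by omega)]
          congr 1
          unfold rR
          rw [if_pos (by omega)]
          exact dv_eq hn0 (by omega) (by omega)
      · refine ⟨n * Y - 1 + 2, n * Y + 2, Or.inr (Or.inl (by ring)), ?_, ?_⟩
        · rw [posR C hcut (by omega) (by omega), iS_R C hcut (by omega) (by omega)]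
          congr 1
          unfold rR
          have hq := C.yQ
          rw [if_neg (by
            intro h
            have h3 : YQ < Y := by
              by_contra h4
              have : n * Y ≤ n * YQ := mul_le_mul_of_nonneg_left (by omega) hn0.le
              omega
            have : n * (YQ + 1) ≤ n * Y := mul_le_mul_of_nonneg_left (by omega) hn0.le
            have e3 : n * (YQ + 1) = n * YQ + n := by ring
            omega)]
          exact dv_eq hn0 (by omega) (by omega)
        · rw [posR C hcut (by omega) (by omega), iS_R C hcut (by omega) (by omega)]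
          congr 1
          unfold rR
          rw [if_neg (by omega)]
          exact dv_eq hn0 (by omega) (by omega)
    · by_cases c2 : n * Y < D.yP
      · refine ⟨2 * D.h + 2 - (n * Y - 2), 2 * D.h + 2 - (n * Y - 1), Or.inr (Or.inr (Or.inl (by ring))), ?_, ?_⟩
        · rw [posL C hcut (by omega) (by omega), iS_L C hcut (by omega) (by omega)]
          congr 1
          unfold rL
          rw [if_pos (by omega)]
          exact dv_eq hn0 (by omega) (by omega)
        · rw [posL C hcut (by omega) (by omega), iS_L C hcut (by omega) (by omega)]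
          congr 1
          unfold rL
          rw [if_pos (by omega)]
          exact dv_eq hn0 (by omega) (by omega)
      · refine ⟨2 * D.h + 2 - (n * Y - 1), 2 * D.h + 2 - (n * Y), Or.inr (Or.inr (Or.inl (by ring))), ?_, ?_⟩
        · rw [posL C hcut (by omega) (by omega), iS_L C hcut (by omega) (by omega)]
          congr 1
          unfold rL
          rw [if_neg (by omega)]
          exact dv_eq hn0 (by omega) (by omega)
        · rw [posL C hcut (by omega) (by omega), iS_L C hcut (by omega) (by omega)]
          congr 1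
          unfold rL
          rw [if_neg (by omega)]
          exact dv_eq hn0 (by omega) (by omega)
  obtain ⟨q, q', hq, e1, e2⟩ := key
  rw [← e1, ← e2]
  refine hq.rep hcut ?_
  rw [← e1, ← e2, colp_rep, colp_rep] at h2
  exact h2

end

end Pool.Agent.H46.Sp.CG
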