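import Mathlib
import Pool.Agent.H46.Sp.ArcS

set_option autoImplicit false
open Finset

/-! # The tiles around a lattice point of a coarse window

`arc_left`, `arc_right`, `arc_below`, `arc_above` : arcs of the tiles outside of `P^p`. `Bx` : box around the
lattice point `(n X, n Y)`. `box_cases` : if `P^p` meets the box, then the tiles of the box outside of `P^p`
belong to one arc, or the lattice point is a marked corner; in the second case `P^p` is a quadrant in the box. -/

namespace Pool.Agent.H46.Sp.CG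

open Pool.Agent.H75.Perc Pool.Agent.H75.TwoArm Pool.Agent.Q1 Pool.Agent.H33.Q1
open Pool.Agent.H69.Q1
open Pool.Agent.H46.Sp Pool.Agent.H46.Sp.Win
open Pool.Agent.H31.Sp (Coarse CoarseC CQ)
open Pool.Agent.H74.Win Pool.Agent.H42.Sp
open Pool.Agent.H13.Sp
open Pool.Agent.H40.Sp (cS qS iS oT GmC gxS gyS iVs iHs flS yV yH eS)
open Pool.Agent.H54.Sp (ps_cases Nx)

variable {D : Win} {n H : ℤ} {A B : ℤ → ℤ} {r x y X Y s0 : ℤ} {p sd : Bool}
  {YP YQ : ℤ} {CL CR : ℤ → Bool}

section

variable (C : CoarseC D n H A B YP YQ CL CR) (hcut : colp D (s0 - 1) ≠ colp D s0)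

include C hcut

/-- arcs at the left -/
theorem arc_left (h0 : 0 ≤ y + sh p) (h1 : y + sh p < D.h) (hx : x < D.a (y + sh p)) :
    arc D p s0 x y = arL D n s0 ((y + sh p) / n) ∨
    (p = false ∧ y + sh p + 1 < D.yP ∧ x < D.a (y + sh p + 1) ∧
      arc D p s0 x y = arL D n s0 ((y + sh p + 1) / n)) ∨
    (p = true ∧ D.yP ≤ y + sh p ∧ x < D.a (y + sh p - 1) ∧
      arc D p s0 x y = arL D n s0 ((y + sh p - 1) / n)) := by
  have hP0 := D.P0
  have hP1 := D.P1
  have hu := Pool.Agent.H54.Sp.row_union (D := D) (p := p) (y := y) h0 h1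
  have hni : ¬ H74.Win.InP D p x y := fun h => by
    obtain ⟨-, -, h4, -⟩ := h; omega
  rcases sh_cases p with ⟨rfl, e⟩ | ⟨rfl, e⟩
  · have k := ps_cases hni (by omega) (by omega)
    clear e
    simp only [sh_false, add_zero, mul_zero, sub_zero] at *
    unfold arc
    rcases k with ⟨k1, k2⟩ | ⟨k1, k2⟩ | ⟨k1, k2, k3 | k3 | ⟨k3, k4, k5, k6⟩ | k3⟩
    · rw [k2, posL C hcut (by omega) (by omega)]
      unfold rL
      unfold Win.m mm at k1
      split_ifs with c
      · rw [if_pos c] at k1
        exact Or.inr (Or.inl ⟨trivial, c, k1, rfl⟩)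
      · exact Or.inl rfl
    · omega
    · omega
    · omega
    · have c : y < D.yP := by
        by_contra c
        unfold Win.m mm at k1
        rw [if_neg (by omega)] at k1
        omega
      rw [k6, show 2 * D.h + 3 - y = 2 * D.h + 2 - (y - 1) by ring, posL C hcut (by omega) (by omega)]
      unfold rL
      rw [sub_add_cancel, if_pos c]
      exact Or.inl rfl
    · omega
  · have k := ps_cases hni (by omega) (by omega)
    clear e
    simp only [sh_true, mul_one] at *
    rw [add_sub_cancel_right]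
    unfold arc
    rcases k with ⟨k1, k2⟩ | ⟨k1, k2⟩ | ⟨k1, k2, k3 | k3 | ⟨k3, k4, k5, k6⟩ | k3⟩
    · rw [k2, posL C hcut (by omega) (by omega)]
      unfold rL
      unfold Win.m mm at k1
      split_ifs with c
      · exact Or.inl rfl
      · rw [if_neg c] at k1
        exact Or.inr (Or.inr ⟨trivial, by omega, k1, rfl⟩)
    · omega
    · omega
    · omega
    · have c : D.yP ≤ y + 1 := by
        by_contra c
        unfold Win.m mm at k1
        rw [if_pos (by omega)] at k1
        omega
      rw [k6, show 2 * D.h + 3 - y - 2 = 2 * D.h + 2 - (y + 1) by ring, posL C hcut (by omega) (by omega)]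
      unfold rL
      rw [if_neg (by omega)]
      exact Or.inl rfl
    · omega

/-- arcs at the right -/
theorem arc_right (h0 : 0 ≤ y + sh p) (h1 : y + sh p < D.h) (hx : D.b (y + sh p) ≤ x) :
    arc D p s0 x y = arR D n s0 ((y + sh p) / n) ∨
    (p = false ∧ y + sh p < D.yQ ∧ D.b (y + sh p + 1) ≤ x ∧
      arc D p s0 x y = arR D n s0 ((y + sh p + 1) / n)) ∨
    (p = true ∧ D.yQ < y + sh p ∧ D.b (y + sh p - 1) ≤ x ∧
      arc D p s0 x y = arR D n s0 ((y + sh p - 1) / n)) := by
  have hQ0 := D.Q0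
  have hQ1 := D.Q1
  have hu := Pool.Agent.H54.Sp.row_union (D := D) (p := p) (y := y) h0 h1
  have hni : ¬ H74.Win.InP D p x y := fun h => by
    obtain ⟨-, -, -, h4⟩ := h; omega
  rcases sh_cases p with ⟨rfl, e⟩ | ⟨rfl, e⟩
  · have k := ps_cases hni (by omega) (by omega)
    clear e
    simp only [sh_false, add_zero, mul_zero, sub_zero] at *
    unfold arc
    rcases k with ⟨k1, k2⟩ | ⟨k1, k2⟩ | ⟨k1, k2, k3 | k3 | k3 | ⟨k3, k4, k5, k6⟩⟩
    · omega
    · rw [k2, posR C hcut (by omega) (by omega)]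
      unfold rR
      unfold Win.M MM at k1
      split_ifs with c
      · rw [if_pos c] at k1
        exact Or.inr (Or.inl ⟨trivial, c, k1, rfl⟩)
      · exact Or.inl rfl
    · omega
    · omega
    · omega
    · have c : y - 1 < D.yQ := by
        by_contra c
        unfold Win.M MM at k2
        rw [if_neg (by omega)] at k2
        omega
      rw [k6, show y + 1 = (y - 1) + 2 by ring, posR C hcut (by omega) (by omega)]
      unfold rR
      rw [if_pos c, sub_add_cancel]
      exact Or.inl rfl
  · have k := ps_cases hni (by omega) (by omega)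
    clear e
    simp only [sh_true, mul_one] at *
    rw [add_sub_cancel_right]
    unfold arc
    rcases k with ⟨k1, k2⟩ | ⟨k1, k2⟩ | ⟨k1, k2, k3 | k3 | k3 | ⟨k3, k4, k5, k6⟩⟩
    · omega
    · rw [k2, posR C hcut (by omega) (by omega)]
      unfold rR
      unfold Win.M MM at k1
      split_ifs with c
      · exact Or.inl rfl
      · rw [if_neg c] at k1
        exact Or.inr (Or.inr ⟨trivial, by omega, k1, rfl⟩)
    · omega
    · omega
    · omega
    · have c : D.yQ ≤ y := by
        by_contra c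
        unfold Win.M MM at k2
        rw [if_pos (by omega)] at k2
        omega
      rw [k6, show y + 1 + 2 = (y + 1) + 2 by ring, posR C hcut (by omega) (by omega)]
      unfold rR
      rw [if_neg (by omega)]
      exact Or.inl rfl

/-- arcs below -/
theorem arc_below (h0 : y + sh p < 0) :
    arc D p s0 x y = rep D s0 0 ∨
    (y + sh p = -1 ∧ x < D.a 0 ∧ arc D p s0 x y = arL D n s0 0) ∨
    (y + sh p = -1 ∧ D.b 0 ≤ x ∧ arc D p s0 x y = arR D n s0 0) := by
  have hP0 := D.P0
  have hQ0 := D.Q0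
  have hh := D.hh
  have hs := sh_nonneg p
  have e0 : (0 : ℤ) / n = 0 := Int.zero_ediv n
  unfold arc
  by_cases c : y < -1
  · left
    rw [ps_bot c]
  have hp : sh p = 0 := by omega
  have hy : y = -1 := by omega
  subst hy
  have hni : ¬ H74.Win.InP D p x (-1) := fun h => by
    obtain ⟨h4, -⟩ := h; omega
  have k := ps_cases hni (by omega) (by omega)
  rcases k with ⟨k1, k2⟩ | ⟨k1, k2⟩ | ⟨k1, k2, k3 | k3 | k3 | k3⟩
  · rw [k2, posL C hcut (by omega) (by omega)]
    unfold rL
    unfold Win.m mm at k1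
    rw [if_pos (by omega), neg_add_cancel] at k1
    rw [if_pos (by omega), neg_add_cancel, e0]
    exact Or.inr (Or.inl ⟨by omega, k1, rfl⟩)
  · rw [k2, posR C hcut (by omega) (by omega)]
    unfold rR
    unfold Win.M MM at k1
    rw [if_pos (by omega), neg_add_cancel] at k1
    rw [if_pos (by omega), neg_add_cancel, e0]
    exact Or.inr (Or.inr ⟨by omega, k1, rfl⟩)
  · rw [k3.2]; exact Or.inl rfl
  · omega
  · omega
  · omega

/-- arcs above -/
theorem arc_above (h0 : D.h ≤ y + sh p) :
    arc D p s0 x y = rep D s0 (D.h + 2) ∨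
    (y + sh p = D.h ∧ x < D.a (D.h - 1) ∧ arc D p s0 x y = arL D n s0 (H - 1)) ∨
    (y + sh p = D.h ∧ D.b (D.h - 1) ≤ x ∧ arc D p s0 x y = arR D n s0 (H - 1)) := by
  have hP1 := D.P1
  have hQ1 := D.Q1
  have hh := D.hh
  have hn := C.hn
  have hH := C.hh
  have hs := sh_le p
  have e1 : n * (H - 1) = n * H - n := by ring
  have e0 : (D.h - 1) / n = H - 1 := dv_eq C.pos (by omega) (by omega)
  unfold arc
  by_cases c : D.h ≤ y
  · left
    rw [ps_top c]
  have hp : sh p = 1 := by omega
  have hy : y = D.h - 1 := by omega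
  subst hy
  have hni : ¬ H74.Win.InP D p x (D.h - 1) := fun h => by
    obtain ⟨-, h4, -⟩ := h; omega
  have k := ps_cases hni (by omega) (by omega)
  rcases k with ⟨k1, k2⟩ | ⟨k1, k2⟩ | ⟨k1, k2, k3 | k3 | k3 | k3⟩
  · rw [k2, posL C hcut (by omega) (by omega)]
    unfold rL
    unfold Win.m mm at k1
    rw [if_neg (by omega)] at k1
    rw [if_neg (by omega), e0]
    exact Or.inr (Or.inl ⟨by omega, k1, rfl⟩)
  · rw [k2, posR C hcut (by omega) (by omega)]
    unfold rR
    unfold Win.M MM at k1
    rw [if_neg (by omega)] at k1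
    rw [if_neg (by omega), e0]
    exact Or.inr (Or.inr ⟨by omega, k1, rfl⟩)
  · omega
  · rw [k3.2]; exact Or.inl rfl
  · omega
  · omega

/-- the four possibilities in the box, side L -/
theorem arcB_L (h0 : 0 ≤ Y) (h1 : Y ≤ H) (k0 : n * Y - n + 2 ≤ y + sh p) (k1 : y + sh p < n * Y + n - 2)
    (hl : 0 ≤ y + sh p → y + sh p < D.h → x < D.a (y + sh p))
    (hb : y + sh p = -1 → x < D.b 0) (ht : y + sh p = D.h → x < D.b (D.h - 1)) :
    (y + sh p < n * Y ∧ arc D p s0 x y = iS D s0 n H true (Y - 1)) ∨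
    (n * Y ≤ y + sh p ∧ arc D p s0 x y = iS D s0 n H true Y) ∨
    (y + sh p = n * Y - 1 ∧ n * Y < D.yP ∧ x < D.a (n * Y) ∧ arc D p s0 x y = iS D s0 n H true Y) ∨
    (y + sh p = n * Y ∧ D.yP ≤ n * Y ∧ x < D.a (n * Y - 1) ∧ arc D p s0 x y = iS D s0 n H true (Y - 1)) := by
  have hn := C.hn
  have hn0 := C.pos
  have hH := C.HH
  have hD := C.hh
  have hP0 := D.P0
  have hP1 := D.P1
  have hQ0 := D.Q0
  have hQ1 := D.Q1
  have e1 : n * (Y - 1) = n * Y - n := by ring
  by_cases c1 : y + sh p < 0
  · have hY : Y = 0 := by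
      by_contra hc
      have : n * 1 ≤ n * Y := mul_le_mul_of_nonneg_left (by omega) hn0.le
      omega
    subst hY
    have hB := iS_B (D := D) (n := n) (H := H) (s0 := s0) (Y := 0 - 1) (sd := true) (by norm_num)
    rcases arc_below C hcut c1 (x := x) with h2 | ⟨h2, h3, h4⟩ | ⟨h2, h3, h4⟩
    · left
      exact ⟨by omega, by rw [h2, hB]⟩
    · right; right; left
      rw [mul_zero]
      exact ⟨by omega, by omega, h3, by rw [h4, iS_L C hcut le_rfl hH]⟩
    · have := hb h2
      omega
  by_cases c2 : D.h ≤ y + sh p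
  · have hY : Y = H := by
      by_contra hc
      have : n * Y + n ≤ n * H := lt_mul hn0 (by omega)
      omega
    subst hY
    have hT := iS_T (D := D) (n := n) (H := Y) (s0 := s0) (Y := Y) (sd := true) hH le_rfl
    rcases arc_above C hcut c2 (x := x) with h2 | ⟨h2, h3, h4⟩ | ⟨h2, h3, h4⟩
    · right; left
      exact ⟨by omega, by rw [h2, hT]⟩
    · right; right; right
      rw [← hD]
      exact ⟨by omega, by omega, h3, by rw [h4, iS_L C hcut (by omega) (by omega)]⟩
    · have := ht h2
      omega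
  obtain ⟨r0, r1⟩ := C.toCoarse.row (y := y + sh p) (by omega) (by omega)
  have hx := hl (by omega) (by omega)
  rcases arc_left C hcut (p := p) (x := x) (y := y) (by omega) (by omega) hx with h2 | ⟨-, h3, h4, h5⟩ | ⟨-, h3, h4, h5⟩
  · rw [← iS_L C hcut r0 r1] at h2
    by_cases c3 : y + sh p < n * Y
    · left
      rw [dv_eq (X := Y - 1) hn0 (by omega) (by omega)] at h2
      exact ⟨c3, h2⟩
    · right; left
      rw [dv_eq (X := Y) hn0 (by omega) (by omega)] at h2
      exact ⟨by omega, h2⟩
  · obtain ⟨r2, r3⟩ := C.toCoarse.row (y := y + sh p + 1) (by omega) (by omega)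
    rw [← iS_L C hcut r2 r3] at h5
    by_cases c3 : y + sh p + 1 < n * Y
    · left
      rw [dv_eq (X := Y - 1) hn0 (by omega) (by omega)] at h5
      exact ⟨by omega, h5⟩
    · rw [dv_eq (X := Y) hn0 (by omega) (by omega)] at h5
      by_cases c4 : y + sh p < n * Y
      · right; right; left
        have e2 : y + sh p + 1 = n * Y := by omega
        rw [e2] at h4
        exact ⟨by omega, by omega, h4, h5⟩
      · right; left
        exact ⟨by omega, h5⟩
  · obtain ⟨r2, r3⟩ := C.toCoarse.row (y := y + sh p - 1) (by omega) (by omega)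
    rw [← iS_L C hcut r2 r3] at h5
    by_cases c3 : y + sh p - 1 < n * Y
    · rw [dv_eq (X := Y - 1) hn0 (by omega) (by omega)] at h5
      by_cases c4 : y + sh p < n * Y
      · left
        exact ⟨c4, h5⟩
      · right; right; right
        have e2 : y + sh p = n * Y := by omega
        rw [e2] at h4
        exact ⟨e2, by omega, h4, h5⟩
    · right; left
      rw [dv_eq (X := Y) hn0 (by omega) (by omega)] at h5
      exact ⟨by omega, h5⟩

/-- the four possibilities in the box, side R -/
theorem arcB_R (h0 : 0 ≤ Y) (h1 : Y ≤ H) (k0 : n * Y - n + 2 ≤ y + sh p) (k1 : y + sh p < n * Y + n - 2)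
    (hl : 0 ≤ y + sh p → y + sh p < D.h → D.b (y + sh p) ≤ x)
    (hb : y + sh p = -1 → D.a 0 ≤ x) (ht : y + sh p = D.h → D.a (D.h - 1) ≤ x) :
    (y + sh p < n * Y ∧ arc D p s0 x y = iS D s0 n H false (Y - 1)) ∨
    (n * Y ≤ y + sh p ∧ arc D p s0 x y = iS D s0 n H false Y) ∨
    (y + sh p = n * Y - 1 ∧ n * Y ≤ D.yQ ∧ D.b (n * Y) ≤ x ∧ arc D p s0 x y = iS D s0 n H false Y) ∨
    (y + sh p = n * Y ∧ D.yQ < n * Y ∧ D.b (n * Y - 1) ≤ x ∧ arc D p s0 x y = iS D s0 n H false (Y - 1)) := by
  have hn := C.hn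
  have hn0 := C.pos
  have hH := C.HH
  have hD := C.hh
  have hP0 := D.P0
  have hP1 := D.P1
  have hQ0 := D.Q0
  have hQ1 := D.Q1
  have e1 : n * (Y - 1) = n * Y - n := by ring
  by_cases c1 : y + sh p < 0
  · have hY : Y = 0 := by
      by_contra hc
      have : n * 1 ≤ n * Y := mul_le_mul_of_nonneg_left (by omega) hn0.le
      omega
    subst hY
    have hB := iS_B (D := D) (n := n) (H := H) (s0 := s0) (Y := 0 - 1) (sd := false) (by norm_num)
    rcases arc_below C hcut c1 (x := x) with h2 | ⟨h2, h3, h4⟩ | ⟨h2, h3, h4⟩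
    · left
      exact ⟨by omega, by rw [h2, hB]⟩
    · have := hb h2
      omega
    · right; right; left
      rw [mul_zero]
      exact ⟨by omega, by omega, h3, by rw [h4, iS_R C hcut le_rfl hH]⟩
  by_cases c2 : D.h ≤ y + sh p
  · have hY : Y = H := by
      by_contra hc
      have : n * Y + n ≤ n * H := lt_mul hn0 (by omega)
      omega
    subst hY
    have hT := iS_T (D := D) (n := n) (H := Y) (s0 := s0) (Y := Y) (sd := false) hH le_rfl
    rcases arc_above C hcut c2 (x := x) with h2 | ⟨h2, h3, h4⟩ | ⟨h2, h3, h4⟩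
    · right; left
      exact ⟨by omega, by rw [h2, hT]⟩
    · have := ht h2
      omega
    · right; right; right
      rw [← hD]
      exact ⟨by omega, by omega, h3, by rw [h4, iS_R C hcut (by omega) (by omega)]⟩
  obtain ⟨r0, r1⟩ := C.toCoarse.row (y := y + sh p) (by omega) (by omega)
  have hx := hl (by omega) (by omega)
  rcases arc_right C hcut (p := p) (x := x) (y := y) (by omega) (by omega) hx with h2 | ⟨-, h3, h4, h5⟩ | ⟨-, h3, h4, h5⟩
  · rw [← iS_R C hcut r0 r1] at h2
    by_cases c3 : y + sh p < n * Y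
    · left
      rw [dv_eq (X := Y - 1) hn0 (by omega) (by omega)] at h2
      exact ⟨c3, h2⟩
    · right; left
      rw [dv_eq (X := Y) hn0 (by omega) (by omega)] at h2
      exact ⟨by omega, h2⟩
  · obtain ⟨r2, r3⟩ := C.toCoarse.row (y := y + sh p + 1) (by omega) (by omega)
    rw [← iS_R C hcut r2 r3] at h5
    by_cases c3 : y + sh p + 1 < n * Y
    · left
      rw [dv_eq (X := Y - 1) hn0 (by omega) (by omega)] at h5
      exact ⟨by omega, h5⟩
    · rw [dv_eq (X := Y) hn0 (by omega) (by omega)] at h5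
      by_cases c4 : y + sh p < n * Y
      · right; right; left
        have e2 : y + sh p + 1 = n * Y := by omega
        rw [e2] at h4
        exact ⟨by omega, by omega, h4, h5⟩
      · right; left
        exact ⟨by omega, h5⟩
  · obtain ⟨r2, r3⟩ := C.toCoarse.row (y := y + sh p - 1) (by omega) (by omega)
    rw [← iS_R C hcut r2 r3] at h5
    by_cases c3 : y + sh p - 1 < n * Y
    · rw [dv_eq (X := Y - 1) hn0 (by omega) (by omega)] at h5
      by_cases c4 : y + sh p < n * Y
      · left
        exact ⟨c4, h5⟩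
      · right; right; right
        have e2 : y + sh p = n * Y := by omega
        rw [e2] at h4
        exact ⟨e2, by omega, h4, h5⟩
    · right; left
      rw [dv_eq (X := Y) hn0 (by omega) (by omega)] at h5
      exact ⟨by omega, h5⟩

end

end Pool.Agent.H46.Sp.CG
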