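import Mathlib
import Pool.Agent.H46.Sp.ArcB

set_option autoImplicit false
open Finset

/-! # The tiles around a lattice point of a coarse window

`Bx` : box around the lattice point `(n X, n Y)`. `Cor` : the lattice point is a marked corner and `P^p` is a
quadrant in the box. `box_cases` : if the box meets `P^p`, then the tiles of the box outside of `P^p` belong to
one arc, or `Cor`. -/

namespace Pool.Agent.H46.Sp.CG

open Pool.Agent.H75.Perc Pool.Agent.H75.TwoArm Pool.Agent.Q1 Pool.Agent.H33.Q1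
open Pool.Agent.H69.Q1
open Pool.Agent.H46.Sp Pool.Agent.H46.Sp.Win
open Pool.Agent.H31.Sp (Coarse CoarseC CQ)
open Pool.Agent.H74.Win Pool.Agent.H42.Sp
open Pool.Agent.H13.Sp
open Pool.Agent.H40.Sp (cS qS iS oT GmC gxS gyS iVs iHs flS yV yH eS)
open Pool.Agent.H54.Sp (ps_cases Nx)

variable {D : Win} {n H : ℤ} {A B : ℤ → ℤ} {r x y X Y s0 V : ℤ} {p sd : Bool}
  {YP YQ : ℤ} {CL CR : ℤ → Bool}

/-- the box around a lattice point -/
def Bx (n : ℤ) (p : Bool) (X Y x y : ℤ) : Prop :=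
  n * X - n + 2 ≤ x ∧ x < n * X + n - 2 ∧ n * Y - n + 2 ≤ y + sh p ∧ y + sh p < n * Y + n - 2

/-- **The lattice point `(n X, n Y)` is a marked corner.** -/
structure Cor (D : Win) (n H : ℤ) (A B : ℤ → ℤ) (p : Bool) (s0 : ℤ) (sd : Bool) (X Y : ℤ) : Prop where
  mem : (sd, Y) ∈ GmC D n H
  gx : gxS n H A B (sd, Y) = n * X
  inn : ∀ x y, Bx n p X Y x y → (H74.Win.InP D p x y ↔
    0 ≤ oT sd (n * X) x ∧ 0 ≤ oT (flS H A B (sd, Y)) (n * Y - sh p) y)
  av : ∀ x y, Bx n p X Y x y → ¬ H74.Win.InP D p x y → 0 ≤ oT (flS H A B (sd, Y)) (n * Y - sh p) y →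
    arc D p s0 x y = iVs D s0 n H A B (sd, Y)
  ah : ∀ x y, Bx n p X Y x y → ¬ H74.Win.InP D p x y → 0 ≤ oT sd (n * X) x →
    arc D p s0 x y = iHs D s0 n H A B (sd, Y)
  al : ∀ x y, Bx n p X Y x y → ¬ H74.Win.InP D p x y →
    arc D p s0 x y = iVs D s0 n H A B (sd, Y) ∨ arc D p s0 x y = iHs D s0 n H A B (sd, Y)
  ne : iVs D s0 n H A B (sd, Y) ≠ iHs D s0 n H A B (sd, Y)

section

variable (C : Coarse D n H A B)

include C

/-- the rows of the box -/
lemma rowA (h0 : 0 ≤ V) (h1 : V < D.h) (k0 : n * Y - n + 2 ≤ V) (k1 : V < n * Y + n - 2) :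
    (V < n * Y ∧ 0 < Y ∧ (D.a V = n * A (Y - 1) ∨
      (D.a V = n * A (Y - 1) - 1 ∧ Y < H ∧ A Y < A (Y - 1)))) ∨
    (n * Y ≤ V ∧ Y < H ∧ (D.a V = n * A Y ∨ (D.a V = n * A Y - 1 ∧ 0 < Y ∧ A (Y - 1) < A Y))) := by
  have hn := C.hn
  have hn0 := C.pos
  have e1 : n * (Y - 1) = n * Y - n := by ring
  obtain ⟨r0, r1⟩ := C.row h0 h1
  obtain ⟨d1, d2, d3⟩ := dv hn0 V
  by_cases c : V < n * Y
  · left
    have e := dv_eq (X := Y - 1) (x := V) hn0 (by omega) (by omega)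
    have hk := C.a V h0 h1
    rw [e] at hk r0 r1 d3
    rw [sub_add_cancel] at hk
    refine ⟨c, by omega, ?_⟩
    rcases hk with hk | ⟨hk, ⟨k2, k3, k4⟩ | ⟨k2, k3, k4⟩⟩
    · exact Or.inl hk
    · exact Or.inr ⟨hk, k3, k4⟩
    · omega
  · right
    have e := dv_eq (X := Y) (x := V) hn0 (by omega) (by omega)
    have hk := C.a V h0 h1
    rw [e] at hk r0 r1 d3
    refine ⟨by omega, r1, ?_⟩
    rcases hk with hk | ⟨hk, ⟨k2, k3, k4⟩ | ⟨k2, k3, k4⟩⟩
    · exact Or.inl hk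
    · omega
    · exact Or.inr ⟨hk, k3, k4⟩

/-- the rows of the box -/
lemma rowB (h0 : 0 ≤ V) (h1 : V < D.h) (k0 : n * Y - n + 2 ≤ V) (k1 : V < n * Y + n - 2) :
    (V < n * Y ∧ 0 < Y ∧ (D.b V = n * B (Y - 1) ∨
      (D.b V = n * B (Y - 1) + 1 ∧ Y < H ∧ B (Y - 1) < B Y))) ∨
    (n * Y ≤ V ∧ Y < H ∧ (D.b V = n * B Y ∨ (D.b V = n * B Y + 1 ∧ 0 < Y ∧ B Y < B (Y - 1)))) := by
  have hn := C.hn
  have hn0 := C.pos
  have e1 : n * (Y - 1) = n * Y - n := by ring
  obtain ⟨r0, r1⟩ := C.row h0 h1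
  obtain ⟨d1, d2, d3⟩ := dv hn0 V
  by_cases c : V < n * Y
  · left
    have e := dv_eq (X := Y - 1) (x := V) hn0 (by omega) (by omega)
    have hk := C.b V h0 h1
    rw [e] at hk r0 r1 d3
    rw [sub_add_cancel] at hk
    refine ⟨c, by omega, ?_⟩
    rcases hk with hk | ⟨hk, ⟨k2, k3, k4⟩ | ⟨k2, k3, k4⟩⟩
    · exact Or.inl hk
    · exact Or.inr ⟨hk, k3, k4⟩
    · omega
  · right
    have e := dv_eq (X := Y) (x := V) hn0 (by omega) (by omega)
    have hk := C.b V h0 h1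
    rw [e] at hk r0 r1 d3
    refine ⟨by omega, r1, ?_⟩
    rcases hk with hk | ⟨hk, ⟨k2, k3, k4⟩ | ⟨k2, k3, k4⟩⟩
    · exact Or.inl hk
    · omega
    · exact Or.inr ⟨hk, k3, k4⟩

end

section

variable (C : CoarseC D n H A B YP YQ CL CR) (hcut : colp D (s0 - 1) ≠ colp D s0)

include C

/-- the other ends of the rows -/
lemma oth_L (h0 : 0 ≤ Y) (h1 : Y ≤ H) (hX : (Y < H ∧ X ≤ A Y) ∨ (0 < Y ∧ X ≤ A (Y - 1))) :
    (Y < H → n * X + n ≤ n * B Y) ∧ (0 < Y → n * X + n ≤ n * B (Y - 1)) := by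
  have hn0 := C.pos
  have hAB := C.AB
  have h2 : 0 < Y → Y < H → A (Y - 1) < B Y ∧ A Y < B (Y - 1) := fun k0 k1 => by
    have k2 := C.ov1 (Y - 1) (by omega) (by omega)
    have k3 := C.ov2 (Y - 1) (by omega) (by omega)
    rw [sub_add_cancel] at k2 k3
    exact ⟨k2, k3⟩
  constructor
  · intro h3
    refine lt_mul hn0 ?_
    have k4 := hAB Y h0 h3
    rcases hX with ⟨-, h4⟩ | ⟨h4, h5⟩
    · omega
    · have := h2 h4 h3
      omega
  · intro h3
    refine lt_mul hn0 ?_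
    have k4 := hAB (Y - 1) (by omega) (by omega)
    rcases hX with ⟨h4, h5⟩ | ⟨-, h4⟩
    · have := h2 h3 h4
      omega
    · omega

/-- `P^p` in the box: only one end matters -/
lemma inP_L (h0 : 0 ≤ Y) (h1 : Y ≤ H) (hX : (Y < H ∧ X ≤ A Y) ∨ (0 < Y ∧ X ≤ A (Y - 1))) (hB : Bx n p X Y x y) :
    H74.Win.InP D p x y ↔ 0 ≤ y + sh p ∧ y + sh p < D.h ∧ D.a (y + sh p) ≤ x := by
  have ho := oth_L C h0 h1 hX
  obtain ⟨b1, b2, b3, b4⟩ := hB
  unfold H74.Win.InP
  constructor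
  · rintro ⟨h2, h3, h4, h5⟩
    exact ⟨h2, h3, h4⟩
  · rintro ⟨h2, h3, h4⟩
    have k := rowB C.toCoarse h2 h3 b3 b4
    refine ⟨h2, h3, h4, ?_⟩
    rcases k with ⟨k1, k2, k3⟩ | ⟨k1, k2, k3⟩
    · have := ho.2 k2
      omega
    · have := ho.1 k2
      omega

/-- the arcs in the box -/
lemma arcX_L (hcut : colp D (s0 - 1) ≠ colp D s0) (h0 : 0 ≤ Y) (h1 : Y ≤ H) (hX : (Y < H ∧ X ≤ A Y) ∨ (0 < Y ∧ X ≤ A (Y - 1)))
    (hB : Bx n p X Y x y) (hni : ¬ H74.Win.InP D p x y) :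
    (y + sh p < n * Y ∧ arc D p s0 x y = iS D s0 n H true (Y - 1)) ∨
    (n * Y ≤ y + sh p ∧ arc D p s0 x y = iS D s0 n H true Y) ∨
    (y + sh p = n * Y - 1 ∧ n * Y < D.yP ∧ x < D.a (n * Y) ∧
      arc D p s0 x y = iS D s0 n H true Y) ∨
    (y + sh p = n * Y ∧ D.yP ≤ n * Y ∧ x < D.a (n * Y - 1) ∧
      arc D p s0 x y = iS D s0 n H true (Y - 1)) := by
  have hn := C.hn
  have hn0 := C.pos
  have hH := C.HH
  have hD := C.hh
  have hi := inP_L C h0 h1 hX hB
  have ho := oth_L C h0 h1 hX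
  obtain ⟨b1, b2, b3, b4⟩ := hB
  refine arcB_L C hcut h0 h1 b3 b4 (fun h2 h3 => ?_) (fun h2 => ?_) (fun h2 => ?_)
  · by_contra h4
    exact hni (hi.2 ⟨h2, h3, by omega⟩)
  · have hY : Y = 0 := by
      by_contra hc
      have : n * 1 ≤ n * Y := mul_le_mul_of_nonneg_left (by omega) hn0.le
      omega
    subst hY
    have k := rowB C.toCoarse (V := 0) (Y := 0) le_rfl (by have := D.hh; omega) (by omega) (by omega)
    have k2 := ho.1 hH
    omega
  · have hY : Y = H := by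
      by_contra hc
      have : n * Y + n ≤ n * H := lt_mul hn0 (by omega)
      omega
    subst hY
    have k := rowB C.toCoarse (V := D.h - 1) (Y := Y) (by have := D.hh; omega) (by omega) (by omega) (by omega)
    have k2 := ho.2 hH
    omega

omit C in
lemma fl_L (hf : Y < H ∧ (Y = 0 ∨ A Y < A (Y - 1))) : flS H A B (true, Y) = true := by
  unfold flS
  rw [decide_eq_true_eq]
  simp only [if_true]
  rcases hf with ⟨h1, h2 | h2⟩
  · exact Or.inl h2
  · exact Or.inr ⟨h1, h2⟩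

omit C in
lemma ce_L (hf : 0 < Y ∧ (Y = H ∨ A (Y - 1) < A Y)) : flS H A B (true, Y) = false := by
  unfold flS
  rw [decide_eq_false_iff_not]
  simp only [if_true]
  omega

lemma yf_L (h0 : 0 ≤ Y) (hf : Y < H ∧ (Y = 0 ∨ A Y < A (Y - 1))) : n * Y < D.yP := by
  have hn := C.hn
  have hn0 := C.pos
  have hD := C.hh
  have hP0 := D.P0
  rcases hf with ⟨h1, rfl | h2⟩
  · omega
  · have k1 := lt_mul hn0 h1
    have h3 : 0 < Y ∨ Y = 0 := by omega
    rcases h3 with h3 | rfl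
    · have k2 : n * 1 ≤ n * Y := mul_le_mul_of_nonneg_left (by omega) hn0.le
      have k3 := lt_mul hn0 h2
      have r1 := rowA C.toCoarse (V := n * Y) (Y := Y) (by omega) (by omega) (by omega) (by omega)
      have r2 := rowA C.toCoarse (V := n * Y - 1) (Y := Y) (by omega) (by omega) (by omega) (by omega)
      have := floorL (D := D) (Y := n * Y - 1) (by omega) (by omega) (by rw [sub_add_cancel]; omega)
      omega
    · omega

lemma yc_L (h1 : Y ≤ H) (hf : 0 < Y ∧ (Y = H ∨ A (Y - 1) < A Y)) : D.yP ≤ n * Y := by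
  have hn := C.hn
  have hn0 := C.pos
  have hD := C.hh
  have hP1 := D.P1
  rcases hf with ⟨h3, rfl | h2⟩
  · omega
  · have h4 : Y < H ∨ Y = H := by omega
    rcases h4 with h4 | rfl
    · have k1 := lt_mul hn0 h4
      have k2 : n * 1 ≤ n * Y := mul_le_mul_of_nonneg_left (by omega) hn0.le
      have k3 := lt_mul hn0 h2
      have r1 := rowA C.toCoarse (V := n * Y) (Y := Y) (by omega) (by omega) (by omega) (by omega)
      have r2 := rowA C.toCoarse (V := n * Y - 1) (Y := Y) (by omega) (by omega) (by omega) (by omega)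
      have := ceilL (D := D) (Y := n * Y) (by omega) (by omega) (by omega)
      omega
    · omega

/-- **a marked corner**, side L, floor -/
theorem cor_L_fl (hcut : colp D (s0 - 1) ≠ colp D s0) (h0 : 0 ≤ Y) (h1 : Y ≤ H) (hf : Y < H ∧ (Y = 0 ∨ A Y < A (Y - 1)))
    (hXE : X = A Y) (hc : cS D n H true (Y - 1) ≠ cS D n H true Y) : Cor D n H A B p s0 true X Y := by
  have hn := C.hn
  have hn0 := C.pos
  have hD := C.hh
  have hX : (Y < H ∧ X ≤ A Y) ∨ (0 < Y ∧ X ≤ A (Y - 1)) := by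
    exact Or.inl ⟨hf.1, by omega⟩
  have hfl : flS H A B (true, Y) = true := fl_L hf
  have hyy := yf_L C h0 hf
  have eV : yV H A B (true, Y) = Y := by unfold yV; rw [hfl]; exact if_pos rfl
  have eH : yH H A B (true, Y) = Y - 1 := by unfold yH; rw [hfl]; exact if_pos rfl
  have hiV : iVs D s0 n H A B (true, Y) = iS D s0 n H true (Y) := by unfold iVs; rw [eV]
  have hiH : iHs D s0 n H A B (true, Y) = iS D s0 n H true (Y - 1) := by unfold iHs; rw [eH]
  have key : ∀ x y, Bx n p X Y x y → (H74.Win.InP D p x y ↔ n * X ≤ x ∧ n * Y ≤ y + sh p) := by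
    intro x y hB
    rw [inP_L C h0 h1 hX hB]
    obtain ⟨b1, b2, b3, b4⟩ := hB
    have k1 := lt_mul hn0 hf.1
    have k2 : 0 ≤ n * Y := mul_nonneg hn0.le h0
    constructor
    · rintro ⟨h2, h3, h4⟩
      rcases rowA C.toCoarse h2 h3 b3 b4 with ⟨k3, k4, k5⟩ | ⟨k3, k4, k5⟩
      · exfalso
        rcases hf.2 with k6 | k6
        · omega
        · have := lt_mul hn0 k6
          rw [hXE] at *
          omega
      · rw [hXE] at *
        omega
    · rintro ⟨h2, h3⟩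
      refine ⟨by omega, by omega, ?_⟩
      rcases rowA C.toCoarse (V := y + sh p) (by omega) (by omega) b3 b4 with ⟨k3, k4, k5⟩ | ⟨k3, k4, k5⟩
      · omega
      · rw [hXE] at *
        omega
  have tx : ∀ x, 0 ≤ oT true (n * X) x ↔ n * X ≤ x := fun x => by
    unfold oT; rw [if_pos rfl]; omega
  have ty : ∀ y, 0 ≤ oT true (n * Y - sh p) y ↔ n * Y ≤ y + sh p := fun y => by
    unfold oT; rw [if_pos rfl]; omega
  have he : D.a (n * Y) = n * X := by
    have k1 := lt_mul hn0 hf.1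
    have k2 : 0 ≤ n * Y := mul_nonneg hn0.le h0
    rcases rowA C.toCoarse (V := n * Y) (Y := Y) k2 (by omega) (by omega) (by omega) with ⟨k3, k4, k5⟩ | ⟨k3, k4, k5⟩
    · omega
    · rw [hXE]
      omega
  refine ⟨?_, ?_, ?_, ?_, ?_, ?_, ?_⟩
  · unfold GmC
    rw [mem_filter, mem_product, mem_Icc]
    exact ⟨⟨mem_univ _, h0, h1⟩, hc⟩
  · unfold gxS
    rw [eV, hXE]
    unfold eS
    rw [if_pos rfl]
  · intro x y hB
    rw [key x y hB, hfl, tx, ty]
  · intro x y hB hni hy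
    rw [hfl, ty] at hy
    rw [hiV]
    rcases arcX_L C hcut h0 h1 hX hB hni with ⟨k1, k2⟩ | ⟨k1, k2⟩ | ⟨k1, k2, k3, k4⟩ | ⟨k1, k2, k3, k4⟩
    · omega
    · exact k2
    · omega
    · omega
  · intro x y hB hni hx
    rw [tx] at hx
    rw [key x y hB] at hni
    rw [hiH]
    rcases arcX_L C hcut h0 h1 hX hB (by rw [key x y hB]; exact hni) with ⟨k1, k2⟩ | ⟨k1, k2⟩ | ⟨k1, k2, k3, k4⟩ | ⟨k1, k2, k3, k4⟩
    · exact k2
    · omega
    · omega
    · omega
  · intro x y hB hni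
    rw [hiV, hiH]
    rcases arcX_L C hcut h0 h1 hX hB hni with ⟨-, k2⟩ | ⟨-, k2⟩ | ⟨-, -, -, k2⟩ | ⟨-, -, -, k2⟩
    · exact Or.inr k2
    · exact Or.inl k2
    · exact Or.inl k2
    · exact Or.inr k2
  · intro h2
    rw [hiV, hiH] at h2
    have h3 := congrArg (colp D) h2
    rw [colp_iS C, colp_iS C] at h3
    exact hc h3.symm

/-- **a marked corner**, side L, ceiling -/
theorem cor_L_ce (hcut : colp D (s0 - 1) ≠ colp D s0) (h0 : 0 ≤ Y) (h1 : Y ≤ H) (hf : 0 < Y ∧ (Y = H ∨ A (Y - 1) < A Y))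
    (hXE : X = A (Y - 1)) (hc : cS D n H true (Y - 1) ≠ cS D n H true Y) : Cor D n H A B p s0 true X Y := by
  have hn := C.hn
  have hn0 := C.pos
  have hD := C.hh
  have hX : (Y < H ∧ X ≤ A Y) ∨ (0 < Y ∧ X ≤ A (Y - 1)) := by
    exact Or.inr ⟨hf.1, by omega⟩
  have hfl : flS H A B (true, Y) = false := ce_L hf
  have hyy := yc_L C h1 hf
  have eV : yV H A B (true, Y) = Y - 1 := by unfold yV; rw [hfl]; exact if_neg Bool.false_ne_true
  have eH : yH H A B (true, Y) = Y := by unfold yH; rw [hfl]; exact if_neg Bool.false_ne_true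
  have hiV : iVs D s0 n H A B (true, Y) = iS D s0 n H true (Y - 1) := by unfold iVs; rw [eV]
  have hiH : iHs D s0 n H A B (true, Y) = iS D s0 n H true (Y) := by unfold iHs; rw [eH]
  have key : ∀ x y, Bx n p X Y x y → (H74.Win.InP D p x y ↔ n * X ≤ x ∧ y + sh p < n * Y) := by
    intro x y hB
    rw [inP_L C h0 h1 hX hB]
    obtain ⟨b1, b2, b3, b4⟩ := hB
    have k1 : n * (Y - 1) = n * Y - n := by ring
    have k2 : 0 ≤ n * (Y - 1) := mul_nonneg hn0.le (by omega)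
    have k7 : n * Y ≤ n * H := mul_le_mul_of_nonneg_left h1 hn0.le
    constructor
    · rintro ⟨h2, h3, h4⟩
      rcases rowA C.toCoarse h2 h3 b3 b4 with ⟨k3, k4, k5⟩ | ⟨k3, k4, k5⟩
      · rw [hXE] at *
        omega
      · exfalso
        rcases hf.2 with k6 | k6
        · omega
        · have := lt_mul hn0 k6
          rw [hXE] at *
          omega
    · rintro ⟨h2, h3⟩
      refine ⟨by omega, by omega, ?_⟩
      rcases rowA C.toCoarse (V := y + sh p) (by omega) (by omega) b3 b4 with ⟨k3, k4, k5⟩ | ⟨k3, k4, k5⟩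
      · rw [hXE] at *
        omega
      · omega
  have tx : ∀ x, 0 ≤ oT true (n * X) x ↔ n * X ≤ x := fun x => by
    unfold oT; rw [if_pos rfl]; omega
  have ty : ∀ y, 0 ≤ oT false (n * Y - sh p) y ↔ y + sh p < n * Y := fun y => by
    unfold oT; rw [if_neg Bool.false_ne_true]; omega
  have he : D.a (n * Y - 1) = n * X := by
    have k1 : n * (Y - 1) = n * Y - n := by ring
    have k2 : 0 ≤ n * (Y - 1) := mul_nonneg hn0.le (by omega)
    have k7 : n * Y ≤ n * H := mul_le_mul_of_nonneg_left h1 hn0.le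
    rcases rowA C.toCoarse (V := n * Y - 1) (Y := Y) (by omega) (by omega) (by omega) (by omega) with ⟨k3, k4, k5⟩ | ⟨k3, k4, k5⟩
    · rw [hXE]
      omega
    · omega
  refine ⟨?_, ?_, ?_, ?_, ?_, ?_, ?_⟩
  · unfold GmC
    rw [mem_filter, mem_product, mem_Icc]
    exact ⟨⟨mem_univ _, h0, h1⟩, hc⟩
  · unfold gxS
    rw [eV, hXE]
    unfold eS
    rw [if_pos rfl]
  · intro x y hB
    rw [key x y hB, hfl, tx, ty]
  · intro x y hB hni hy
    rw [hfl, ty] at hy
    rw [hiV]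
    rcases arcX_L C hcut h0 h1 hX hB hni with ⟨k1, k2⟩ | ⟨k1, k2⟩ | ⟨k1, k2, k3, k4⟩ | ⟨k1, k2, k3, k4⟩
    · exact k2
    · omega
    · omega
    · omega
  · intro x y hB hni hx
    rw [tx] at hx
    rw [key x y hB] at hni
    rw [hiH]
    rcases arcX_L C hcut h0 h1 hX hB (by rw [key x y hB]; exact hni) with ⟨k1, k2⟩ | ⟨k1, k2⟩ | ⟨k1, k2, k3, k4⟩ | ⟨k1, k2, k3, k4⟩
    · omega
    · exact k2
    · omega
    · omega
  · intro x y hB hni
    rw [hiV, hiH]
    rcases arcX_L C hcut h0 h1 hX hB hni with ⟨-, k2⟩ | ⟨-, k2⟩ | ⟨-, -, -, k2⟩ | ⟨-, -, -, k2⟩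
    · exact Or.inl k2
    · exact Or.inr k2
    · exact Or.inr k2
    · exact Or.inl k2
  · intro h2
    rw [hiV, hiH] at h2
    have h3 := congrArg (colp D) h2
    rw [colp_iS C, colp_iS C] at h3
    exact hc h3

/-- **the box, side L** -/
theorem box_L (hcut : colp D (s0 - 1) ≠ colp D s0) (h0 : 0 ≤ Y) (h1 : Y ≤ H) (hX : (Y < H ∧ X ≤ A Y) ∨ (0 < Y ∧ X ≤ A (Y - 1)))
    (hin : ∃ x y, Bx n p X Y x y ∧ H74.Win.InP D p x y) :
    (∃ j, ∀ x y, Bx n p X Y x y → ¬ H74.Win.InP D p x y → arc D p s0 x y = j) ∨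
    Cor D n H A B p s0 true X Y := by
  have hn := C.hn
  have hn0 := C.pos
  have hD := C.hh
  have hsame : iS D s0 n H true (Y - 1) = iS D s0 n H true Y →
      ∃ j, ∀ x y, Bx n p X Y x y → ¬ H74.Win.InP D p x y → arc D p s0 x y = j := fun he =>
    ⟨iS D s0 n H true Y, fun x y hB hni => by
      rcases arcX_L C hcut h0 h1 hX hB hni with ⟨-, k2⟩ | ⟨-, k2⟩ | ⟨-, -, -, k2⟩ | ⟨-, -, -, k2⟩
      · rw [k2, he]
      · exact k2
      · exact k2
      · rw [k2, he]⟩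
  by_cases hc : cS D n H true (Y - 1) = cS D n H true Y
  · exact Or.inl (hsame (iS_eq C hcut h0 h1 hc))
  obtain ⟨u, v, hB, hP⟩ := hin
  have hP' := (inP_L C h0 h1 hX hB).1 hP
  obtain ⟨b1, b2, b3, b4⟩ := hB
  have hr := rowA C.toCoarse hP'.1 hP'.2.1 b3 b4
  by_cases hf : Y < H ∧ (Y = 0 ∨ A Y < A (Y - 1))
  · have hyy := yf_L C h0 hf
    rcases lt_trichotomy X (A Y) with h2 | h2 | h2
    · exfalso
      have k9 := lt_mul hn0 h2
      rcases hf.2 with k10 | k10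
      · omega
      · have := lt_mul hn0 k10
        omega
    · exact Or.inr (cor_L_fl C hcut h0 h1 hf h2 hc)
    · left
      have k9 := lt_mul hn0 h2
      have k1 := lt_mul hn0 hf.1
      have k2 : 0 ≤ n * Y := mul_nonneg hn0.le h0
      refine ⟨iS D s0 n H true (Y - 1), fun x y hB hni => ?_⟩
      have hi := inP_L C h0 h1 hX hB
      rcases arcX_L C hcut h0 h1 hX hB hni with ⟨-, g2⟩ | ⟨g1, g2⟩ | ⟨g1, g2, g3, g4⟩ | ⟨-, -, -, g2⟩
      · exact g2
      · exfalso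
        obtain ⟨b1, b2, b3, b4⟩ := hB
        refine hni (hi.2 ⟨by omega, by omega, ?_⟩)
        rcases rowA C.toCoarse (V := y + sh p) (by omega) (by omega) b3 b4 with ⟨k3, k4, k5⟩ | ⟨k3, k4, k5⟩ <;> omega
      · exfalso
        obtain ⟨b1, b2, b3, b4⟩ := hB
        rcases rowA C.toCoarse (V := n * Y) (Y := Y) k2 (by omega) (by omega) (by omega) with ⟨k3, k4, k5⟩ | ⟨k3, k4, k5⟩ <;> omega
      · exact g2
  by_cases hf : 0 < Y ∧ (Y = H ∨ A (Y - 1) < A Y)
  · have hyy := yc_L C h1 hf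
    rcases lt_trichotomy X (A (Y - 1)) with h2 | h2 | h2
    · exfalso
      have k9 := lt_mul hn0 h2
      rcases hf.2 with k10 | k10
      · omega
      · have := lt_mul hn0 k10
        omega
    · exact Or.inr (cor_L_ce C hcut h0 h1 hf h2 hc)
    · left
      have k9 := lt_mul hn0 h2
      have k1 : n * (Y - 1) = n * Y - n := by ring
      have k2 : 0 ≤ n * (Y - 1) := mul_nonneg hn0.le (by omega)
      have k7 : n * Y ≤ n * H := mul_le_mul_of_nonneg_left h1 hn0.le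
      refine ⟨iS D s0 n H true Y, fun x y hB hni => ?_⟩
      have hi := inP_L C h0 h1 hX hB
      rcases arcX_L C hcut h0 h1 hX hB hni with ⟨g1, g2⟩ | ⟨-, g2⟩ | ⟨-, -, -, g2⟩ | ⟨g1, g2, g3, g4⟩
      · exfalso
        obtain ⟨b1, b2, b3, b4⟩ := hB
        refine hni (hi.2 ⟨by omega, by omega, ?_⟩)
        rcases rowA C.toCoarse (V := y + sh p) (by omega) (by omega) b3 b4 with ⟨k3, k4, k5⟩ | ⟨k3, k4, k5⟩ <;> omega
      · exact g2
      · exact g2
      · exfalso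
        obtain ⟨b1, b2, b3, b4⟩ := hB
        rcases rowA C.toCoarse (V := n * Y - 1) (Y := Y) (by omega) (by omega) (by omega) (by omega) with ⟨k3, k4, k5⟩ | ⟨k3, k4, k5⟩ <;> omega
  · left
    refine hsame ?_
    have h3 : 0 < Y ∧ Y < H ∧ A (Y - 1) = A Y := by omega
    have h4 := arL_succ C.toCoarse hcut (Y := Y - 1) (by omega) (by omega) (by rw [sub_add_cancel]; exact h3.2.2)
    rw [sub_add_cancel] at h4
    rw [iS_L C hcut (by omega) (by omega), iS_L C hcut (by omega) (by omega), h4]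

/-- the other ends of the rows -/
lemma oth_R (h0 : 0 ≤ Y) (h1 : Y ≤ H) (hX : (Y < H ∧ B Y ≤ X) ∨ (0 < Y ∧ B (Y - 1) ≤ X)) :
    (Y < H → n * A Y + n ≤ n * X) ∧ (0 < Y → n * A (Y - 1) + n ≤ n * X) := by
  have hn0 := C.pos
  have hAB := C.AB
  have h2 : 0 < Y → Y < H → A (Y - 1) < B Y ∧ A Y < B (Y - 1) := fun k0 k1 => by
    have k2 := C.ov1 (Y - 1) (by omega) (by omega)
    have k3 := C.ov2 (Y - 1) (by omega) (by omega)
    rw [sub_add_cancel] at k2 k3
    exact ⟨k2, k3⟩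
  constructor
  · intro h3
    refine lt_mul hn0 ?_
    have k4 := hAB Y h0 h3
    rcases hX with ⟨-, h4⟩ | ⟨h4, h5⟩
    · omega
    · have := h2 h4 h3
      omega
  · intro h3
    refine lt_mul hn0 ?_
    have k4 := hAB (Y - 1) (by omega) (by omega)
    rcases hX with ⟨h4, h5⟩ | ⟨-, h4⟩
    · have := h2 h3 h4
      omega
    · omega

/-- `P^p` in the box: only one end matters -/
lemma inP_R (h0 : 0 ≤ Y) (h1 : Y ≤ H) (hX : (Y < H ∧ B Y ≤ X) ∨ (0 < Y ∧ B (Y - 1) ≤ X)) (hB : Bx n p X Y x y) :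
    H74.Win.InP D p x y ↔ 0 ≤ y + sh p ∧ y + sh p < D.h ∧ x < D.b (y + sh p) := by
  have ho := oth_R C h0 h1 hX
  obtain ⟨b1, b2, b3, b4⟩ := hB
  unfold H74.Win.InP
  constructor
  · rintro ⟨h2, h3, h4, h5⟩
    exact ⟨h2, h3, h5⟩
  · rintro ⟨h2, h3, h4⟩
    have k := rowA C.toCoarse h2 h3 b3 b4
    refine ⟨h2, h3, ?_, h4⟩
    rcases k with ⟨k1, k2, k3⟩ | ⟨k1, k2, k3⟩
    · have := ho.2 k2
      omega
    · have := ho.1 k2
      omega

/-- the arcs in the box -/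
lemma arcX_R (hcut : colp D (s0 - 1) ≠ colp D s0) (h0 : 0 ≤ Y) (h1 : Y ≤ H) (hX : (Y < H ∧ B Y ≤ X) ∨ (0 < Y ∧ B (Y - 1) ≤ X))
    (hB : Bx n p X Y x y) (hni : ¬ H74.Win.InP D p x y) :
    (y + sh p < n * Y ∧ arc D p s0 x y = iS D s0 n H false (Y - 1)) ∨
    (n * Y ≤ y + sh p ∧ arc D p s0 x y = iS D s0 n H false Y) ∨
    (y + sh p = n * Y - 1 ∧ n * Y ≤ D.yQ ∧ D.b (n * Y) ≤ x ∧
      arc D p s0 x y = iS D s0 n H false Y) ∨
    (y + sh p = n * Y ∧ D.yQ < n * Y ∧ D.b (n * Y - 1) ≤ x ∧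
      arc D p s0 x y = iS D s0 n H false (Y - 1)) := by
  have hn := C.hn
  have hn0 := C.pos
  have hH := C.HH
  have hD := C.hh
  have hi := inP_R C h0 h1 hX hB
  have ho := oth_R C h0 h1 hX
  obtain ⟨b1, b2, b3, b4⟩ := hB
  refine arcB_R C hcut h0 h1 b3 b4 (fun h2 h3 => ?_) (fun h2 => ?_) (fun h2 => ?_)
  · by_contra h4
    exact hni (hi.2 ⟨h2, h3, by omega⟩)
  · have hY : Y = 0 := by
      by_contra hc
      have : n * 1 ≤ n * Y := mul_le_mul_of_nonneg_left (by omega) hn0.le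
      omega
    subst hY
    have k := rowA C.toCoarse (V := 0) (Y := 0) le_rfl (by have := D.hh; omega) (by omega) (by omega)
    have k2 := ho.1 hH
    omega
  · have hY : Y = H := by
      by_contra hc
      have : n * Y + n ≤ n * H := lt_mul hn0 (by omega)
      omega
    subst hY
    have k := rowA C.toCoarse (V := D.h - 1) (Y := Y) (by have := D.hh; omega) (by omega) (by omega) (by omega)
    have k2 := ho.2 hH
    omega

omit C in
lemma fl_R (hf : Y < H ∧ (Y = 0 ∨ B (Y - 1) < B Y)) : flS H A B (false, Y) = true := by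
  unfold flS
  rw [decide_eq_true_eq]
  simp only [Bool.false_eq_true, if_false]
  rcases hf with ⟨h1, h2 | h2⟩
  · exact Or.inl h2
  · exact Or.inr ⟨h1, h2⟩

omit C in
lemma ce_R (hf : 0 < Y ∧ (Y = H ∨ B Y < B (Y - 1))) : flS H A B (false, Y) = false := by
  unfold flS
  rw [decide_eq_false_iff_not]
  simp only [Bool.false_eq_true, if_false]
  omega

lemma yf_R (h0 : 0 ≤ Y) (hf : Y < H ∧ (Y = 0 ∨ B (Y - 1) < B Y)) : n * Y ≤ D.yQ := by
  have hn := C.hn
  have hn0 := C.pos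
  have hD := C.hh
  have hQ0 := D.Q0
  rcases hf with ⟨h1, rfl | h2⟩
  · omega
  · have k1 := lt_mul hn0 h1
    have h3 : 0 < Y ∨ Y = 0 := by omega
    rcases h3 with h3 | rfl
    · have k2 : n * 1 ≤ n * Y := mul_le_mul_of_nonneg_left (by omega) hn0.le
      have k3 := lt_mul hn0 h2
      have r1 := rowB C.toCoarse (V := n * Y) (Y := Y) (by omega) (by omega) (by omega) (by omega)
      have r2 := rowB C.toCoarse (V := n * Y - 1) (Y := Y) (by omega) (by omega) (by omega) (by omega)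
      have := floorR (D := D) (Y := n * Y - 1) (by omega) (by rw [sub_add_cancel]; omega)
      omega
    · omega

lemma yc_R (h1 : Y ≤ H) (hf : 0 < Y ∧ (Y = H ∨ B Y < B (Y - 1))) : D.yQ < n * Y := by
  have hn := C.hn
  have hn0 := C.pos
  have hD := C.hh
  have hQ1 := D.Q1
  rcases hf with ⟨h3, rfl | h2⟩
  · omega
  · have h4 : Y < H ∨ Y = H := by omega
    rcases h4 with h4 | rfl
    · have k1 := lt_mul hn0 h4
      have k2 : n * 1 ≤ n * Y := mul_le_mul_of_nonneg_left (by omega) hn0.le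
      have k3 := lt_mul hn0 h2
      have r1 := rowB C.toCoarse (V := n * Y) (Y := Y) (by omega) (by omega) (by omega) (by omega)
      have r2 := rowB C.toCoarse (V := n * Y - 1) (Y := Y) (by omega) (by omega) (by omega) (by omega)
      have := ceilR (D := D) (Y := n * Y) (by omega) (by omega) (by omega)
      omega
    · omega

/-- **a marked corner**, side R, floor -/
theorem cor_R_fl (hcut : colp D (s0 - 1) ≠ colp D s0) (h0 : 0 ≤ Y) (h1 : Y ≤ H) (hf : Y < H ∧ (Y = 0 ∨ B (Y - 1) < B Y))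
    (hXE : X = B Y) (hc : cS D n H false (Y - 1) ≠ cS D n H false Y) : Cor D n H A B p s0 false X Y := by
  have hn := C.hn
  have hn0 := C.pos
  have hD := C.hh
  have hX : (Y < H ∧ B Y ≤ X) ∨ (0 < Y ∧ B (Y - 1) ≤ X) := by
    exact Or.inl ⟨hf.1, by omega⟩
  have hfl : flS H A B (false, Y) = true := fl_R hf
  have hyy := yf_R C h0 hf
  have eV : yV H A B (false, Y) = Y := by unfold yV; rw [hfl]; exact if_pos rfl
  have eH : yH H A B (false, Y) = Y - 1 := by unfold yH; rw [hfl]; exact if_pos rfl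
  have hiV : iVs D s0 n H A B (false, Y) = iS D s0 n H false (Y) := by unfold iVs; rw [eV]
  have hiH : iHs D s0 n H A B (false, Y) = iS D s0 n H false (Y - 1) := by unfold iHs; rw [eH]
  have key : ∀ x y, Bx n p X Y x y → (H74.Win.InP D p x y ↔ x < n * X ∧ n * Y ≤ y + sh p) := by
    intro x y hB
    rw [inP_R C h0 h1 hX hB]
    obtain ⟨b1, b2, b3, b4⟩ := hB
    have k1 := lt_mul hn0 hf.1
    have k2 : 0 ≤ n * Y := mul_nonneg hn0.le h0
    constructor
    · rintro ⟨h2, h3, h4⟩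
      rcases rowB C.toCoarse h2 h3 b3 b4 with ⟨k3, k4, k5⟩ | ⟨k3, k4, k5⟩
      · exfalso
        rcases hf.2 with k6 | k6
        · omega
        · have := lt_mul hn0 k6
          rw [hXE] at *
          omega
      · rw [hXE] at *
        omega
    · rintro ⟨h2, h3⟩
      refine ⟨by omega, by omega, ?_⟩
      rcases rowB C.toCoarse (V := y + sh p) (by omega) (by omega) b3 b4 with ⟨k3, k4, k5⟩ | ⟨k3, k4, k5⟩
      · omega
      · rw [hXE] at *
        omega
  have tx : ∀ x, 0 ≤ oT false (n * X) x ↔ x < n * X := fun x => by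
    unfold oT; rw [if_neg Bool.false_ne_true]; omega
  have ty : ∀ y, 0 ≤ oT true (n * Y - sh p) y ↔ n * Y ≤ y + sh p := fun y => by
    unfold oT; rw [if_pos rfl]; omega
  have he : D.b (n * Y) = n * X := by
    have k1 := lt_mul hn0 hf.1
    have k2 : 0 ≤ n * Y := mul_nonneg hn0.le h0
    rcases rowB C.toCoarse (V := n * Y) (Y := Y) k2 (by omega) (by omega) (by omega) with ⟨k3, k4, k5⟩ | ⟨k3, k4, k5⟩
    · omega
    · rw [hXE]
      omega
  refine ⟨?_, ?_, ?_, ?_, ?_, ?_, ?_⟩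
  · unfold GmC
    rw [mem_filter, mem_product, mem_Icc]
    exact ⟨⟨mem_univ _, h0, h1⟩, hc⟩
  · unfold gxS
    rw [eV, hXE]
    unfold eS
    rw [if_neg Bool.false_ne_true]
  · intro x y hB
    rw [key x y hB, hfl, tx, ty]
  · intro x y hB hni hy
    rw [hfl, ty] at hy
    rw [hiV]
    rcases arcX_R C hcut h0 h1 hX hB hni with ⟨k1, k2⟩ | ⟨k1, k2⟩ | ⟨k1, k2, k3, k4⟩ | ⟨k1, k2, k3, k4⟩
    · omega
    · exact k2
    · omega
    · omega
  · intro x y hB hni hx
    rw [tx] at hx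
    rw [key x y hB] at hni
    rw [hiH]
    rcases arcX_R C hcut h0 h1 hX hB (by rw [key x y hB]; exact hni) with ⟨k1, k2⟩ | ⟨k1, k2⟩ | ⟨k1, k2, k3, k4⟩ | ⟨k1, k2, k3, k4⟩
    · exact k2
    · omega
    · omega
    · omega
  · intro x y hB hni
    rw [hiV, hiH]
    rcases arcX_R C hcut h0 h1 hX hB hni with ⟨-, k2⟩ | ⟨-, k2⟩ | ⟨-, -, -, k2⟩ | ⟨-, -, -, k2⟩
    · exact Or.inr k2
    · exact Or.inl k2
    · exact Or.inl k2
    · exact Or.inr k2
  · intro h2
    rw [hiV, hiH] at h2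
    have h3 := congrArg (colp D) h2
    rw [colp_iS C, colp_iS C] at h3
    exact hc h3.symm

/-- **a marked corner**, side R, ceiling -/
theorem cor_R_ce (hcut : colp D (s0 - 1) ≠ colp D s0) (h0 : 0 ≤ Y) (h1 : Y ≤ H) (hf : 0 < Y ∧ (Y = H ∨ B Y < B (Y - 1)))
    (hXE : X = B (Y - 1)) (hc : cS D n H false (Y - 1) ≠ cS D n H false Y) : Cor D n H A B p s0 false X Y := by
  have hn := C.hn
  have hn0 := C.pos
  have hD := C.hh
  have hX : (Y < H ∧ B Y ≤ X) ∨ (0 < Y ∧ B (Y - 1) ≤ X) := by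
    exact Or.inr ⟨hf.1, by omega⟩
  have hfl : flS H A B (false, Y) = false := ce_R hf
  have hyy := yc_R C h1 hf
  have eV : yV H A B (false, Y) = Y - 1 := by unfold yV; rw [hfl]; exact if_neg Bool.false_ne_true
  have eH : yH H A B (false, Y) = Y := by unfold yH; rw [hfl]; exact if_neg Bool.false_ne_true
  have hiV : iVs D s0 n H A B (false, Y) = iS D s0 n H false (Y - 1) := by unfold iVs; rw [eV]
  have hiH : iHs D s0 n H A B (false, Y) = iS D s0 n H false (Y) := by unfold iHs; rw [eH]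
  have key : ∀ x y, Bx n p X Y x y → (H74.Win.InP D p x y ↔ x < n * X ∧ y + sh p < n * Y) := by
    intro x y hB
    rw [inP_R C h0 h1 hX hB]
    obtain ⟨b1, b2, b3, b4⟩ := hB
    have k1 : n * (Y - 1) = n * Y - n := by ring
    have k2 : 0 ≤ n * (Y - 1) := mul_nonneg hn0.le (by omega)
    have k7 : n * Y ≤ n * H := mul_le_mul_of_nonneg_left h1 hn0.le
    constructor
    · rintro ⟨h2, h3, h4⟩
      rcases rowB C.toCoarse h2 h3 b3 b4 with ⟨k3, k4, k5⟩ | ⟨k3, k4, k5⟩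
      · rw [hXE] at *
        omega
      · exfalso
        rcases hf.2 with k6 | k6
        · omega
        · have := lt_mul hn0 k6
          rw [hXE] at *
          omega
    · rintro ⟨h2, h3⟩
      refine ⟨by omega, by omega, ?_⟩
      rcases rowB C.toCoarse (V := y + sh p) (by omega) (by omega) b3 b4 with ⟨k3, k4, k5⟩ | ⟨k3, k4, k5⟩
      · rw [hXE] at *
        omega
      · omega
  have tx : ∀ x, 0 ≤ oT false (n * X) x ↔ x < n * X := fun x => by
    unfold oT; rw [if_neg Bool.false_ne_true]; omega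
  have ty : ∀ y, 0 ≤ oT false (n * Y - sh p) y ↔ y + sh p < n * Y := fun y => by
    unfold oT; rw [if_neg Bool.false_ne_true]; omega
  have he : D.b (n * Y - 1) = n * X := by
    have k1 : n * (Y - 1) = n * Y - n := by ring
    have k2 : 0 ≤ n * (Y - 1) := mul_nonneg hn0.le (by omega)
    have k7 : n * Y ≤ n * H := mul_le_mul_of_nonneg_left h1 hn0.le
    rcases rowB C.toCoarse (V := n * Y - 1) (Y := Y) (by omega) (by omega) (by omega) (by omega) with ⟨k3, k4, k5⟩ | ⟨k3, k4, k5⟩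
    · rw [hXE]
      omega
    · omega
  refine ⟨?_, ?_, ?_, ?_, ?_, ?_, ?_⟩
  · unfold GmC
    rw [mem_filter, mem_product, mem_Icc]
    exact ⟨⟨mem_univ _, h0, h1⟩, hc⟩
  · unfold gxS
    rw [eV, hXE]
    unfold eS
    rw [if_neg Bool.false_ne_true]
  · intro x y hB
    rw [key x y hB, hfl, tx, ty]
  · intro x y hB hni hy
    rw [hfl, ty] at hy
    rw [hiV]
    rcases arcX_R C hcut h0 h1 hX hB hni with ⟨k1, k2⟩ | ⟨k1, k2⟩ | ⟨k1, k2, k3, k4⟩ | ⟨k1, k2, k3, k4⟩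
    · exact k2
    · omega
    · omega
    · omega
  · intro x y hB hni hx
    rw [tx] at hx
    rw [key x y hB] at hni
    rw [hiH]
    rcases arcX_R C hcut h0 h1 hX hB (by rw [key x y hB]; exact hni) with ⟨k1, k2⟩ | ⟨k1, k2⟩ | ⟨k1, k2, k3, k4⟩ | ⟨k1, k2, k3, k4⟩
    · omega
    · exact k2
    · omega
    · omega
  · intro x y hB hni
    rw [hiV, hiH]
    rcases arcX_R C hcut h0 h1 hX hB hni with ⟨-, k2⟩ | ⟨-, k2⟩ | ⟨-, -, -, k2⟩ | ⟨-, -, -, k2⟩
    · exact Or.inl k2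
    · exact Or.inr k2
    · exact Or.inr k2
    · exact Or.inl k2
  · intro h2
    rw [hiV, hiH] at h2
    have h3 := congrArg (colp D) h2
    rw [colp_iS C, colp_iS C] at h3
    exact hc h3

/-- **the box, side R** -/
theorem box_R (hcut : colp D (s0 - 1) ≠ colp D s0) (h0 : 0 ≤ Y) (h1 : Y ≤ H) (hX : (Y < H ∧ B Y ≤ X) ∨ (0 < Y ∧ B (Y - 1) ≤ X))
    (hin : ∃ x y, Bx n p X Y x y ∧ H74.Win.InP D p x y) :
    (∃ j, ∀ x y, Bx n p X Y x y → ¬ H74.Win.InP D p x y → arc D p s0 x y = j) ∨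
    Cor D n H A B p s0 false X Y := by
  have hn := C.hn
  have hn0 := C.pos
  have hD := C.hh
  have hsame : iS D s0 n H false (Y - 1) = iS D s0 n H false Y →
      ∃ j, ∀ x y, Bx n p X Y x y → ¬ H74.Win.InP D p x y → arc D p s0 x y = j := fun he =>
    ⟨iS D s0 n H false Y, fun x y hB hni => by
      rcases arcX_R C hcut h0 h1 hX hB hni with ⟨-, k2⟩ | ⟨-, k2⟩ | ⟨-, -, -, k2⟩ | ⟨-, -, -, k2⟩
      · rw [k2, he]
      · exact k2
      · exact k2
      · rw [k2, he]⟩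
  by_cases hc : cS D n H false (Y - 1) = cS D n H false Y
  · exact Or.inl (hsame (iS_eq C hcut h0 h1 hc))
  obtain ⟨u, v, hB, hP⟩ := hin
  have hP' := (inP_R C h0 h1 hX hB).1 hP
  obtain ⟨b1, b2, b3, b4⟩ := hB
  have hr := rowB C.toCoarse hP'.1 hP'.2.1 b3 b4
  by_cases hf : Y < H ∧ (Y = 0 ∨ B (Y - 1) < B Y)
  · have hyy := yf_R C h0 hf
    rcases lt_trichotomy X (B Y) with h2 | h2 | h2
    · left
      have k9 := lt_mul hn0 h2
      have k1 := lt_mul hn0 hf.1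
      have k2 : 0 ≤ n * Y := mul_nonneg hn0.le h0
      refine ⟨iS D s0 n H false (Y - 1), fun x y hB hni => ?_⟩
      have hi := inP_R C h0 h1 hX hB
      rcases arcX_R C hcut h0 h1 hX hB hni with ⟨-, g2⟩ | ⟨g1, g2⟩ | ⟨g1, g2, g3, g4⟩ | ⟨-, -, -, g2⟩
      · exact g2
      · exfalso
        obtain ⟨b1, b2, b3, b4⟩ := hB
        refine hni (hi.2 ⟨by omega, by omega, ?_⟩)
        rcases rowB C.toCoarse (V := y + sh p) (by omega) (by omega) b3 b4 with ⟨k3, k4, k5⟩ | ⟨k3, k4, k5⟩ <;> omega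
      · exfalso
        obtain ⟨b1, b2, b3, b4⟩ := hB
        rcases rowB C.toCoarse (V := n * Y) (Y := Y) k2 (by omega) (by omega) (by omega) with ⟨k3, k4, k5⟩ | ⟨k3, k4, k5⟩ <;> omega
      · exact g2
    · exact Or.inr (cor_R_fl C hcut h0 h1 hf h2 hc)
    · exfalso
      have k9 := lt_mul hn0 h2
      rcases hf.2 with k10 | k10
      · omega
      · have := lt_mul hn0 k10
        omega
  by_cases hf : 0 < Y ∧ (Y = H ∨ B Y < B (Y - 1))
  · have hyy := yc_R C h1 hf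
    rcases lt_trichotomy X (B (Y - 1)) with h2 | h2 | h2
    · left
      have k9 := lt_mul hn0 h2
      have k1 : n * (Y - 1) = n * Y - n := by ring
      have k2 : 0 ≤ n * (Y - 1) := mul_nonneg hn0.le (by omega)
      have k7 : n * Y ≤ n * H := mul_le_mul_of_nonneg_left h1 hn0.le
      refine ⟨iS D s0 n H false Y, fun x y hB hni => ?_⟩
      have hi := inP_R C h0 h1 hX hB
      rcases arcX_R C hcut h0 h1 hX hB hni with ⟨g1, g2⟩ | ⟨-, g2⟩ | ⟨-, -, -, g2⟩ | ⟨g1, g2, g3, g4⟩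
      · exfalso
        obtain ⟨b1, b2, b3, b4⟩ := hB
        refine hni (hi.2 ⟨by omega, by omega, ?_⟩)
        rcases rowB C.toCoarse (V := y + sh p) (by omega) (by omega) b3 b4 with ⟨k3, k4, k5⟩ | ⟨k3, k4, k5⟩ <;> omega
      · exact g2
      · exact g2
      · exfalso
        obtain ⟨b1, b2, b3, b4⟩ := hB
        rcases rowB C.toCoarse (V := n * Y - 1) (Y := Y) (by omega) (by omega) (by omega) (by omega) with ⟨k3, k4, k5⟩ | ⟨k3, k4, k5⟩ <;> omega
    · exact Or.inr (cor_R_ce C hcut h0 h1 hf h2 hc)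
    · exfalso
      have k9 := lt_mul hn0 h2
      rcases hf.2 with k10 | k10
      · omega
      · have := lt_mul hn0 k10
        omega
  · left
    refine hsame ?_
    have h3 : 0 < Y ∧ Y < H ∧ B (Y - 1) = B Y := by omega
    have h4 := arR_succ C.toCoarse hcut (Y := Y - 1) (by omega) (by omega) (by rw [sub_add_cancel]; exact h3.2.2)
    rw [sub_add_cancel] at h4
    rw [iS_R C hcut (by omega) (by omega), iS_R C hcut (by omega) (by omega), h4]

/-- **The tiles around a lattice point.** -/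
theorem box_cases (hcut : colp D (s0 - 1) ≠ colp D s0) (hin : ∃ x y, Bx n p X Y x y ∧ H74.Win.InP D p x y) :
    (∃ j, ∀ x y, Bx n p X Y x y → ¬ H74.Win.InP D p x y → arc D p s0 x y = j) ∨
    ∃ sd, Cor D n H A B p s0 sd X Y := by
  have hn := C.hn
  have hn0 := C.pos
  have hD := C.hh
  have hH := C.HH
  have hs := sh_nonneg p
  obtain ⟨u, v, hB, hP⟩ := id hin
  have h0 : 0 ≤ Y := by
    by_contra hc
    have : n * Y ≤ n * (-1) := mul_le_mul_of_nonneg_left (by omega) hn0.le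
    obtain ⟨b1, b2, b3, b4⟩ := hB
    obtain ⟨h2, h3, -⟩ := hP
    omega
  have h1 : Y ≤ H := by
    by_contra hc
    have := lt_mul hn0 (show H < Y by omega)
    obtain ⟨b1, b2, b3, b4⟩ := hB
    obtain ⟨h2, h3, -⟩ := hP
    omega
  by_cases cL : (Y < H ∧ X ≤ A Y) ∨ (0 < Y ∧ X ≤ A (Y - 1))
  · rcases box_L C hcut h0 h1 cL hin with h | h
    · exact Or.inl h
    · exact Or.inr ⟨_, h⟩
  by_cases cR : (Y < H ∧ B Y ≤ X) ∨ (0 < Y ∧ B (Y - 1) ≤ X)
  · rcases box_R C hcut h0 h1 cR hin with h | h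
    · exact Or.inl h
    · exact Or.inr ⟨_, h⟩
  left
  have k1 : Y < H → n * A Y + n ≤ n * X ∧ n * X + n ≤ n * B Y := fun h =>
    ⟨lt_mul hn0 (by omega), lt_mul hn0 (by omega)⟩
  have k2 : 0 < Y → n * A (Y - 1) + n ≤ n * X ∧ n * X + n ≤ n * B (Y - 1) := fun h =>
    ⟨lt_mul hn0 (by omega), lt_mul hn0 (by omega)⟩
  have hrow : ∀ x y, Bx n p X Y x y → ¬ H74.Win.InP D p x y → y + sh p < 0 ∨ D.h ≤ y + sh p := by
    intro x y hB hni
    obtain ⟨b1, b2, b3, b4⟩ := hB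
    by_contra hc
    push Not at hc
    refine hni ⟨hc.1, hc.2, ?_, ?_⟩
    · rcases rowA C.toCoarse hc.1 hc.2 b3 b4 with ⟨k3, k4, k5⟩ | ⟨k3, k4, k5⟩
      · have := k2 k4; omega
      · have := k1 k4; omega
    · rcases rowB C.toCoarse hc.1 hc.2 b3 b4 with ⟨k3, k4, k5⟩ | ⟨k3, k4, k5⟩
      · have := k2 k4; omega
      · have := k1 k4; omega
  by_cases c0 : Y = 0
  · subst c0
    refine ⟨rep D s0 0, fun x y hB hni => ?_⟩
    have hr := hrow x y hB hni
    obtain ⟨b1, b2, b3, b4⟩ := hB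
    have q1 := k1 hH
    have q2 := lt_mul hn0 hH
    have q3 := rowA C.toCoarse (V := 0) (Y := 0) le_rfl (by omega) (by omega) (by omega)
    have q4 := rowB C.toCoarse (V := 0) (Y := 0) le_rfl (by omega) (by omega) (by omega)
    rcases arc_below C hcut (p := p) (x := x) (y := y) (by omega) with h2 | ⟨h2, h3, h4⟩ | ⟨h2, h3, h4⟩
    · exact h2
    · omega
    · omega
  by_cases c1 : Y = H
  · subst c1
    refine ⟨rep D s0 (D.h + 2), fun x y hB hni => ?_⟩
    have hr := hrow x y hB hni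
    obtain ⟨b1, b2, b3, b4⟩ := hB
    have q1 := k2 hH
    have q2 := lt_mul hn0 hH
    have q3 := rowA C.toCoarse (V := D.h - 1) (Y := Y) (by omega) (by omega) (by omega) (by omega)
    have q4 := rowB C.toCoarse (V := D.h - 1) (Y := Y) (by omega) (by omega) (by omega) (by omega)
    rcases arc_above C hcut (p := p) (x := x) (y := y) (by omega) with h2 | ⟨h2, h3, h4⟩ | ⟨h2, h3, h4⟩
    · exact h2
    · omega
    · omega
  · refine ⟨0, fun x y hB hni => ?_⟩
    exfalso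
    have hr := hrow x y hB hni
    obtain ⟨b1, b2, b3, b4⟩ := hB
    have q2 := lt_mul hn0 (show 0 < Y by omega)
    have q3 := lt_mul hn0 (show Y < H by omega)
    omega

end

end Pool.Agent.H46.Sp.CG
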