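import Mathlib
import Pool.Agent.H46.Sp.RingC

set_option autoImplicit false
open Finset

/-! # Pockets and diagonal tiles of the ring

A pocket is a tile outside of `P^p` with two perpendicular edge neighbours in `P^p` (`LF` : to the right and
above, `LC` : to the right and below, `RF`, `RC` : to the left). `quad` : the quadrant behind it is outside.
`par` : parity and colour. `pocket` : a pocket is not an exit of the layer of its arc, if the frozen tiles off the
line have natural states. `quadD` : the quadrant behind a diagonal tile. -/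

namespace Pool.Agent.H46.Sp.CG

open Pool.Agent.H75.Perc Pool.Agent.H75.TwoArm Pool.Agent.Q1 Pool.Agent.H33.Q1
open Pool.Agent.H69.Q1
open Pool.Agent.H46.Sp Pool.Agent.H46.Sp.Win
open Pool.Agent.H31.Sp (lyL lyR lyF lyC LL LR LF LC)
open Pool.Agent.H74.Win Pool.Agent.H42.Sp
open Pool.Agent.H13.Sp
open Pool.Agent.H13.R45 (ev gp ev_true ev_false Tg)
open Pool.Agent.H39.Q1 (TF mem_TF av)
open Pool.Agent.H40.Sp (NatPl NatS)

variable {D : Win} {p : Bool} {x y u v s0 L i : ℤ} {s : Sd} {g : ℤ × ℤ} {O : OutB D} {S : Finset (ℤ × ℤ)}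

/-- the quadrant behind a pocket -/
lemma quad_LF (h0 : ¬ InP D p x y) (h1 : InP D p (x + 1) y) (h2 : InP D p x (y + 1)) (hu : u ≤ x) (hv : v ≤ y) :
    ¬ InP D p u v := by
  intro h3
  have hP1 := D.P1
  have hQ0 := D.Q0
  rw [inP_row] at h0 h1 h2 h3
  rw [show y + 1 + sh p = y + sh p + 1 by ring] at h2
  set V := y + sh p with hV
  set W := v + sh p with hW
  have h4 := floorL (D := D) (Y := V) (by omega) (by omega) (by omega)
  have h5 := a_anti (D := D) (y := W) (z := V) (by omega) (by omega) (by omega)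
  omega

/-- the quadrant behind a diagonal tile -/
lemma quadD_LF (h0 : ¬ InP D p x (y + 1)) (h1 : ¬ InP D p (x + 1) y) (h2 : InP D p (x + 1) (y + 1)) (hu : u ≤ x) (hv : v ≤ y) :
    ¬ InP D p u v := by
  intro h3
  have hP0 := D.P0
  have hP1 := D.P1
  have hQ0 := D.Q0
  have hQ1 := D.Q1
  rw [inP_row] at h0 h1 h2 h3
  rw [show y + 1 + sh p = y + sh p + 1 by ring] at h0 h2
  set V := y + sh p with hV
  set W := v + sh p with hW
  have hV0 : 0 ≤ V := by omega
  have h6 := D.ov2 V hV0 (by omega)
  have h4 := floorL (D := D) (Y := V) (by omega) (by omega) (by omega)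
  have h5 := a_anti (D := D) (y := W) (z := V) (by omega) (by omega) (by omega)
  omega

/-- parity and colour of a pocket -/
lemma par_LF_f (h0 : ¬ InP D false x y) (h1 : InP D false (x + 1) y) (h2 : InP D false x (y + 1)) :
    (x + y) % 2 = 0 ↔ natc D false x y = true := by
  have hP0 := D.P0
  have hP1 := D.P1
  have hQ0 := D.Q0
  have hQ1 := D.Q1
  rw [inP_row] at h0 h1 h2
  rw [sh_false] at h0 h1 h2
  simp only [add_zero] at h0 h1 h2
  have h4 := floorL (D := D) (Y := y) (by omega) (by omega) (by omega)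
  have e1 : mm D.a D.yP y = D.a (y + 1) := by unfold mm; rw [if_pos h4]
  have e2 : mm D.a D.yP (y - 1) = D.a y := by unfold mm; rw [sub_add_cancel, if_pos (by omega)]
  have e3 := b_le_M (D := D) (y := y) (by omega)
  have e4 : D.m y = D.a (y + 1) := e1
  have k := D.pll (y - 1) (by omega) (by omega) (by rw [sub_add_cancel, e1, e2]; omega)
  have hc : natc D false x y = D.cl (y - 1) := by
    unfold natc
    rw [if_neg (by omega), if_neg (by omega), if_neg (by omega), if_neg (by omega),
      if_neg Bool.false_ne_true, if_neg (by omega), if_pos (by omega)]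
  rw [hc, ← k, e2]
  omega

/-- parity and colour of a pocket -/
lemma par_LF_t (h0 : ¬ InP D true x y) (h1 : InP D true (x + 1) y) (h2 : InP D true x (y + 1)) :
    (x + y) % 2 = 1 ↔ natc D true x y = true := by
  have hP0 := D.P0
  have hP1 := D.P1
  have hQ0 := D.Q0
  have hQ1 := D.Q1
  rw [inP_row] at h0 h1 h2
  rw [sh_true] at h0 h1 h2
  rw [show y + 1 + 1 = y + 2 by ring] at h2
  have h4 := floorL (D := D) (Y := y + 1) (by omega) (by rw [show y + 1 + 1 = y + 2 by ring]; omega)
    (by rw [show y + 1 + 1 = y + 2 by ring]; omega)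
  have e1 : mm D.a D.yP y = D.a (y + 1) := by unfold mm; rw [if_pos (by omega)]
  have e2 : mm D.a D.yP (y + 1) = D.a (y + 2) := by
    unfold mm; rw [show y + 1 + 1 = y + 2 by ring, if_pos (by omega)]
  have e4 : D.m y = D.a (y + 1) := e1
  have k := D.pll y (by omega) (by omega) (by rw [e1, e2]; omega)
  have hc : natc D true x y = D.cl y := by
    unfold natc
    rw [if_neg (by omega), if_neg (by omega), if_pos (by omega)]
  rw [hc, ← k, e1]
  omega

/-- a pocket is frozen -/
lemma fr_LF (h0 : ¬ InP D p x y) (h1 : InP D p (x + 1) y) (h2 : InP D p x (y + 1)) : FRt D p x y := by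
  refine fr_of_not_ly (near_of h1 (by omega) (by omega) (by omega) (by omega)) h0 fun s hs => ?_
  cases s
  · exact (lyL.2 hs).2.2.1 h2
  · exact quad_LF h0 h1 h2 (by omega) (by omega) (lyR.2 hs).1
  · exact (lyF.2 hs).2.2.1 h1
  · exact quad_LF h0 h1 h2 (by omega) (by omega) (lyC.2 hs).1

/-- the neighbour of a pocket along the horizontal wall, away from the corner, is frozen -/
lemma fr1_LF (h0 : ¬ InP D p x y) (h1 : InP D p (x + 1) y) (h2 : InP D p x (y + 1))
    (hc : (x + y) % 2 = 1 ↔ natc D p (x - 1) y = true) : FRt D p (x - 1) y := by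
  refine fr_of (near_of h2 (by omega) (by omega) (by omega) (by omega))
    (quad_LF h0 h1 h2 (by omega) (by omega)) fun k h3 h4 => ?_
  have h5 : LyA D p k.1 (x - 1) y := by
    rcases h4 with h4 | h4
    · have := h3.kt_ly; rwa [h4] at this
    · have := h3.rt_ly; rwa [h4] at this
  obtain ⟨s, a, b⟩ := k
  cases s
  · exact quad_LF h0 h1 h2 (by omega) (by omega) (lyL.2 h5).1
  · exact quad_LF h0 h1 h2 (by omega) (by omega) (lyR.2 h5).1
  · obtain ⟨h6, h7, h8⟩ := h3
    obtain ⟨h9, rfl⟩ := tp_F h4
    rcases h9 with rfl | rfl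
    · have h10 := h8.1
      rw [← hc] at h10
      omega
    · rw [sub_add_cancel] at h7
      exact (lyF.2 h7).2.2.1 h1
  · exact quad_LF h0 h1 h2 (by omega) (by omega) (lyC.2 h5).1

/-- the neighbour of a pocket along the vertical wall, away from the corner, is frozen -/
lemma fr2_LF (h0 : ¬ InP D p x y) (h1 : InP D p (x + 1) y) (h2 : InP D p x (y + 1))
    (hc : (x + y) % 2 = 1 ↔ natc D p x (y - 1) = true) : FRt D p x (y - 1) := by
  refine fr_of (near_of h1 (by omega) (by omega) (by omega) (by omega))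
    (quad_LF h0 h1 h2 (by omega) (by omega)) fun k h3 h4 => ?_
  have h5 : LyA D p k.1 x (y - 1) := by
    rcases h4 with h4 | h4
    · have := h3.kt_ly; rwa [h4] at this
    · have := h3.rt_ly; rwa [h4] at this
  obtain ⟨s, a, b⟩ := k
  cases s
  · obtain ⟨h6, h7, h8⟩ := h3
    obtain ⟨rfl, h9⟩ := tp_L h4
    rcases h9 with rfl | rfl
    · have h10 := h8.1
      rw [← hc] at h10
      omega
    · rw [sub_add_cancel] at h7
      exact (lyL.2 h7).2.2.1 h2
  · exact quad_LF h0 h1 h2 (by omega) (by omega) (lyR.2 h5).1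
  · exact quad_LF h0 h1 h2 (by omega) (by omega) (lyF.2 h5).1
  · exact quad_LF h0 h1 h2 (by omega) (by omega) (lyC.2 h5).1

/-- the quadrant behind a pocket -/
lemma quad_LC (h0 : ¬ InP D p x y) (h1 : InP D p (x + 1) y) (h2 : InP D p x (y - 1)) (hu : u ≤ x) (hv : y ≤ v) :
    ¬ InP D p u v := by
  intro h3
  have hP1 := D.P1
  have hQ0 := D.Q0
  rw [inP_row] at h0 h1 h2 h3
  rw [show y - 1 + sh p = y + sh p - 1 by ring] at h2
  set V := y + sh p with hV
  set W := v + sh p with hW
  have h4 := ceilL (D := D) (Y := V) (by omega) (by omega) (by omega)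
  have h5 := a_mono (D := D) (y := V) (z := W) (by omega) (by omega) (by omega)
  omega

/-- the quadrant behind a diagonal tile -/
lemma quadD_LC (h0 : ¬ InP D p x (y - 1)) (h1 : ¬ InP D p (x + 1) y) (h2 : InP D p (x + 1) (y - 1)) (hu : u ≤ x) (hv : y ≤ v) :
    ¬ InP D p u v := by
  intro h3
  have hP0 := D.P0
  have hP1 := D.P1
  have hQ0 := D.Q0
  have hQ1 := D.Q1
  rw [inP_row] at h0 h1 h2 h3
  rw [show y - 1 + sh p = y + sh p - 1 by ring] at h0 h2
  set V := y + sh p with hV
  set W := v + sh p with hW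
  have hV0 : V < D.h := by omega
  have h6 := D.ov1 (V - 1) (by omega) (by omega)
  rw [sub_add_cancel] at h6
  have h4 := ceilL (D := D) (Y := V) (by omega) (by omega) (by omega)
  have h5 := a_mono (D := D) (y := V) (z := W) (by omega) (by omega) (by omega)
  omega

/-- parity and colour of a pocket -/
lemma par_LC_f (h0 : ¬ InP D false x y) (h1 : InP D false (x + 1) y) (h2 : InP D false x (y - 1)) :
    (x + y) % 2 = 0 ↔ natc D false x y = true := by
  have hP0 := D.P0
  have hP1 := D.P1
  have hQ0 := D.Q0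
  have hQ1 := D.Q1
  rw [inP_row] at h0 h1 h2
  rw [sh_false] at h0 h1 h2
  simp only [add_zero] at h0 h1 h2
  have h4 := ceilL (D := D) (Y := y) (by omega) (by omega) (by omega)
  have e1 : mm D.a D.yP y = D.a y := by unfold mm; rw [if_neg (by omega)]
  have e2 : mm D.a D.yP (y - 1) = D.a (y - 1) := by unfold mm; rw [sub_add_cancel, if_neg (by omega)]
  have e4 : D.m y = D.a y := e1
  have k := D.pul (y - 1) (by omega) (by omega) (by rw [sub_add_cancel, e1, e2]; omega)
  rw [sub_add_cancel] at k
  have hc : natc D false x y = D.cl y := by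
    unfold natc
    rw [if_neg (by omega), if_neg (by omega), if_pos (by omega)]
  rw [hc, ← k, e1]
  omega

/-- parity and colour of a pocket -/
lemma par_LC_t (h0 : ¬ InP D true x y) (h1 : InP D true (x + 1) y) (h2 : InP D true x (y - 1)) :
    (x + y) % 2 = 1 ↔ natc D true x y = true := by
  have hP0 := D.P0
  have hP1 := D.P1
  have hQ0 := D.Q0
  have hQ1 := D.Q1
  rw [inP_row] at h0 h1 h2
  rw [sh_true] at h0 h1 h2
  rw [show y - 1 + 1 = y by ring] at h2
  have h4 := ceilL (D := D) (Y := y + 1) (by omega) (by omega) (by rw [add_sub_cancel_right]; omega)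
  have e1 : mm D.a D.yP y = D.a y := by unfold mm; rw [if_neg (by omega)]
  have e2 : mm D.a D.yP (y + 1) = D.a (y + 1) := by unfold mm; rw [if_neg (by omega)]
  have e3 := b_le_M' (D := D) (y := y) (by omega)
  have e4 : D.m y = D.a y := e1
  have k := D.pul y (by omega) (by omega) (by rw [e1, e2]; omega)
  have hc : natc D true x y = D.cl (y + 1) := by
    unfold natc
    rw [if_neg (by omega), if_neg (by omega), if_neg (by omega), if_neg (by omega), if_pos rfl,
      if_neg (by omega), if_pos (by omega)]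
  rw [hc, ← k, e2]
  omega

/-- a pocket is frozen -/
lemma fr_LC (h0 : ¬ InP D p x y) (h1 : InP D p (x + 1) y) (h2 : InP D p x (y - 1)) : FRt D p x y := by
  refine fr_of_not_ly (near_of h1 (by omega) (by omega) (by omega) (by omega)) h0 fun s hs => ?_
  cases s
  · exact (lyL.2 hs).2.2.2 h2
  · exact quad_LC h0 h1 h2 (by omega) (by omega) (lyR.2 hs).1
  · exact quad_LC h0 h1 h2 (by omega) (by omega) (lyF.2 hs).1
  · exact (lyC.2 hs).2.2.1 h1

/-- the neighbour of a pocket along the horizontal wall, away from the corner, is frozen -/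
lemma fr1_LC (h0 : ¬ InP D p x y) (h1 : InP D p (x + 1) y) (h2 : InP D p x (y - 1))
    (hc : (x + y) % 2 = 0 ↔ natc D p (x - 1) y = true) : FRt D p (x - 1) y := by
  refine fr_of (near_of h2 (by omega) (by omega) (by omega) (by omega))
    (quad_LC h0 h1 h2 (by omega) (by omega)) fun k h3 h4 => ?_
  have h5 : LyA D p k.1 (x - 1) y := by
    rcases h4 with h4 | h4
    · have := h3.kt_ly; rwa [h4] at this
    · have := h3.rt_ly; rwa [h4] at this
  obtain ⟨s, a, b⟩ := k
  cases s
  · exact quad_LC h0 h1 h2 (by omega) (by omega) (lyL.2 h5).1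
  · exact quad_LC h0 h1 h2 (by omega) (by omega) (lyR.2 h5).1
  · exact quad_LC h0 h1 h2 (by omega) (by omega) (lyF.2 h5).1
  · obtain ⟨h6, h7, h8⟩ := h3
    obtain ⟨h9, rfl⟩ := tp_C h4
    rcases h9 with rfl | rfl
    · have h10 := h8.2.2.1
      simp only [add_sub_cancel_right] at h10
      rw [← hc] at h10
      omega
    · rw [sub_add_cancel, add_sub_cancel_right] at h7
      exact (lyC.2 h7).2.2.1 h1

/-- the neighbour of a pocket along the vertical wall, away from the corner, is frozen -/
lemma fr2_LC (h0 : ¬ InP D p x y) (h1 : InP D p (x + 1) y) (h2 : InP D p x (y - 1))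
    (hc : (x + y) % 2 = 0 ↔ natc D p x (y + 1) = true) : FRt D p x (y + 1) := by
  refine fr_of (near_of h1 (by omega) (by omega) (by omega) (by omega))
    (quad_LC h0 h1 h2 (by omega) (by omega)) fun k h3 h4 => ?_
  have h5 : LyA D p k.1 x (y + 1) := by
    rcases h4 with h4 | h4
    · have := h3.kt_ly; rwa [h4] at this
    · have := h3.rt_ly; rwa [h4] at this
  obtain ⟨s, a, b⟩ := k
  cases s
  · obtain ⟨h6, h7, h8⟩ := h3
    obtain ⟨rfl, h9⟩ := tp_L h4
    rcases h9 with rfl | rfl
    · rw [add_sub_cancel_right] at h6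
      exact (lyL.2 h6).2.2.2 h2
    · have h10 := h8.2.2.1
      simp only [add_sub_cancel_right] at h10
      rw [← hc] at h10
      omega
  · exact quad_LC h0 h1 h2 (by omega) (by omega) (lyR.2 h5).1
  · exact quad_LC h0 h1 h2 (by omega) (by omega) (lyF.2 h5).1
  · exact quad_LC h0 h1 h2 (by omega) (by omega) (lyC.2 h5).1

/-- the quadrant behind a pocket -/
lemma quad_RF (h0 : ¬ InP D p x y) (h1 : InP D p (x - 1) y) (h2 : InP D p x (y + 1)) (hu : x ≤ u) (hv : v ≤ y) :
    ¬ InP D p u v := by
  intro h3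
  have hP1 := D.P1
  have hQ0 := D.Q0
  rw [inP_row] at h0 h1 h2 h3
  rw [show y + 1 + sh p = y + sh p + 1 by ring] at h2
  set V := y + sh p with hV
  set W := v + sh p with hW
  have h4 := floorR (D := D) (Y := V) (by omega) (by omega)
  have h5 := b_mono (D := D) (y := W) (z := V) (by omega) (by omega) (by omega)
  omega

/-- the quadrant behind a diagonal tile -/
lemma quadD_RF (h0 : ¬ InP D p x (y + 1)) (h1 : ¬ InP D p (x - 1) y) (h2 : InP D p (x - 1) (y + 1)) (hu : x ≤ u) (hv : v ≤ y) :
    ¬ InP D p u v := by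
  intro h3
  have hP0 := D.P0
  have hP1 := D.P1
  have hQ0 := D.Q0
  have hQ1 := D.Q1
  rw [inP_row] at h0 h1 h2 h3
  rw [show y + 1 + sh p = y + sh p + 1 by ring] at h0 h2
  set V := y + sh p with hV
  set W := v + sh p with hW
  have hV0 : 0 ≤ V := by omega
  have h6 := D.ov1 V hV0 (by omega)
  have h4 := floorR (D := D) (Y := V) (by omega) (by omega)
  have h5 := b_mono (D := D) (y := W) (z := V) (by omega) (by omega) (by omega)
  omega

/-- parity and colour of a pocket -/
lemma par_RF_f (h0 : ¬ InP D false x y) (h1 : InP D false (x - 1) y) (h2 : InP D false x (y + 1)) :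
    (x + y) % 2 = 1 ↔ natc D false x y = true := by
  have hP0 := D.P0
  have hP1 := D.P1
  have hQ0 := D.Q0
  have hQ1 := D.Q1
  rw [inP_row] at h0 h1 h2
  rw [sh_false] at h0 h1 h2
  simp only [add_zero] at h0 h1 h2
  have h4 := floorR (D := D) (Y := y) (by omega) (by omega)
  have e1 : MM D.b D.yQ y = D.b (y + 1) := by unfold MM; rw [if_pos h4]
  have e2 : MM D.b D.yQ (y - 1) = D.b y := by unfold MM; rw [sub_add_cancel, if_pos (by omega)]
  have e3 := m_le_a (D := D) (y := y) (by omega)
  have e5 := D.ab y (by omega) (by omega)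
  have e4 : D.M y = D.b (y + 1) := e1
  have k := D.plr (y - 1) (by omega) (by omega) (by rw [sub_add_cancel, e1, e2]; omega)
  have hc : natc D false x y = D.cr (y - 1) := by
    unfold natc
    rw [if_neg (by omega), if_neg (by omega), if_neg (by omega), if_neg (by omega),
      if_neg Bool.false_ne_true, if_neg (by omega), if_neg (by omega)]
  rw [hc, ← k, e2]
  omega

/-- parity and colour of a pocket -/
lemma par_RF_t (h0 : ¬ InP D true x y) (h1 : InP D true (x - 1) y) (h2 : InP D true x (y + 1)) :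
    (x + y) % 2 = 0 ↔ natc D true x y = true := by
  have hP0 := D.P0
  have hP1 := D.P1
  have hQ0 := D.Q0
  have hQ1 := D.Q1
  rw [inP_row] at h0 h1 h2
  rw [sh_true] at h0 h1 h2
  rw [show y + 1 + 1 = y + 2 by ring] at h2
  have h4 := floorR (D := D) (Y := y + 1) (by rw [show y + 1 + 1 = y + 2 by ring]; omega)
    (by rw [show y + 1 + 1 = y + 2 by ring]; omega)
  have e1 : MM D.b D.yQ y = D.b (y + 1) := by unfold MM; rw [if_pos (by omega)]
  have e2 : MM D.b D.yQ (y + 1) = D.b (y + 2) := by
    unfold MM; rw [show y + 1 + 1 = y + 2 by ring, if_pos (by omega)]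
  have e3 := m_le_a' (D := D) (y := y) (by omega)
  have e5 := D.ab (y + 1) (by omega) (by omega)
  have e4 : D.M y = D.b (y + 1) := e1
  have k := D.plr y (by omega) (by omega) (by rw [e1, e2]; omega)
  have hc : natc D true x y = D.cr y := by
    unfold natc
    rw [if_neg (by omega), if_neg (by omega), if_neg (by omega), if_pos (by omega)]
  rw [hc, ← k, e1]
  omega

/-- a pocket is frozen -/
lemma fr_RF (h0 : ¬ InP D p x y) (h1 : InP D p (x - 1) y) (h2 : InP D p x (y + 1)) : FRt D p x y := by
  refine fr_of_not_ly (near_of h1 (by omega) (by omega) (by omega) (by omega)) h0 fun s hs => ?_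
  cases s
  · exact quad_RF h0 h1 h2 (by omega) (by omega) (lyL.2 hs).1
  · exact (lyR.2 hs).2.2.1 h2
  · exact (lyF.2 hs).2.2.2 h1
  · exact quad_RF h0 h1 h2 (by omega) (by omega) (lyC.2 hs).1

/-- the neighbour of a pocket along the horizontal wall, away from the corner, is frozen -/
lemma fr1_RF (h0 : ¬ InP D p x y) (h1 : InP D p (x - 1) y) (h2 : InP D p x (y + 1))
    (hc : (x + y) % 2 = 0 ↔ natc D p (x + 1) y = true) : FRt D p (x + 1) y := by
  refine fr_of (near_of h2 (by omega) (by omega) (by omega) (by omega))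
    (quad_RF h0 h1 h2 (by omega) (by omega)) fun k h3 h4 => ?_
  have h5 : LyA D p k.1 (x + 1) y := by
    rcases h4 with h4 | h4
    · have := h3.kt_ly; rwa [h4] at this
    · have := h3.rt_ly; rwa [h4] at this
  obtain ⟨s, a, b⟩ := k
  cases s
  · exact quad_RF h0 h1 h2 (by omega) (by omega) (lyL.2 h5).1
  · exact quad_RF h0 h1 h2 (by omega) (by omega) (lyR.2 h5).1
  · obtain ⟨h6, h7, h8⟩ := h3
    obtain ⟨h9, rfl⟩ := tp_F h4
    rcases h9 with rfl | rfl
    · rw [add_sub_cancel_right] at h6
      exact (lyF.2 h6).2.2.2 h1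
    · have h10 := h8.2.1
      simp only [add_sub_cancel_right] at h10
      rw [← hc] at h10
      omega
  · exact quad_RF h0 h1 h2 (by omega) (by omega) (lyC.2 h5).1

/-- the neighbour of a pocket along the vertical wall, away from the corner, is frozen -/
lemma fr2_RF (h0 : ¬ InP D p x y) (h1 : InP D p (x - 1) y) (h2 : InP D p x (y + 1))
    (hc : (x + y) % 2 = 0 ↔ natc D p x (y - 1) = true) : FRt D p x (y - 1) := by
  refine fr_of (near_of h1 (by omega) (by omega) (by omega) (by omega))
    (quad_RF h0 h1 h2 (by omega) (by omega)) fun k h3 h4 => ?_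
  have h5 : LyA D p k.1 x (y - 1) := by
    rcases h4 with h4 | h4
    · have := h3.kt_ly; rwa [h4] at this
    · have := h3.rt_ly; rwa [h4] at this
  obtain ⟨s, a, b⟩ := k
  cases s
  · exact quad_RF h0 h1 h2 (by omega) (by omega) (lyL.2 h5).1
  · obtain ⟨h6, h7, h8⟩ := h3
    obtain ⟨rfl, h9⟩ := tp_R h4
    rcases h9 with rfl | rfl
    · have h10 := h8.2.1
      simp only [add_sub_cancel_right] at h10
      rw [← hc] at h10
      omega
    · rw [sub_add_cancel, add_sub_cancel_right] at h7
      exact (lyR.2 h7).2.2.1 h2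
  · exact quad_RF h0 h1 h2 (by omega) (by omega) (lyF.2 h5).1
  · exact quad_RF h0 h1 h2 (by omega) (by omega) (lyC.2 h5).1

/-- the quadrant behind a pocket -/
lemma quad_RC (h0 : ¬ InP D p x y) (h1 : InP D p (x - 1) y) (h2 : InP D p x (y - 1)) (hu : x ≤ u) (hv : y ≤ v) :
    ¬ InP D p u v := by
  intro h3
  have hP1 := D.P1
  have hQ0 := D.Q0
  rw [inP_row] at h0 h1 h2 h3
  rw [show y - 1 + sh p = y + sh p - 1 by ring] at h2
  set V := y + sh p with hV
  set W := v + sh p with hW
  have h4 := ceilR (D := D) (Y := V) (by omega) (by omega) (by omega)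
  have h5 := b_anti (D := D) (y := V) (z := W) (by omega) (by omega) (by omega)
  omega

/-- the quadrant behind a diagonal tile -/
lemma quadD_RC (h0 : ¬ InP D p x (y - 1)) (h1 : ¬ InP D p (x - 1) y) (h2 : InP D p (x - 1) (y - 1)) (hu : x ≤ u) (hv : y ≤ v) :
    ¬ InP D p u v := by
  intro h3
  have hP0 := D.P0
  have hP1 := D.P1
  have hQ0 := D.Q0
  have hQ1 := D.Q1
  rw [inP_row] at h0 h1 h2 h3
  rw [show y - 1 + sh p = y + sh p - 1 by ring] at h0 h2
  set V := y + sh p with hV
  set W := v + sh p with hW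
  have hV0 : V < D.h := by omega
  have h6 := D.ov2 (V - 1) (by omega) (by omega)
  rw [sub_add_cancel] at h6
  have h4 := ceilR (D := D) (Y := V) (by omega) (by omega) (by omega)
  have h5 := b_anti (D := D) (y := V) (z := W) (by omega) (by omega) (by omega)
  omega

/-- parity and colour of a pocket -/
lemma par_RC_f (h0 : ¬ InP D false x y) (h1 : InP D false (x - 1) y) (h2 : InP D false x (y - 1)) :
    (x + y) % 2 = 1 ↔ natc D false x y = true := by
  have hP0 := D.P0
  have hP1 := D.P1
  have hQ0 := D.Q0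
  have hQ1 := D.Q1
  rw [inP_row] at h0 h1 h2
  rw [sh_false] at h0 h1 h2
  simp only [add_zero] at h0 h1 h2
  have h4 := ceilR (D := D) (Y := y) (by omega) (by omega) (by omega)
  have e1 : MM D.b D.yQ y = D.b y := by unfold MM; rw [if_neg (by omega)]
  have e2 : MM D.b D.yQ (y - 1) = D.b (y - 1) := by unfold MM; rw [if_neg (by omega)]
  have e3 := m_le_a (D := D) (y := y) (by omega)
  have e5 := D.ab y (by omega) (by omega)
  have e4 : D.M y = D.b y := e1
  have k := D.pur (y - 1) (by omega) (by omega) (by rw [sub_add_cancel, e1, e2]; omega)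
  rw [sub_add_cancel] at k
  have hc : natc D false x y = D.cr y := by
    unfold natc
    rw [if_neg (by omega), if_neg (by omega), if_neg (by omega), if_pos (by omega)]
  rw [hc, ← k, e1]
  omega

/-- parity and colour of a pocket -/
lemma par_RC_t (h0 : ¬ InP D true x y) (h1 : InP D true (x - 1) y) (h2 : InP D true x (y - 1)) :
    (x + y) % 2 = 0 ↔ natc D true x y = true := by
  have hP0 := D.P0
  have hP1 := D.P1
  have hQ0 := D.Q0
  have hQ1 := D.Q1
  rw [inP_row] at h0 h1 h2
  rw [sh_true] at h0 h1 h2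
  rw [show y - 1 + 1 = y by ring] at h2
  have h4 := ceilR (D := D) (Y := y + 1) (by omega) (by omega) (by rw [add_sub_cancel_right]; omega)
  have e1 : MM D.b D.yQ y = D.b y := by unfold MM; rw [if_neg (by omega)]
  have e2 : MM D.b D.yQ (y + 1) = D.b (y + 1) := by unfold MM; rw [if_neg (by omega)]
  have e3 := m_le_a' (D := D) (y := y) (by omega)
  have e5 := D.ab (y + 1) (by omega) (by omega)
  have e4 : D.M y = D.b y := e1
  have k := D.pur y (by omega) (by omega) (by rw [e1, e2]; omega)
  have hc : natc D true x y = D.cr (y + 1) := by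
    unfold natc
    rw [if_neg (by omega), if_neg (by omega), if_neg (by omega), if_neg (by omega), if_pos rfl,
      if_neg (by omega), if_neg (by omega)]
  rw [hc, ← k, e2]
  omega

/-- a pocket is frozen -/
lemma fr_RC (h0 : ¬ InP D p x y) (h1 : InP D p (x - 1) y) (h2 : InP D p x (y - 1)) : FRt D p x y := by
  refine fr_of_not_ly (near_of h1 (by omega) (by omega) (by omega) (by omega)) h0 fun s hs => ?_
  cases s
  · exact quad_RC h0 h1 h2 (by omega) (by omega) (lyL.2 hs).1
  · exact (lyR.2 hs).2.2.2 h2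
  · exact quad_RC h0 h1 h2 (by omega) (by omega) (lyF.2 hs).1
  · exact (lyC.2 hs).2.2.2 h1

/-- the neighbour of a pocket along the horizontal wall, away from the corner, is frozen -/
lemma fr1_RC (h0 : ¬ InP D p x y) (h1 : InP D p (x - 1) y) (h2 : InP D p x (y - 1))
    (hc : (x + y) % 2 = 1 ↔ natc D p (x + 1) y = true) : FRt D p (x + 1) y := by
  refine fr_of (near_of h2 (by omega) (by omega) (by omega) (by omega))
    (quad_RC h0 h1 h2 (by omega) (by omega)) fun k h3 h4 => ?_
  have h5 : LyA D p k.1 (x + 1) y := by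
    rcases h4 with h4 | h4
    · have := h3.kt_ly; rwa [h4] at this
    · have := h3.rt_ly; rwa [h4] at this
  obtain ⟨s, a, b⟩ := k
  cases s
  · exact quad_RC h0 h1 h2 (by omega) (by omega) (lyL.2 h5).1
  · exact quad_RC h0 h1 h2 (by omega) (by omega) (lyR.2 h5).1
  · exact quad_RC h0 h1 h2 (by omega) (by omega) (lyF.2 h5).1
  · obtain ⟨h6, h7, h8⟩ := h3
    obtain ⟨h9, rfl⟩ := tp_C h4
    rcases h9 with rfl | rfl
    · rw [add_sub_cancel_right, add_sub_cancel_right] at h6
      exact (lyC.2 h6).2.2.2 h1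
    · have h10 := h8.2.2.2
      simp only [add_sub_cancel_right] at h10
      rw [← hc] at h10
      omega

/-- the neighbour of a pocket along the vertical wall, away from the corner, is frozen -/
lemma fr2_RC (h0 : ¬ InP D p x y) (h1 : InP D p (x - 1) y) (h2 : InP D p x (y - 1))
    (hc : (x + y) % 2 = 1 ↔ natc D p x (y + 1) = true) : FRt D p x (y + 1) := by
  refine fr_of (near_of h1 (by omega) (by omega) (by omega) (by omega))
    (quad_RC h0 h1 h2 (by omega) (by omega)) fun k h3 h4 => ?_
  have h5 : LyA D p k.1 x (y + 1) := by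
    rcases h4 with h4 | h4
    · have := h3.kt_ly; rwa [h4] at this
    · have := h3.rt_ly; rwa [h4] at this
  obtain ⟨s, a, b⟩ := k
  cases s
  · exact quad_RC h0 h1 h2 (by omega) (by omega) (lyL.2 h5).1
  · obtain ⟨h6, h7, h8⟩ := h3
    obtain ⟨rfl, h9⟩ := tp_R h4
    rcases h9 with rfl | rfl
    · rw [add_sub_cancel_right, add_sub_cancel_right] at h6
      exact (lyR.2 h6).2.2.2 h2
    · have h10 := h8.2.2.2
      simp only [add_sub_cancel_right] at h10
      rw [← hc] at h10
      omega
  · exact quad_RC h0 h1 h2 (by omega) (by omega) (lyF.2 h5).1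
  · exact quad_RC h0 h1 h2 (by omega) (by omega) (lyC.2 h5).1

end Pool.Agent.H46.Sp.CG
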