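import Mathlib
import Pool.Agent.H46.Sp.PockA

set_option autoImplicit false
open Finset

/-! # Pockets are not exits

`one i x y` : all tiles outside of `P^p` at distance at most 2 from `(x, y)` belong to the arc `i`. -/

namespace Pool.Agent.H46.Sp.CG

open Pool.Agent.H75.Perc Pool.Agent.H75.TwoArm Pool.Agent.Q1 Pool.Agent.H33.Q1
open Pool.Agent.H69.Q1
open Pool.Agent.H46.Sp Pool.Agent.H46.Sp.Win
open Pool.Agent.H31.Sp (lyL lyR lyF lyC LL LR LF LC)
open Pool.Agent.H74.Win Pool.Agent.H42.Sp
open Pool.Agent.H13.Sp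
open Pool.Agent.H13.R45 (ev gp ev_true ev_false Tg)
open Pool.Agent.H39.Q1 (TF mem_TF av)
open Pool.Agent.H40.Sp (NatPl NatS)

variable {D : Win} {p : Bool} {x y u v s0 L i : ℤ} {s : Sd} {g : ℤ × ℤ} {O : OutB D} {S : Finset (ℤ × ℤ)}

/-- all tiles outside of `P^p` at distance at most 2 belong to one arc -/
def One (D : Win) (p : Bool) (s0 i x y : ℤ) : Prop :=
  ∀ u v, x ≤ u + 2 → u ≤ x + 2 → y ≤ v + 2 → v ≤ y + 2 → ¬ H74.Win.InP D p u v → arc D p s0 u v = i

lemma ev_col {a b : ℤ} {c : Bool} (h : (a + b) % 2 = 0 ↔ c = true) : ev (a, b) = c := by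
  cases c
  · rw [ev_false]
    simp only [Bool.false_eq_true, iff_false] at h
    omega
  · rw [ev_true]; exact h.2 rfl

lemma col_ev {a b : ℤ} {c : Bool} (h : ev (a, b) = c) : (a + b) % 2 = 0 ↔ c = true := by
  subst h
  rw [ev_true]

/-- **Pockets, first colour** -/
theorem pkc_LF (hL : 5 ≤ L)
    (hav : av (EN D false) (WA O false S) (TA D false) (fmA D false s0) (colp D) (WlA D false s0 L S) i (lt (x, y)))
    (h0 : ¬ H74.Win.InP D false x y) (h1 : H74.Win.InP D false (x + 1) y) (h2 : H74.Win.InP D false x (y + 1))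
    (hone : One D false s0 i x y) : False := by
  have hq := fun u v hu hv => quad_LF (u := u) (v := v) h0 h1 h2 hu hv
  have hc : natc D false x y = colp D i := by
    rw [← hone x y (by omega) (by omega) (by omega) (by omega) h0, colp_arc]
  have hp := par_LF_f h0 h1 h2
  rw [hc] at hp
  have hf : Fill D false (x - 1) (y - 1) :=
    fill_of fun u v _ _ _ _ => hq u v (by omega) (by omega)
  have ha := hone (x - 1) (y - 1) (by omega) (by omega) (by omega) (by omega) hf.not_inP
  refine no_fz (g := (x, y)) hL hav (fr_LF h0 h1 h2) ?_ ?_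
    (fiA_of hL hf ha h1 (by omega) (by omega) (by omega) (by omega)) ?_
  · refine ev_col (Iff.trans ?_ hp)
    omega
  · unfold OnT; simp only; omega
  · unfold OnT; simp only; omega

/-- **Pockets, second colour** -/
theorem pkn_LF (hL : 5 ≤ L) (hN : NatS D true S)
    (h0 : ¬ H74.Win.InP D true x y) (h1 : H74.Win.InP D true (x + 1) y) (h2 : H74.Win.InP D true x (y + 1))
    (hone : One D true s0 i x y) (hg : ev g = colp D i) (hgt : OnT g x y)
    (hfree : ∀ u v, OnT g u v → lt (u, v) ∉ WlA D true s0 L S i) : False := by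
  have hP0 := D.P0
  have hP1 := D.P1
  have hQ0 := D.Q0
  have hQ1 := D.Q1
  have hq := fun u v hu hv => quad_LF (u := u) (v := v) h0 h1 h2 hu hv
  have hc : natc D true x y = colp D i := by
    rw [← hone x y (by omega) (by omega) (by omega) (by omega) h0, colp_arc]
  have hp := par_LF_t h0 h1 h2
  rw [hc] at hp
  obtain ⟨g1, g2⟩ := g
  have hg' := col_ev hg
  unfold OnT at hgt
  simp only at hgt
  have n1 : ¬ H74.Win.InP D true (x - 1) y := hq _ _ (by omega) (by omega)
  have n2 : ¬ H74.Win.InP D true x (y - 1) := hq _ _ (by omega) (by omega)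
  have c1 : natc D true (x - 1) y = colp D i := by
    rw [← hone (x - 1) y (by omega) (by omega) (by omega) (by omega) n1, colp_arc]
  have c2 : natc D true x (y - 1) = colp D i := by
    rw [← hone x (y - 1) (by omega) (by omega) (by omega) (by omega) n2, colp_arc]
  have f1 : Fill D true (x - 2) (y - 1) :=
    fill_of fun u v _ _ _ _ => hq u v (by omega) (by omega)
  have f2 : Fill D true (x - 1) (y - 2) :=
    fill_of fun u v _ _ _ _ => hq u v (by omega) (by omega)
  have a1 := hone (x - 2) (y - 1) (by omega) (by omega) (by omega) (by omega) f1.not_inP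
  have a2 := hone (x - 1) (y - 2) (by omega) (by omega) (by omega) (by omega) f2.not_inP
  have r1 : FRt D true (x - 1) y := fr1_LF h0 h1 h2 (by rw [c1]; exact hp)
  have r2 : FRt D true x (y - 1) := fr2_LF h0 h1 h2 (by rw [c2]; exact hp)
  have hpl : NatPl D true (x - 1) y ∧ NatPl D true x (y - 1) := by
    have h1' := h1
    have h2' := h2
    have h0' := h0
    rw [inP_row] at h0' h1' h2'
    rw [sh_true] at h0' h1' h2'
    rw [show y + 1 + 1 = y + 2 by ring] at h2'
    have h4 := floorL (D := D) (Y := y + 1) (by omega) (by rw [show y + 1 + 1 = y + 2 by ring]; omega)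
      (by rw [show y + 1 + 1 = y + 2 by ring]; omega)
    have e1 : D.m y = D.a (y + 1) := by unfold m mm; rw [if_pos (by omega)]
    have e2 : 0 ≤ y → D.m (y - 1) = D.a y ∧ D.a (y + 1) ≤ D.a y := fun h => by
      refine ⟨?_, a_anti h (by omega) (by omega)⟩
      unfold m mm; rw [sub_add_cancel, if_pos (by omega)]
    unfold NatPl
    rw [if_pos rfl, if_pos rfl]
    constructor
    · omega
    · by_cases hy : 0 ≤ y
      · have := e2 hy
        omega
      · omega
  have hcs : (g1 = x ∧ g2 = y + 1) ∨ (g1 = x + 1 ∧ g2 = y) := by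
    have h3 := hg'.trans hp.symm
    omega
  rcases hcs with ⟨z1, z2⟩ | ⟨z1, z2⟩
  · refine hfree (x - 1) y (by unfold OnT; simp only; omega) ?_
    refine fz_mem (g := (x - 1, y)) hL r1 ?_ ?_ ?_
      (fiA_of hL f1 a1 h2 (by omega) (by omega) (by omega) (by omega)) ?_
    · rw [hN _ _ r1 hpl.1, c1]
    · refine ev_col (Iff.trans ?_ hp)
      omega
    · unfold OnT; simp only; omega
    · unfold OnT; simp only; omega
  · refine hfree x (y - 1) (by unfold OnT; simp only; omega) ?_
    refine fz_mem (g := (x, y - 1)) hL r2 ?_ ?_ ?_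
      (fiA_of hL f2 a2 h1 (by omega) (by omega) (by omega) (by omega)) ?_
    · rw [hN _ _ r2 hpl.2, c2]
    · refine ev_col (Iff.trans ?_ hp)
      omega
    · unfold OnT; simp only; omega
    · unfold OnT; simp only; omega

/-- **Pockets are not exits.** -/
theorem pk_LF (hL : 5 ≤ L) (hN : NatS D p S)
    (hav : av (EN D p) (WA O p S) (TA D p) (fmA D p s0) (colp D) (WlA D p s0 L S) i (lt (x, y)))
    (h0 : ¬ H74.Win.InP D p x y) (h1 : H74.Win.InP D p (x + 1) y) (h2 : H74.Win.InP D p x (y + 1))
    (hone : One D p s0 i x y) (hg : ev g = colp D i) (hgt : OnT g x y)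
    (hfree : ∀ u v, OnT g u v → lt (u, v) ∉ WlA D p s0 L S i) : False := by
  cases p
  · exact pkc_LF hL hav h0 h1 h2 hone
  · exact pkn_LF hL hN h0 h1 h2 hone hg hgt hfree

/-- **Diagonal tiles of one arc are not exits.** -/
theorem dg_LF (hL : 5 ≤ L)
    (hav : av (EN D p) (WA O p S) (TA D p) (fmA D p s0) (colp D) (WlA D p s0 L S) i (lt (x, y)))
    (h0 : ¬ H74.Win.InP D p x (y + 1)) (h1 : ¬ H74.Win.InP D p (x + 1) y)
    (h2 : H74.Win.InP D p (x + 1) (y + 1)) (hone : One D p s0 i x y)
    (hg : ev (x + 1, y + 1) = colp D i) : False := by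
  have hq := fun u v hu hv => quadD_LF (u := u) (v := v) h0 h1 h2 hu hv
  have hf : Fill D p (x - 1) (y - 1) :=
    fill_of fun u v _ _ _ _ => hq u v (by omega) (by omega)
  have ha := hone (x - 1) (y - 1) (by omega) (by omega) (by omega) (by omega) hf.not_inP
  have hfr : FRt D p x y := by
    refine fr_of_not_ly (near_of h2 (by omega) (by omega) (by omega) (by omega))
      (hq _ _ (by omega) (by omega)) fun s hs => ?_
    cases s
    · exact h1 (lyL.2 hs).1
    · exact hq _ _ (by omega) (by omega) (lyR.2 hs).1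
    · exact h0 (lyF.2 hs).1
    · exact hq _ _ (by omega) (by omega) (lyC.2 hs).1
  have hg' := col_ev hg
  refine no_fz (g := (x, y)) hL hav hfr ?_ ?_
    (fiA_of hL hf ha h2 (by omega) (by omega) (by omega) (by omega)) ?_
  · refine ev_col (Iff.trans ?_ hg')
    omega
  · unfold OnT; simp only; omega
  · unfold OnT; simp only; omega

/-- **Pockets, first colour** -/
theorem pkc_LC (hL : 5 ≤ L)
    (hav : av (EN D true) (WA O true S) (TA D true) (fmA D true s0) (colp D) (WlA D true s0 L S) i (lt (x, y)))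
    (h0 : ¬ H74.Win.InP D true x y) (h1 : H74.Win.InP D true (x + 1) y) (h2 : H74.Win.InP D true x (y - 1))
    (hone : One D true s0 i x y) : False := by
  have hq := fun u v hu hv => quad_LC (u := u) (v := v) h0 h1 h2 hu hv
  have hc : natc D true x y = colp D i := by
    rw [← hone x y (by omega) (by omega) (by omega) (by omega) h0, colp_arc]
  have hp := par_LC_t h0 h1 h2
  rw [hc] at hp
  have hf : Fill D true (x - 1) (y + 1) :=
    fill_of fun u v _ _ _ _ => hq u v (by omega) (by omega)
  have ha := hone (x - 1) (y + 1) (by omega) (by omega) (by omega) (by omega) hf.not_inP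
  refine no_fz (g := (x, y + 1)) hL hav (fr_LC h0 h1 h2) ?_ ?_
    (fiA_of hL hf ha h1 (by omega) (by omega) (by omega) (by omega)) ?_
  · refine ev_col (Iff.trans ?_ hp)
    omega
  · unfold OnT; simp only; omega
  · unfold OnT; simp only; omega

/-- **Pockets, second colour** -/
theorem pkn_LC (hL : 5 ≤ L) (hN : NatS D false S)
    (h0 : ¬ H74.Win.InP D false x y) (h1 : H74.Win.InP D false (x + 1) y) (h2 : H74.Win.InP D false x (y - 1))
    (hone : One D false s0 i x y) (hg : ev g = colp D i) (hgt : OnT g x y)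
    (hfree : ∀ u v, OnT g u v → lt (u, v) ∉ WlA D false s0 L S i) : False := by
  have hP0 := D.P0
  have hP1 := D.P1
  have hQ0 := D.Q0
  have hQ1 := D.Q1
  have hq := fun u v hu hv => quad_LC (u := u) (v := v) h0 h1 h2 hu hv
  have hc : natc D false x y = colp D i := by
    rw [← hone x y (by omega) (by omega) (by omega) (by omega) h0, colp_arc]
  have hp := par_LC_f h0 h1 h2
  rw [hc] at hp
  obtain ⟨g1, g2⟩ := g
  have hg' := col_ev hg
  unfold OnT at hgt
  simp only at hgt
  have n1 : ¬ H74.Win.InP D false (x - 1) y := hq _ _ (by omega) (by omega)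
  have n2 : ¬ H74.Win.InP D false x (y + 1) := hq _ _ (by omega) (by omega)
  have c1 : natc D false (x - 1) y = colp D i := by
    rw [← hone (x - 1) y (by omega) (by omega) (by omega) (by omega) n1, colp_arc]
  have c2 : natc D false x (y + 1) = colp D i := by
    rw [← hone x (y + 1) (by omega) (by omega) (by omega) (by omega) n2, colp_arc]
  have f1 : Fill D false (x - 2) (y + 1) :=
    fill_of fun u v _ _ _ _ => hq u v (by omega) (by omega)
  have f2 : Fill D false (x - 1) (y + 2) :=
    fill_of fun u v _ _ _ _ => hq u v (by omega) (by omega)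
  have a1 := hone (x - 2) (y + 1) (by omega) (by omega) (by omega) (by omega) f1.not_inP
  have a2 := hone (x - 1) (y + 2) (by omega) (by omega) (by omega) (by omega) f2.not_inP
  have r1 : FRt D false (x - 1) y := fr1_LC h0 h1 h2 (by rw [c1]; exact hp)
  have r2 : FRt D false x (y + 1) := fr2_LC h0 h1 h2 (by rw [c2]; exact hp)
  have hpl : NatPl D false (x - 1) y ∧ NatPl D false x (y + 1) := by
    have h1' := h1
    have h2' := h2
    have h0' := h0
    rw [inP_row] at h0' h1' h2'
    rw [sh_false] at h0' h1' h2'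
    simp only [add_zero] at h0' h1' h2'
    have h4 := ceilL (D := D) (Y := y) (by omega) (by omega) (by omega)
    have e1 : D.m y = D.a y := by unfold m mm; rw [if_neg (by omega)]
    have e2 : y + 1 < D.h → D.m (y + 1) = D.a (y + 1) ∧ D.a y ≤ D.a (y + 1) := fun h => by
      refine ⟨?_, a_mono (by omega) (by omega) (by omega)⟩
      unfold m mm; rw [if_neg (by omega)]
    unfold NatPl
    rw [if_neg Bool.false_ne_true, if_neg Bool.false_ne_true]
    constructor
    · omega
    · by_cases hy : y + 1 < D.h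
      · have := e2 hy
        omega
      · omega
  have hcs : (g1 = x ∧ g2 = y) ∨ (g1 = x + 1 ∧ g2 = y + 1) := by
    have h3 := hg'.trans hp.symm
    omega
  rcases hcs with ⟨z1, z2⟩ | ⟨z1, z2⟩
  · refine hfree (x - 1) y (by unfold OnT; simp only; omega) ?_
    refine fz_mem (g := (x - 1, y + 1)) hL r1 ?_ ?_ ?_
      (fiA_of hL f1 a1 h2 (by omega) (by omega) (by omega) (by omega)) ?_
    · rw [hN _ _ r1 hpl.1, c1]
    · refine ev_col (Iff.trans ?_ hp)
      omega
    · unfold OnT; simp only; omega
    · unfold OnT; simp only; omega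
  · refine hfree x (y + 1) (by unfold OnT; simp only; omega) ?_
    refine fz_mem (g := (x, y + 2)) hL r2 ?_ ?_ ?_
      (fiA_of hL f2 a2 h1 (by omega) (by omega) (by omega) (by omega)) ?_
    · rw [hN _ _ r2 hpl.2, c2]
    · refine ev_col (Iff.trans ?_ hp)
      omega
    · unfold OnT; simp only; omega
    · unfold OnT; simp only; omega

/-- **Pockets are not exits.** -/
theorem pk_LC (hL : 5 ≤ L) (hN : NatS D p S)
    (hav : av (EN D p) (WA O p S) (TA D p) (fmA D p s0) (colp D) (WlA D p s0 L S) i (lt (x, y)))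
    (h0 : ¬ H74.Win.InP D p x y) (h1 : H74.Win.InP D p (x + 1) y) (h2 : H74.Win.InP D p x (y - 1))
    (hone : One D p s0 i x y) (hg : ev g = colp D i) (hgt : OnT g x y)
    (hfree : ∀ u v, OnT g u v → lt (u, v) ∉ WlA D p s0 L S i) : False := by
  cases p
  · exact pkn_LC hL hN h0 h1 h2 hone hg hgt hfree
  · exact pkc_LC hL hav h0 h1 h2 hone

/-- **Diagonal tiles of one arc are not exits.** -/
theorem dg_LC (hL : 5 ≤ L)
    (hav : av (EN D p) (WA O p S) (TA D p) (fmA D p s0) (colp D) (WlA D p s0 L S) i (lt (x, y)))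
    (h0 : ¬ H74.Win.InP D p x (y - 1)) (h1 : ¬ H74.Win.InP D p (x + 1) y)
    (h2 : H74.Win.InP D p (x + 1) (y - 1)) (hone : One D p s0 i x y)
    (hg : ev (x + 1, y) = colp D i) : False := by
  have hq := fun u v hu hv => quadD_LC (u := u) (v := v) h0 h1 h2 hu hv
  have hf : Fill D p (x - 1) (y + 1) :=
    fill_of fun u v _ _ _ _ => hq u v (by omega) (by omega)
  have ha := hone (x - 1) (y + 1) (by omega) (by omega) (by omega) (by omega) hf.not_inP
  have hfr : FRt D p x y := by
    refine fr_of_not_ly (near_of h2 (by omega) (by omega) (by omega) (by omega))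
      (hq _ _ (by omega) (by omega)) fun s hs => ?_
    cases s
    · exact h1 (lyL.2 hs).1
    · exact hq _ _ (by omega) (by omega) (lyR.2 hs).1
    · exact hq _ _ (by omega) (by omega) (lyF.2 hs).1
    · exact h0 (lyC.2 hs).1
  have hg' := col_ev hg
  refine no_fz (g := (x, y + 1)) hL hav hfr ?_ ?_
    (fiA_of hL hf ha h2 (by omega) (by omega) (by omega) (by omega)) ?_
  · refine ev_col (Iff.trans ?_ hg')
    omega
  · unfold OnT; simp only; omega
  · unfold OnT; simp only; omega

/-- **Pockets, first colour** -/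
theorem pkc_RF (hL : 5 ≤ L)
    (hav : av (EN D false) (WA O false S) (TA D false) (fmA D false s0) (colp D) (WlA D false s0 L S) i (lt (x, y)))
    (h0 : ¬ H74.Win.InP D false x y) (h1 : H74.Win.InP D false (x - 1) y) (h2 : H74.Win.InP D false x (y + 1))
    (hone : One D false s0 i x y) : False := by
  have hq := fun u v hu hv => quad_RF (u := u) (v := v) h0 h1 h2 hu hv
  have hc : natc D false x y = colp D i := by
    rw [← hone x y (by omega) (by omega) (by omega) (by omega) h0, colp_arc]
  have hp := par_RF_f h0 h1 h2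
  rw [hc] at hp
  have hf : Fill D false (x + 1) (y - 1) :=
    fill_of fun u v _ _ _ _ => hq u v (by omega) (by omega)
  have ha := hone (x + 1) (y - 1) (by omega) (by omega) (by omega) (by omega) hf.not_inP
  refine no_fz (g := (x + 1, y)) hL hav (fr_RF h0 h1 h2) ?_ ?_
    (fiA_of hL hf ha h1 (by omega) (by omega) (by omega) (by omega)) ?_
  · refine ev_col (Iff.trans ?_ hp)
    omega
  · unfold OnT; simp only; omega
  · unfold OnT; simp only; omega

/-- **Pockets, second colour** -/
theorem pkn_RF (hL : 5 ≤ L) (hN : NatS D true S)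
    (h0 : ¬ H74.Win.InP D true x y) (h1 : H74.Win.InP D true (x - 1) y) (h2 : H74.Win.InP D true x (y + 1))
    (hone : One D true s0 i x y) (hg : ev g = colp D i) (hgt : OnT g x y)
    (hfree : ∀ u v, OnT g u v → lt (u, v) ∉ WlA D true s0 L S i) : False := by
  have hP0 := D.P0
  have hP1 := D.P1
  have hQ0 := D.Q0
  have hQ1 := D.Q1
  have hq := fun u v hu hv => quad_RF (u := u) (v := v) h0 h1 h2 hu hv
  have hc : natc D true x y = colp D i := by
    rw [← hone x y (by omega) (by omega) (by omega) (by omega) h0, colp_arc]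
  have hp := par_RF_t h0 h1 h2
  rw [hc] at hp
  obtain ⟨g1, g2⟩ := g
  have hg' := col_ev hg
  unfold OnT at hgt
  simp only at hgt
  have n1 : ¬ H74.Win.InP D true (x + 1) y := hq _ _ (by omega) (by omega)
  have n2 : ¬ H74.Win.InP D true x (y - 1) := hq _ _ (by omega) (by omega)
  have c1 : natc D true (x + 1) y = colp D i := by
    rw [← hone (x + 1) y (by omega) (by omega) (by omega) (by omega) n1, colp_arc]
  have c2 : natc D true x (y - 1) = colp D i := by
    rw [← hone x (y - 1) (by omega) (by omega) (by omega) (by omega) n2, colp_arc]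
  have f1 : Fill D true (x + 2) (y - 1) :=
    fill_of fun u v _ _ _ _ => hq u v (by omega) (by omega)
  have f2 : Fill D true (x + 1) (y - 2) :=
    fill_of fun u v _ _ _ _ => hq u v (by omega) (by omega)
  have a1 := hone (x + 2) (y - 1) (by omega) (by omega) (by omega) (by omega) f1.not_inP
  have a2 := hone (x + 1) (y - 2) (by omega) (by omega) (by omega) (by omega) f2.not_inP
  have r1 : FRt D true (x + 1) y := fr1_RF h0 h1 h2 (by rw [c1]; exact hp)
  have r2 : FRt D true x (y - 1) := fr2_RF h0 h1 h2 (by rw [c2]; exact hp)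
  have hpl : NatPl D true (x + 1) y ∧ NatPl D true x (y - 1) := by
    have h1' := h1
    have h2' := h2
    have h0' := h0
    rw [inP_row] at h0' h1' h2'
    rw [sh_true] at h0' h1' h2'
    rw [show y + 1 + 1 = y + 2 by ring] at h2'
    have h4 := floorR (D := D) (Y := y + 1) (by rw [show y + 1 + 1 = y + 2 by ring]; omega)
      (by rw [show y + 1 + 1 = y + 2 by ring]; omega)
    have e1 : D.M y = D.b (y + 1) := by unfold M MM; rw [if_pos (by omega)]
    have e2 : 0 ≤ y → D.M (y - 1) = D.b y ∧ D.b y ≤ D.b (y + 1) := fun h => by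
      refine ⟨?_, b_mono h (by omega) (by omega)⟩
      unfold M MM; rw [sub_add_cancel, if_pos (by omega)]
    unfold NatPl
    rw [if_pos rfl, if_pos rfl]
    constructor
    · omega
    · by_cases hy : 0 ≤ y
      · have := e2 hy
        omega
      · omega
  have hcs : (g1 = x + 1 ∧ g2 = y + 1) ∨ (g1 = x ∧ g2 = y) := by
    have h3 := hg'.trans hp.symm
    omega
  rcases hcs with ⟨z1, z2⟩ | ⟨z1, z2⟩
  · refine hfree (x + 1) y (by unfold OnT; simp only; omega) ?_
    refine fz_mem (g := (x + 2, y)) hL r1 ?_ ?_ ?_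
      (fiA_of hL f1 a1 h2 (by omega) (by omega) (by omega) (by omega)) ?_
    · rw [hN _ _ r1 hpl.1, c1]
    · refine ev_col (Iff.trans ?_ hp)
      omega
    · unfold OnT; simp only; omega
    · unfold OnT; simp only; omega
  · refine hfree x (y - 1) (by unfold OnT; simp only; omega) ?_
    refine fz_mem (g := (x + 1, y - 1)) hL r2 ?_ ?_ ?_
      (fiA_of hL f2 a2 h1 (by omega) (by omega) (by omega) (by omega)) ?_
    · rw [hN _ _ r2 hpl.2, c2]
    · refine ev_col (Iff.trans ?_ hp)
      omega
    · unfold OnT; simp only; omega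
    · unfold OnT; simp only; omega

/-- **Pockets are not exits.** -/
theorem pk_RF (hL : 5 ≤ L) (hN : NatS D p S)
    (hav : av (EN D p) (WA O p S) (TA D p) (fmA D p s0) (colp D) (WlA D p s0 L S) i (lt (x, y)))
    (h0 : ¬ H74.Win.InP D p x y) (h1 : H74.Win.InP D p (x - 1) y) (h2 : H74.Win.InP D p x (y + 1))
    (hone : One D p s0 i x y) (hg : ev g = colp D i) (hgt : OnT g x y)
    (hfree : ∀ u v, OnT g u v → lt (u, v) ∉ WlA D p s0 L S i) : False := by
  cases p
  · exact pkc_RF hL hav h0 h1 h2 hone
  · exact pkn_RF hL hN h0 h1 h2 hone hg hgt hfree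

/-- **Diagonal tiles of one arc are not exits.** -/
theorem dg_RF (hL : 5 ≤ L)
    (hav : av (EN D p) (WA O p S) (TA D p) (fmA D p s0) (colp D) (WlA D p s0 L S) i (lt (x, y)))
    (h0 : ¬ H74.Win.InP D p x (y + 1)) (h1 : ¬ H74.Win.InP D p (x - 1) y)
    (h2 : H74.Win.InP D p (x - 1) (y + 1)) (hone : One D p s0 i x y)
    (hg : ev (x, y + 1) = colp D i) : False := by
  have hq := fun u v hu hv => quadD_RF (u := u) (v := v) h0 h1 h2 hu hv
  have hf : Fill D p (x + 1) (y - 1) :=
    fill_of fun u v _ _ _ _ => hq u v (by omega) (by omega)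
  have ha := hone (x + 1) (y - 1) (by omega) (by omega) (by omega) (by omega) hf.not_inP
  have hfr : FRt D p x y := by
    refine fr_of_not_ly (near_of h2 (by omega) (by omega) (by omega) (by omega))
      (hq _ _ (by omega) (by omega)) fun s hs => ?_
    cases s
    · exact hq _ _ (by omega) (by omega) (lyL.2 hs).1
    · exact h1 (lyR.2 hs).1
    · exact h0 (lyF.2 hs).1
    · exact hq _ _ (by omega) (by omega) (lyC.2 hs).1
  have hg' := col_ev hg
  refine no_fz (g := (x + 1, y)) hL hav hfr ?_ ?_
    (fiA_of hL hf ha h2 (by omega) (by omega) (by omega) (by omega)) ?_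
  · refine ev_col (Iff.trans ?_ hg')
    omega
  · unfold OnT; simp only; omega
  · unfold OnT; simp only; omega

/-- **Pockets, first colour** -/
theorem pkc_RC (hL : 5 ≤ L)
    (hav : av (EN D true) (WA O true S) (TA D true) (fmA D true s0) (colp D) (WlA D true s0 L S) i (lt (x, y)))
    (h0 : ¬ H74.Win.InP D true x y) (h1 : H74.Win.InP D true (x - 1) y) (h2 : H74.Win.InP D true x (y - 1))
    (hone : One D true s0 i x y) : False := by
  have hq := fun u v hu hv => quad_RC (u := u) (v := v) h0 h1 h2 hu hv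
  have hc : natc D true x y = colp D i := by
    rw [← hone x y (by omega) (by omega) (by omega) (by omega) h0, colp_arc]
  have hp := par_RC_t h0 h1 h2
  rw [hc] at hp
  have hf : Fill D true (x + 1) (y + 1) :=
    fill_of fun u v _ _ _ _ => hq u v (by omega) (by omega)
  have ha := hone (x + 1) (y + 1) (by omega) (by omega) (by omega) (by omega) hf.not_inP
  refine no_fz (g := (x + 1, y + 1)) hL hav (fr_RC h0 h1 h2) ?_ ?_
    (fiA_of hL hf ha h1 (by omega) (by omega) (by omega) (by omega)) ?_
  · refine ev_col (Iff.trans ?_ hp)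
    omega
  · unfold OnT; simp only; omega
  · unfold OnT; simp only; omega

/-- **Pockets, second colour** -/
theorem pkn_RC (hL : 5 ≤ L) (hN : NatS D false S)
    (h0 : ¬ H74.Win.InP D false x y) (h1 : H74.Win.InP D false (x - 1) y) (h2 : H74.Win.InP D false x (y - 1))
    (hone : One D false s0 i x y) (hg : ev g = colp D i) (hgt : OnT g x y)
    (hfree : ∀ u v, OnT g u v → lt (u, v) ∉ WlA D false s0 L S i) : False := by
  have hP0 := D.P0
  have hP1 := D.P1
  have hQ0 := D.Q0
  have hQ1 := D.Q1
  have hq := fun u v hu hv => quad_RC (u := u) (v := v) h0 h1 h2 hu hv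
  have hc : natc D false x y = colp D i := by
    rw [← hone x y (by omega) (by omega) (by omega) (by omega) h0, colp_arc]
  have hp := par_RC_f h0 h1 h2
  rw [hc] at hp
  obtain ⟨g1, g2⟩ := g
  have hg' := col_ev hg
  unfold OnT at hgt
  simp only at hgt
  have n1 : ¬ H74.Win.InP D false (x + 1) y := hq _ _ (by omega) (by omega)
  have n2 : ¬ H74.Win.InP D false x (y + 1) := hq _ _ (by omega) (by omega)
  have c1 : natc D false (x + 1) y = colp D i := by
    rw [← hone (x + 1) y (by omega) (by omega) (by omega) (by omega) n1, colp_arc]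
  have c2 : natc D false x (y + 1) = colp D i := by
    rw [← hone x (y + 1) (by omega) (by omega) (by omega) (by omega) n2, colp_arc]
  have f1 : Fill D false (x + 2) (y + 1) :=
    fill_of fun u v _ _ _ _ => hq u v (by omega) (by omega)
  have f2 : Fill D false (x + 1) (y + 2) :=
    fill_of fun u v _ _ _ _ => hq u v (by omega) (by omega)
  have a1 := hone (x + 2) (y + 1) (by omega) (by omega) (by omega) (by omega) f1.not_inP
  have a2 := hone (x + 1) (y + 2) (by omega) (by omega) (by omega) (by omega) f2.not_inP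
  have r1 : FRt D false (x + 1) y := fr1_RC h0 h1 h2 (by rw [c1]; exact hp)
  have r2 : FRt D false x (y + 1) := fr2_RC h0 h1 h2 (by rw [c2]; exact hp)
  have hpl : NatPl D false (x + 1) y ∧ NatPl D false x (y + 1) := by
    have h1' := h1
    have h2' := h2
    have h0' := h0
    rw [inP_row] at h0' h1' h2'
    rw [sh_false] at h0' h1' h2'
    simp only [add_zero] at h0' h1' h2'
    have h4 := ceilR (D := D) (Y := y) (by omega) (by omega) (by omega)
    have e1 : D.M y = D.b y := by unfold M MM; rw [if_neg (by omega)]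
    have e2 : y + 1 < D.h → D.M (y + 1) = D.b (y + 1) ∧ D.b (y + 1) ≤ D.b y := fun h => by
      refine ⟨?_, b_anti (by omega) (by omega) (by omega)⟩
      unfold M MM; rw [if_neg (by omega)]
    unfold NatPl
    rw [if_neg Bool.false_ne_true, if_neg Bool.false_ne_true]
    constructor
    · omega
    · by_cases hy : y + 1 < D.h
      · have := e2 hy
        omega
      · omega
  have hcs : (g1 = x + 1 ∧ g2 = y) ∨ (g1 = x ∧ g2 = y + 1) := by
    have h3 := hg'.trans hp.symm
    omega
  rcases hcs with ⟨z1, z2⟩ | ⟨z1, z2⟩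
  · refine hfree (x + 1) y (by unfold OnT; simp only; omega) ?_
    refine fz_mem (g := (x + 2, y + 1)) hL r1 ?_ ?_ ?_
      (fiA_of hL f1 a1 h2 (by omega) (by omega) (by omega) (by omega)) ?_
    · rw [hN _ _ r1 hpl.1, c1]
    · refine ev_col (Iff.trans ?_ hp)
      omega
    · unfold OnT; simp only; omega
    · unfold OnT; simp only; omega
  · refine hfree x (y + 1) (by unfold OnT; simp only; omega) ?_
    refine fz_mem (g := (x + 1, y + 2)) hL r2 ?_ ?_ ?_
      (fiA_of hL f2 a2 h1 (by omega) (by omega) (by omega) (by omega)) ?_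
    · rw [hN _ _ r2 hpl.2, c2]
    · refine ev_col (Iff.trans ?_ hp)
      omega
    · unfold OnT; simp only; omega
    · unfold OnT; simp only; omega

/-- **Pockets are not exits.** -/
theorem pk_RC (hL : 5 ≤ L) (hN : NatS D p S)
    (hav : av (EN D p) (WA O p S) (TA D p) (fmA D p s0) (colp D) (WlA D p s0 L S) i (lt (x, y)))
    (h0 : ¬ H74.Win.InP D p x y) (h1 : H74.Win.InP D p (x - 1) y) (h2 : H74.Win.InP D p x (y - 1))
    (hone : One D p s0 i x y) (hg : ev g = colp D i) (hgt : OnT g x y)
    (hfree : ∀ u v, OnT g u v → lt (u, v) ∉ WlA D p s0 L S i) : False := by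
  cases p
  · exact pkn_RC hL hN h0 h1 h2 hone hg hgt hfree
  · exact pkc_RC hL hav h0 h1 h2 hone

/-- **Diagonal tiles of one arc are not exits.** -/
theorem dg_RC (hL : 5 ≤ L)
    (hav : av (EN D p) (WA O p S) (TA D p) (fmA D p s0) (colp D) (WlA D p s0 L S) i (lt (x, y)))
    (h0 : ¬ H74.Win.InP D p x (y - 1)) (h1 : ¬ H74.Win.InP D p (x - 1) y)
    (h2 : H74.Win.InP D p (x - 1) (y - 1)) (hone : One D p s0 i x y)
    (hg : ev (x, y) = colp D i) : False := by
  have hq := fun u v hu hv => quadD_RC (u := u) (v := v) h0 h1 h2 hu hv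
  have hf : Fill D p (x + 1) (y + 1) :=
    fill_of fun u v _ _ _ _ => hq u v (by omega) (by omega)
  have ha := hone (x + 1) (y + 1) (by omega) (by omega) (by omega) (by omega) hf.not_inP
  have hfr : FRt D p x y := by
    refine fr_of_not_ly (near_of h2 (by omega) (by omega) (by omega) (by omega))
      (hq _ _ (by omega) (by omega)) fun s hs => ?_
    cases s
    · exact hq _ _ (by omega) (by omega) (lyL.2 hs).1
    · exact h1 (lyR.2 hs).1
    · exact hq _ _ (by omega) (by omega) (lyF.2 hs).1
    · exact h0 (lyC.2 hs).1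
  have hg' := col_ev hg
  refine no_fz (g := (x + 1, y + 1)) hL hav hfr ?_ ?_
    (fiA_of hL hf ha h2 (by omega) (by omega) (by omega) (by omega)) ?_
  · refine ev_col (Iff.trans ?_ hg')
    omega
  · unfold OnT; simp only; omega
  · unfold OnT; simp only; omega

end Pool.Agent.H46.Sp.CG
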