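import Mathlib
import Pool.Agent.H13.Sp.Mult
import Pool.Agent.H13.Sp.Root
import Pool.Agent.H13.R45.Mul4

set_option autoImplicit false
open Finset

/-! # The root and the corners of the path are away from the boxes of the ties

`dist_bx` : tiles of the box of a tie are at distance at most `2R` from the tie. `root_A` : the field `root` of
`FlatWall` and `Walls` for the environment `XA O p S`. `cs_A` : the field `cs` from the depth of the tiles at the
corners. -/

namespace Pool.Agent.H46.Sp.CG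

open Pool.Agent.H75.Perc Pool.Agent.H75.TwoArm Pool.Agent.Q1 Pool.Agent.H33.Q1
open Pool.Agent.H75.Four
open Pool.Agent.H69.Q1
open Pool.Agent.H39.Q1 (bx)
open Pool.Agent.H46.Sp Pool.Agent.H46.Sp.Win
open Pool.Agent.H74.Win Pool.Agent.H42.Sp
open Pool.Agent.H13.Sp
open Pool.Agent.H13.R45 (ev gp Tg Ag OutF tg_lt lab_at mem_bx_gp bx_lt ag_iff corner_cases ag_ve ag_he)
open Pool.Agent.H74.R45 (exists_lt)

variable {D : Win} {p : Bool} {x y u v s0 s L m R : ℤ} {e l c : ℤ × ℤ} {g : ℤ × ℤ} {O : OutB D} {k : Sd} {o : Bool}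

/-- every corner is at some grid point -/
lemma exists_Ag (c : ℤ × ℤ) : ∃ g, Ag g c := by
  rcases corner_cases c with ⟨x, y, rfl⟩ | ⟨x, y, rfl⟩
  · exact ⟨(x, y), ag_ve.2 (Or.inl rfl)⟩
  · exact ⟨(x, y), ag_he.2 (Or.inl rfl)⟩

/-- **The box of a tie is at distance at most `2R` from the tie.** -/
theorem dist_bx (h : TieP D p k o u v)
    (hl : lt (x, y) ∈ bx (colp D (fmA D p s0 (lt (u, v)))) (bA D p (lt (u, v))) R) :
    x ≤ u + 2 * R ∧ u ≤ x + 2 * R ∧ y ≤ v + 2 * R ∧ v ≤ y + 2 * R := by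
  rw [h.co, h.b, mem_bx_gp (ev_bt h.odd)] at hl
  have h1 := onT_bt (k := k) (c := o) (u := u) (v := v)
  unfold OnT at h1
  omega

/-- the tiles of a box -/
lemma exists_bx (he : e ∈ TA D p) (hl : l ∈ bx (colp D (fmA D p s0 e)) (bA D p e) R) :
    ∃ u v x y k o, e = lt (u, v) ∧ l = lt (x, y) ∧ TieP D p k o u v ∧
      x ≤ u + 2 * R ∧ u ≤ x + 2 * R ∧ y ≤ v + 2 * R ∧ v ≤ y + 2 * R := by
  obtain ⟨u, v, k, o, rfl, h⟩ := exists_tie he
  obtain ⟨x, y, rfl⟩ := bx_lt hl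
  exact ⟨u, v, x, y, k, o, rfl, rfl, h, dist_bx h hl⟩

/-- **The root is not in the box of a tie.** -/
theorem root_A (hroot : ∀ g, Ag g O.c0 → OutF (D.a (D.yP - 1) - L + 1) (D.b D.yQ + L) (-L + 1) (D.h + L) g)
    (hRL : 2 * R + 6 ≤ L) (he : e ∈ TA D p) : lab O.c0 ∉ bx (colp D (fmA D p s0 e)) (bA D p e) R := by
  intro hl
  obtain ⟨u, v, x, y, k, o, -, h1, h, h2, h3, h4, h5⟩ := exists_bx he hl
  obtain ⟨g, hg⟩ := exists_Ag O.c0
  have h6 := hroot g hg
  have h7 := lab_at hg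
  rw [h1] at h7
  have h8 := tg_lt h7
  have h9 := h.inB
  unfold InB at h9
  unfold OutF at h6
  omega

/-- **Deep corners are not in the box of a tie.** -/
theorem cs_A (hc : ∀ g, Ag g c → ∀ x y, OnT g x y → Dp D p m x y) (hRm : 2 * R ≤ m) (he : e ∈ TA D p) :
    lab c ∉ bx (colp D (fmA D p s0 e)) (bA D p e) R := by
  intro hl
  obtain ⟨u, v, x, y, k, o, -, h1, h, h2, h3, h4, h5⟩ := exists_bx he hl
  obtain ⟨g, hg⟩ := exists_Ag c
  have h7 := lab_at hg
  rw [h1] at h7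
  have h8 := tg_lt h7
  have h9 : OnT g x y := by unfold OnT; omega
  exact h.ly.out (hc g hg x y h9 u v (by omega) (by omega) (by omega) (by omega))

end Pool.Agent.H46.Sp.CG
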