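import Mathlib
import Pool.Agent.H46.Sp.RootC
import Pool.Agent.H46.Sp.GateC
import Pool.Agent.Q1.M6e.ApWin
import Pool.Agent.Q1.M6e.LPath

set_option autoImplicit false
open Finset

/-! # The corners of the L-shaped path are deep

`deep_LC` : if the rectangle spanned by `u` and `v`, enlarged by `d`, lies in `P^p`, then the tiles at the
corners of the L-shaped path are deep (`Dp D p m`, `m + 2 ≤ d`). -/

namespace Pool.Agent.H46.Sp.CG

open Pool.Agent.H33.Q1
open Pool.Agent.H74.R45 (exists_lt)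
open Pool.Agent.H46.Sp (Win)
open Pool.Agent.H74.Win (InP)
open Pool.Agent.H13.Sp (Dp OnT)
open Pool.Agent.H13.R45 (Ag ag_he ag_ve)
open Pool.Agent.Q1.M6e (Lk LC mem_LC)

variable {D : Win} {p : Bool} {m : ℤ} {d : ℝ} {u v c : ℤ × ℤ}

theorem deep_LC (h : Lk (InP D p) d u v) (hm : (m : ℝ) + 2 ≤ d) (hc : c ∈ LC u.1 u.2 v.1 v.2) :
    ∀ g, Ag g c → ∀ x y, OnT g x y → Dp D p m x y := by
  intro g hg x y hxy a b h1 h2 h3 h4
  unfold OnT at hxy
  have hd : ((m + 2 : ℤ) : ℝ) ≤ d := by push_cast; exact hm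
  rcases mem_LC.1 hc with ⟨i, ⟨h5, h6⟩, rfl⟩ | ⟨l, ⟨h5, h6⟩, rfl⟩
  · rcases ag_he.1 hg with rfl | rfl <;> simp only at hxy <;>
      exact h.int hd (by omega) (by omega) (by omega) (by omega)
  · rcases ag_ve.1 hg with rfl | rfl <;> simp only at hxy <;>
      exact h.int hd (by omega) (by omega) (by omega) (by omega)

end Pool.Agent.H46.Sp.CG
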