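import Mathlib
import Pool.Agent.H46.Sp.GateC
import Pool.Agent.H54.Sp.FlatBox

set_option autoImplicit false
open Finset

/-! # Flat boxes at the unit edges of a coarse window

For every unit edge and every grid point `g` on it at distance at least `r + 3` from its ends,
`FlatBox D p s0 s i g r`, where `i` is the arc of the edge: `rep D s0 (2h + 2 - (n Y + 1))` on the left side
of the row `Y` of cells, `rep D s0 (n Y + 3)` on the right side, `rep D s0 0` at the bottom, `rep D s0 (h + 2)`
at the top; ledges have the arc of the row of cells outside. -/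

namespace Pool.Agent.H46.Sp.CG

open Pool.Agent.H46.Sp (Win)
open Pool.Agent.H46.Sp.Win (m_le_a b_le_M m_le_a' b_le_M')
open Pool.Agent.H31.Sp (Coarse CoarseC CQ)
open Pool.Agent.H42.Sp (Sd)
open Pool.Agent.H13.Sp
open Pool.Agent.H74.Win (OutB InP sh sh_cases)
open Pool.Agent.H54.Sp (hS Sq FlatBox)

variable {D : Win} {n H : ℤ} {A B : ℤ → ℤ} {r x y y' X Y s0 : ℤ} {p : Bool} {g : ℤ × ℤ}
  {YP YQ : ℤ} {CL CR : ℤ → Bool}

section

variable (C : CoarseC D n H A B YP YQ CL CR) (hcut : colp D (s0 - 1) ≠ colp D s0)

include C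

/-- colours of the left positions of a row of cells -/
lemma cl_row (h0 : 0 ≤ Y) (h1 : Y < H) (h2 : n * Y ≤ y) (h3 : y + 2 ≤ n * Y + n) :
    D.cl y = CL Y := by
  have hn := C.pos
  have hr := row_h C.toCoarse h0 h1
  rw [C.cl y (by omega) (by omega), dv_eq (X := Y) hn (by omega) (by omega),
    dv_eq (X := Y) (x := y) hn (by omega) (by omega), ite_self]

lemma cr_row (h0 : 0 ≤ Y) (h1 : Y < H) (h2 : n * Y ≤ y) (h3 : y + 2 ≤ n * Y + n) :
    D.cr y = CR Y := by
  have hn := C.pos
  have hr := row_h C.toCoarse h0 h1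
  rw [C.cr y (by omega) (by omega), dv_eq (X := Y) hn (by omega) (by omega),
    dv_eq (X := Y) (x := y) hn (by omega) (by omega), ite_self]

include hcut

/-- **The left positions of a row of cells are in one arc.** -/
theorem rep_L (h0 : 0 ≤ Y) (h1 : Y < H) (h2 : n * Y ≤ y) (h3 : y + 2 ≤ n * Y + n) :
    rep D s0 (2 * D.h + 2 - y) = rep D s0 (2 * D.h + 2 - (n * Y + 1)) := by
  have hn := C.hn
  have hr := row_h C.toCoarse h0 h1
  have key : ∀ k : ℕ, n * Y + k + 2 ≤ n * Y + n →
      rep D s0 (2 * D.h + 2 - (n * Y + k)) = rep D s0 (2 * D.h + 2 - (n * Y)) := by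
    intro k
    induction k with
    | zero => intro _; simp
    | succ k ih =>
      intro h4
      push_cast at h4 ⊢
      rw [← ih (by omega)]
      have h5 := rep_adj (s := 2 * D.h + 2 - (n * Y + (k + 1))) hcut (by
        rw [show 2 * D.h + 2 - (n * Y + ((k : ℤ) + 1)) + 1 = 2 * D.h + 2 - (n * Y + k) by ring,
          colp_left (by omega) (by omega), colp_left (by omega) (by omega),
          cl_row C h0 h1 (by omega) (by omega), cl_row C h0 h1 (by omega) (by omega)])
      rw [← h5]
      congr 1
      ring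
  have e1 := key (y - n * Y).toNat (by omega)
  have e2 := key 1 (by push_cast; omega)
  rw [Int.toNat_of_nonneg (by omega), show n * Y + (y - n * Y) = y by ring] at e1
  rw [e1, ← e2]
  push_cast
  rfl

/-- **The right positions of a row of cells are in one arc.** -/
theorem rep_R (h0 : 0 ≤ Y) (h1 : Y < H) (h2 : n * Y ≤ y) (h3 : y + 2 ≤ n * Y + n) :
    rep D s0 (y + 2) = rep D s0 (n * Y + 3) := by
  have hn := C.hn
  have hr := row_h C.toCoarse h0 h1
  have key : ∀ k : ℕ, n * Y + k + 2 ≤ n * Y + n →
      rep D s0 (n * Y + k + 2) = rep D s0 (n * Y + 2) := by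
    intro k
    induction k with
    | zero => intro _; simp
    | succ k ih =>
      intro h4
      push_cast at h4 ⊢
      rw [← ih (by omega)]
      have h5 := rep_adj (s := n * Y + k + 2) hcut (by
        rw [show n * Y + (k : ℤ) + 2 + 1 = (n * Y + (k + 1)) + 2 by ring,
          colp_right (by omega) (by omega), colp_right (by omega) (by omega),
          cr_row C h0 h1 (by omega) (by omega), cr_row C h0 h1 (by omega) (by omega)])
      rw [← h5]
      congr 1
      ring
  have e1 := key (y - n * Y).toNat (by omega)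
  have e2 := key 1 (by push_cast; omega)
  rw [Int.toNat_of_nonneg (by omega), show n * Y + (y - n * Y) + 2 = y + 2 by ring] at e1
  rw [e1, ← e2]
  congr 1
  push_cast
  ring

omit hcut

/-- the columns of the union next to a row of cells -/
lemma m_row (h0 : 0 ≤ Y) (h1 : Y < H) (h2 : n * Y < y) (h3 : y + 2 < n * Y + n) :
    D.m y = n * A Y ∧ D.M y = n * B Y := by
  have e1 := ab_mid C.toCoarse h0 h1 (y := y) (by omega) (by omega)
  have e2 := ab_mid C.toCoarse h0 h1 (y := y + 1) (by omega) (by omega)
  unfold Win.m Win.M Pool.Agent.H46.Sp.mm Pool.Agent.H46.Sp.MM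
  constructor
  · split_ifs
    · exact e2.1
    · exact e1.1
  · split_ifs
    · exact e2.2
    · exact e1.2

/-- the columns of the union next to a row of cells, up to notches -/
lemma m_row' (h0 : 0 ≤ Y) (h1 : Y < H) (h2 : n * Y ≤ y) (h3 : y + 2 ≤ n * Y + n) :
    (n * A Y - 1 ≤ D.m y ∧ D.m y ≤ n * A Y) ∧ n * B Y ≤ D.M y ∧ D.M y ≤ n * B Y + 1 := by
  have hn := C.pos
  have hr := row_h C.toCoarse h0 h1
  have d1 := dv_eq (n := n) (X := Y) (x := y) hn (by omega) (by omega)
  have d2 := dv_eq (n := n) (X := Y) (x := y + 1) hn (by omega) (by omega)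
  have e1 := C.a_le (y := y) (by omega) (by omega)
  have e2 := C.a_le (y := y + 1) (by omega) (by omega)
  have e3 := C.le_b (y := y) (by omega) (by omega)
  have e4 := C.le_b (y := y + 1) (by omega) (by omega)
  rw [d1] at e1 e3
  rw [d2] at e2 e4
  unfold Win.m Win.M Pool.Agent.H46.Sp.mm Pool.Agent.H46.Sp.MM
  constructor
  · split_ifs
    · exact e2
    · exact e1
  · split_ifs
    · exact e4
    · exact e3

include hcut

/-- **Flat boxes on the left side.** -/
theorem flat_L (hr : 2 * r + 8 ≤ n) (h0 : 0 ≤ Y) (h1 : Y < H) (hg : g.1 = n * A Y)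
    (h2 : n * Y + r + 3 ≤ g.2 + sh p) (h3 : g.2 + sh p + r + 3 ≤ n * Y + n) :
    FlatBox D p s0 .L (rep D s0 (2 * D.h + 2 - (n * Y + 1))) g r := by
  have hw := AB_n C.toCoarse h0 h1
  have hh := row_h C.toCoarse h0 h1
  have hs : sh p = 0 ∨ sh p = 1 := by rcases sh_cases p with h | h <;> omega
  constructor
  · intro x y hx
    obtain ⟨⟨k1, k2⟩, k3, k4⟩ := hx
    have e := ab_mid C.toCoarse h0 h1 (y := y + sh p) (by omega) (by omega)
    unfold InP
    simp only [hS]
    omega
  · intro x y hx hn
    obtain ⟨⟨k1, k2⟩, k3, k4⟩ := hx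
    simp only [hS] at hn
    have e := m_row C h0 h1 (y := y) (by omega) (by omega)
    unfold arc ps
    rw [if_neg (by omega), if_neg (by omega), if_pos (by omega)]
    exact rep_L C hcut h0 h1 (by omega) (by omega)

/-- **Flat boxes on the right side.** -/
theorem flat_R (hr : 2 * r + 8 ≤ n) (h0 : 0 ≤ Y) (h1 : Y < H) (hg : g.1 = n * B Y)
    (h2 : n * Y + r + 3 ≤ g.2 + sh p) (h3 : g.2 + sh p + r + 3 ≤ n * Y + n) :
    FlatBox D p s0 .R (rep D s0 (n * Y + 3)) g r := by
  have hw := AB_n C.toCoarse h0 h1
  have hh := row_h C.toCoarse h0 h1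
  have hs : sh p = 0 ∨ sh p = 1 := by rcases sh_cases p with h | h <;> omega
  constructor
  · intro x y hx
    obtain ⟨⟨k1, k2⟩, k3, k4⟩ := hx
    have e := ab_mid C.toCoarse h0 h1 (y := y + sh p) (by omega) (by omega)
    unfold InP
    simp only [hS]
    omega
  · intro x y hx hn
    obtain ⟨⟨k1, k2⟩, k3, k4⟩ := hx
    simp only [hS] at hn
    have e := m_row C h0 h1 (y := y) (by omega) (by omega)
    unfold arc ps
    rw [if_neg (by omega), if_neg (by omega), if_neg (by omega), if_pos (by omega)]
    exact rep_R C hcut h0 h1 (by omega) (by omega)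

omit hcut

/-- tiles over and under a horizontal unit edge -/
lemma cell_col (h2 : n * X + r + 3 ≤ g.1) (h3 : g.1 + r + 3 ≤ n * X + n)
    (k1 : g.1 - r ≤ x) (k2 : x < g.1 + r) {Y' : ℤ} (k3 : n * Y' ≤ y + sh p)
    (k4 : y + sh p < n * Y' + n) : InP D p x y ↔ CQ H A B X Y' := by
  have hn := C.pos
  have e1 := dv_eq (n := n) (X := X) (x := x) hn (by omega) (by omega)
  have e2 := dv_eq (n := n) (X := Y') (x := y + sh p) hn k3 k4
  have e3 := dv hn x
  rw [C.inP_iff (by
    rw [e1] at e3
    omega), e1, e2]

/-- **Flat boxes at the bottom.** -/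
theorem flat_B (hr : 2 * r + 8 ≤ n) (hX : A 0 ≤ X) (hX' : X < B 0) (hg : g.2 + sh p = 0)
    (h2 : n * X + r + 3 ≤ g.1) (h3 : g.1 + r + 3 ≤ n * X + n) :
    FlatBox D p s0 .F (rep D s0 0) g r := by
  have hn := C.pos
  have hH := C.HH
  have hh := row_h C.toCoarse le_rfl hH
  have hs : sh p = 0 ∨ sh p = 1 := by rcases sh_cases p with h | h <;> omega
  constructor
  · intro x y hx
    obtain ⟨⟨k1, k2⟩, k3, k4⟩ := hx
    simp only [hS]
    by_cases hy : g.2 ≤ y
    · rw [cell_col C h2 h3 k1 k2 (Y' := 0) (by omega) (by omega)]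
      unfold CQ
      omega
    · rw [cell_col C h2 h3 k1 k2 (Y' := -1) (by omega) (by omega)]
      unfold CQ
      omega
  · intro x y hx hy
    obtain ⟨⟨k1, k2⟩, k3, k4⟩ := hx
    simp only [hS] at hy
    unfold arc ps
    by_cases c1 : y < -1
    · rw [if_pos c1]
    · have hy1 : y = -1 := by omega
      have hP0 := D.P0
      have hQ0 := D.Q0
      have e1 := C.a_le (y := 0) le_rfl (by omega)
      have e2 := C.le_b (y := 0) le_rfl (by omega)
      rw [Int.zero_ediv] at e1 e2
      have f1 : n * A 0 ≤ n * X := mul_le_mul_of_nonneg_left hX hn.le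
      have f2 : n * (X + 1) ≤ n * B 0 := mul_le_mul_of_nonneg_left (by omega) hn.le
      have f3 : n * (X + 1) = n * X + n := by ring
      have e3 : D.m (-1) = D.a 0 := by
        unfold Win.m Pool.Agent.H46.Sp.mm
        rw [if_pos (by omega)]
        rfl
      have e4 : D.M (-1) = D.b 0 := by
        unfold Win.M Pool.Agent.H46.Sp.MM
        rw [if_pos (by omega)]
        rfl
      subst hy1
      have hp : ¬ p = true := by
        intro hp
        subst hp
        simp at hg hs
        omega
      rw [if_neg c1, if_neg (by omega), if_neg (by omega), if_neg (by omega), if_neg hp, if_pos rfl]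

/-- **Flat boxes at the top.** -/
theorem flat_T (hr : 2 * r + 8 ≤ n) (hX : A (H - 1) ≤ X) (hX' : X < B (H - 1))
    (hg : g.2 + sh p = n * H) (h2 : n * X + r + 3 ≤ g.1) (h3 : g.1 + r + 3 ≤ n * X + n) :
    FlatBox D p s0 .C (rep D s0 (D.h + 2)) g r := by
  have hn := C.pos
  have hH := C.HH
  have hhH := C.hh
  have hh := row_h C.toCoarse (Y := H - 1) (by omega) (by omega)
  have e0 : n * (H - 1) = n * H - n := by ring
  have hs : sh p = 0 ∨ sh p = 1 := by rcases sh_cases p with h | h <;> omega
  constructor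
  · intro x y hx
    obtain ⟨⟨k1, k2⟩, k3, k4⟩ := hx
    simp only [hS]
    by_cases hy : g.2 ≤ y
    · rw [cell_col C h2 h3 k1 k2 (Y' := H) (by omega) (by omega)]
      unfold CQ
      omega
    · rw [cell_col C h2 h3 k1 k2 (Y' := H - 1) (by omega) (by omega)]
      unfold CQ
      omega
  · intro x y hx hy
    obtain ⟨⟨k1, k2⟩, k3, k4⟩ := hx
    simp only [hS] at hy
    unfold arc ps
    by_cases c1 : D.h ≤ y
    · rw [if_neg (by omega), if_pos c1]
    · have hP1 := D.P1
      have hQ1 := D.Q1
      have hy1 : y = D.h - 1 := by omega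
      have hd := dv_eq (n := n) (X := H - 1) (x := D.h - 1) hn (by omega) (by omega)
      have e1 := C.a_le (y := D.h - 1) (by omega) (by omega)
      have e2 := C.le_b (y := D.h - 1) (by omega) (by omega)
      rw [hd] at e1 e2
      have f1 : n * A (H - 1) ≤ n * X := mul_le_mul_of_nonneg_left hX hn.le
      have f2 : n * (X + 1) ≤ n * B (H - 1) := mul_le_mul_of_nonneg_left (by omega) hn.le
      have f3 : n * (X + 1) = n * X + n := by ring
      have e3 : D.m (D.h - 1) = D.a (D.h - 1) := by
        unfold Win.m Pool.Agent.H46.Sp.mm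
        rw [if_neg (by omega)]
      have e4 : D.M (D.h - 1) = D.b (D.h - 1) := by
        unfold Win.M Pool.Agent.H46.Sp.MM
        rw [if_neg (by omega)]
      subst hy1
      have hp : p = true := by
        cases p
        · simp at hg
          omega
        · rfl
      rw [if_neg (by omega), if_neg c1, if_neg (by omega), if_neg (by omega), if_pos hp, if_pos rfl]

include hcut

/-- **Flat boxes at a floor on the left side.** -/
theorem flat_FL (hr : 2 * r + 8 ≤ n) (h0 : 1 ≤ Y) (h1 : Y < H) (hX : A Y ≤ X)
    (hX' : X < A (Y - 1)) (hg : g.2 + sh p = n * Y)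
    (h2 : n * X + r + 3 ≤ g.1) (h3 : g.1 + r + 3 ≤ n * X + n) :
    FlatBox D p s0 .F (rep D s0 (2 * D.h + 2 - (n * (Y - 1) + 1))) g r := by
  have hn := C.pos
  have hh := row_h C.toCoarse (Y := Y) (by omega) h1
  have hh' := row_h C.toCoarse (Y := Y - 1) (by omega) (by omega)
  have e0 : n * (Y - 1) = n * Y - n := by ring
  have hs : sh p = 0 ∨ sh p = 1 := by rcases sh_cases p with h | h <;> omega
  have o1 := C.ov1 (Y - 1) (by omega) (by omega)
  have o2 := C.ov2 (Y - 1) (by omega) (by omega)
  have o3 := C.AB (Y - 1) (by omega) (by omega)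
  rw [sub_add_cancel] at o1 o2
  constructor
  · intro x y hx
    obtain ⟨⟨k1, k2⟩, k3, k4⟩ := hx
    simp only [hS]
    by_cases hy : g.2 ≤ y
    · rw [cell_col C h2 h3 k1 k2 (Y' := Y) (by omega) (by omega)]
      unfold CQ
      omega
    · rw [cell_col C h2 h3 k1 k2 (Y' := Y - 1) (by omega) (by omega)]
      unfold CQ
      omega
  · intro x y hx hy
    obtain ⟨⟨k1, k2⟩, k3, k4⟩ := hx
    simp only [hS] at hy
    have f1 : n * A Y ≤ n * X := mul_le_mul_of_nonneg_left hX hn.le
    have f2 : n * (X + 1) ≤ n * A (Y - 1) := mul_le_mul_of_nonneg_left (by omega) hn.le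
    have f3 : n * (X + 1) = n * X + n := by ring
    unfold arc ps
    by_cases c1 : y + 2 ≤ n * Y
    · have e1 := m_row' C (Y := Y - 1) (y := y) (by omega) (by omega) (by omega) (by omega)
      rw [if_neg (by omega), if_neg (by omega), if_pos (by omega)]
      exact rep_L C hcut (by omega) (by omega) (by omega) (by omega)
    · have hy1 : y = n * Y - 1 := by omega
      have hp : ¬ p = true := by
        intro hp
        rw [hp] at hs hg
        simp at hg
        omega
      have g1 := C.a_le (y := n * Y) (by omega) (by omega)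
      have g2 := C.a_le (y := n * Y - 1) (by omega) (by omega)
      rw [dv_eq (X := Y) hn (by omega) (by omega)] at g1
      rw [dv_eq (X := Y - 1) hn (by omega) (by omega)] at g2
      have g3 := floorL (D := D) (Y := n * Y - 1) (by omega) (by omega) (by
        rw [sub_add_cancel]; omega)
      have e3 : D.m (n * Y - 1) = D.a (n * Y) := by
        unfold Win.m Pool.Agent.H46.Sp.mm
        rw [if_pos g3, sub_add_cancel]
      have e4 := b_le_M' (D := D) (y := n * Y - 1) (by omega)
      have e5 := C.le_b (y := n * Y) (by omega) (by omega)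
      rw [dv_eq (X := Y) hn (by omega) (by omega)] at e5
      rw [sub_add_cancel] at e4
      have f4 : n * (X + 1) ≤ n * B Y := mul_le_mul_of_nonneg_left (by omega) hn.le
      subst hy1
      rw [if_neg (by omega), if_neg (by omega), if_neg (by omega), if_neg (by omega), if_neg hp,
        if_neg (by omega), if_pos (by omega),
        show 2 * D.h + 3 - (n * Y - 1) = 2 * D.h + 2 - (n * Y - 2) by ring]
      exact rep_L C hcut (by omega) (by omega) (by omega) (by omega)

/-- **Flat boxes at a floor on the right side.** -/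
theorem flat_FR (hr : 2 * r + 8 ≤ n) (h0 : 1 ≤ Y) (h1 : Y < H) (hX : B (Y - 1) ≤ X)
    (hX' : X < B Y) (hg : g.2 + sh p = n * Y)
    (h2 : n * X + r + 3 ≤ g.1) (h3 : g.1 + r + 3 ≤ n * X + n) :
    FlatBox D p s0 .F (rep D s0 (n * (Y - 1) + 3)) g r := by
  have hn := C.pos
  have hh := row_h C.toCoarse (Y := Y) (by omega) h1
  have hh' := row_h C.toCoarse (Y := Y - 1) (by omega) (by omega)
  have e0 : n * (Y - 1) = n * Y - n := by ring
  have hs : sh p = 0 ∨ sh p = 1 := by rcases sh_cases p with h | h <;> omega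
  have o1 := C.ov1 (Y - 1) (by omega) (by omega)
  have o2 := C.ov2 (Y - 1) (by omega) (by omega)
  have o3 := C.AB (Y - 1) (by omega) (by omega)
  rw [sub_add_cancel] at o1 o2
  constructor
  · intro x y hx
    obtain ⟨⟨k1, k2⟩, k3, k4⟩ := hx
    simp only [hS]
    by_cases hy : g.2 ≤ y
    · rw [cell_col C h2 h3 k1 k2 (Y' := Y) (by omega) (by omega)]
      unfold CQ
      omega
    · rw [cell_col C h2 h3 k1 k2 (Y' := Y - 1) (by omega) (by omega)]
      unfold CQ
      omega
  · intro x y hx hy
    obtain ⟨⟨k1, k2⟩, k3, k4⟩ := hx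
    simp only [hS] at hy
    have f1 : n * B (Y - 1) ≤ n * X := mul_le_mul_of_nonneg_left hX hn.le
    have f2 : n * (X + 1) ≤ n * B Y := mul_le_mul_of_nonneg_left (by omega) hn.le
    have f3 : n * (X + 1) = n * X + n := by ring
    have f5 : n * A (Y - 1) ≤ n * X := mul_le_mul_of_nonneg_left (by omega) hn.le
    have f6 : n * A Y ≤ n * X := mul_le_mul_of_nonneg_left (by omega) hn.le
    unfold arc ps
    by_cases c1 : y + 2 ≤ n * Y
    · have e1 := m_row' C (Y := Y - 1) (y := y) (by omega) (by omega) (by omega) (by omega)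
      rw [if_neg (by omega), if_neg (by omega), if_neg (by omega), if_pos (by omega)]
      exact rep_R C hcut (by omega) (by omega) (by omega) (by omega)
    · have hy1 : y = n * Y - 1 := by omega
      have hp : ¬ p = true := by
        intro hp
        rw [hp] at hs hg
        simp at hg
        omega
      have g1 := C.le_b (y := n * Y) (by omega) (by omega)
      have g2 := C.le_b (y := n * Y - 1) (by omega) (by omega)
      have g5 := C.a_le (y := n * Y - 1) (by omega) (by omega)
      rw [dv_eq (X := Y) hn (by omega) (by omega)] at g1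
      rw [dv_eq (X := Y - 1) hn (by omega) (by omega)] at g2 g5
      have g3 := floorR (D := D) (Y := n * Y - 1) (by omega) (by
        rw [sub_add_cancel]; omega)
      have e3 : D.M (n * Y - 1) = D.b (n * Y) := by
        unfold Win.M Pool.Agent.H46.Sp.MM
        rw [if_pos g3, sub_add_cancel]
      have e4 := m_le_a (D := D) (y := n * Y - 1) (by omega)
      subst hy1
      rw [if_neg (by omega), if_neg (by omega), if_neg (by omega), if_neg (by omega), if_neg hp,
        if_neg (by omega), if_neg (by omega),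
        show n * Y - 1 + 1 = (n * Y - 2) + 2 by ring]
      exact rep_R C hcut (by omega) (by omega) (by omega) (by omega)

/-- **Flat boxes at a ceiling on the left side.** -/
theorem flat_CL (hr : 2 * r + 8 ≤ n) (h0 : 1 ≤ Y) (h1 : Y < H) (hX : A (Y - 1) ≤ X)
    (hX' : X < A Y) (hg : g.2 + sh p = n * Y)
    (h2 : n * X + r + 3 ≤ g.1) (h3 : g.1 + r + 3 ≤ n * X + n) :
    FlatBox D p s0 .C (rep D s0 (2 * D.h + 2 - (n * Y + 1))) g r := by
  have hn := C.pos
  have hh := row_h C.toCoarse (Y := Y) (by omega) h1
  have hh' := row_h C.toCoarse (Y := Y - 1) (by omega) (by omega)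
  have e0 : n * (Y - 1) = n * Y - n := by ring
  have hs : sh p = 0 ∨ sh p = 1 := by rcases sh_cases p with h | h <;> omega
  have o1 := C.ov1 (Y - 1) (by omega) (by omega)
  have o2 := C.ov2 (Y - 1) (by omega) (by omega)
  have o3 := C.AB (Y - 1) (by omega) (by omega)
  rw [sub_add_cancel] at o1 o2
  constructor
  · intro x y hx
    obtain ⟨⟨k1, k2⟩, k3, k4⟩ := hx
    simp only [hS]
    by_cases hy : g.2 ≤ y
    · rw [cell_col C h2 h3 k1 k2 (Y' := Y) (by omega) (by omega)]
      unfold CQ
      omega
    · rw [cell_col C h2 h3 k1 k2 (Y' := Y - 1) (by omega) (by omega)]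
      unfold CQ
      omega
  · intro x y hx hy
    obtain ⟨⟨k1, k2⟩, k3, k4⟩ := hx
    simp only [hS] at hy
    have f1 : n * A (Y - 1) ≤ n * X := mul_le_mul_of_nonneg_left hX hn.le
    have f2 : n * (X + 1) ≤ n * A Y := mul_le_mul_of_nonneg_left (by omega) hn.le
    have f3 : n * (X + 1) = n * X + n := by ring
    have f4 : n * (X + 1) ≤ n * B (Y - 1) := mul_le_mul_of_nonneg_left (by omega) hn.le
    unfold arc ps
    by_cases c1 : n * Y ≤ y
    · have e1 := m_row' C (Y := Y) (y := y) (by omega) (by omega) (by omega) (by omega)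
      rw [if_neg (by omega), if_neg (by omega), if_pos (by omega)]
      exact rep_L C hcut (by omega) (by omega) (by omega) (by omega)
    · have hy1 : y = n * Y - 1 := by omega
      have hp : p = true := by
        cases p
        · simp at hg
          omega
        · rfl
      have g1 := C.a_le (y := n * Y) (by omega) (by omega)
      have g2 := C.a_le (y := n * Y - 1) (by omega) (by omega)
      have g4 := C.le_b (y := n * Y - 1) (by omega) (by omega)
      rw [dv_eq (X := Y) hn (by omega) (by omega)] at g1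
      rw [dv_eq (X := Y - 1) hn (by omega) (by omega)] at g2 g4
      have g3 := ceilL (D := D) (Y := n * Y) (by omega) (by omega) (by omega)
      have e3 : D.m (n * Y - 1) = D.a (n * Y - 1) := by
        unfold Win.m Pool.Agent.H46.Sp.mm
        rw [if_neg (by omega)]
      have e4 := b_le_M (D := D) (y := n * Y - 1) (by omega)
      subst hy1
      rw [if_neg (by omega), if_neg (by omega), if_neg (by omega), if_neg (by omega), if_pos hp,
        if_neg (by omega), sub_add_cancel, if_pos (by omega),
        show 2 * D.h + 1 - (n * Y - 1) = 2 * D.h + 2 - n * Y by ring]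
      exact rep_L C hcut (by omega) (by omega) (by omega) (by omega)

/-- **Flat boxes at a ceiling on the right side.** -/
theorem flat_CR (hr : 2 * r + 8 ≤ n) (h0 : 1 ≤ Y) (h1 : Y < H) (hX : B Y ≤ X)
    (hX' : X < B (Y - 1)) (hg : g.2 + sh p = n * Y)
    (h2 : n * X + r + 3 ≤ g.1) (h3 : g.1 + r + 3 ≤ n * X + n) :
    FlatBox D p s0 .C (rep D s0 (n * Y + 3)) g r := by
  have hn := C.pos
  have hh := row_h C.toCoarse (Y := Y) (by omega) h1
  have hh' := row_h C.toCoarse (Y := Y - 1) (by omega) (by omega)
  have e0 : n * (Y - 1) = n * Y - n := by ring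
  have hs : sh p = 0 ∨ sh p = 1 := by rcases sh_cases p with h | h <;> omega
  have o1 := C.ov1 (Y - 1) (by omega) (by omega)
  have o2 := C.ov2 (Y - 1) (by omega) (by omega)
  have o3 := C.AB Y (by omega) (by omega)
  rw [sub_add_cancel] at o1 o2
  constructor
  · intro x y hx
    obtain ⟨⟨k1, k2⟩, k3, k4⟩ := hx
    simp only [hS]
    by_cases hy : g.2 ≤ y
    · rw [cell_col C h2 h3 k1 k2 (Y' := Y) (by omega) (by omega)]
      unfold CQ
      omega
    · rw [cell_col C h2 h3 k1 k2 (Y' := Y - 1) (by omega) (by omega)]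
      unfold CQ
      omega
  · intro x y hx hy
    obtain ⟨⟨k1, k2⟩, k3, k4⟩ := hx
    simp only [hS] at hy
    have f1 : n * B Y ≤ n * X := mul_le_mul_of_nonneg_left hX hn.le
    have f2 : n * (X + 1) ≤ n * B (Y - 1) := mul_le_mul_of_nonneg_left (by omega) hn.le
    have f3 : n * (X + 1) = n * X + n := by ring
    have f5 : n * A (Y - 1) ≤ n * X := mul_le_mul_of_nonneg_left (by omega) hn.le
    have f6 : n * A Y ≤ n * X := mul_le_mul_of_nonneg_left (by omega) hn.le
    unfold arc ps
    by_cases c1 : n * Y ≤ y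
    · have e1 := m_row' C (Y := Y) (y := y) (by omega) (by omega) (by omega) (by omega)
      rw [if_neg (by omega), if_neg (by omega), if_neg (by omega), if_pos (by omega)]
      exact rep_R C hcut (by omega) (by omega) (by omega) (by omega)
    · have hy1 : y = n * Y - 1 := by omega
      have hp : p = true := by
        cases p
        · simp at hg
          omega
        · rfl
      have g1 := C.le_b (y := n * Y) (by omega) (by omega)
      have g2 := C.le_b (y := n * Y - 1) (by omega) (by omega)
      have g5 := C.a_le (y := n * Y) (by omega) (by omega)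
      have g6 := C.a_le (y := n * Y - 1) (by omega) (by omega)
      rw [dv_eq (X := Y) hn (by omega) (by omega)] at g1 g5
      rw [dv_eq (X := Y - 1) hn (by omega) (by omega)] at g2 g6
      have g3 := ceilR (D := D) (Y := n * Y) (by omega) (by omega) (by omega)
      have e3 : D.M (n * Y - 1) = D.b (n * Y - 1) := by
        unfold Win.M Pool.Agent.H46.Sp.MM
        rw [if_neg (by omega)]
      have e4 := m_le_a (D := D) (y := n * Y - 1) (by omega)
      subst hy1
      rw [if_neg (by omega), if_neg (by omega), if_neg (by omega), if_neg (by omega), if_pos hp,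
        if_neg (by omega), sub_add_cancel, if_neg (by omega),
        show n * Y - 1 + 3 = n * Y + 2 by ring]
      exact rep_R C hcut (by omega) (by omega) (by omega) (by omega)

end

end Pool.Agent.H46.Sp.CG
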