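import Mathlib
import Pool.Agent.H31.Sp.Coarse
import Pool.Agent.H13.Sp.XA

set_option autoImplicit false
open Finset

/-! # The deep tiles of a window and the gates

`Dp D p m x y` : all tiles at sup distance at most `m` from `(x, y)` are in `P^p`. `Jn P` : chains of tiles
with common edges and the property `P`. `deep_conn` : the deep tiles are connected. `gt_*` : the gates. -/

namespace Pool.Agent.H46.Sp

open Pool.Agent.H31.Sp (Coarse CQ)
open Pool.Agent.H74.Win (InP sh sh_cases)
open Pool.Agent.H13.Sp (ps rep rep_adj colp nP)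

/-- deep tiles -/
def Dp (D : Win) (p : Bool) (m x y : ℤ) : Prop :=
  ∀ u v, |u - x| ≤ m → |v - y| ≤ m → InP D p u v

/-- tiles with a common edge -/
def Nb (s t : ℤ × ℤ) : Prop := (s.1 = t.1 ∧ (t.2 = s.2 + 1 ∨ s.2 = t.2 + 1)) ∨
  (s.2 = t.2 ∧ (t.1 = s.1 + 1 ∨ s.1 = t.1 + 1))

/-- chains of tiles with the property `P` -/
def Jn (P : ℤ × ℤ → Prop) : ℤ × ℤ → ℤ × ℤ → Prop :=
  Relation.ReflTransGen fun s t => Nb s t ∧ P s ∧ P t

lemma Nb.symm {s t : ℤ × ℤ} (h : Nb s t) : Nb t s := by
  unfold Nb at h ⊢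
  omega

section Jn

variable {P Q : ℤ × ℤ → Prop} {s t r : ℤ × ℤ} {x x1 x2 y y1 y2 : ℤ}

lemma Jn.refl : Jn P s s := Relation.ReflTransGen.refl

lemma Jn.trans (h : Jn P s t) (h' : Jn P t r) : Jn P s r := Relation.ReflTransGen.trans h h'

lemma Jn.symm (h : Jn P s t) : Jn P t s := by
  unfold Jn at h
  induction h with
  | refl => exact Jn.refl
  | tail _ h2 ih => exact Jn.trans (Relation.ReflTransGen.single ⟨h2.1.symm, h2.2.2, h2.2.1⟩) ih

lemma Jn.mono (h : Jn P s t) (hPQ : ∀ u, P u → Q u) : Jn Q s t := by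
  unfold Jn at h
  induction h with
  | refl => exact Jn.refl
  | tail _ h2 ih => exact Jn.trans ih (Relation.ReflTransGen.single ⟨h2.1, hPQ _ h2.2.1, hPQ _ h2.2.2⟩)

/-- horizontal segments -/
lemma jn_h' (h : x1 ≤ x2) (hP : ∀ x, x1 ≤ x → x ≤ x2 → P (x, y)) : Jn P (x1, y) (x2, y) := by
  have key : ∀ n : ℕ, x1 + n ≤ x2 → Jn P (x1, y) (x1 + n, y) := by
    intro n
    induction n with
    | zero => intro _; simp only [Nat.cast_zero, add_zero]; exact Jn.refl
    | succ n ih =>
      intro h3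
      push_cast at h3 ⊢
      refine (ih (by omega)).trans (Relation.ReflTransGen.single ⟨Or.inr ⟨rfl, Or.inl ?_⟩,
        hP _ (by omega) (by omega), hP _ (by omega) (by omega)⟩)
      simp only
      omega
  have := key (x2 - x1).toNat (by omega)
  rwa [Int.toNat_of_nonneg (by omega), show x1 + (x2 - x1) = x2 by ring] at this

lemma jn_h (hP : ∀ x, min x1 x2 ≤ x → x ≤ max x1 x2 → P (x, y)) : Jn P (x1, y) (x2, y) := by
  rcases le_total x1 x2 with h | h
  · rw [min_eq_left h, max_eq_right h] at hP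
    exact jn_h' h hP
  · rw [min_eq_right h, max_eq_left h] at hP
    exact (jn_h' h hP).symm

/-- vertical segments -/
lemma jn_v' (h : y1 ≤ y2) (hP : ∀ y, y1 ≤ y → y ≤ y2 → P (x, y)) : Jn P (x, y1) (x, y2) := by
  have key : ∀ n : ℕ, y1 + n ≤ y2 → Jn P (x, y1) (x, y1 + n) := by
    intro n
    induction n with
    | zero => intro _; simp only [Nat.cast_zero, add_zero]; exact Jn.refl
    | succ n ih =>
      intro h3
      push_cast at h3 ⊢
      refine (ih (by omega)).trans (Relation.ReflTransGen.single ⟨Or.inl ⟨rfl, Or.inl ?_⟩,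
        hP _ (by omega) (by omega), hP _ (by omega) (by omega)⟩)
      simp only
      omega
  have := key (y2 - y1).toNat (by omega)
  rwa [Int.toNat_of_nonneg (by omega), show y1 + (y2 - y1) = y2 by ring] at this

lemma jn_v (hP : ∀ y, min y1 y2 ≤ y → y ≤ max y1 y2 → P (x, y)) : Jn P (x, y1) (x, y2) := by
  rcases le_total y1 y2 with h | h
  · rw [min_eq_left h, max_eq_right h] at hP
    exact jn_v' h hP
  · rw [min_eq_right h, max_eq_left h] at hP
    exact (jn_v' h hP).symm

end Jn

variable {D : Win} {n H : ℤ} {A B : ℤ → ℤ} {p : Bool} {m x y X Y x' y' : ℤ}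

lemma dp_self (hm : 0 ≤ m) (h : Dp D p m x y) : InP D p x y :=
  h x y (by simpa using hm) (by simpa using hm)

lemma ab_le {a b : ℤ} : |a| ≤ b ↔ -b ≤ a ∧ a ≤ b := abs_le

/-- coordinates in the cell -/
lemma dv (hn : 0 < n) (x : ℤ) : n * (x / n) ≤ x ∧ x < n * (x / n) + n ∧
    x % n = x - n * (x / n) := by
  have h1 := Int.emod_add_mul_ediv x n
  have h2 := Int.emod_nonneg x hn.ne'
  have h3 := Int.emod_lt_of_pos x hn
  omega

lemma dv_eq (hn : 0 < n) (h1 : n * X ≤ x) (h2 : x < n * X + n) : x / n = X := by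
  have h3 : x = (x - n * X) + n * X := by ring
  rw [h3, Int.add_mul_ediv_left _ _ hn.ne', Int.ediv_eq_zero_of_lt (by omega) (by omega), zero_add]

section conn

variable (C : Coarse D n H A B) (hm : 1 ≤ m) (hmn : 2 * m + 8 ≤ n)

include C hm hmn

/-- the cells over and under a deep tile -/
lemma dp_col (h : Dp D p m x y) {v : ℤ} (hv : |v - y| ≤ m) :
    CQ H A B (x / n) ((v + sh p) / n) := by
  have hn := C.pos
  have h1 := dv hn x
  obtain ⟨x2, h2, h3, h4⟩ : ∃ x2, |x2 - x| ≤ m ∧ x2 / n = x / n ∧ ¬ (x2 % n = 0 ∨ x2 % n = n - 1) := by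
    by_cases c1 : x % n = 0
    · have e := dv_eq (n := n) (X := x / n) (x := x + 1) hn (by omega) (by omega)
      have e2 := dv hn (x + 1)
      rw [e] at e2
      exact ⟨x + 1, ab_le.2 ⟨by omega, by omega⟩, e, by omega⟩
    · by_cases c2 : x % n = n - 1
      · have e := dv_eq (n := n) (X := x / n) (x := x - 1) hn (by omega) (by omega)
        have e2 := dv hn (x - 1)
        rw [e] at e2
        exact ⟨x - 1, ab_le.2 ⟨by omega, by omega⟩, e, by omega⟩
      · exact ⟨x, by simp; omega, rfl, by omega⟩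
  have h5 := h x2 v h2 hv
  rw [C.inP_iff (by tauto)] at h5
  rwa [h3] at h5

/-- a deep tile is joined to the centre of its cell -/
lemma dp_cen (h : Dp D p m x y) : Jn (fun t => Dp D p m t.1 t.2) (x, y)
    (n * (x / n) + n / 2, n * ((y + sh p) / n) + n / 2 - sh p) := by
  have hn := C.pos
  have h1 := dv hn x
  have h2 := dv hn (y + sh p)
  have hcol := fun (v : ℤ) (hv : |v - y| ≤ m) => dp_col C hm hmn h hv
  set X := x / n with hX
  set Y := (y + sh p) / n with hY
  have c1 : (n * X + n / 2) / n = X := dv_eq hn (by omega) (by omega)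
  -- horizontally
  have hh : ∀ x2, min x (n * X + n / 2) ≤ x2 → x2 ≤ max x (n * X + n / 2) → Dp D p m x2 y := by
    intro x2 k1 k2 u v hu hv
    rw [ab_le] at hu
    by_cases c2 : n * X ≤ u ∧ u < n * X + n
    · have e := dv_eq hn c2.1 c2.2
      refine C.inP_of ?_
      rw [e]
      exact hcol v hv
    · exact h u v (ab_le.2 ⟨by omega, by omega⟩) hv
  refine (jn_h hh).trans (jn_v ?_)
  intro y2 k1 k2 u v hu hv
  rw [ab_le] at hu hv
  have e := dv_eq (n := n) (X := X) (x := u) hn (by omega) (by omega)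
  refine C.inP_of ?_
  rw [e]
  by_cases c2 : n * Y ≤ v + sh p ∧ v + sh p < n * Y + n
  · have e2 := dv_eq hn c2.1 c2.2
    rw [e2]
    have := hcol y (by simp; omega)
    rwa [← hY] at this
  · exact hcol v (ab_le.2 ⟨by omega, by omega⟩)

omit C hm in
/-- the centre of a cell -/
lemma cen_h (C : Coarse D n H A B) (h1 : CQ H A B X Y) (h2 : CQ H A B (X + 1) Y) :
    Jn (fun t => Dp D p m t.1 t.2) (n * X + n / 2, n * Y + n / 2 - sh p)
      (n * (X + 1) + n / 2, n * Y + n / 2 - sh p) := by
  have hn := C.pos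
  have e0 : n * (X + 1) = n * X + n := by ring
  refine jn_h' (by omega) ?_
  intro x2 k1 k2 u v hu hv
  rw [ab_le] at hu hv
  have e1 := dv_eq (n := n) (X := Y) (x := v + sh p) hn (by omega) (by omega)
  refine C.inP_of ?_
  rw [e1]
  by_cases c : u < n * X + n
  · have e2 := dv_eq (n := n) (X := X) (x := u) hn (by omega) c
    rw [e2]; exact h1
  · have e2 := dv_eq (n := n) (X := X + 1) (x := u) hn (by omega) (by omega)
    rw [e2]; exact h2

omit C hm in
lemma cen_v (C : Coarse D n H A B) (h1 : CQ H A B X Y) (h2 : CQ H A B X (Y + 1)) :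
    Jn (fun t => Dp D p m t.1 t.2) (n * X + n / 2, n * Y + n / 2 - sh p)
      (n * X + n / 2, n * (Y + 1) + n / 2 - sh p) := by
  have hn := C.pos
  have e0 : n * (Y + 1) = n * Y + n := by ring
  refine jn_v' (by omega) ?_
  intro y2 k1 k2 u v hu hv
  rw [ab_le] at hu hv
  have e1 := dv_eq (n := n) (X := X) (x := u) hn (by omega) (by omega)
  refine C.inP_of ?_
  rw [e1]
  by_cases c : v + sh p < n * Y + n
  · have e2 := dv_eq (n := n) (X := Y) (x := v + sh p) hn (by omega) c
    rw [e2]; exact h1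
  · have e2 := dv_eq (n := n) (X := Y + 1) (x := v + sh p) hn (by omega) (by omega)
    rw [e2]; exact h2

omit C hm in
/-- the centres of the cells of one row -/
lemma cen_row (C : Coarse D n H A B) {X' : ℤ} (h1 : CQ H A B X Y) (h2 : CQ H A B X' Y) :
    Jn (fun t => Dp D p m t.1 t.2) (n * X + n / 2, n * Y + n / 2 - sh p)
      (n * X' + n / 2, n * Y + n / 2 - sh p) := by
  have key : ∀ k : ℕ, ∀ X1 : ℤ, CQ H A B X1 Y → CQ H A B (X1 + k) Y →
      Jn (fun t => Dp D p m t.1 t.2) (n * X1 + n / 2, n * Y + n / 2 - sh p)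
        (n * (X1 + k) + n / 2, n * Y + n / 2 - sh p) := by
    intro k X1 g1
    induction k with
    | zero => intro _; simp only [Nat.cast_zero, add_zero]; exact Jn.refl
    | succ k ih =>
      intro g2
      push_cast at g2 ⊢
      obtain ⟨i1, i2, i3, i4⟩ := g1
      obtain ⟨j1, j2, j3, j4⟩ := g2
      have g3 : CQ H A B (X1 + k) Y := ⟨i1, i2, by omega, by omega⟩
      have g4 := cen_h (p := p) hmn C g3 (by rw [add_assoc]; exact ⟨i1, i2, j3, j4⟩)
      rw [add_assoc] at g4
      exact (ih g3).trans g4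
  rcases le_total X X' with h | h
  · have := key (X' - X).toNat X h1 (by
      rw [Int.toNat_of_nonneg (by omega), show X + (X' - X) = X' by ring]; exact h2)
    rwa [Int.toNat_of_nonneg (by omega), show X + (X' - X) = X' by ring] at this
  · have := key (X - X').toNat X' h2 (by
      rw [Int.toNat_of_nonneg (by omega), show X' + (X - X') = X by ring]; exact h1)
    rw [Int.toNat_of_nonneg (by omega), show X' + (X - X') = X by ring] at this
    exact this.symm

omit C hm in
/-- **the centres of all cells are joined** -/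
lemma cen_all (C : Coarse D n H A B) {X' Y' : ℤ} (h1 : CQ H A B X Y) (h2 : CQ H A B X' Y') :
    Jn (fun t => Dp D p m t.1 t.2) (n * X + n / 2, n * Y + n / 2 - sh p)
      (n * X' + n / 2, n * Y' + n / 2 - sh p) := by
  have key : ∀ k : ℕ, ∀ Y1 X1 X2 : ℤ, CQ H A B X1 Y1 → CQ H A B X2 (Y1 + k) →
      Jn (fun t => Dp D p m t.1 t.2) (n * X1 + n / 2, n * Y1 + n / 2 - sh p)
        (n * X2 + n / 2, n * (Y1 + k) + n / 2 - sh p) := by
    intro k Y1 X1
    induction k with
    | zero =>
      intro X2 g1 g2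
      simp only [Nat.cast_zero, add_zero] at g2 ⊢
      exact cen_row hmn C g1 g2
    | succ k ih =>
      intro X2 g1 g2
      push_cast at g2 ⊢
      obtain ⟨i1, i2, i3, i4⟩ := g1
      obtain ⟨j1, j2, j3, j4⟩ := g2
      have e1 := C.AB (Y1 + k) (by omega) (by omega)
      have e2 := C.AB (Y1 + (k + 1)) (by omega) (by omega)
      have e3 := C.ov1 (Y1 + k) (by omega) (by omega)
      have e4 := C.ov2 (Y1 + k) (by omega) (by omega)
      rw [add_assoc] at e3 e4
      set Z := max (A (Y1 + k)) (A (Y1 + (k + 1))) with hZ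
      have g3 : CQ H A B Z (Y1 + k) := ⟨by omega, by omega, by omega, by omega⟩
      have g4 : CQ H A B Z (Y1 + k + 1) := ⟨by omega, by omega, by rw [add_assoc]; omega,
        by rw [add_assoc]; omega⟩
      have g5 := cen_v (p := p) hmn C g3 g4
      rw [add_assoc] at g4 g5
      exact ((ih Z ⟨i1, i2, i3, i4⟩ g3).trans g5).trans
        (cen_row hmn C g4 ⟨by omega, j2, j3, j4⟩)
  rcases le_total Y Y' with h | h
  · have := key (Y' - Y).toNat Y X X' h1 (by
      rw [Int.toNat_of_nonneg (by omega), show Y + (Y' - Y) = Y' by ring]; exact h2)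
    rwa [Int.toNat_of_nonneg (by omega), show Y + (Y' - Y) = Y' by ring] at this
  · have := key (Y - Y').toNat Y' X' X h2 (by
      rw [Int.toNat_of_nonneg (by omega), show Y' + (Y - Y') = Y by ring]; exact h1)
    rw [Int.toNat_of_nonneg (by omega), show Y' + (Y - Y') = Y by ring] at this
    exact this.symm

/-- **The deep tiles are connected.** -/
theorem deep_conn (h : Dp D p m x y) (h' : Dp D p m x' y') :
    Jn (fun t => Dp D p m t.1 t.2) (x, y) (x', y') := by
  have g1 := dp_col C hm hmn h (v := y) (by simp; omega)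
  have g2 := dp_col C hm hmn h' (v := y') (by simp; omega)
  exact ((dp_cen C hm hmn h).trans (cen_all hmn C g1 g2)).trans (dp_cen C hm hmn h').symm

end conn

end Pool.Agent.H46.Sp
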